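import Pool.Agent.H82.SN.C3

/-!
# Module C5: the explicit code of instances
-/

namespace Pool.Agent.H82.SN

open Pool.Agent.H79.Cx

/-- Code of a bit: `1` is written `100` and `0` is written `0`. -/
def bitCode (b : Bool) : List Bool := if b then [true, false, false] else [false]

/-- Code of a list: `1` in front of each entry, `0` at the end. -/
def listCode {α : Type} (f : α → List Bool) (l : List α) : List Bool :=
  (l.flatMap fun x => true :: f x) ++ [false]

/-- Code of a natural number: the list of its binary digits. -/
def natCode (n : ℕ) : List Bool := listCode bitCode n.bits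

/-- Code of a pair of natural numbers. -/
def pairCode (e : ℕ × ℕ) : List Bool := true :: (natCode e.1 ++ natCode e.2)

/-- Code of an instance: vertex list, edge list, bound, all numbers in binary. -/
def instCode (I : List ℕ × List (ℕ × ℕ) × ℕ) : List Bool :=
  true :: (listCode natCode I.1 ++ true :: (listCode pairCode I.2.1 ++ natCode I.2.2))

theorem cd_list {α β : Type} [Enc β] (g : α → β) (f : α → List Bool)
    (h : ∀ x, cd (g x) = f x) (l : List α) : cd (l.map g) = listCode f l := by
  induction l with
  | nil => rfl
  | cons a l ih =>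
    have e : cd ((a :: l).map g) = true :: (cd (g a) ++ cd (l.map g)) := rfl
    rw [e, ih, h a]
    simp [listCode]

theorem cd_bool (b : Bool) : cd b = bitCode b := by
  cases b <;> rfl

theorem cd_BN (n : ℕ) : cd (BN.mk n) = natCode n := by
  have h := cd_list (fun b : Bool => b) bitCode cd_bool n.bits
  rw [List.map_id'] at h
  exact h

theorem cd_pairBN (e : ℕ × ℕ) : cd (BN.mk e.1, BN.mk e.2) = pairCode e := by
  have h : cd (BN.mk e.1, BN.mk e.2) = true :: (cd (BN.mk e.1) ++ cd (BN.mk e.2)) := rfl
  rw [h, cd_BN, cd_BN]
  rfl

theorem cd_binData (I : List ℕ × List (ℕ × ℕ) × ℕ) : cd (binData I) = instCode I := by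
  have h : cd (binData I) = true :: (cd (I.1.map BN.mk) ++
      true :: (cd (I.2.1.map fun e => (BN.mk e.1, BN.mk e.2)) ++ cd (BN.mk I.2.2))) := rfl
  rw [h, cd_list BN.mk natCode cd_BN, cd_list (fun e : ℕ × ℕ => (BN.mk e.1, BN.mk e.2)) pairCode
    cd_pairBN, cd_BN]
  rfl

/-- The code of trees is a prefix code. -/
theorem enc_append_inj : ∀ (x y : D) (r s : List Bool), x.enc ++ r = y.enc ++ s →
    x = y ∧ r = s := by
  intro x
  induction x with
  | nil =>
    intro y r s h
    cases y with
    | nil =>
      simp only [D.enc_nil, List.cons_append, List.nil_append, List.cons.injEq, true_and] at h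
      exact ⟨rfl, h⟩
    | cons y1 y2 =>
      simp [D.enc_nil, D.enc_cons] at h
  | cons x1 x2 ih1 ih2 =>
    intro y r s h
    cases y with
    | nil => simp [D.enc_nil, D.enc_cons] at h
    | cons y1 y2 =>
      simp only [D.enc_cons, List.cons_append, List.append_assoc, List.cons.injEq, true_and] at h
      obtain ⟨h1, h2⟩ := ih1 y1 _ _ h
      obtain ⟨h3, h4⟩ := ih2 y2 _ _ h2
      exact ⟨by rw [h1, h3], h4⟩

theorem denc_injective : Function.Injective D.enc := by
  intro x y h
  exact (enc_append_inj x y [] [] (by rw [h])).1

/-- Encoding of lists is injective if the encoding of the entries is. -/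
theorem encList_inj {β : Type} [Enc β] (h : ∀ a b : β, Enc.enc a = Enc.enc b → a = b) :
    ∀ l m : List β, Enc.enc l = Enc.enc m → l = m := by
  intro l
  induction l with
  | nil =>
    intro m e
    cases m with
    | nil => rfl
    | cons b m => simp [enc_cons', enc_nil'] at e
  | cons a l ih =>
    intro m e
    cases m with
    | nil => simp [enc_cons', enc_nil'] at e
    | cons b m =>
      simp only [enc_cons', D.cons.injEq] at e
      rw [h a b e.1, ih m e.2]

theorem encBool_inj (a b : Bool) (h : Enc.enc a = Enc.enc b) : a = b := by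
  cases a <;> cases b <;> first | rfl | (exfalso; simp [Enc.enc] at h)

theorem encBN_inj (a b : BN) (h : Enc.enc a = Enc.enc b) : a = b := by
  have h1 : a.val.bits = b.val.bits := encList_inj encBool_inj _ _ h
  have h2 : a.val = b.val := by
    have h3 := congrArg (fun l : List Bool => l.foldr (fun b n => Nat.bit b n) 0) h1
    have key : ∀ n : ℕ, n.bits.foldr (fun b n => Nat.bit b n) 0 = n := by
      intro n
      induction n using Nat.binaryRec' with
      | zero => simp
      | bit b n hn ih =>
        rw [Nat.bits_append_bit n b hn, List.foldr_cons, ih]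
    simpa [key] using h3
  cases a
  cases b
  simp_all


/-- The code is injective (so no information is lost). -/
theorem instCode_injective : Function.Injective instCode := by
  intro I J h
  rw [← cd_binData, ← cd_binData] at h
  have h1 : Enc.enc (binData I) = Enc.enc (binData J) := denc_injective h
  simp only [binData, enc_pair, D.cons.injEq] at h1
  obtain ⟨h2, h3, h4⟩ := h1
  have e1 : I.1.map BN.mk = J.1.map BN.mk := encList_inj encBN_inj _ _ h2
  have e2 : (I.2.1.map fun e => (BN.mk e.1, BN.mk e.2)) =
      (J.2.1.map fun e => (BN.mk e.1, BN.mk e.2)) := by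
    refine encList_inj ?_ _ _ h3
    rintro ⟨a1, a2⟩ ⟨b1, b2⟩ hab
    simp only [enc_pair, D.cons.injEq] at hab
    rw [encBN_inj _ _ hab.1, encBN_inj _ _ hab.2]
  have e3 : BN.mk I.2.2 = BN.mk J.2.2 := encBN_inj _ _ h4
  have i1 : Function.Injective BN.mk := fun a b hab => congrArg BN.val hab
  have i2 : Function.Injective (fun e : ℕ × ℕ => (BN.mk e.1, BN.mk e.2)) := by
    rintro ⟨a1, a2⟩ ⟨b1, b2⟩ hab
    simp only [Prod.mk.injEq] at hab
    exact Prod.ext (i1 hab.1) (i1 hab.2)
  refine Prod.ext (List.map_injective_iff.mpr i1 e1)
    (Prod.ext (List.map_injective_iff.mpr i2 e2) (i1 e3))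

end Pool.Agent.H82.SN
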