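import Pool.Agent.H82.SN.Defs

/-!
# Module A1: exclusivity and reformulation of the sum number
-/

namespace Pool.Agent.H82.SN

open Finset

variable {V : Type} [Fintype V]

/-- A valid integer labelling gives a sum labelling of `G` with `|edge sums|` isolated vertices:
translate by a large constant. -/
theorem isSumGraph_of_valid {G : SimpleGraph V} {a : V → ℤ} (h : Valid G a) :
    IsSumGraph (G ⊕g (⊥ : SimpleGraph (Fin (esums G a).card))) := by
  classical
  obtain ⟨D, hD⟩ : ∃ D : ℤ, ∀ v, |a v| ≤ D :=
    ⟨∑ v, |a v|, fun v => Finset.single_le_sum (f := fun v => |a v|) (fun _ _ => abs_nonneg _)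
      (Finset.mem_univ v)⟩
  have hD' : ∀ v, -D ≤ a v ∧ a v ≤ D := fun v => abs_le.mp (hD v)
  set e : Fin (esums G a).card → ℤ := fun i => ((esums G a).equivFin.symm i : ℤ) with he
  have einj : Function.Injective e := by
    intro i j hij
    have : (esums G a).equivFin.symm i = (esums G a).equivFin.symm j := Subtype.ext hij
    exact (esums G a).equivFin.symm.injective this
  have emem : ∀ i, e i ∈ esums G a := fun i => ((esums G a).equivFin.symm i).2
  have esurj : ∀ s ∈ esums G a, ∃ i, e i = s := by
    intro s hs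
    exact ⟨(esums G a).equivFin ⟨s, hs⟩, by simp [he]⟩
  have ebd : ∀ i, -(2 * D) ≤ e i ∧ e i ≤ 2 * D := by
    intro i
    obtain ⟨x, y, -, hxy⟩ := mem_esums.mp (emem i)
    have h1 := hD' x
    have h2 := hD' y
    omega
  refine ⟨Sum.elim (fun v => a v + (100 * D + 100)) (fun i => e i + 2 * (100 * D + 100)), ?_, ?_, ?_⟩
  · rintro (x | i) (y | j) hxy
    · simp only [Sum.elim_inl] at hxy
      have : a x = a y := by omega
      rw [h.inj this]
    · simp only [Sum.elim_inl, Sum.elim_inr] at hxy
      have h1 := hD' x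
      have h2 := ebd j
      omega
    · simp only [Sum.elim_inl, Sum.elim_inr] at hxy
      have h1 := hD' y
      have h2 := ebd i
      omega
    · simp only [Sum.elim_inr] at hxy
      have : e i = e j := by omega
      rw [einj this]
  · rintro (x | i)
    · simp only [Sum.elim_inl]
      have h1 := hD' x
      omega
    · simp only [Sum.elim_inr]
      have h1 := ebd i
      omega
  · rintro (x | i) (y | j) hne
    · have hxy : x ≠ y := fun h => hne (by rw [h])
      simp only [SimpleGraph.sum_adj, Sum.elim_inl]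
      constructor
      · intro hadj
        obtain ⟨i, hi⟩ := esurj (a x + a y) (mem_esums.mpr ⟨x, y, hadj, rfl⟩)
        refine ⟨Sum.inr i, ?_⟩
        simp only [Sum.elim_inr]
        omega
      · rintro ⟨w | i, hw⟩
        · simp only [Sum.elim_inl] at hw
          have h1 := hD' x
          have h2 := hD' y
          have h3 := hD' w
          omega
        · simp only [Sum.elim_inr] at hw
          obtain ⟨u, v, huv, hs⟩ := mem_esums.mp (emem i)
          exact h.sep u v x y huv hxy (by omega)
    · simp only [SimpleGraph.sum_adj, Sum.elim_inl, Sum.elim_inr, false_iff, not_exists]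
      rintro (w | k) hw
      · simp only [Sum.elim_inl] at hw
        have h1 := hD' x
        have h2 := ebd j
        have h3 := hD' w
        omega
      · simp only [Sum.elim_inr] at hw
        have h1 := hD' x
        have h2 := ebd j
        have h3 := ebd k
        omega
    · simp only [SimpleGraph.sum_adj, Sum.elim_inl, Sum.elim_inr, false_iff, not_exists]
      rintro (w | k) hw
      · simp only [Sum.elim_inl] at hw
        have h1 := hD' y
        have h2 := ebd i
        have h3 := hD' w
        omega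
      · simp only [Sum.elim_inr] at hw
        have h1 := hD' y
        have h2 := ebd i
        have h3 := ebd k
        omega
    · simp only [SimpleGraph.sum_adj, Sum.elim_inr, SimpleGraph.bot_adj, false_iff, not_exists]
      rintro (w | k) hw
      · simp only [Sum.elim_inl] at hw
        have h1 := ebd i
        have h2 := ebd j
        have h3 := hD' w
        omega
      · simp only [Sum.elim_inr] at hw
        have h1 := ebd i
        have h2 := ebd j
        have h3 := ebd k
        omega

/-- With many universal vertices, no edge sum is the label of a vertex of `G`. -/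
theorem exists_valid_of_isSumGraph [DecidableEq V] {G : SimpleGraph V} (U : Finset V)
    (hU : ∀ u ∈ U, ∀ v, v ≠ u → G.Adj u v) (hcard : Uᶜ.card + 6 ≤ U.card) {s : ℕ}
    (h : IsSumGraph (G ⊕g (⊥ : SimpleGraph (Fin s)))) :
    ∃ a : V → ℤ, Valid G a ∧ (esums G a).card ≤ s := by
  obtain ⟨l, hl⟩ := h
  have hadj : ∀ {x y : V}, G.Adj x y → ∃ w, l (Sum.inl x) + l (Sum.inl y) = l w := by
    intro x y hxy
    have hne : (Sum.inl x : V ⊕ Fin s) ≠ Sum.inl y := by
      intro hh
      exact hxy.ne (Sum.inl_injective hh)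
    exact (hl.adj_iff _ _ hne).mp (by simpa using hxy)
  have hadj' : ∀ {x y : V}, x ≠ y → (∃ w, l (Sum.inl x) + l (Sum.inl y) = l w) → G.Adj x y := by
    intro x y hxy hw
    have hne : (Sum.inl x : V ⊕ Fin s) ≠ Sum.inl y := by
      intro hh
      exact hxy (Sum.inl_injective hh)
    simpa using (hl.adj_iff _ _ hne).mpr hw
  have claim : ∀ x y z : V, G.Adj x y → l (Sum.inl x) + l (Sum.inl y) ≠ l (Sum.inl z) := by
    intro x y z hxy hz
    obtain ⟨M, -, hM⟩ := Finset.exists_max_image (Finset.univ : Finset V) (fun v => l (Sum.inl v))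
      ⟨x, Finset.mem_univ x⟩
    have key : ∀ u ∈ U \ {x, y, z, M}, ∃ w : V, l (Sum.inl w) = l (Sum.inl u) + l (Sum.inl y) ∧
        w ∈ Uᶜ ∪ {M} := by
      intro u hu
      rw [Finset.mem_sdiff] at hu
      obtain ⟨huU, hu'⟩ := hu
      simp only [Finset.mem_insert, Finset.mem_singleton, not_or] at hu'
      obtain ⟨hux, huy, huz, huM⟩ := hu'
      obtain ⟨w, hw⟩ := hadj (hU u huU y (Ne.symm huy))
      obtain ⟨w2, hw2⟩ := hadj (hU u huU z (Ne.symm huz))
      have hwV : ∃ w0 : V, w = Sum.inl w0 := by
        rcases w with w0 | q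
        · exact ⟨w0, rfl⟩
        · exfalso
          have hne : (Sum.inr q : V ⊕ Fin s) ≠ Sum.inl x := by simp
          have := (hl.adj_iff _ _ hne).mpr ⟨w2, by rw [← hw2, ← hw, ← hz]; ring⟩
          simp at this
      obtain ⟨w0, rfl⟩ := hwV
      refine ⟨w0, hw.symm, ?_⟩
      rw [Finset.mem_union, Finset.mem_compl, Finset.mem_singleton]
      by_contra hcon
      push Not at hcon
      obtain ⟨hw0U, hw0M⟩ := hcon
      -- `w0` is adjacent to `M`
      obtain ⟨w3, hw3⟩ := hadj (hU w0 hw0U M (Ne.symm hw0M))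
      obtain ⟨q, hq⟩ := hadj (hU u huU M (Ne.symm huM))
      rcases q with q0 | q
      · have h1 := hM q0 (Finset.mem_univ _)
        have h2 := hl.pos (Sum.inl u)
        omega
      · have hne : (Sum.inr q : V ⊕ Fin s) ≠ Sum.inl y := by simp
        have := (hl.adj_iff _ _ hne).mpr ⟨w3, by rw [← hw3, ← hw, ← hq]; ring⟩
        simp at this
    choose! f hf1 hf2 using key
    have hcard1 : (U \ {x, y, z, M}).card ≤ (Uᶜ ∪ {M}).card := by
      apply Finset.card_le_card_of_injOn f
      · intro u hu
        exact hf2 u hu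
      · intro u hu v hv huv
        have h1 := hf1 u hu
        have h2 := hf1 v hv
        rw [huv] at h1
        have h3 : l (Sum.inl u) = l (Sum.inl v) := by omega
        exact Sum.inl_injective (hl.inj h3)
    have hcard2 : (Uᶜ ∪ {M}).card ≤ Uᶜ.card + 1 := by
      refine (Finset.card_union_le _ _).trans ?_
      simp
    have hcard3 : U.card ≤ (U \ {x, y, z, M}).card + ({x, y, z, M} : Finset V).card := by
      have := Finset.le_card_sdiff ({x, y, z, M} : Finset V) U
      omega
    have hcard4 : ({x, y, z, M} : Finset V).card ≤ 4 := Finset.card_le_four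
    omega
  refine ⟨fun v => l (Sum.inl v), ⟨?_, ?_⟩, ?_⟩
  · intro x y hxy
    exact Sum.inl_injective (hl.inj hxy)
  · intro u v x y huv hne hs
    obtain ⟨w, hw⟩ := hadj huv
    exact hadj' hne ⟨w, by rw [← hw]; exact hs⟩
  · have hsub : esums G (fun v => l (Sum.inl v)) ⊆
        (Finset.univ : Finset (Fin s)).image (fun i => l (Sum.inr i)) := by
      intro t ht
      obtain ⟨x, y, hxy, hsum⟩ := mem_esums.mp ht
      obtain ⟨w, hw⟩ := hadj hxy
      rcases w with w0 | q
      · exact absurd hw (claim x y w0 hxy)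
      · rw [Finset.mem_image]
        exact ⟨q, Finset.mem_univ _, by rw [← hw, ← hsum]⟩
    calc (esums G (fun v => l (Sum.inl v))).card
        ≤ ((Finset.univ : Finset (Fin s)).image (fun i => l (Sum.inr i))).card :=
          Finset.card_le_card hsub
      _ ≤ (Finset.univ : Finset (Fin s)).card := Finset.card_image_le
      _ = s := by simp

/-- There is a valid labelling (powers of two). -/
theorem exists_valid (G : SimpleGraph V) : ∃ a : V → ℤ, Valid G a := by
  classical
  set e : V → ℕ := fun v => (Fintype.equivFin V v : ℕ) with he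
  have einj : Function.Injective e := fun x y hxy =>
    (Fintype.equivFin V).injective (Fin.ext hxy)
  refine ⟨fun v => (2 : ℤ) ^ (e v), ?_, ?_⟩
  · intro x y hxy
    have h1 : (2 : ℤ) ^ (e x) = 2 ^ (e y) := hxy
    have h2 : (2 : ℕ) ^ (e x) = 2 ^ (e y) := by exact_mod_cast h1
    exact einj (Nat.pow_right_injective le_rfl h2)
  · intro u v x y huv hxy hs
    have hs1 : (2 : ℤ) ^ (e x) + 2 ^ (e y) = 2 ^ (e u) + 2 ^ (e v) := hs
    have hs2 : (2 : ℕ) ^ (e x) + 2 ^ (e y) = 2 ^ (e u) + 2 ^ (e v) := by exact_mod_cast hs1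
    have hinj := Finset.geomSum_injective (n := 2) le_rfl
    have hex : e x ≠ e y := fun hh => hxy (einj hh)
    have heu : e u ≠ e v := fun hh => huv.ne (einj hh)
    have hset : ({e x, e y} : Finset ℕ) = {e u, e v} := by
      apply hinj
      simp only
      rw [Finset.sum_pair hex, Finset.sum_pair heu]
      exact hs2
    have hxm : e x ∈ ({e u, e v} : Finset ℕ) := by rw [← hset]; simp
    have hym : e y ∈ ({e u, e v} : Finset ℕ) := by rw [← hset]; simp
    simp only [Finset.mem_insert, Finset.mem_singleton] at hxm hym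
    rcases hxm with hx | hx <;> rcases hym with hy | hy
    · exact absurd (einj (hx.trans hy.symm)) hxy
    · rw [einj hx, einj hy]; exact huv
    · rw [einj hx, einj hy]; exact huv.symm
    · exact absurd (einj (hx.trans hy.symm)) hxy

theorem sumNumber_le_iff [DecidableEq V] {G : SimpleGraph V} (U : Finset V)
    (hU : ∀ u ∈ U, ∀ v, v ≠ u → G.Adj u v) (hcard : Uᶜ.card + 6 ≤ U.card) (k : ℕ) :
    sumNumber G ≤ k ↔ ∃ a : V → ℤ, Valid G a ∧ (esums G a).card ≤ k := by
  constructor
  · intro hk
    obtain ⟨a0, ha0⟩ := exists_valid G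
    have hne : ({s | IsSumGraph (G ⊕g (⊥ : SimpleGraph (Fin s)))} : Set ℕ).Nonempty :=
      ⟨_, isSumGraph_of_valid ha0⟩
    have hmem := Nat.sInf_mem hne
    obtain ⟨a, ha, hac⟩ := exists_valid_of_isSumGraph U hU hcard hmem
    exact ⟨a, ha, hac.trans hk⟩
  · rintro ⟨a, ha, hac⟩
    exact (Nat.sInf_le (isSumGraph_of_valid ha)).trans hac

theorem isSumGraph_sum_congr {V W X : Type} {G : SimpleGraph V} {G' : SimpleGraph W}
    (H : SimpleGraph X) (e : G ≃g G') (h : IsSumGraph (G ⊕g H)) : IsSumGraph (G' ⊕g H) := by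
  obtain ⟨l, hl⟩ := h
  have hinj : Function.Injective (Sum.map e.symm id : W ⊕ X → V ⊕ X) :=
    Sum.map_injective.mpr ⟨e.symm.injective, Function.injective_id⟩
  have hsurj : Function.Surjective (Sum.map e.symm id : W ⊕ X → V ⊕ X) :=
    Sum.map_surjective.mpr ⟨e.symm.surjective, Function.surjective_id⟩
  refine ⟨fun p => l (Sum.map e.symm id p), ?_, ?_, ?_⟩
  · exact hl.inj.comp hinj
  · intro p
    exact hl.pos _
  · intro p q hpq
    have hne : Sum.map e.symm id p ≠ Sum.map e.symm id q := fun hh => hpq (hinj hh)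
    have h1 := hl.adj_iff _ _ hne
    have h2 : (G' ⊕g H).Adj p q ↔ (G ⊕g H).Adj (Sum.map e.symm id p) (Sum.map e.symm id q) := by
      rcases p with p | p <;> rcases q with q | q
      · simp only [Sum.map_inl, SimpleGraph.sum_adj]
        exact (e.symm.map_adj_iff).symm
      · simp
      · simp
      · simp
    rw [h2, h1]
    constructor
    · rintro ⟨w, hw⟩
      obtain ⟨w', rfl⟩ := hsurj w
      exact ⟨w', hw⟩
    · rintro ⟨w, hw⟩
      exact ⟨_, hw⟩

theorem sumNumber_congr {V W : Type} {G : SimpleGraph V} {G' : SimpleGraph W} (e : G ≃g G') :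
    sumNumber G = sumNumber G' := by
  unfold sumNumber
  congr 1
  ext s
  exact ⟨isSumGraph_sum_congr _ e, isSumGraph_sum_congr _ e.symm⟩

/-- A finite graph with an edge on all its vertices has positive sum number; here for `K₂`. -/
theorem sumNumber_K2_pos {V : Type} [Fintype V] {G : SimpleGraph V} (hV : Nonempty V)
    (h : ∀ v, ∃ w, G.Adj v w) : 0 < sumNumber G := by
  classical
  by_contra hcon
  have h0 : sumNumber G = 0 := by omega
  obtain ⟨a0, ha0⟩ := exists_valid G
  have hne : ({s | IsSumGraph (G ⊕g (⊥ : SimpleGraph (Fin s)))} : Set ℕ).Nonempty :=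
    ⟨_, isSumGraph_of_valid ha0⟩
  have hmem : IsSumGraph (G ⊕g (⊥ : SimpleGraph (Fin (sumNumber G)))) := Nat.sInf_mem hne
  obtain ⟨l, hl⟩ := hmem
  obtain ⟨v0⟩ := hV
  obtain ⟨M, -, hM⟩ := Finset.exists_max_image (Finset.univ : Finset V) (fun v => l (Sum.inl v))
    ⟨v0, Finset.mem_univ v0⟩
  obtain ⟨w, hw⟩ := h M
  have hne : (Sum.inl M : V ⊕ Fin (sumNumber G)) ≠ Sum.inl w := by
    intro hh
    exact hw.ne (Sum.inl_injective hh)
  obtain ⟨z, hz⟩ := (hl.adj_iff _ _ hne).mp (by simpa using hw)
  rcases z with z | q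
  · have h1 := hM z (Finset.mem_univ _)
    have h2 := hl.pos (Sum.inl w)
    omega
  · have := q.isLt
    omega

end Pool.Agent.H82.SN
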