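import Pool.Agent.H82.SN.A8b

/-!
# Module A9: a cheap path zone gives a packing
-/

namespace Pool.Agent.H82.SN

open Finset

variable {T : ℕ} {m : Fin T → ℕ} {P : Fin T → ℕ → ℕ} {U Q : Finset ℕ} {a b : ℕ}

open Classical in
/-- The paths with a corner edge are few. -/
theorem A9.card_cornerPaths (h : PZ m P U Q a b) {K : ℕ} (hK : ∀ s ∈ Q, s ≠ a → s ≠ b → s ≤ K) :
    (univ.filter fun i : Fin T => ∃ l, l + 1 < m i ∧ P i l + P i (l + 1) ≠ a ∧
      P i l + P i (l + 1) ≠ b).card ≤ K + 1 := by
  classical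
  let f : Fin T → ℕ := fun i => if hi : ∃ l, l + 1 < m i ∧ P i l + P i (l + 1) ≠ a ∧
      P i l + P i (l + 1) ≠ b then P i hi.choose else 0
  rw [← card_range (K + 1)]
  apply card_le_card_of_injOn f
  · intro i hi
    rw [mem_coe, mem_filter] at hi
    have hi' := hi.2
    have hs := hi'.choose_spec
    have : f i = P i hi'.choose := by simp only [f]; rw [dif_pos hi']
    rw [mem_coe, mem_range, this]
    have := hK _ (h.edge i _ hs.1) hs.2.1 hs.2.2
    omega
  · intro i hi j hj hij
    rw [mem_coe, mem_filter] at hi hj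
    have hi' := hi.2
    have hj' := hj.2
    have hs := hi'.choose_spec
    have hs' := hj'.choose_spec
    have e1 : f i = P i hi'.choose := by simp only [f]; rw [dif_pos hi']
    have e2 : f j = P j hj'.choose := by simp only [f]; rw [dif_pos hj']
    rw [e1, e2] at hij
    exact (h.inj i j _ _ (by omega) (by omega) hij).1

theorem A9.card_bin_le (hab : a < b) {ρ : ℕ} (hρ : ρ ∈ bins a b) :
    (bin a b ρ).card ≤ 2 * ((b + 1) / (b - a)) + 2 := by
  by_cases he : (b - ρ) % (b - a) = ρ
  · rcases card_bin_half hab hρ he with h | h <;> omega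
  · rcases card_bin_regular hab hρ he with h | h <;> omega

/-- A path without corner edges fits in a bin. -/
theorem A9.m_le (h : PZ m P U Q a b) (i : Fin T)
    (hi : ∀ l, l + 1 < m i → P i l + P i (l + 1) = a ∨ P i l + P i (l + 1) = b) :
    m i ≤ 2 * ((b + 1) / (b - a)) + 2 := by
  classical
  have h0 : 0 < m i := by have := h.five i; omega
  have hρ : binIdx a b (P i 0) ∈ bins a b := mem_bins_of_le h.hab (P_le h i h0)
  refine le_trans ?_ (A9.card_bin_le h.hab hρ)
  rw [← card_range (m i)]
  apply card_le_card_of_injOn (P i)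
  · intro l hl
    rw [mem_coe, mem_range] at hl
    rw [mem_coe, bin, mem_filter, mem_range]
    exact ⟨by have := P_le h i hl; omega, path_in_bin h i hi hl⟩
  · intro l hl k hk hlk
    rw [mem_coe, mem_range] at hl hk
    exact (h.inj i i l k hl hk hlk).2

theorem A9.bin_eq (h : PZ m P U Q a b) {ρ : ℕ} (hρ : ρ ∈ bins a b) :
    2 * (bin a b ρ).card + 2 = brk m P a b (bin a b ρ) + 4 * (U ∩ bin a b ρ).card +
      DD (holesZ m P U b) (bin a b ρ) a b := by
  rw [← master h (bin_closed h.hab ρ), bin_sum h.hab hρ]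

theorem A9.DD_le (R : Finset ℕ) (ρ : ℕ) : DD R (bin a b ρ) a b ≤ DD R (range (b + 1)) a b := by
  unfold DD
  apply sum_le_sum_of_subset
  apply inter_subset_inter_left
  exact filter_subset _ _

/-- Corner ends. -/
def A9.CE (m : Fin T → ℕ) (P : Fin T → ℕ → ℕ) (a b : ℕ) : Finset ℕ :=
  univ.biUnion fun i => ((range (m i)).filter fun l =>
    l + 1 < m i ∧ P i l + P i (l + 1) ≠ a ∧ P i l + P i (l + 1) ≠ b).biUnion
      fun l => {P i l, P i (l + 1)}

theorem A9.mem_CE {x : ℕ} (hx : CornerEnd m P a b x) : x ∈ A9.CE m P a b := by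
  obtain ⟨i, l, h1, h2, h3, h4⟩ := hx
  unfold A9.CE
  rw [mem_biUnion]
  refine ⟨i, mem_univ _, ?_⟩
  rw [mem_biUnion]
  refine ⟨l, ?_, ?_⟩
  · rw [mem_filter, mem_range]
    exact ⟨by omega, h1, h2, h3⟩
  · rw [mem_insert, mem_singleton]
    exact h4

theorem A9.card_CE : (A9.CE m P a b).card ≤ 2 * Ec m P a b := by
  unfold A9.CE Ec
  refine le_trans card_biUnion_le ?_
  rw [mul_sum]
  apply sum_le_sum
  intro i _
  refine le_trans card_biUnion_le ?_
  rw [card_eq_sum_ones, mul_sum]
  apply sum_le_sum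
  intro l _
  exact card_le_two

/-- Bins containing an element of a given set. -/
theorem A9.card_bins_of_mem (p : ℕ → Prop) [DecidablePred p] (S : Finset ℕ)
    (hp : ∀ ρ ∈ bins a b, p ρ → ∃ x ∈ S, binIdx a b x = ρ) :
    ((bins a b).filter p).card ≤ S.card := by
  refine le_trans (card_le_card (t := S.image (binIdx a b)) ?_) card_image_le
  intro ρ hρ
  rw [mem_filter] at hρ
  obtain ⟨x, hx, hxρ⟩ := hp ρ hρ.1 hρ.2
  exact mem_image.mpr ⟨x, hx, hxρ⟩

theorem A9.card_filter_defOf (R : Finset ℕ) :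
    ((R ∩ range (b + 1)).filter fun z => 0 < defOf R a b z).card ≤ DD R (range (b + 1)) a b := by
  unfold DD
  rw [card_eq_sum_ones]
  refine le_trans (sum_le_sum (f := fun _ => 1) (g := fun z => defOf R a b z) ?_)
    (sum_le_sum_of_subset (filter_subset _ _))
  intro z hz
  exact (mem_filter.mp hz).2

/-- Total weight of the bins. -/
theorem A9.sum_bins (h : PZ m P U Q a b) (w : Fin T → ℕ) :
    ∑ ρ ∈ bins a b, ∑ i ∈ univ.filter (fun i => P i 0 ∈ bin a b ρ), w i = ∑ i, w i := by
  classical
  have hmap : ∀ i ∈ (univ : Finset (Fin T)), binIdx a b (P i 0) ∈ bins a b := by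
    intro i _
    exact mem_bins_of_le h.hab (P_le h i (by have := h.five i; omega))
  rw [← sum_fiberwise_of_maps_to hmap]
  apply sum_congr rfl
  intro ρ _
  apply sum_congr _ (fun _ _ => rfl)
  ext i
  have : P i 0 ≤ b := P_le h i (by have := h.five i; omega)
  simp only [mem_filter, mem_univ, true_and, bin, mem_range]
  constructor
  · exact fun hh => hh.2
  · exact fun hh => ⟨by omega, hh⟩

theorem A9.no_small {lam x y c d : ℕ} (h : lam * x + c = lam * y + d) (hc : c < lam)
    (hd : d < lam) : c = d := by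
  have h1 : (lam * x + c) % lam = c := by rw [Nat.mul_add_mod, Nat.mod_eq_of_lt hc]
  have h2 : (lam * y + d) % lam = d := by rw [Nat.mul_add_mod, Nat.mod_eq_of_lt hd]
  rw [← h1, ← h2, h]

theorem A9.contra {lam N M v X Y Q0 : ℕ} (h1 : 2 * X + 2 = 2 * (lam * N) + v)
    (h2 : Y + 1 = lam * M) (hX : X = Q0 ∨ X = Q0 + 1) (hY : Y = 2 * Q0 ∨ Y = 2 * Q0 + 2)
    (hv : v ≤ 32) (hlam : 40 ≤ lam) : False := by
  have e0 : lam * (2 * N) = 2 * (lam * N) := by ring
  rcases hX with hX | hX <;> rcases hY with hY | hY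
  · have e : lam * (2 * N) + v = lam * M + 1 := by omega
    have := A9.no_small e (by omega) (by omega)
    omega
  · have e : lam * (2 * N) + (v + 2) = lam * M + 1 := by omega
    have := A9.no_small e (by omega) (by omega)
    omega
  · have e : lam * (2 * N) + v = lam * M + 3 := by omega
    have := A9.no_small e (by omega) (by omega)
    omega
  · have e : lam * (2 * N) + (v + 2) = lam * M + 3 := by omega
    have := A9.no_small e (by omega) (by omega)
    omega

/-- Packing from the bins. -/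
theorem A9.packable (h : PZ m P U Q a b) {w : Fin T → ℕ} {g B : ℕ} (hg : (bins a b).card = g)
    (hB : ∀ ρ ∈ bins a b, ∑ i ∈ univ.filter (fun i => P i 0 ∈ bin a b ρ), w i = B) :
    Packable w g B := by
  classical
  let e : bins a b ≃ Fin g := Finset.equivFinOfCardEq hg
  have hmap : ∀ i : Fin T, binIdx a b (P i 0) ∈ bins a b := by
    intro i
    exact mem_bins_of_le h.hab (P_le h i (by have := h.five i; omega))
  refine ⟨fun i => e ⟨binIdx a b (P i 0), hmap i⟩, ?_⟩
  intro j
  rw [← hB (e.symm j) (e.symm j).2]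
  apply sum_congr _ (fun _ _ => rfl)
  ext i
  have : P i 0 ≤ b := P_le h i (by have := h.five i; omega)
  simp only [mem_filter, mem_univ, true_and, bin, mem_range]
  constructor
  · intro hh
    refine ⟨by omega, ?_⟩
    have := congrArg e.symm hh
    rw [Equiv.symm_apply_apply] at this
    rw [← this]
  · rintro ⟨_, hh⟩
    rw [← Equiv.eq_symm_apply]
    exact Subtype.ext hh

/-- Numerical bound: at most `g + 1` bins. -/
theorem A9.beta_le {L g t Q0 δ b u ec D2 β S : ℕ} (hS : S = g * L)
    (hL : 100 * (g + t + 1) ≤ L) (ht : 1 ≤ t)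
    (hQ : Q0 * δ ≤ b + 1) (hLQ : L ≤ 2 * Q0 + 3) (hδ : 2 * β ≤ δ + 2)
    (hb : 2 * (b + 1) + 2 * β = 2 * S + 4 * u + 2 * ec + D2)
    (hdef : 4 * g + 2 * u + 2 * ec + D2 ≤ 4 * β) : β ≤ g + 1 := by
  by_contra hcon
  obtain ⟨j, hj⟩ : ∃ j, β = g + 1 + j := ⟨β - g - 1, by omega⟩
  have hj1 : 1 ≤ j := by omega
  subst hj
  obtain ⟨K, hK⟩ : ∃ K, L = K + 3 := ⟨L - 3, by omega⟩
  subst hK
  have h1 : K * (g + j) ≤ Q0 * δ := by
    have : K * (g + j) ≤ Q0 * (2 * (g + j)) := by
      calc K * (g + j) ≤ (2 * Q0) * (g + j) := Nat.mul_le_mul_right _ (by omega)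
        _ = Q0 * (2 * (g + j)) := by ring
    exact this.trans (Nat.mul_le_mul_left _ (by omega))
  have h2 : K * j ≥ 90 * (g + 2) * 1 + 90 * j := by
    obtain ⟨i, rfl⟩ : ∃ i, j = i + 1 := ⟨j - 1, by omega⟩
    have : K ≥ 100 * g + 197 := by omega
    nlinarith
  have h3 : K * (g + j) = K * g + K * j := by ring
  have h4 : g * (K + 3) = K * g + 3 * g := by ring
  omega

/-- The numerical consequences of the counting theorems. -/
theorem A9.numbers (h : PZ m P U Q a b) {w : Fin T → ℕ} {lam B g t : ℕ}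
    (hm : ∀ i, m i + 1 = lam * w i) (hodd : Odd (lam * B))
    (hsum : ∑ i, w i = g * B) (hT : T = g + t)
    (hW : 100 * (t + 1) ≤ (univ.filter fun i => w i = B).card)
    (hcost : 2 * (holesZ m P U b).card + 2 ≤ Q.card + 2 * t) :
    1 ≤ B ∧ 100 * (t + 1) ≤ g ∧ (∀ s ∈ Q, s ≠ a → s ≠ b → s < b - a) ∧
    2 * ((holesZ m P U b).filter fun z => a < z).card ≤
      DD (holesZ m P U b) (range (b + 1)) a b ∧
    4 * g + 2 * U.card + 2 * Ec m P a b + DD (holesZ m P U b) (range (b + 1)) a b ≤
      4 * (bins a b).card ∧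
    2 * (b + 1) + 2 * (bins a b).card = 2 * (g * (lam * B)) + 4 * U.card + 2 * Ec m P a b +
      DD (holesZ m P U b) (range (b + 1)) a b ∧
    lam * B ≤ 2 * ((b + 1) / (b - a)) + 3 ∧
    2 * (bins a b).card ≤ (b - a) + 2 := by
  classical
  have hab := h.hab
  have hB : 1 ≤ B := by
    rcases Nat.eq_zero_or_pos B with h0 | h0
    · rw [h0] at hodd; simp at hodd
    · exact h0
  have hWg : (univ.filter fun i => w i = B).card ≤ g := by
    have h1 : (univ.filter fun i => w i = B).card * B ≤ g * B := by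
      rw [← hsum, card_eq_sum_ones, sum_mul]
      calc ∑ i ∈ univ.filter (fun i => w i = B), 1 * B
          = ∑ i ∈ univ.filter (fun i => w i = B), w i := by
            apply sum_congr rfl
            intro i hi
            rw [(mem_filter.mp hi).2, one_mul]
        _ ≤ ∑ i, w i := sum_le_sum_of_subset (filter_subset _ _)
    exact Nat.le_of_mul_le_mul_right h1 (by omega)
  have hc1 := count_eq h
  have hc2 := card_bins hab
  have hc3 := Q_card_le h
  have hc4 := two_mul_card_le_DD h
  have hc5 := Q_le h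
  have hc6 := card_eq h
  have hη : (holesZ m P U b).card ≤ 2 * t := by omega
  have he1 : (if Even b then 1 else 0) ≤ 1 := by split_ifs <;> omega
  have he2 : (if Even a then 1 else 0) ≤ 1 := by split_ifs <;> omega
  have hδ : 8 * t + 2 < b - a := by omega
  have hthird : ∀ s ∈ Q, s ≠ a → s ≠ b → s ≤ 8 * t + 2 := by
    intro s hs h1 h2
    have := third_le h hs h1 h2
    omega
  have hsm : ∀ s ∈ Q, s ≠ a → s ≠ b → s < b - a := by
    intro s hs h1 h2
    have := hthird s hs h1 h2
    omega
  have hc7 := corner_le h hsm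
  have hN : (∑ i, m i) + T = g * (lam * B) := by
    have : ∑ i, (m i + 1) = ∑ i, lam * w i := sum_congr rfl (fun i _ => hm i)
    rw [sum_add_distrib, ← mul_sum, hsum] at this
    simp only [sum_const, card_univ, Fintype.card_fin, smul_eq_mul, mul_one] at this
    rw [this]; ring
  refine ⟨hB, by omega, hsm, hc4, by omega, by omega, ?_, by omega⟩
  -- a filler without corner edge
  have hcp := A9.card_cornerPaths h hthird
  obtain ⟨i, hi1, hi2⟩ : ∃ i : Fin T, w i = B ∧ ∀ l, l + 1 < m i →
      P i l + P i (l + 1) = a ∨ P i l + P i (l + 1) = b := by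
    by_contra hcon
    push Not at hcon
    have hsub : (univ.filter fun i => w i = B) ⊆
        (univ.filter fun i : Fin T => ∃ l, l + 1 < m i ∧ P i l + P i (l + 1) ≠ a ∧
          P i l + P i (l + 1) ≠ b) := by
      intro i hi
      rw [mem_filter] at hi ⊢
      exact ⟨mem_univ _, hcon i hi.2⟩
    have := card_le_card hsub
    omega
  have := A9.m_le h i hi2
  have h3 := hm i
  rw [hi1] at h3
  omega

theorem pathZone_packing (h : PZ m P U Q a b) {w : Fin T → ℕ} {lam B g t : ℕ}
    (hm : ∀ i, m i + 1 = lam * w i) (hw : ∀ i, 1 ≤ w i) (hodd : Odd (lam * B))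
    (hsum : ∑ i, w i = g * B) (hT : T = g + t) (ht : 1 ≤ t)
    (hW : 100 * (t + 1) ≤ (univ.filter fun i => w i = B).card)
    (hlam : 100 * (g + t + 1) ≤ lam)
    (hcost : 2 * (holesZ m P U b).card + 2 ≤ Q.card + 2 * t) : Packable w g B := by
  classical
  have hab := h.hab
  obtain ⟨hB, hg, hsm, hhol, hdef, hbb, hLQ, hδβ⟩ :=
    A9.numbers h hm hodd hsum hT hW hcost
  have hL : 100 * (g + t + 1) ≤ lam * B := hlam.trans (Nat.le_mul_of_pos_right _ hB)
  have hQδ : (b + 1) / (b - a) * (b - a) ≤ b + 1 := Nat.div_mul_le_self _ _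
  have hβ := A9.beta_le rfl hL ht hQδ hLQ hδβ hbb hdef
  have hcb := card_bins hab
  have hch := card_half hab
  have hce : (A9.CE m P a b).card ≤ 2 * Ec m P a b := A9.card_CE
  have he1 : (if Even b then 1 else 0) ≤ 1 := by split_ifs <;> omega
  have he2 : (if Even a then 1 else 0) ≤ 1 := by split_ifs <;> omega
  rcases Nat.lt_or_ge (bins a b).card (g + 1) with hβ1 | hβ1
  · -- the number of bins is `g`
    have hβg : (bins a b).card = g := by omega
    have hu0 : U.card = 0 := by omega
    have hec0 : Ec m P a b = 0 := by omega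
    have hD0 : DD (holesZ m P U b) (range (b + 1)) a b = 0 := by omega
    have hUe : U = ∅ := card_eq_zero.mp hu0
    have hnc : ∀ x, ¬ CornerEnd m P a b x := by
      intro x hx
      have h1 := A9.mem_CE hx
      have h2 := card_pos.mpr ⟨x, h1⟩
      omega
    have hbin : ∀ ρ ∈ bins a b, (bin a b ρ).card + 1 =
        lam * ∑ i ∈ univ.filter (fun i => P i 0 ∈ bin a b ρ), w i := by
      intro ρ hρ
      have h1 := A9.bin_eq h hρ
      have h2 := brk_clean h hm (ρ := ρ) (fun x _ => hnc x)
      have h3 := A9.DD_le (a := a) (b := b) (holesZ m P U b) ρ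
      rw [hUe] at h1
      simp only [empty_inter, card_empty] at h1
      rw [hUe] at h3 hD0
      omega
    have hreg : ∀ ρ ∈ bins a b, (b - ρ) % (b - a) ≠ ρ := by
      intro ρ hρ he
      obtain ⟨ρ', hρ', hne⟩ : ∃ ρ' ∈ bins a b, (b - ρ') % (b - a) ≠ ρ' := by
        by_contra hcon
        push Not at hcon
        rw [filter_true_of_mem hcon] at hch
        omega
      exact A9.contra (v := 0)
        (N := ∑ i ∈ univ.filter (fun i => P i 0 ∈ bin a b ρ), w i)
        (by have := hbin ρ hρ; omega) (hbin ρ' hρ')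
        (card_bin_half hab hρ he) (card_bin_regular hab hρ' hne) (by omega) (by omega)
    have heq : ∀ ρ ∈ bins a b, ∀ ρ' ∈ bins a b,
        ∑ i ∈ univ.filter (fun i => P i 0 ∈ bin a b ρ), w i =
        ∑ i ∈ univ.filter (fun i => P i 0 ∈ bin a b ρ'), w i := by
      intro ρ hρ ρ' hρ'
      have h1 := hbin ρ hρ
      have h2 := hbin ρ' hρ'
      have h3 := card_bin_regular hab hρ (hreg ρ hρ)
      have h4 := card_bin_regular hab hρ' (hreg ρ' hρ')
      have hcc : (bin a b ρ).card = (bin a b ρ').card := by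
        rcases h3 with h3 | h3 <;> rcases h4 with h4 | h4
        · omega
        · exfalso
          have := A9.no_small (lam := lam) (c := 2) (d := 0)
            (x := ∑ i ∈ univ.filter (fun i => P i 0 ∈ bin a b ρ), w i)
            (y := ∑ i ∈ univ.filter (fun i => P i 0 ∈ bin a b ρ'), w i)
            (by omega) (by omega) (by omega)
          omega
        · exfalso
          have := A9.no_small (lam := lam) (c := 0) (d := 2)
            (x := ∑ i ∈ univ.filter (fun i => P i 0 ∈ bin a b ρ), w i)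
            (y := ∑ i ∈ univ.filter (fun i => P i 0 ∈ bin a b ρ'), w i)
            (by omega) (by omega) (by omega)
          omega
        · omega
      rw [hcc, h2] at h1
      exact Nat.eq_of_mul_eq_mul_left (by omega) h1.symm
    apply A9.packable h hβg
    intro ρ hρ
    have hs := A9.sum_bins h w
    rw [sum_congr rfl (fun ρ' hρ' => heq ρ' hρ' ρ hρ), sum_const, smul_eq_mul, hβg, hsum] at hs
    exact Nat.eq_of_mul_eq_mul_left (by omega) hs
  · -- the number of bins is `g + 1`: impossible
    exfalso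
    have hβg : (bins a b).card = g + 1 := by omega
    have hsmall : 2 * U.card + 2 * Ec m P a b +
        DD (holesZ m P U b) (range (b + 1)) a b ≤ 4 := by omega
    have hδ2 : b - a ≤ 2 * g := by
      by_contra hcon
      have h1 : (b + 1) / (b - a) * (2 * g + 1) ≤ b + 1 :=
        (Nat.mul_le_mul_left _ (by omega)).trans hQδ
      have h2 : (lam * B) * (2 * g + 1) ≤ (2 * ((b + 1) / (b - a)) + 3) * (2 * g + 1) :=
        Nat.mul_le_mul_right _ hLQ
      have h3 : (2 * ((b + 1) / (b - a)) + 3) * (2 * g + 1) =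
        2 * ((b + 1) / (b - a) * (2 * g + 1)) + 6 * g + 3 := by ring
      have h4 : (lam * B) * (2 * g + 1) = 2 * (g * (lam * B)) + lam * B := by ring
      omega
    have hee : (if Even b then 1 else 0) + (if Even a then 1 else 0) = 2 := by omega
    -- half bins
    obtain ⟨ρ1, ρ2, hρ12, hhalf⟩ : ∃ ρ1 ρ2, ρ1 ≠ ρ2 ∧
        ((bins a b).filter fun ρ => (b - ρ) % (b - a) = ρ) = {ρ1, ρ2} :=
      card_eq_two.mp (hch.trans hee)
    have hm1 : ρ1 ∈ ((bins a b).filter fun ρ => (b - ρ) % (b - a) = ρ) := by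
      rw [hhalf]; simp
    have hm2 : ρ2 ∈ ((bins a b).filter fun ρ => (b - ρ) % (b - a) = ρ) := by
      rw [hhalf]; simp
    rw [mem_filter] at hm1 hm2
    -- a good regular bin
    obtain ⟨ρ, hρ, hreg, hcl, hUρ, hDρ⟩ : ∃ ρ ∈ bins a b, (b - ρ) % (b - a) ≠ ρ ∧
        (∀ x ∈ bin a b ρ, ¬ CornerEnd m P a b x) ∧ (U ∩ bin a b ρ).card = 0 ∧
        DD (holesZ m P U b) (bin a b ρ) a b = 0 := by
      by_contra hcon
      push Not at hcon
      have hsub : bins a b ⊆ ((bins a b).filter fun ρ => (b - ρ) % (b - a) = ρ) ∪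
          ((bins a b).filter fun ρ => ∃ x ∈ bin a b ρ, CornerEnd m P a b x) ∪
          ((bins a b).filter fun ρ => (U ∩ bin a b ρ).card ≠ 0) ∪
          ((bins a b).filter fun ρ => DD (holesZ m P U b) (bin a b ρ) a b ≠ 0) := by
        intro ρ hρ
        simp only [mem_union, mem_filter]
        by_cases c1 : (b - ρ) % (b - a) = ρ
        · exact Or.inl (Or.inl (Or.inl ⟨hρ, c1⟩))
        by_cases c2 : ∃ x ∈ bin a b ρ, CornerEnd m P a b x
        · exact Or.inl (Or.inl (Or.inr ⟨hρ, c2⟩))
        by_cases c3 : (U ∩ bin a b ρ).card = 0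
        · push Not at c2
          exact Or.inr ⟨hρ, hcon ρ hρ c1 c2 c3⟩
        · exact Or.inl (Or.inr ⟨hρ, c3⟩)
      have k0 := card_le_card hsub
      have k1 := card_union_le (((bins a b).filter fun ρ => (b - ρ) % (b - a) = ρ) ∪
          ((bins a b).filter fun ρ => ∃ x ∈ bin a b ρ, CornerEnd m P a b x) ∪
          ((bins a b).filter fun ρ => (U ∩ bin a b ρ).card ≠ 0))
          ((bins a b).filter fun ρ => DD (holesZ m P U b) (bin a b ρ) a b ≠ 0)
      have k2 := card_union_le (((bins a b).filter fun ρ => (b - ρ) % (b - a) = ρ) ∪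
          ((bins a b).filter fun ρ => ∃ x ∈ bin a b ρ, CornerEnd m P a b x))
          ((bins a b).filter fun ρ => (U ∩ bin a b ρ).card ≠ 0)
      have k3 := card_union_le ((bins a b).filter fun ρ => (b - ρ) % (b - a) = ρ)
          ((bins a b).filter fun ρ => ∃ x ∈ bin a b ρ, CornerEnd m P a b x)
      have k4 : ((bins a b).filter fun ρ => ∃ x ∈ bin a b ρ, CornerEnd m P a b x).card ≤
          (A9.CE m P a b).card := by
        apply A9.card_bins_of_mem
        rintro ρ _ ⟨x, hx, hx'⟩
        exact ⟨x, A9.mem_CE hx', (mem_filter.mp hx).2⟩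
      have k5 : ((bins a b).filter fun ρ => (U ∩ bin a b ρ).card ≠ 0).card ≤ U.card := by
        apply A9.card_bins_of_mem
        intro ρ _ hne
        obtain ⟨x, hx⟩ := card_pos.mp (Nat.pos_of_ne_zero hne)
        rw [mem_inter] at hx
        exact ⟨x, hx.1, (mem_filter.mp hx.2).2⟩
      have k6 : ((bins a b).filter fun ρ =>
          DD (holesZ m P U b) (bin a b ρ) a b ≠ 0).card ≤
          (((holesZ m P U b) ∩ range (b + 1)).filter
            fun z => 0 < defOf (holesZ m P U b) a b z).card := by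
        apply A9.card_bins_of_mem
        intro ρ _ hne
        unfold DD at hne
        obtain ⟨z, hz, hz'⟩ := exists_ne_zero_of_sum_ne_zero hne
        rw [mem_inter] at hz
        refine ⟨z, ?_, (mem_filter.mp hz.2).2⟩
        rw [mem_filter, mem_inter]
        exact ⟨⟨hz.1, (mem_filter.mp hz.2).1⟩, Nat.pos_of_ne_zero hz'⟩
      have k7 := A9.card_filter_defOf (a := a) (b := b) (holesZ m P U b)
      omega
    have hY : (bin a b ρ).card + 1 =
        lam * ∑ i ∈ univ.filter (fun i => P i 0 ∈ bin a b ρ), w i := by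
      have h1 := A9.bin_eq h hρ
      have h2 := brk_clean h hm hcl
      omega
    have hY2 := card_bin_regular hab hρ hreg
    -- the contradiction from a half bin
    have key : ∀ ρ' ∈ bins a b, (b - ρ') % (b - a) = ρ' → ∀ v N,
        brk m P a b (bin a b ρ') = v + 2 * (lam * N) → v ≤ 12 * Ec m P a b → False := by
      intro ρ' hρ' hhf v N hbrk hv
      have h1 := A9.bin_eq h hρ'
      have h2 := A9.DD_le (a := a) (b := b) (holesZ m P U b) ρ'
      have h3 : (U ∩ bin a b ρ').card ≤ U.card := card_le_card inter_subset_left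
      refine A9.contra (v := v + 4 * (U ∩ bin a b ρ').card +
        DD (holesZ m P U b) (bin a b ρ') a b) (N := N) ?_ hY (card_bin_half hab hρ' hhf) hY2
        (by omega) (by omega)
      omega
    rcases Nat.eq_zero_or_pos (Ec m P a b) with hec | hec
    · have hnc : ∀ x, ¬ CornerEnd m P a b x := by
        intro x hx
        have h1 := A9.mem_CE hx
        have h2 := card_pos.mpr ⟨x, h1⟩
        omega
      refine key ρ1 hm1.1 hm1.2 0
        (∑ i ∈ univ.filter (fun i => P i 0 ∈ bin a b ρ1), w i) ?_ (by omega)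
      rw [brk_clean h hm (ρ := ρ1) (fun x _ => hnc x)]
      omega
    · -- one of the two half bins has no hole in `(a, b]`
      have hba : 2 * (b - a) < a := by
        have h1 : 10 ≤ (b + 1) / (b - a) := by omega
        have h2 : 10 * (b - a) ≤ b + 1 := (Nat.mul_le_mul_right _ h1).trans hQδ
        omega
      obtain ⟨ρ', hρ', hhf, hno⟩ : ∃ ρ' ∈ bins a b, (b - ρ') % (b - a) = ρ' ∧
          ∀ z ∈ holesZ m P U b, a < z → z ∉ bin a b ρ' := by
        by_contra hcon
        push Not at hcon
        obtain ⟨z1, hz1, hz1', hz1''⟩ := hcon ρ1 hm1.1 hm1.2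
        obtain ⟨z2, hz2, hz2', hz2''⟩ := hcon ρ2 hm2.1 hm2.2
        have hne : z1 ≠ z2 := by
          intro he
          rw [he] at hz1''
          exact hρ12 ((mem_filter.mp hz1'').2.symm.trans (mem_filter.mp hz2'').2)
        have hsub : ({z1, z2} : Finset ℕ) ⊆ (holesZ m P U b).filter fun z => a < z := by
          intro z hz
          rw [mem_insert, mem_singleton] at hz
          rw [mem_filter]
          rcases hz with rfl | rfl
          · exact ⟨hz1, hz1'⟩
          · exact ⟨hz2, hz2'⟩
        have h1 := card_le_card hsub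
        rw [card_pair hne] at h1
        omega
      obtain ⟨τ, N, hτ, hbrk⟩ := brk_tiny h hm hsm hba (ρ := ρ') (by
        intro x hx hce'
        by_contra hocc
        obtain ⟨i, l, hl, hna, hnb, hxl⟩ := hce'
        have hs := hsm _ (h.edge i l hl) hna hnb
        have hxle : x < b - a := by rcases hxl with rfl | rfl <;> omega
        have hbx := (bin_closed hab ρ' x hx).2.1
        have hbm := mem_filter.mp hbx
        rw [mem_range] at hbm
        refine hno (b - x) ?_ (by omega) hbx
        unfold holesZ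
        rw [mem_filter, mem_range]
        exact ⟨hbm.1, hocc⟩)
      exact key ρ' hρ' hhf (6 * τ) N hbrk (by omega)

end Pool.Agent.H82.SN
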