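import Pool.Agent.H82.SN.A6
import Pool.Agent.H82.SN.A9

/-!
# Module A10: a cheap layout of the graph of the reduction gives a packing
-/

namespace Pool.Agent.H82.SN

open Finset

theorem mem_miss_iff {V : Type} [Fintype V] {G : SimpleGraph V} {pos : V → ℕ} {h s : ℕ} :
    s ∈ miss G pos h ↔ 1 ≤ s ∧ s ≤ 2 * h - 1 ∧ ∀ x y, G.Adj x y → pos x + pos y ≠ s := by
  simp only [miss, mem_filter, mem_Icc, and_assoc]

theorem mem_holes_iff {V : Type} [Fintype V] {pos : V → ℕ} {h p : ℕ} :
    p ∈ holes pos h ↔ p ≤ h ∧ ∀ v, pos v ≠ p := by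
  simp only [holes, mem_filter, mem_range, Nat.lt_succ_iff]

section aux

variable {c r T : ℕ} {m : Fin T → ℕ}

theorem not_adj_iff {x y : Vx c r T m} (hxy : x ≠ y) :
    ¬ (redG c r T m).Adj x y ↔ nonAdj x y := by
  change ¬ (x ≠ y ∧ ¬ nonAdj x y) ↔ nonAdj x y
  tauto

/-- The clique vertices. -/
def Kc (c r T : ℕ) (m : Fin T → ℕ) : Finset (Vx c r T m) :=
  (univ : Finset (Fin c)).map ⟨Sum.inl, Sum.inl_injective⟩

/-- The universal vertices. -/
def Uc (c r T : ℕ) (m : Fin T → ℕ) : Finset (Vx c r T m) :=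
  (univ : Finset (Fin r)).map ⟨fun k => Sum.inr (Sum.inr k),
    fun _ _ h => Sum.inr_injective (Sum.inr_injective h)⟩

theorem mem_Kc {x : Vx c r T m} : x ∈ Kc c r T m ↔ ∃ k, x = Sum.inl k := by
  simp [Kc, eq_comm]

theorem mem_Uc {x : Vx c r T m} : x ∈ Uc c r T m ↔ ∃ k, x = Sum.inr (Sum.inr k) := by
  simp [Uc, eq_comm]

theorem card_Kc : (Kc c r T m).card = c := by simp [Kc]

theorem card_Uc : (Uc c r T m).card = r := by simp [Uc]

theorem card_Vx : Fintype.card (Vx c r T m) = c + ∑ i, m i + r := by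
  simp [Fintype.card_sum, Fintype.card_sigma, add_assoc]

theorem card_Uc_compl : (Uc c r T m)ᶜ.card = c + ∑ i, m i := by
  rw [Finset.card_compl, card_Uc, card_Vx]
  omega

theorem deg_le {x : Vx c r T m} (hx : x ∉ Kc c r T m) (S : Finset (Vx c r T m))
    (hS : ∀ y ∈ S, y ≠ x ∧ ¬ (redG c r T m).Adj x y) : S.card ≤ 2 := by
  rcases x with k | ⟨i, l⟩ | k
  · exact absurd (mem_Kc.2 ⟨k, rfl⟩) hx
  · let f : Vx c r T m → ℕ := fun y => match y with
      | Sum.inr (Sum.inl y) => y.2.val
      | _ => 0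
    have h1 : ∀ y ∈ S, ∃ l' : Fin (m i), y = Sum.inr (Sum.inl ⟨i, l'⟩) ∧
        (l.val + 1 = l'.val ∨ l'.val + 1 = l.val) := by
      intro y hy
      obtain ⟨h2, h3⟩ := hS y hy
      rw [not_adj_iff h2.symm] at h3
      rcases y with k | ⟨i', l'⟩ | k
      · simp [nonAdj] at h3
      · simp only [nonAdj] at h3
        obtain ⟨rfl, h4⟩ := h3
        exact ⟨l', rfl, h4⟩
      · simp [nonAdj] at h3
    have h2 : S.card ≤ ({l.val + 1, l.val - 1} : Finset ℕ).card := by
      apply Finset.card_le_card_of_injOn f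
      · intro y hy
        obtain ⟨l', rfl, h3⟩ := h1 y hy
        simp only [f, Finset.coe_insert, Finset.coe_singleton, Set.mem_insert_iff,
          Set.mem_singleton_iff]
        omega
      · intro y hy y' hy' hff
        obtain ⟨l', rfl, h3⟩ := h1 y hy
        obtain ⟨l'', rfl, h4⟩ := h1 y' hy'
        have : l' = l'' := Fin.ext hff
        rw [this]
    exact h2.trans (Finset.card_le_two)
  · rw [Finset.card_eq_zero.2, ]
    · omega
    · rw [Finset.eq_empty_iff_forall_notMem]
      intro y hy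
      obtain ⟨h2, h3⟩ := hS y hy
      rw [not_adj_iff h2.symm] at h3
      rcases y with k | ⟨i', l'⟩ | k <;> simp [nonAdj] at h3

end aux

section core

variable {T g B t lam c r : ℕ} {w m : Fin T → ℕ} {pos : Vx c r T m → ℕ} {h z : ℕ}

theorem side (hL : Layout (redG c r T m) pos h)
    (hends : ∀ s ∈ miss (redG c r T m) pos h, s ≤ z ∨ 2 * h ≤ s + z)
    {x y : Vx c r T m} (hxy : x ≠ y) (hn : nonAdj x y) :
    pos x + pos y ∈ miss (redG c r T m) pos h ∧
      (pos x + pos y ≤ z ∨ 2 * h ≤ pos x + pos y + z) := by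
  have h1 := mem_miss_of_not_adj hL hxy ((not_adj_iff hxy).2 hn)
  exact ⟨h1, hends _ h1⟩

theorem core (hm : ∀ i, m i + 1 = lam * w i) (hw : ∀ i, 1 ≤ w i) (hodd : Odd (lam * B))
    (hsum : ∑ i, w i = g * B) (hT : T = g + t) (ht : 1 ≤ t)
    (hW : 100 * (t + 1) ≤ (univ.filter fun i => w i = B).card)
    (hlam : 100 * (g + t + 1) ≤ lam) (hc : 6 * t + 10 ≤ c)
    (hL : Layout (redG c r T m) pos h) (hz : 2 * z < h)
    (hends : ∀ s ∈ miss (redG c r T m) pos h, s ≤ z ∨ 2 * h ≤ s + z)
    (hcost : 2 * (holes pos h).card + 3 ≤ (miss (redG c r T m) pos h).card + 2 * t)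
    (hK : ∀ k : Fin c, h ≤ pos (Sum.inl k) + z) : Packable w g B := by
  classical
  have hle := hL.le
  have hmem : ∀ {s}, s ∈ miss (redG c r T m) pos h →
      1 ≤ s ∧ s ≤ 2 * h - 1 ∧ ∀ x y, (redG c r T m).Adj x y → pos x + pos y ≠ s := by
    intro s hs
    exact mem_miss_iff.1 hs
  -- sizes
  have hmi : ∀ i, 199 ≤ m i ∧ 2 * t < m i := by
    intro i
    have h1 := hm i
    have h2 : lam ≤ lam * w i := Nat.le_mul_of_pos_right _ (hw i)
    omega
  -- the two ends
  have hmR : ((miss (redG c r T m) (fun v => h - pos v) h).filter fun s => s ≤ z).card =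
      ((miss (redG c r T m) pos h).filter fun s => ¬ s ≤ z).card := by
    rw [miss_reflect hL, Finset.filter_image, Finset.card_image_of_injOn]
    · congr 1
      apply Finset.filter_congr
      intro s hs
      have h1 := hmem hs
      have h2 := hends s hs
      omega
    · intro s hs s' hs' hss
      have h1 := hmem (Finset.mem_of_mem_filter s hs)
      have h2 := hmem (Finset.mem_of_mem_filter s' hs')
      simp only at hss
      omega
  have hmLR := Finset.card_filter_add_card_filter_not (s := miss (redG c r T m) pos h)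
    (fun s => s ≤ z)
  have hholeR : ((holes (fun v => h - pos v) h).filter fun s => s ≤ z).card ≤
      ((holes pos h).filter fun s => ¬ s ≤ z).card := by
    rw [holes_reflect hL, Finset.filter_image, Finset.card_image_of_injOn]
    · apply Finset.card_le_card
      intro s hs
      rw [mem_filter] at hs ⊢
      refine ⟨hs.1, ?_⟩
      omega
    · intro s hs s' hs' hss
      have h1 := Finset.mem_of_mem_filter s hs
      have h2 := Finset.mem_of_mem_filter s' hs'
      rw [mem_holes_iff] at h1 h2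
      simp only at hss
      omega
  have hhLR := Finset.card_filter_add_card_filter_not (s := holes pos h)
    (fun s => s ≤ z)
  -- the left end
  obtain ⟨v₀, hv₀⟩ := hL.zero
  have hv₀K : v₀ ∉ Kc c r T m := by
    intro h1
    obtain ⟨k, rfl⟩ := mem_Kc.1 h1
    have := hK k
    omega
  have hleft := (left_miss_le hL (by omega : z ≤ h) hv₀).trans (add_le_add le_rfl
    (deg_le hv₀K _ (by
      intro y hy
      simpa using hy)))
  -- the right end
  have hL' := hL.reflect
  have hclique := cliqueZone (z := z) (κ := 2 * t - 1) hL' hz (by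
      intro s hs hsh
      rw [miss_reflect hL, mem_image] at hs
      obtain ⟨s', hs', rfl⟩ := hs
      have h1 := hmem hs'
      have h2 := hends s' hs'
      omega) (by
      intro x y hxy hn hx
      have h1 := side hL hends hxy ((not_adj_iff hxy).1 hn)
      have h2 := hle x
      have h3 := hle y
      omega) (Kc c r T m) (by
      intro x hx y hy
      obtain ⟨k, rfl⟩ := mem_Kc.1 hx
      obtain ⟨k', rfl⟩ := mem_Kc.1 hy
      rintro ⟨h1, h2⟩
      apply h2
      change k ≠ k'
      rintro rfl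
      exact h1 rfl) (by
      intro x hx y hy
      obtain ⟨k, rfl⟩ := mem_Kc.1 hx
      refine ⟨?_, ?_⟩
      · rintro rfl
        exact hy hx
      · rcases y with k' | y | y
        · exact absurd (mem_Kc.2 ⟨k', rfl⟩) hy
        · simp [nonAdj]
        · simp [nonAdj]) (by
      intro x hx
      exact deg_le hx _ (by
        intro y hy
        simpa using hy)) (by
      intro x hx
      obtain ⟨k, rfl⟩ := mem_Kc.1 hx
      have := hK k
      omega) (by
      rw [card_Kc]
      omega) (by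
      omega)
  obtain ⟨hq, hfew⟩ := hclique
  -- all the paths are on the left
  have hpath : ∀ (i : Fin T) (l : Fin (m i)), pos (Sum.inr (Sum.inl ⟨i, l⟩)) ≤ z := by
    intro i
    -- the sides of consecutive vertices agree
    have hcons : ∀ (l l' : Fin (m i)), l.val + 1 = l'.val →
        (pos (Sum.inr (Sum.inl ⟨i, l⟩)) ≤ z ↔ pos (Sum.inr (Sum.inl ⟨i, l'⟩)) ≤ z) := by
      intro l l' hll
      have hne : (Sum.inr (Sum.inl ⟨i, l⟩) : Vx c r T m) ≠ Sum.inr (Sum.inl ⟨i, l'⟩) := by
        intro h1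
        simp only [Sum.inr.injEq, Sum.inl.injEq, Sigma.mk.injEq, heq_eq_eq, true_and] at h1
        omega
      have h1 := side hL hends hne ⟨rfl, Or.inl hll⟩
      have h2 := hle (Sum.inr (Sum.inl ⟨i, l⟩))
      have h3 := hle (Sum.inr (Sum.inl ⟨i, l'⟩))
      omega
    have hall : ∀ (n : ℕ) (hn : n < m i) (h0 : 0 < m i),
        (pos (Sum.inr (Sum.inl ⟨i, ⟨0, h0⟩⟩)) ≤ z ↔ pos (Sum.inr (Sum.inl ⟨i, ⟨n, hn⟩⟩)) ≤ z) := by
      intro n
      induction n with
      | zero => intro hn h0; exact Iff.rfl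
      | succ n ih =>
        intro hn h0
        rw [ih (by omega) h0]
        exact hcons _ _ rfl
    by_contra hcon
    push Not at hcon
    obtain ⟨l, hl⟩ := hcon
    have hm0 : 0 < m i := by have := (hmi i).1; omega
    have h0 : ¬ pos (Sum.inr (Sum.inl ⟨i, ⟨0, hm0⟩⟩)) ≤ z := by
      intro h1
      exact absurd ((hall l.val l.2 hm0).1 h1) (not_le.2 hl)
    have hright : ∀ l' : Fin (m i), h ≤ pos (Sum.inr (Sum.inl ⟨i, l'⟩)) + z := by
      intro l'
      have h1 : ¬ pos (Sum.inr (Sum.inl ⟨i, l'⟩)) ≤ z := by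
        intro h2
        exact h0 ((hall l'.val l'.2 hm0).2 h2)
      -- a neighbour
      obtain ⟨l'', hl''⟩ : ∃ l'' : Fin (m i), l'.val + 1 = l''.val ∨ l''.val + 1 = l'.val := by
        by_cases h2 : l'.val + 1 < m i
        · exact ⟨⟨l'.val + 1, h2⟩, Or.inl rfl⟩
        · have := (hmi i).1
          refine ⟨⟨l'.val - 1, by omega⟩, Or.inr ?_⟩
          simp only
          omega
      have hne : (Sum.inr (Sum.inl ⟨i, l'⟩) : Vx c r T m) ≠ Sum.inr (Sum.inl ⟨i, l''⟩) := by
        intro h1
        simp only [Sum.inr.injEq, Sum.inl.injEq, Sigma.mk.injEq, heq_eq_eq, true_and] at h1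
        omega
      have h3 := side hL hends hne ⟨rfl, hl''⟩
      have h4 := hle (Sum.inr (Sum.inl ⟨i, l'⟩))
      have h5 := hle (Sum.inr (Sum.inl ⟨i, l''⟩))
      omega
    have hcard : m i ≤ 2 * t - 1 + 1 := by
      refine le_trans ?_ hfew
      have h1 : ((univ : Finset (Fin (m i))).image fun l' =>
          (Sum.inr (Sum.inl ⟨i, l'⟩) : Vx c r T m)).card = m i := by
        rw [Finset.card_image_of_injective]
        · simp
        · intro a b hab
          simpa using hab
      rw [← h1]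
      apply Finset.card_le_card
      intro x hx
      obtain ⟨l', -, rfl⟩ := Finset.mem_image.1 hx
      simp only [Finset.mem_filter, Finset.mem_univ, true_and]
      refine ⟨?_, ?_, ?_⟩
      · intro h2
        obtain ⟨k, hk⟩ := mem_Kc.1 h2
        exact absurd hk (by simp)
      · have := hright l'
        omega
      · obtain ⟨l'', hl''⟩ : ∃ l'' : Fin (m i), l'.val + 1 = l''.val ∨ l''.val + 1 = l'.val := by
          by_cases h2 : l'.val + 1 < m i
          · exact ⟨⟨l'.val + 1, h2⟩, Or.inl rfl⟩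
          · have := (hmi i).1
            refine ⟨⟨l'.val - 1, by omega⟩, Or.inr ?_⟩
            simp only
            omega
        have hne : (Sum.inr (Sum.inl ⟨i, l'⟩) : Vx c r T m) ≠ Sum.inr (Sum.inl ⟨i, l''⟩) := by
          intro h1
          simp only [Sum.inr.injEq, Sum.inl.injEq, Sigma.mk.injEq, heq_eq_eq, true_and] at h1
          omega
        exact ⟨_, hne.symm, (not_adj_iff hne).2 ⟨rfl, hl''⟩⟩
    have h2 := (hmi i).2
    omega
  -- the path zone
  let P : Fin T → ℕ → ℕ := fun i l =>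
    if hl : l < m i then pos (Sum.inr (Sum.inl ⟨i, ⟨l, hl⟩⟩)) else 0
  have hP : ∀ i l (hl : l < m i), P i l = pos (Sum.inr (Sum.inl ⟨i, ⟨l, hl⟩⟩)) := by
    intro i l hl
    simp only [P, dif_pos hl]
  let Q : Finset ℕ := (miss (redG c r T m) pos h).filter fun s => s ≤ z
  have hQ : ∀ {s}, s ∈ Q ↔ s ∈ miss (redG c r T m) pos h ∧ s ≤ z := by
    intro s
    exact mem_filter
  have hedge : ∀ i l, l + 1 < m i → P i l + P i (l + 1) ∈ Q := by
    intro i l hl
    rw [hP i l (by omega), hP i (l + 1) hl, hQ]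
    have hne : (Sum.inr (Sum.inl ⟨i, ⟨l, by omega⟩⟩) : Vx c r T m) ≠
        Sum.inr (Sum.inl ⟨i, ⟨l + 1, hl⟩⟩) := by
      intro h1
      simp at h1
    have h1 := side hL hends hne ⟨rfl, Or.inl rfl⟩
    have h2 := hpath i ⟨l, by omega⟩
    have h3 := hpath i ⟨l + 1, hl⟩
    refine ⟨h1.1, ?_⟩
    omega
  have hPinj : ∀ i j l k, l < m i → k < m j → P i l = P j k → i = j ∧ l = k := by
    intro i j l k hl hk hlk
    rw [hP i l hl, hP j k hk] at hlk
    have h1 := hL.inj hlk
    simp only [Sum.inr.injEq, Sum.inl.injEq, Sigma.mk.injEq] at h1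
    obtain ⟨rfl, h2⟩ := h1
    simp only [heq_eq_eq, Fin.mk.injEq] at h2
    exact ⟨rfl, h2⟩
  have hTpos : 0 < T := by omega
  let i₀ : Fin T := ⟨0, hTpos⟩
  have hQ1 := hedge i₀ 0 (by have := (hmi i₀).1; omega)
  have hQ2 := hedge i₀ 1 (by have := (hmi i₀).1; omega)
  have hQne : P i₀ 0 + P i₀ (0 + 1) ≠ P i₀ 1 + P i₀ (1 + 1) := by
    intro h1
    have h2 : P i₀ 0 = P i₀ 2 := by
      have h3 : P i₀ (0 + 1) = P i₀ 1 := rfl
      have h4 : P i₀ (1 + 1) = P i₀ 2 := rfl
      omega
    have h3 := (hPinj i₀ i₀ 0 2 (by have := (hmi i₀).1; omega)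
      (by have := (hmi i₀).1; omega) h2).2
    omega
  have hQnon : Q.Nonempty := ⟨_, hQ1⟩
  let b := Q.max' hQnon
  have hb : b ∈ Q := Q.max'_mem hQnon
  have hQnon' : (Q.erase b).Nonempty := by
    by_cases h1 : P i₀ 0 + P i₀ (0 + 1) = b
    · exact ⟨_, mem_erase.2 ⟨fun h2 => hQne (h1.trans h2.symm), hQ2⟩⟩
    · exact ⟨_, mem_erase.2 ⟨h1, hQ1⟩⟩
  let a := (Q.erase b).max' hQnon'
  have ha' : a ∈ Q.erase b := (Q.erase b).max'_mem hQnon'
  have ha : a ∈ Q := mem_of_mem_erase ha'
  have hab : a < b := lt_of_le_of_ne (Q.le_max' a ha) (ne_of_mem_erase ha')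
  have hbz : b ≤ z := (hQ.1 hb).2
  let U : Finset ℕ := ((univ : Finset (Fin r)).image fun k =>
    pos (Sum.inr (Sum.inr k))).filter fun x => x ≤ b
  have hU : ∀ {x}, x ∈ U ↔ (∃ k : Fin r, pos (Sum.inr (Sum.inr k)) = x) ∧ x ≤ b := by
    intro x
    simp [U]
  have hocc : ∀ {x}, x ∈ occ m P U → ∃ v : Vx c r T m, pos v = x ∧ v ∉ Kc c r T m := by
    intro x hx
    rw [occ, mem_union, mem_biUnion] at hx
    rcases hx with hx | ⟨i, -, hx⟩
    · obtain ⟨⟨k, hk⟩, -⟩ := hU.1 hx
      refine ⟨_, hk, ?_⟩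
      intro h1
      obtain ⟨k', hk'⟩ := mem_Kc.1 h1
      simp at hk'
    · rw [mem_image] at hx
      obtain ⟨l, hl, rfl⟩ := hx
      rw [mem_range] at hl
      refine ⟨_, (hP i l hl).symm, ?_⟩
      intro h1
      obtain ⟨k', hk'⟩ := mem_Kc.1 h1
      simp at hk'
  have hpz : PZ m P U Q a b := by
    refine ⟨hPinj, ?_, ?_, hedge, ?_, ?_, hab, ha, hb, ?_, ?_, ?_⟩
    · intro i l hl h1
      obtain ⟨⟨k, hk⟩, -⟩ := hU.1 h1
      rw [hP i l hl] at hk
      have h2 := hL.inj hk
      simp at h2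
    · intro x hx
      exact (hU.1 hx).2
    · intro s hs x hx y hy hxy hxys
      obtain ⟨u, rfl, hu⟩ := hocc hx
      obtain ⟨v, rfl, hv⟩ := hocc hy
      have huv : u ≠ v := by
        rintro rfl
        exact lt_irrefl _ hxy
      have hn : ¬ (redG c r T m).Adj u v := fun hadj => (hmem (hQ.1 hs).1).2.2 u v hadj hxys
      rw [not_adj_iff huv] at hn
      rcases u with k | ⟨i, l⟩ | k
      · exact absurd (mem_Kc.2 ⟨k, rfl⟩) hu
      · rcases v with k | ⟨i', l'⟩ | k
        · exact absurd (mem_Kc.2 ⟨k, rfl⟩) hv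
        · simp only [nonAdj] at hn
          obtain ⟨h1, h2⟩ := hn
          subst h1
          rcases h2 with h2 | h2
          · refine ⟨i, l.val, by have := l'.2; omega, Or.inl ⟨?_, ?_⟩⟩
            · rw [hP i l.val l.2]
            · rw [hP i (l.val + 1) (by have := l'.2; omega)]
              congr 5
              exact Fin.ext h2.symm
          · refine ⟨i, l'.val, by have := l.2; omega, Or.inr ⟨?_, ?_⟩⟩
            · rw [hP i l'.val l'.2]
            · rw [hP i (l'.val + 1) (by have := l.2; omega)]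
              congr 5
              exact Fin.ext h2.symm
        · simp [nonAdj] at hn
      · rcases v with k | ⟨i', l'⟩ | k <;> simp [nonAdj] at hn
    · rw [occ, mem_union, mem_biUnion]
      rcases v₀ with k | ⟨i, l⟩ | k
      · exact absurd (mem_Kc.2 ⟨k, rfl⟩) hv₀K
      · right
        refine ⟨i, mem_univ _, mem_image.2 ⟨l.val, mem_range.2 l.2, ?_⟩⟩
        rw [hP i l.val l.2]
        exact hv₀
      · left
        exact hU.2 ⟨⟨k, hv₀⟩, Nat.zero_le _⟩
    · intro s hs
      by_cases h1 : s = b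
      · exact Or.inl h1
      · exact Or.inr ((Q.erase b).le_max' s (mem_erase.2 ⟨h1, hs⟩))
    · intro s hs
      exact (hmem (hQ.1 hs).1).1
    · intro i
      have := (hmi i).1
      omega
  refine pathZone_packing hpz hm hw hodd hsum hT ht hW hlam ?_
  have hhz : (holesZ m P U b).card ≤ ((holes pos h).filter fun p => p ≤ z).card := by
    apply Finset.card_le_card
    intro x hx
    rw [holesZ, mem_filter, mem_range] at hx
    obtain ⟨hx1, hx2⟩ := hx
    rw [mem_filter, mem_holes_iff]
    refine ⟨⟨by omega, ?_⟩, by omega⟩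
    rintro v rfl
    apply hx2
    rw [occ, mem_union, mem_biUnion]
    rcases v with k | ⟨i, l⟩ | k
    · have := hK k
      omega
    · right
      refine ⟨i, mem_univ _, mem_image.2 ⟨l.val, mem_range.2 l.2, ?_⟩⟩
      rw [hP i l.val l.2]
    · left
      exact hU.2 ⟨⟨k, rfl⟩, by omega⟩
  have hQc : Q.card = ((miss (redG c r T m) pos h).filter fun s => s ≤ z).card := rfl
  omega

end core

theorem packable_of_layout {T g B t lam c r : ℕ} (w m : Fin T → ℕ)
    (hm : ∀ i, m i + 1 = lam * w i) (hw : ∀ i, 1 ≤ w i) (hodd : Odd (lam * B))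
    (hsum : ∑ i, w i = g * B) (hT : T = g + t) (ht : 1 ≤ t)
    (hW : 100 * (t + 1) ≤ (univ.filter fun i => w i = B).card)
    (hlam : 100 * (g + t + 1) ≤ lam) (hc : 6 * t + 10 ≤ c)
    (hr : (2 * (c + ∑ i, m i) + 2 * t + 10) ^ 2 ≤ r)
    {pos : Vx c r T m → ℕ} {h : ℕ} (hL : Layout (redG c r T m) pos h)
    (hh : h ≤ (c + ∑ i, m i + r) + (c + ∑ i, m i) + 2 * t + 10)
    (hk : (esums (redG c r T m) fun v => (pos v : ℤ)).card + 6 ≤
      2 * (c + ∑ i, m i + r) + 2 * t) : Packable w g B := by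
  have hcard := card_holes hL
  rw [card_Vx] at hcard
  set n' := c + ∑ i, m i with hn'
  have hr' : 44 * (2 * n' + 2 * t + 10) ≤ r := by
    refine le_trans ?_ hr
    rw [pow_two]
    exact Nat.mul_le_mul_right _ (by omega)
  have hcard2 := card_esums hL (by omega : 1 ≤ h)
  set z := 2 * (holes pos h).card + n' with hz
  have hz2 : 2 * z < h := by omega
  have hmem : ∀ {s}, s ∈ miss (redG c r T m) pos h →
      1 ≤ s ∧ s ≤ 2 * h - 1 ∧ ∀ x y, (redG c r T m).Adj x y → pos x + pos y ≠ s := by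
    intro s hs
    exact mem_miss_iff.1 hs
  have hU : ∀ u ∈ Uc c r T m, ∀ v, v ≠ u → (redG c r T m).Adj u v := by
    intro u hu v hv
    obtain ⟨k, rfl⟩ := mem_Uc.1 hu
    refine ⟨hv.symm, ?_⟩
    rcases v with k' | y | y <;> simp [nonAdj]
  have hL' := hL.reflect
  have hholes' : (holes (fun v => h - pos v) h).card ≤ (holes pos h).card := by
    rw [holes_reflect hL]
    exact Finset.card_image_le
  have hmiss' : (miss (redG c r T m) (fun v => h - pos v) h).card =
      (miss (redG c r T m) pos h).card := by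
    rw [miss_reflect hL, Finset.card_image_of_injOn]
    intro s hs s' hs' hss
    have h1 := hmem hs
    have h2 := hmem hs'
    simp only at hss
    omega
  have hends : ∀ s ∈ miss (redG c r T m) pos h, s ≤ z ∨ 2 * h ≤ s + z := by
    intro s hs
    by_cases hsh : s ≤ h
    · have h1 := miss_small hL (Uc c r T m) hU hs hsh
      rw [card_Uc_compl] at h1
      exact Or.inl h1
    · have hs' : 2 * h - s ∈ miss (redG c r T m) (fun v => h - pos v) h := by
        rw [miss_reflect hL]
        exact Finset.mem_image_of_mem _ hs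
      have h1 := miss_small hL' (Uc c r T m) hU hs' (by omega)
      rw [card_Uc_compl] at h1
      have h2 := hmem hs
      omega
  have hends' : ∀ s ∈ miss (redG c r T m) (fun v => h - pos v) h, s ≤ z ∨ 2 * h ≤ s + z := by
    intro s hs
    rw [miss_reflect hL, Finset.mem_image] at hs
    obtain ⟨s', hs', rfl⟩ := hs
    have h1 := hends s' hs'
    have h2 := hmem hs'
    omega
  have hcost : 2 * (holes pos h).card + 3 ≤ (miss (redG c r T m) pos h).card + 2 * t := by
    omega
  have hle := hL.le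
  let k₀ : Fin c := ⟨0, by omega⟩
  have hne : ∀ k : Fin c, k ≠ k₀ → (Sum.inl k : Vx c r T m) ≠ Sum.inl k₀ := by
    intro k hk h1
    exact hk (Sum.inl_injective h1)
  by_cases hk0 : pos (Sum.inl k₀) ≤ z
  · refine core hm hw hodd hsum hT ht hW hlam hc hL' hz2 hends' ?_ ?_
    · rw [hmiss']
      omega
    · intro k
      have h1 := hle (Sum.inl k)
      have h2 := hle (Sum.inl k₀)
      by_cases hk : k = k₀
      · subst hk
        omega
      · have h3 := side hL hends (hne k hk) hk
        omega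
  · refine core hm hw hodd hsum hT ht hW hlam hc hL hz2 hends hcost ?_
    intro k
    let k₁ : Fin c := ⟨1, by omega⟩
    have hk1 : k₁ ≠ k₀ := by
      intro h1
      exact absurd (congrArg Fin.val h1) (by simp [k₁, k₀])
    have h1 := hle (Sum.inl k)
    have h2 := hle (Sum.inl k₀)
    have h4 := hle (Sum.inl k₁)
    by_cases hk : k = k₀
    · subst hk
      have h3 := side hL hends (hne k₁ hk1) hk1
      omega
    · have h3 := side hL hends (hne k hk) hk
      omega

end Pool.Agent.H82.SN
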