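import Pool.Agent.H82.SN.Defs

/-!
# Module A11: a packing gives a cheap valid labelling
-/

namespace Pool.Agent.H82.SN

open Finset

namespace A11

/-- uniqueness of division with remainder -/
theorem divmod_unique {d i i' j j' : ℤ} (hj : 0 ≤ j) (hj2 : j < d) (hj' : 0 ≤ j') (hj2' : j' < d)
    (h : j + i * d = j' + i' * d) : j = j' ∧ i = i' := by
  have h1 : j = j' := by
    have h2 : (j + i * d) % d = j := by
      rw [Int.add_mul_emod_self_right, Int.emod_eq_of_lt hj hj2]
    have h3 : (j' + i' * d) % d = j' := by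
      rw [Int.add_mul_emod_self_right, Int.emod_eq_of_lt hj' hj2']
    rw [← h2, ← h3, h]
  refine ⟨h1, ?_⟩
  have hd : d ≠ 0 := by omega
  have h2 : i * d = i' * d := by linarith
  exact mul_right_cancel₀ hd h2

/-- the positions in a bin: slot `k` of bin `j` -/
def X (g Q : ℕ) (j k : ℕ) : ℤ :=
  if k % 2 = 0 then (Q * (2 * g) - 1 : ℤ) - j - (k / 2 : ℕ) * (2 * g) else j + (k / 2 : ℕ) * (2 * g)

theorem X_even (g Q j i : ℕ) : X g Q j (2 * i) = (Q * (2 * g) - 1 : ℤ) - j - i * (2 * g) := by
  have h1 : (2 * i) % 2 = 0 := by omega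
  have h2 : (2 * i) / 2 = i := by omega
  rw [X, if_pos h1, h2]

theorem X_odd (g Q j i : ℕ) : X g Q j (2 * i + 1) = j + i * (2 * g) := by
  have h1 : ¬ (2 * i + 1) % 2 = 0 := by omega
  have h2 : (2 * i + 1) / 2 = i := by omega
  rw [X, if_neg h1, h2]

theorem X_nonneg {g Q j k : ℕ} (hj : j < g) (hk : k < 2 * Q) : 0 ≤ X g Q j k := by
  obtain ⟨i, rfl | rfl⟩ := Nat.even_or_odd' k
  · rw [X_even]
    have h1 : (i : ℤ) + 1 ≤ Q := by omega
    have h2 : (0 : ℤ) ≤ 2 * g := by omega
    have h3 : ((i : ℤ) + 1) * (2 * g) ≤ Q * (2 * g) := mul_le_mul_of_nonneg_right h1 h2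
    have h4 : (j : ℤ) + 1 ≤ g := by omega
    nlinarith
  · rw [X_odd]; positivity

theorem X_le {g Q j k : ℕ} (hj : j < g) (hk : k < 2 * Q) : X g Q j k ≤ Q * (2 * g) - 1 := by
  obtain ⟨i, rfl | rfl⟩ := Nat.even_or_odd' k
  · rw [X_even]
    have h1 : (0 : ℤ) ≤ (i : ℤ) * (2 * g) := by positivity
    have h2 : (0 : ℤ) ≤ (j : ℤ) := by positivity
    linarith
  · rw [X_odd]
    have h1 : (i : ℤ) + 1 ≤ Q := by omega
    have h2 : (0 : ℤ) ≤ 2 * g := by omega
    have h3 : ((i : ℤ) + 1) * (2 * g) ≤ Q * (2 * g) := mul_le_mul_of_nonneg_right h1 h2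
    have h4 : (j : ℤ) + 1 ≤ g := by omega
    nlinarith

/-- `-1` is not the sum of two small residues -/
theorem no_sum {g : ℕ} {j j' : ℕ} (hj : j < g) (hj' : j' < g) (q q' : ℤ)
    (h : (j : ℤ) + j' + 1 + q * (2 * g) = q' * (2 * g)) : False := by
  have h1 := divmod_unique (d := 2 * g) (j := (j : ℤ) + j' + 1) (i := q) (j' := 0) (i' := q')
    (by positivity) (by omega) le_rfl (by omega) (by linarith)
  omega

theorem X_inj {g Q j k j' k' : ℕ} (hj : j < g) (hj' : j' < g)
    (h : X g Q j k = X g Q j' k') : j = j' ∧ k = k' := by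
  obtain ⟨i, rfl | rfl⟩ := Nat.even_or_odd' k <;> obtain ⟨i', rfl | rfl⟩ := Nat.even_or_odd' k'
  · rw [X_even, X_even] at h
    have h1 := divmod_unique (d := 2 * g) (j := (j : ℤ)) (i := i) (j' := j') (i' := i')
      (by positivity) (by omega) (by positivity) (by omega) (by linarith)
    omega
  · rw [X_even, X_odd] at h
    exact (no_sum hj hj' (i + i') Q (by linarith)).elim
  · rw [X_even, X_odd] at h
    exact (no_sum hj hj' (i + i') Q (by linarith)).elim
  · rw [X_odd, X_odd] at h
    have h1 := divmod_unique (d := 2 * g) (j := (j : ℤ)) (i := i) (j' := j') (i' := i')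
      (by positivity) (by omega) (by positivity) (by omega) (by linarith)
    omega

theorem X_add {g Q j j' k k' : ℕ} (hj : j < g) (hj' : j' < g)
    (h : X g Q j k + X g Q j' k' = Q * (2 * g) - 1 ∨
      X g Q j k + X g Q j' k' = Q * (2 * g) - 1 - 2 * g) :
    j = j' ∧ (k + 1 = k' ∨ k' + 1 = k) := by
  obtain ⟨i, rfl | rfl⟩ := Nat.even_or_odd' k <;> obtain ⟨i', rfl | rfl⟩ := Nat.even_or_odd' k'
  · rw [X_even, X_even] at h
    exfalso
    rcases h with h | h
    · exact no_sum hj hj' (i + i') Q (by linarith)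
    · exact no_sum hj hj' (i + i') (Q + 1) (by linarith)
  · rw [X_even, X_odd] at h
    rcases h with h | h
    · have h1 := divmod_unique (d := 2 * g) (j := (j : ℤ)) (i := i) (j' := j') (i' := i')
        (by positivity) (by omega) (by positivity) (by omega) (by linarith)
      omega
    · have h1 := divmod_unique (d := 2 * g) (j := (j : ℤ)) (i := i) (j' := j') (i' := i' + 1)
        (by positivity) (by omega) (by positivity) (by omega) (by linarith)
      omega
  · rw [X_even, X_odd] at h
    rcases h with h | h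
    · have h1 := divmod_unique (d := 2 * g) (j := (j : ℤ)) (i := i) (j' := j') (i' := i')
        (by positivity) (by omega) (by positivity) (by omega) (by linarith)
      omega
    · have h1 := divmod_unique (d := 2 * g) (j := (j : ℤ)) (i := i + 1) (j' := j') (i' := i')
        (by positivity) (by omega) (by positivity) (by omega) (by linarith)
      omega
  · rw [X_odd, X_odd] at h
    exfalso
    rcases h with h | h
    · exact no_sum hj hj' (i + i') Q (by linarith)
    · exact no_sum hj hj' (i + i' + 1) Q (by linarith)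

theorem X_succ (g Q j k : ℕ) : X g Q j k + X g Q j (k + 1) = Q * (2 * g) - 1 ∨
      X g Q j k + X g Q j (k + 1) = Q * (2 * g) - 1 - 2 * g := by
  obtain ⟨i, rfl | rfl⟩ := Nat.even_or_odd' k
  · left
    rw [X_even, X_odd]; ring
  · right
    rw [X_odd, show 2 * i + 1 + 1 = 2 * (i + 1) by ring, X_even]; push_cast; ring

/-- offset of path `i` in its bin -/
def off {T g : ℕ} (m : Fin T → ℕ) (f : Fin T → Fin g) (i : Fin T) : ℕ :=
  ∑ i' ∈ univ.filter (fun i' => i' < i ∧ f i' = f i), (m i' + 1)

theorem off_add_le {T g : ℕ} (m : Fin T → ℕ) (f : Fin T → Fin g) {i i' : Fin T} (h : i < i')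
    (hf : f i = f i') : off m f i + (m i + 1) ≤ off m f i' := by
  unfold off
  rw [add_comm, ← sum_insert (f := fun i' => m i' + 1) (a := i)
    (s := univ.filter (fun i' => i' < i ∧ f i' = f i)) (by simp)]
  apply sum_le_sum_of_subset
  intro k hk
  rw [mem_insert, mem_filter] at hk
  rw [mem_filter]
  rcases hk with rfl | hk
  · exact ⟨mem_univ _, h, hf⟩
  · exact ⟨mem_univ _, hk.2.1.trans h, hk.2.2.trans hf⟩

theorem off_le {T g : ℕ} (m : Fin T → ℕ) (f : Fin T → Fin g) (i : Fin T) :
    off m f i + (m i + 1) ≤ ∑ i' ∈ univ.filter (fun i' => f i' = f i), (m i' + 1) := by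
  unfold off
  rw [add_comm, ← sum_insert (f := fun i' => m i' + 1) (a := i)
    (s := univ.filter (fun i' => i' < i ∧ f i' = f i)) (by simp)]
  apply sum_le_sum_of_subset
  intro k hk
  rw [mem_insert, mem_filter] at hk
  rw [mem_filter]
  rcases hk with rfl | hk
  · exact ⟨mem_univ _, rfl⟩
  · exact ⟨mem_univ _, hk.2.2⟩

theorem off_inj {T g : ℕ} (m : Fin T → ℕ) (f : Fin T → Fin g) {i i' : Fin T} (hf : f i = f i')
    {l l' : ℕ} (hl : l < m i) (hl' : l' < m i') (h : off m f i + l = off m f i' + l') : i = i' := by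
  rcases lt_trichotomy i i' with h1 | h1 | h1
  · have := off_add_le m f h1 hf
    omega
  · exact h1
  · have := off_add_le m f h1 hf.symm
    omega

theorem off_succ {T g : ℕ} (m : Fin T → ℕ) (f : Fin T → Fin g) {i i' : Fin T} (hf : f i = f i')
    {l l' : ℕ} (hl : l < m i) (hl' : l' < m i') (h : off m f i + l + 1 = off m f i' + l') :
    i = i' := by
  rcases lt_trichotomy i i' with h1 | h1 | h1
  · have := off_add_le m f h1 hf
    omega
  · exact h1
  · have := off_add_le m f h1 hf.symm
    omega

/-- the labelling -/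
def lab (g Q c r T : ℕ) (m : Fin T → ℕ) (f : Fin T → Fin g) : Vx c r T m → ℤ
  | Sum.inl y => (Q * (2 * g) - 1 : ℤ) + r + 2 * c - 2 - y.val
  | Sum.inr (Sum.inl x) => X g Q (f x.1) (off m f x.1 + x.2.val)
  | Sum.inr (Sum.inr y) => (Q * (2 * g) : ℤ) + y.val

end A11

open A11 in
theorem exists_valid_of_packable {T g B t lam c r : ℕ} (w m : Fin T → ℕ)
    (hm : ∀ i, m i + 1 = lam * w i) (hw : ∀ i, 1 ≤ w i) (hodd : Odd (lam * B))
    (hT : T = g + t) (ht : 1 ≤ t) (hg : 1 ≤ g) (hlam : 10 ≤ lam) (hc : 3 ≤ c)
    (hr : 1 ≤ r) (hp : Packable w g B) :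
    ∃ a : Vx c r T m → ℤ, Valid (redG c r T m) a ∧
      (esums (redG c r T m) a).card + 6 ≤ 2 * (c + ∑ i, m i + r) + 2 * t := by
  obtain ⟨f, hf⟩ := hp
  obtain ⟨Q, hQ⟩ := hodd
  have hB : 1 ≤ B := by
    rcases Nat.eq_zero_or_pos B with h | h
    · subst h; omega
    · exact h
  have hlB : 10 ≤ lam * B := by nlinarith
  have hQ5 : 5 ≤ Q := by omega
  -- slots
  have hslot : ∀ i (l : ℕ), l < m i → off m f i + l < 2 * Q := by
    intro i l hl
    have h1 := off_le m f i
    have h2 : ∑ i' ∈ univ.filter (fun i' => f i' = f i), (m i' + 1) = lam * B := by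
      rw [← hf (f i), mul_sum]
      exact sum_congr rfl fun i' _ => hm i'
    omega
  set h : ℤ := (Q * (2 * g) - 1 : ℤ) + r + 2 * c - 2 with hh
  have hgpos : (1 : ℤ) ≤ g := by exact_mod_cast hg
  have hQg : (10 : ℤ) * g ≤ Q * (2 * g) := by
    have : (5 : ℤ) ≤ Q := by exact_mod_cast hQ5
    nlinarith
  -- range of the labels
  have hpath : ∀ x : (Σ i : Fin T, Fin (m i)), 0 ≤ lab g Q c r T m f (Sum.inr (Sum.inl x)) ∧
      lab g Q c r T m f (Sum.inr (Sum.inl x)) ≤ Q * (2 * g) - 1 := fun x =>
    ⟨X_nonneg (f x.1).2 (hslot x.1 x.2 x.2.2), X_le (f x.1).2 (hslot x.1 x.2 x.2.2)⟩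
  have huniv : ∀ y : Fin r, (Q * (2 * g) : ℤ) ≤ lab g Q c r T m f (Sum.inr (Sum.inr y)) ∧
      lab g Q c r T m f (Sum.inr (Sum.inr y)) ≤ h - 2 * c + 2 := by
    intro y
    have := y.2
    constructor
    · change (Q * (2 * g) : ℤ) ≤ (Q * (2 * g) : ℤ) + y.val
      omega
    · change (Q * (2 * g) : ℤ) + y.val ≤ _
      omega
  have hcl : ∀ y : Fin c, lab g Q c r T m f (Sum.inl y) = h - y.val := fun y => rfl
  have hinj : Function.Injective (lab g Q c r T m f) := by
    intro x y hxy
    rcases x with x | x | x <;> rcases y with y | y | y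
    · rw [hcl, hcl] at hxy
      have : x = y := Fin.ext (by omega)
      rw [this]
    · have h1 := hpath y
      rw [← hxy, hcl] at h1
      have := x.2
      omega
    · have h1 := huniv y
      rw [← hxy, hcl] at h1
      have := x.2
      omega
    · have h1 := hpath x
      rw [hxy, hcl] at h1
      have := y.2
      omega
    · have h1 := X_inj (f x.1).2 (f y.1).2 hxy
      have h2 : f x.1 = f y.1 := Fin.ext h1.1
      have h3 := off_inj m f h2 x.2.2 y.2.2 h1.2
      obtain ⟨i, l⟩ := x
      obtain ⟨i', l'⟩ := y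
      dsimp only at h3
      subst h3
      have h4 := h1.2
      dsimp only at h4
      have h5 : l = l' := Fin.ext (by omega)
      rw [h5]
    · have h1 := hpath x
      have h2 := huniv y
      rw [hxy] at h1
      omega
    · have h1 := huniv x
      rw [hxy, hcl] at h1
      have := y.2
      omega
    · have h1 := hpath y
      have h2 := huniv x
      rw [hxy] at h2
      omega
    · have h1 : (Q * (2 * g) : ℤ) + x.val = (Q * (2 * g) : ℤ) + y.val := hxy
      have : x = y := Fin.ext (by omega)
      rw [this]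
  have hle : ∀ x, 0 ≤ lab g Q c r T m f x ∧ lab g Q c r T m f x ≤ h := by
    intro x
    rcases x with x | x | x
    · rw [hcl]
      have := x.2
      omega
    · have := hpath x
      omega
    · have := huniv x
      omega
  -- special sums
  have hspec : ∀ x y : Vx c r T m, x ≠ y →
      (lab g Q c r T m f x + lab g Q c r T m f y = Q * (2 * g) - 1 ∨
       lab g Q c r T m f x + lab g Q c r T m f y = Q * (2 * g) - 1 - 2 * g ∨
       2 * h - 2 * c + 3 ≤ lab g Q c r T m f x + lab g Q c r T m f y) → nonAdj x y := by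
    intro x y hne hs
    have hlx := hle x
    have hly := hle y
    rcases x with x | x | x <;> rcases y with y | y | y
    · exact fun h => hne (by rw [h])
    · exfalso
      have h1 := hpath y
      rw [hcl] at hs
      have := x.2
      omega
    · exfalso
      have h1 := huniv y
      rw [hcl] at hs
      have := x.2
      omega
    · exfalso
      have h1 := hpath x
      rw [hcl] at hs
      have := y.2
      omega
    · have h1 := hpath x
      have h2 := hpath y
      have h3 := X_add (Q := Q) (k := off m f x.1 + x.2.val) (k' := off m f y.1 + y.2.val)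
        (f x.1).2 (f y.1).2 (by
          rcases hs with hs | hs | hs
          · exact Or.inl hs
          · exact Or.inr hs
          · exfalso; omega)
      have h4 : f x.1 = f y.1 := Fin.ext h3.1
      obtain ⟨i, l⟩ := x
      obtain ⟨i', l'⟩ := y
      dsimp only at h3 h4
      rcases h3.2 with h5 | h5
      · have h6 := off_succ m f h4 l.2 l'.2 h5
        subst h6
        have h7 : l.val + 1 = l'.val := by omega
        exact ⟨rfl, Or.inl h7⟩
      · have h6 := off_succ m f h4.symm l'.2 l.2 h5
        subst h6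
        have h7 : l'.val + 1 = l.val := by omega
        exact ⟨rfl, Or.inr h7⟩
    · exfalso
      have h1 := hpath x
      have h2 := huniv y
      omega
    · exfalso
      have h1 := huniv x
      rw [hcl] at hs
      have := y.2
      omega
    · exfalso
      have h1 := hpath y
      have h2 := huniv x
      omega
    · exfalso
      have h1 := huniv x
      have h2 := huniv y
      omega
  have hspec' : ∀ x y : Vx c r T m, nonAdj x y →
      (lab g Q c r T m f x + lab g Q c r T m f y = Q * (2 * g) - 1 ∨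
       lab g Q c r T m f x + lab g Q c r T m f y = Q * (2 * g) - 1 - 2 * g ∨
       2 * h - 2 * c + 3 ≤ lab g Q c r T m f x + lab g Q c r T m f y) := by
    intro x y hxy
    rcases x with x | x | x <;> rcases y with y | y | y <;> try exact hxy.elim
    · right; right
      rw [hcl, hcl]
      have h1 : x ≠ y := hxy
      have h2 : x.val ≠ y.val := fun h => h1 (Fin.ext h)
      have := x.2
      have := y.2
      omega
    · obtain ⟨h1, h2⟩ := hxy
      obtain ⟨i, l⟩ := x
      obtain ⟨i', l'⟩ := y
      dsimp only at h1 h2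
      subst h1
      rcases h2 with h2 | h2
      · have h3 := X_succ g Q (f i) (off m f i + l.val)
        rw [add_assoc, h2] at h3
        rcases h3 with h3 | h3
        · exact Or.inl h3
        · exact Or.inr (Or.inl h3)
      · have h3 := X_succ g Q (f i) (off m f i + l'.val)
        rw [add_assoc, h2, add_comm (X _ _ _ _)] at h3
        rcases h3 with h3 | h3
        · exact Or.inl h3
        · exact Or.inr (Or.inl h3)
  refine ⟨lab g Q c r T m f, ⟨hinj, ?_⟩, ?_⟩
  · intro u v x y huv hxy hs
    refine ⟨hxy, fun hn => ?_⟩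
    have h1 := hspec' x y hn
    rw [hs] at h1
    exact huv.2 (hspec u v huv.1 h1)
  · -- counting
    set S : Finset ℤ := ((Icc 1 (2 * h - 2 * c + 2)).erase (Q * (2 * g) - 1 : ℤ)).erase
      (Q * (2 * g) - 1 - 2 * g : ℤ) with hS
    have hsub : esums (redG c r T m) (lab g Q c r T m f) ⊆ S := by
      intro s hs
      obtain ⟨x, y, hxy, rfl⟩ := mem_esums.1 hs
      have hnon := mt (hspec x y hxy.1) hxy.2
      push Not at hnon
      rw [hS, mem_erase, mem_erase, mem_Icc]
      refine ⟨hnon.2.1, hnon.1, ?_, by have := hnon.2.2; omega⟩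
      have h1 := hle x
      have h2 := hle y
      have h3 : lab g Q c r T m f x ≠ lab g Q c r T m f y := fun h => hxy.1 (hinj h)
      omega
    have hcard := card_le_card hsub
    have hcardS : (S.card : ℤ) = 2 * h - 2 * c := by
      rw [hS, card_erase_of_mem, card_erase_of_mem, Int.card_Icc]
      · rw [Nat.cast_sub, Nat.cast_sub, Int.toNat_of_nonneg]
        · push_cast; ring
        · omega
        · omega
        · omega
      · rw [mem_Icc]; omega
      · rw [mem_erase, mem_Icc]; omega
    have hsum : ((∑ i, m i : ℕ) : ℤ) + T = lam * (g * B) := by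
      have h1 : ∑ i, (m i + 1) = lam * ∑ i, w i := by
        rw [mul_sum]
        exact sum_congr rfl fun i _ => hm i
      have h2 : ∑ i, w i = g * B := by
        rw [← sum_fiberwise_of_maps_to (t := (univ : Finset (Fin g))) (g := f)
          (fun _ _ => mem_univ _)]
        rw [sum_congr rfl (fun j _ => hf j)]
        simp
      rw [sum_add_distrib, h2] at h1
      simp only [sum_const, card_univ, Fintype.card_fin, smul_eq_mul, mul_one] at h1
      exact_mod_cast h1
    have hQ' : (lam : ℤ) * B = 2 * Q + 1 := by exact_mod_cast hQ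
    have hT' : (T : ℤ) = g + t := by exact_mod_cast hT
    have hQ'' : (lam : ℤ) * (g * B) = (2 * Q + 1) * g := by rw [← hQ']; ring
    have h5 : ((esums (redG c r T m) (lab g Q c r T m f)).card : ℤ) ≤ 2 * h - 2 * c := by
      rw [← hcardS]; exact_mod_cast hcard
    have h6 : (Q * (2 * g) : ℤ) * 2 = 2 * (2 * Q + 1) * g - 2 * g := by ring
    zify
    push_cast at hsum ⊢
    rw [hh] at h5
    linarith

end Pool.Agent.H82.SN
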