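import Mathlib

/-!
# Sum labellings, the sum number, valid integer labellings, layouts

`G` is the graph whose sum number is studied; it has many universal vertices.  The *non-edges*
of `G` (pairs of distinct non-adjacent vertices) form the sparse graph `H` of the paper proof.
-/

namespace Pool.Agent.H82.SN

open Finset

/-- `ℓ` is a sum labelling of `G`. -/
structure IsSumLabelling {V : Type} (G : SimpleGraph V) (ℓ : V → ℤ) : Prop where
  inj : Function.Injective ℓ
  pos : ∀ v, 0 < ℓ v
  adj_iff : ∀ u v, u ≠ v → (G.Adj u v ↔ ∃ w, ℓ u + ℓ v = ℓ w)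

/-- `G` is a sum graph. -/
def IsSumGraph {V : Type} (G : SimpleGraph V) : Prop := ∃ ℓ : V → ℤ, IsSumLabelling G ℓ

/-- The sum number of `G`: the least `s` such that the disjoint union of `G` and `s` isolated
vertices is a sum graph. -/
noncomputable def sumNumber {V : Type} (G : SimpleGraph V) : ℕ :=
  sInf {s | IsSumGraph (G ⊕g (⊥ : SimpleGraph (Fin s)))}

/-- A valid integer labelling: injective, and the sum of an edge is never the sum of two distinct
non-adjacent vertices. -/
structure Valid {V : Type} (G : SimpleGraph V) (a : V → ℤ) : Prop where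
  inj : Function.Injective a
  sep : ∀ u v x y, G.Adj u v → x ≠ y → a x + a y = a u + a v → G.Adj x y

open Classical in
/-- The set of edge sums. -/
noncomputable def esums {V : Type} [Fintype V] (G : SimpleGraph V) (a : V → ℤ) : Finset ℤ :=
  ((univ : Finset (V × V)).filter fun p => G.Adj p.1 p.2).image fun p => a p.1 + a p.2

theorem mem_esums {V : Type} [Fintype V] {G : SimpleGraph V} {a : V → ℤ} {s : ℤ} :
    s ∈ esums G a ↔ ∃ x y, G.Adj x y ∧ a x + a y = s := by
  classical
  simp [esums]

/-- A layout: a valid labelling by the positions `0, …, h`, with `0` and `h` used. -/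
structure Layout {V : Type} (G : SimpleGraph V) (pos : V → ℕ) (h : ℕ) : Prop where
  inj : Function.Injective pos
  le : ∀ v, pos v ≤ h
  zero : ∃ v, pos v = 0
  top : ∃ v, pos v = h
  sep : ∀ u v x y, G.Adj u v → x ≠ y → pos x + pos y = pos u + pos v → G.Adj x y

open Classical in
/-- Missing sums of a layout. -/
noncomputable def miss {V : Type} (G : SimpleGraph V) (pos : V → ℕ) (h : ℕ) : Finset ℕ :=
  (Icc 1 (2 * h - 1)).filter fun s => ∀ x y, G.Adj x y → pos x + pos y ≠ s

open Classical in
/-- Holes of a layout. -/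
noncomputable def holes {V : Type} (pos : V → ℕ) (h : ℕ) : Finset ℕ :=
  (range (h + 1)).filter fun p => ∀ v, pos v ≠ p

/-- Vertices of the graph produced by the reduction: a clique part (independent in `G`),
the path part and the universal part. -/
abbrev Vx (c r T : ℕ) (m : Fin T → ℕ) : Type := Fin c ⊕ (Σ i : Fin T, Fin (m i)) ⊕ Fin r

/-- Non-adjacency in the graph of the reduction, for distinct vertices: two clique vertices, or
two consecutive vertices of a path. -/
def nonAdj {c r T : ℕ} {m : Fin T → ℕ} : Vx c r T m → Vx c r T m → Prop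
  | Sum.inl i, Sum.inl j => i ≠ j
  | Sum.inr (Sum.inl x), Sum.inr (Sum.inl y) =>
      x.1 = y.1 ∧ (x.2.val + 1 = y.2.val ∨ y.2.val + 1 = x.2.val)
  | _, _ => False

theorem nonAdj_symm {c r T : ℕ} {m : Fin T → ℕ} {x y : Vx c r T m} (h : nonAdj x y) :
    nonAdj y x := by
  rcases x with x | x | x <;> rcases y with y | y | y <;> simp only [nonAdj] at h ⊢
  · exact h.symm
  · exact ⟨h.1.symm, h.2.symm⟩

/-- The graph of the reduction. -/
def redG (c r T : ℕ) (m : Fin T → ℕ) : SimpleGraph (Vx c r T m) where
  Adj x y := x ≠ y ∧ ¬ nonAdj x y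
  symm := ⟨fun _ _ h => ⟨h.1.symm, fun h' => h.2 (nonAdj_symm h')⟩⟩
  loopless := ⟨fun _ h => h.1 rfl⟩

/-- Exact packing: the weights `w` can be partitioned into `g` classes, each of sum `B`. -/
def Packable {T : ℕ} (w : Fin T → ℕ) (g B : ℕ) : Prop :=
  ∃ f : Fin T → Fin g, ∀ j, ∑ i ∈ univ.filter (fun i => f i = j), w i = B

end Pool.Agent.H82.SN
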