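import Pool.Agent.H82.SN.A3
import Pool.Agent.H82.SN.Defs

/-!
# Module A4: from a cheap valid labelling to a layout
-/

namespace Pool.Agent.H82.SN

open Finset

/-- lower bound for the number of restricted sums -/
theorem two_mul_card_le_restricted (A : Finset ℤ) (hA : 2 ≤ A.card) :
    2 * A.card ≤ (A.offDiag.image fun p => p.1 + p.2).card + 3 := by
  have hne : A.Nonempty := card_pos.1 (by omega)
  set m := A.min' hne with hm
  set M := A.max' hne with hM
  have hmA : m ∈ A := A.min'_mem hne
  have hMA : M ∈ A := A.max'_mem hne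
  have hle : ∀ x ∈ A, m ≤ x := fun x hx => A.min'_le x hx
  have hge : ∀ x ∈ A, x ≤ M := fun x hx => A.le_max' x hx
  set X := (A.erase m).image fun x => m + x with hX
  set Y := (A.erase M).image fun x => x + M with hY
  have hXc : X.card = A.card - 1 := by
    rw [hX, card_image_of_injective _ (add_right_injective m), card_erase_of_mem hmA]
  have hYc : Y.card = A.card - 1 := by
    rw [hY, card_image_of_injective _ (add_left_injective M), card_erase_of_mem hMA]
  have hXY : X ∩ Y ⊆ {m + M} := by
    intro z hz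
    rw [mem_inter, hX, hY, mem_image, mem_image] at hz
    obtain ⟨⟨x, hx, hxz⟩, ⟨y, hy, hyz⟩⟩ := hz
    have h1 := hge x (mem_of_mem_erase hx)
    have h2 := hle y (mem_of_mem_erase hy)
    rw [mem_singleton]
    omega
  have hXYc : (X ∩ Y).card ≤ 1 := (card_le_card hXY).trans (by simp)
  have hsub : X ∪ Y ⊆ A.offDiag.image fun p => p.1 + p.2 := by
    intro z hz
    rw [mem_union, hX, hY, mem_image, mem_image] at hz
    rw [mem_image]
    rcases hz with ⟨x, hx, hxz⟩ | ⟨y, hy, hyz⟩
    · refine ⟨(m, x), ?_, hxz⟩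
      rw [mem_offDiag]
      exact ⟨hmA, mem_of_mem_erase hx, (ne_of_mem_erase hx).symm⟩
    · refine ⟨(y, M), ?_, hyz⟩
      rw [mem_offDiag]
      exact ⟨mem_of_mem_erase hy, hMA, ne_of_mem_erase hy⟩
  have h3 := card_le_card hsub
  have h4 := card_union_add_card_inter X Y
  omega

section

open scoped Pointwise

variable {V : Type} [Fintype V] [DecidableEq V] {G : SimpleGraph V}

theorem spread_bound (U : Finset V) (hU : ∀ u ∈ U, ∀ v, v ≠ u → G.Adj u v) {b : V → ℤ}
    (hb : Function.Injective b) (M : ℕ) (hP : ∀ j : ℕ, j ≤ M → ∃ u ∈ U, b u = j) (s0 s1 : ℤ)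
    (h0 : ∃ v, b v = s0) (h1 : ∃ v, b v = s1) (hle : ∀ v, s0 ≤ b v ∧ b v ≤ s1) :
    (univ.image b + Icc (0 : ℤ) M).card + U.card ≤ (esums G b).card + M + 5 := by
  classical
  obtain ⟨v0, hv0⟩ := h0
  obtain ⟨v1, hv1⟩ := h1
  set SM := univ.image b + Icc (0 : ℤ) M with hSM
  set UB := U.image b with hUB
  have hUBc : UB.card = U.card := card_image_of_injective _ hb
  set N := UB.filter (· < 0) with hN
  set P := UB.filter ((M : ℤ) < ·) with hPP
  set Z := UB.filter (fun x => 0 ≤ x ∧ x ≤ (M : ℤ)) with hZ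
  have hZc : Z.card ≤ M + 1 := by
    have : Z ⊆ Icc (0 : ℤ) M := by
      intro z hz
      rw [hZ, mem_filter] at hz
      exact mem_Icc.2 hz.2
    refine (card_le_card this).trans ?_
    simp
  have hUcard : UB.card ≤ N.card + P.card + Z.card := by
    have : UB ⊆ N ∪ P ∪ Z := by
      intro z hz
      rw [mem_union, mem_union, hN, hPP, hZ, mem_filter, mem_filter, mem_filter]
      rcases lt_or_ge z 0 with h | h
      · exact Or.inl (Or.inl ⟨hz, h⟩)
      · rcases lt_or_ge (M : ℤ) z with h' | h'
        · exact Or.inl (Or.inr ⟨hz, h'⟩)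
        · exact Or.inr ⟨hz, h, h'⟩
    refine (card_le_card this).trans ((card_union_le _ _).trans ?_)
    have := card_union_le N P
    omega
  set E1 := SM \ {0, 2 * (M : ℤ)} with hE1
  set E2 := (N.erase s0).image fun u => s0 + u with hE2
  set E3 := (P.erase s1).image fun u => s1 + u with hE3
  have hE1c : SM.card ≤ E1.card + 2 := by
    have h1 := le_card_sdiff {0, 2 * (M : ℤ)} SM
    have h2 : ({0, 2 * (M : ℤ)} : Finset ℤ).card ≤ 2 := card_le_two
    rw [hE1]
    omega
  have hE2c : N.card ≤ E2.card + 1 := by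
    rw [hE2, card_image_of_injective _ (add_right_injective s0)]
    have := pred_card_le_card_erase (s := N) (a := s0)
    omega
  have hE3c : P.card ≤ E3.card + 1 := by
    rw [hE3, card_image_of_injective _ (add_right_injective s1)]
    have := pred_card_le_card_erase (s := P) (a := s1)
    omega
  have hSMb : ∀ z ∈ SM, s0 ≤ z ∧ z ≤ s1 + M := by
    intro z hz
    rw [hSM, mem_add] at hz
    obtain ⟨x, hx, y, hy, rfl⟩ := hz
    obtain ⟨v, -, rfl⟩ := mem_image.1 hx
    rw [mem_Icc] at hy
    have := hle v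
    omega
  have hd12 : Disjoint E1 E2 := by
    rw [disjoint_left]
    intro z hz hz'
    have h2 := hSMb z (mem_sdiff.1 hz).1
    rw [hE2, mem_image] at hz'
    obtain ⟨u, hu, rfl⟩ := hz'
    have := (mem_filter.1 (mem_of_mem_erase hu)).2
    omega
  have hd3 : Disjoint (E1 ∪ E2) E3 := by
    rw [disjoint_left]
    intro z hz hz'
    rw [hE3, mem_image] at hz'
    obtain ⟨u, hu, rfl⟩ := hz'
    have h3 := (mem_filter.1 (mem_of_mem_erase hu)).2
    rw [mem_union] at hz
    rcases hz with hz | hz
    · have h2 := hSMb _ (mem_sdiff.1 hz).1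
      omega
    · rw [hE2, mem_image] at hz
      obtain ⟨u', hu', h4⟩ := hz
      have h5 := (mem_filter.1 (mem_of_mem_erase hu')).2
      have := hle v0
      have := hle v1
      omega
  have hsub : E1 ∪ E2 ∪ E3 ⊆ esums G b := by
    intro z hz
    rw [mem_esums]
    rw [mem_union, mem_union] at hz
    rcases hz with (hz | hz) | hz
    · rw [hE1, mem_sdiff, hSM, mem_add] at hz
      obtain ⟨⟨x, hx, y, hy, rfl⟩, hz2⟩ := hz
      obtain ⟨v, -, rfl⟩ := mem_image.1 hx
      rw [mem_Icc] at hy
      obtain ⟨q, rfl⟩ := Int.eq_ofNat_of_zero_le hy.1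
      obtain ⟨u, hu, hbu⟩ := hP q (by omega)
      by_cases hvu : v = u
      · subst hvu
        have hq : q ≠ 0 ∧ q ≠ M := by
          constructor
          · rintro rfl
            apply hz2
            simp [hbu]
          · rintro rfl
            apply hz2
            rw [hbu]
            simp [two_mul]
        obtain ⟨u1, hu1, hbu1⟩ := hP (q - 1) (by omega)
        obtain ⟨u2, hu2, hbu2⟩ := hP (q + 1) (by omega)
        have hne : u2 ≠ u1 := by
          rintro rfl
          rw [hbu1] at hbu2
          omega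
        refine ⟨u1, u2, hU u1 hu1 u2 hne, ?_⟩
        rw [hbu1, hbu2, hbu]
        omega
      · refine ⟨u, v, hU u hu v hvu, ?_⟩
        rw [hbu]
        ring
    · rw [hE2, mem_image] at hz
      obtain ⟨u, hu, rfl⟩ := hz
      have hne := ne_of_mem_erase hu
      obtain ⟨w, hw, hwu⟩ := mem_image.1 (mem_filter.1 (mem_of_mem_erase hu)).1
      refine ⟨w, v0, hU w hw v0 ?_, ?_⟩
      · rintro rfl
        exact hne (by rw [← hwu, hv0])
      · rw [hwu, hv0, add_comm]
    · rw [hE3, mem_image] at hz
      obtain ⟨u, hu, rfl⟩ := hz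
      have hne := ne_of_mem_erase hu
      obtain ⟨w, hw, hwu⟩ := mem_image.1 (mem_filter.1 (mem_of_mem_erase hu)).1
      refine ⟨w, v1, hU w hw v1 ?_, ?_⟩
      · rintro rfl
        exact hne (by rw [← hwu, hv1])
      · rw [hwu, hv1, add_comm]
  have h4 := card_le_card hsub
  rw [card_union_of_disjoint hd3, card_union_of_disjoint hd12] at h4
  omega

/-- either `S + [0,M]` is an interval, or it is large -/
theorem interval_or_large (S : Finset ℤ) (M : ℕ) (s0 s1 : ℤ) (h0 : s0 ∈ S) (h1 : s1 ∈ S)
    (hle : ∀ v ∈ S, s0 ≤ v ∧ v ≤ s1) :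
    (s1 - s0 + M + 1 ≤ ((S + Icc (0 : ℤ) M).card : ℤ)) ∨
      S.card + 2 * M ≤ (S + Icc (0 : ℤ) M).card := by
  classical
  by_cases h : ∀ z ∈ Icc s0 (s1 + M), z ∈ S + Icc (0 : ℤ) M
  · left
    have h2 := card_le_card (show Icc s0 (s1 + M) ⊆ S + Icc (0 : ℤ) M from h)
    rw [Int.card_Icc] at h2
    have := (hle s0 h0).2
    omega
  · right
    push Not at h
    obtain ⟨z, hz, hz2⟩ := h
    rw [mem_Icc] at hz
    set S1 := S.filter (· < z - M) with hS1
    set S2 := S.filter (z < ·) with hS2
    have hmid : ∀ s ∈ S, s < z - M ∨ z < s := by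
      intro s hs
      by_contra hcon
      push Not at hcon
      apply hz2
      rw [mem_add]
      refine ⟨s, hs, z - s, ?_, by ring⟩
      rw [mem_Icc]
      omega
    have hc : S.card ≤ S1.card + S2.card := by
      have : S ⊆ S1 ∪ S2 := by
        intro s hs
        rw [mem_union, hS1, hS2, mem_filter, mem_filter]
        rcases hmid s hs with h | h
        · exact Or.inl ⟨hs, h⟩
        · exact Or.inr ⟨hs, h⟩
      exact (card_le_card this).trans (card_union_le _ _)
    have hn1 : S1.Nonempty := by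
      refine ⟨s0, mem_filter.2 ⟨h0, ?_⟩⟩
      rcases hmid s0 h0 with h | h
      · exact h
      · omega
    have hn2 : S2.Nonempty := by
      refine ⟨s1, mem_filter.2 ⟨h1, ?_⟩⟩
      rcases hmid s1 h1 with h | h
      · omega
      · exact h
    have hI : (Icc (0 : ℤ) M).Nonempty := ⟨0, by simp⟩
    have hIc : (Icc (0 : ℤ) M).card = M + 1 := by simp
    have c1 := cauchy_davenport_add_of_linearOrder_isCancelAdd hn1 hI
    have c2 := cauchy_davenport_add_of_linearOrder_isCancelAdd hn2 hI
    have hdisj : Disjoint (S1 + Icc (0 : ℤ) M) (S2 + Icc (0 : ℤ) M) := by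
      rw [disjoint_left]
      intro w hw hw'
      rw [mem_add] at hw hw'
      obtain ⟨x, hx, y, hy, rfl⟩ := hw
      obtain ⟨x', hx', y', hy', h3⟩ := hw'
      rw [hS1, mem_filter] at hx
      rw [hS2, mem_filter] at hx'
      rw [mem_Icc] at hy hy'
      omega
    have hsub : (S1 + Icc (0 : ℤ) M) ∪ (S2 + Icc (0 : ℤ) M) ⊆ S + Icc (0 : ℤ) M :=
      union_subset (add_subset_add_right (filter_subset _ _))
        (add_subset_add_right (filter_subset _ _))
    have h4 := card_le_card hsub
    rw [card_union_of_disjoint hdisj] at h4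
    have := card_pos.2 hn1
    have := card_pos.2 hn2
    omega

end

theorem esums_affine {V : Type} [Fintype V] {G : SimpleGraph V} {a b : V → ℤ} {p d : ℤ}
    (hd : d ≠ 0) (hab : ∀ v, a v = p + d * b v) :
    (esums G b).card = (esums G a).card := by
  classical
  have h1 : esums G a = (esums G b).image fun s => 2 * p + d * s := by
    ext z
    rw [mem_image]
    constructor
    · intro hz
      obtain ⟨x, y, hxy, rfl⟩ := mem_esums.1 hz
      refine ⟨b x + b y, mem_esums.2 ⟨x, y, hxy, rfl⟩, ?_⟩
      rw [hab, hab]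
      ring
    · rintro ⟨s, hs, rfl⟩
      obtain ⟨x, y, hxy, rfl⟩ := mem_esums.1 hs
      refine mem_esums.2 ⟨x, y, hxy, ?_⟩
      rw [hab, hab]
      ring
  rw [h1, card_image_of_injective]
  intro s s' hs
  have h2 : d * (s - s') = 0 := by
    simp only at hs
    linarith
  rcases mul_eq_zero.1 h2 with h3 | h3
  · exact absurd h3 hd
  · omega

theorem valid_affine {V : Type} [Fintype V] {G : SimpleGraph V} {a b : V → ℤ} {p d : ℤ}
    (hab : ∀ v, a v = p + d * b v) (ha : Valid G a) : Valid G b where
  inj := by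
    intro x y hxy
    apply ha.inj
    rw [hab, hab, hxy]
  sep := by
    intro u v x y huv hxy h
    refine ha.sep u v x y huv hxy ?_
    rw [hab, hab, hab u, hab v]
    linear_combination d * h

theorem exists_layout {V : Type} [Fintype V] [DecidableEq V] {G : SimpleGraph V} (U : Finset V)
    (hU : ∀ u ∈ U, ∀ v, v ≠ u → G.Adj u v) (t : ℕ) (ht : 1 ≤ t)
    (hbig : (2 * Uᶜ.card + 2 * t + 10) ^ 2 ≤ U.card) {a : V → ℤ} (ha : Valid G a)
    (hk : (esums G a).card + 6 ≤ 2 * Fintype.card V + 2 * t) :
    ∃ pos h, Layout G pos h ∧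
      (esums G fun v => (pos v : ℤ)).card = (esums G a).card ∧
      h ≤ Fintype.card V + Uᶜ.card + 2 * t + 10 := by
  classical
  have hn : Fintype.card V = U.card + Uᶜ.card := (card_add_card_compl U).symm
  set n' := Uᶜ.card with hn'
  set A := U.image a with hA
  have hAc : A.card = U.card := card_image_of_injective _ ha.inj
  have hUbig : 100 ≤ U.card := by nlinarith
  have hUbig2 : 2 * n' + 2 * t + 10 ≤ U.card := by nlinarith
  -- restricted sums of `A` are edge sums
  have hAE : (A.offDiag.image fun p => p.1 + p.2) ⊆ esums G a := by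
    intro z hz
    obtain ⟨⟨x, y⟩, hxy, rfl⟩ := mem_image.1 hz
    rw [mem_offDiag] at hxy
    obtain ⟨hx, hy, hne⟩ := hxy
    obtain ⟨u, hu, rfl⟩ := mem_image.1 hx
    obtain ⟨v, hv, rfl⟩ := mem_image.1 hy
    exact mem_esums.2 ⟨u, v, hU u hu v (fun h => hne (by rw [h])), rfl⟩
  obtain ⟨p, d, hd, hAP, hdvd⟩ := exists_ap A (2 * n' + 2 * t) (2 * n' + 2 * t + 4) (by omega)
    (by rw [hAc]; nlinarith) (by
      have := card_le_card hAE
      omega)
  -- all labels are congruent to `p` modulo `d`
  have hdvd' : ∀ x, d ∣ a x - p := by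
    intro x
    by_contra hx
    have hxU : x ∉ U := fun h => hx (hdvd _ (mem_image_of_mem a h))
    have hdisj : Disjoint (A.image fun s => a x + s) (A.offDiag.image fun p => p.1 + p.2) := by
      rw [disjoint_left]
      intro z hz hz'
      obtain ⟨s, hs, rfl⟩ := mem_image.1 hz
      obtain ⟨⟨y, y'⟩, hy, h1⟩ := mem_image.1 hz'
      rw [mem_offDiag] at hy
      apply hx
      have e : a x - p = (y - p) + (y' - p) - (s - p) := by
        simp only at h1
        linarith
      rw [e]
      exact dvd_sub (dvd_add (hdvd _ hy.1) (hdvd _ hy.2.1)) (hdvd _ hs)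
    have hsub : (A.image fun s => a x + s) ∪ (A.offDiag.image fun p => p.1 + p.2) ⊆ esums G a := by
      refine union_subset ?_ hAE
      intro z hz
      obtain ⟨s, hs, rfl⟩ := mem_image.1 hz
      obtain ⟨u, hu, rfl⟩ := mem_image.1 hs
      refine mem_esums.2 ⟨u, x, hU u hu x ?_, by ring⟩
      rintro rfl
      exact hxU hu
    have h1 := card_le_card hsub
    rw [card_union_of_disjoint hdisj, card_image_of_injective _ (add_right_injective _)] at h1
    have h2 := two_mul_card_le_restricted A (by omega)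
    omega
  choose b hb using hdvd'
  have hab : ∀ v, a v = p + d * b v := fun v => by
    have := hb v
    linarith
  have hd0 : d ≠ 0 := hd.ne'
  have hbV := valid_affine hab ha
  have hbc := esums_affine (G := G) hd0 hab
  have hP : ∀ j : ℕ, j ≤ 2 * n' + 2 * t + 4 → ∃ u ∈ U, b u = j := by
    intro j hj
    obtain ⟨u, hu, hau⟩ := mem_image.1 (hAP j hj)
    refine ⟨u, hu, ?_⟩
    rw [hab] at hau
    have : d * (b u - j) = 0 := by linarith
    rcases mul_eq_zero.1 this with h | h
    · exact absurd h hd0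
    · omega
  -- extreme labels
  have hVne : Nonempty V := by
    have : 0 < U.card := by omega
    obtain ⟨u, -⟩ := card_pos.1 this
    exact ⟨u⟩
  obtain ⟨v0, -, hv0⟩ := exists_min_image (univ : Finset V) b univ_nonempty
  obtain ⟨v1, -, hv1⟩ := exists_max_image (univ : Finset V) b univ_nonempty
  have hle : ∀ v, b v0 ≤ b v ∧ b v ≤ b v1 := fun v => ⟨hv0 v (mem_univ _), hv1 v (mem_univ _)⟩
  have hspread := spread_bound U hU hbV.inj (2 * n' + 2 * t + 4) hP (b v0) (b v1) ⟨v0, rfl⟩
    ⟨v1, rfl⟩ hle
  have hlarge := interval_or_large (univ.image b) (2 * n' + 2 * t + 4) (b v0) (b v1)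
    (mem_image_of_mem _ (mem_univ _)) (mem_image_of_mem _ (mem_univ _)) (by
      intro v hv
      obtain ⟨w, -, rfl⟩ := mem_image.1 hv
      exact hle w)
  rw [card_image_of_injective _ hbV.inj, card_univ] at hlarge
  have hh : b v1 - b v0 ≤ (Fintype.card V : ℤ) + n' + 2 * t + 10 := by
    rcases hlarge with h | h
    · omega
    · omega
  have hpos : ∀ v, ((b v - b v0).toNat : ℤ) = b v - b v0 := fun v =>
    Int.toNat_of_nonneg (by have := (hle v).1; omega)
  refine ⟨fun v => (b v - b v0).toNat, (b v1 - b v0).toNat, ?_, ?_, ?_⟩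
  · refine ⟨?_, ?_, ⟨v0, by simp⟩, ⟨v1, rfl⟩, ?_⟩
    · intro x y hxy
      apply hbV.inj
      have h1 := hpos x
      have h2 := hpos y
      have hxy' : (b x - b v0).toNat = (b y - b v0).toNat := hxy
      omega
    · intro v
      have h1 := hpos v
      have h2 := hpos v1
      have h3 := (hle v).2
      omega
    · intro u v x y huv hxy h
      refine hbV.sep u v x y huv hxy ?_
      have h1 := hpos u
      have h2 := hpos v
      have h3 := hpos x
      have h4 := hpos y
      have h' : (b x - b v0).toNat + (b y - b v0).toNat =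
        (b u - b v0).toNat + (b v - b v0).toNat := h
      omega
  · rw [← hbc]
    symm
    refine Eq.trans ?_ (esums_affine (G := G) (a := b)
      (b := fun v => (((b v - b v0).toNat : ℕ) : ℤ)) (p := b v0) (d := 1) one_ne_zero ?_).symm
    · rfl
    · intro v
      rw [hpos]
      ring
  · have h2 := hpos v1
    omega

end Pool.Agent.H82.SN
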