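import Pool.Agent.H82.SN.A1
import Pool.Agent.H82.SN.A4
import Pool.Agent.H82.SN.A10
import Pool.Agent.H82.SN.A11

/-!
# Module A12: the combinatorial reduction
-/

namespace Pool.Agent.H82.SN

open Finset

/-- The universal vertices. -/
def univV (c r T : ℕ) (m : Fin T → ℕ) : Finset (Vx c r T m) :=
  univ.image fun x : Fin r => Sum.inr (Sum.inr x)

theorem univV_adj {c r T : ℕ} {m : Fin T → ℕ} :
    ∀ u ∈ univV c r T m, ∀ v, v ≠ u → (redG c r T m).Adj u v := by
  intro u hu v hv
  obtain ⟨x, -, rfl⟩ := mem_image.1 hu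
  exact ⟨hv.symm, by rcases v with v | v | v <;> simp [nonAdj]⟩

theorem card_Vx12 (c r T : ℕ) (m : Fin T → ℕ) :
    Fintype.card (Vx c r T m) = c + ∑ i, m i + r := by
  simp [Vx, Fintype.card_sum, add_assoc]

theorem card_univV (c r T : ℕ) (m : Fin T → ℕ) : (univV c r T m).card = r := by
  unfold univV
  rw [card_image_of_injective _ (fun x y h => by simpa using h)]
  simp

theorem card_univV_compl (c r T : ℕ) (m : Fin T → ℕ) :
    (univV c r T m)ᶜ.card = c + ∑ i, m i := by
  rw [card_compl, card_Vx12, card_univV]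
  omega

theorem sumNumber_redG_iff {T g B t lam c r : ℕ} (w m : Fin T → ℕ)
    (hm : ∀ i, m i + 1 = lam * w i) (hw : ∀ i, 1 ≤ w i) (hodd : Odd (lam * B))
    (hsum : ∑ i, w i = g * B) (hT : T = g + t) (ht : 1 ≤ t)
    (hW : 100 * (t + 1) ≤ (univ.filter fun i => w i = B).card)
    (hlam : 100 * (g + t + 1) ≤ lam) (hc : 6 * t + 10 ≤ c)
    (hr : (2 * (c + ∑ i, m i) + 2 * t + 10) ^ 2 ≤ r) (k : ℕ)
    (hk : k + 6 = 2 * (c + ∑ i, m i + r) + 2 * t) :
    sumNumber (redG c r T m) ≤ k ↔ Packable w g B := by
  classical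
  have hr' : 2 * (c + ∑ i, m i) + 2 * t + 10 ≤ r :=
    (Nat.le_self_pow (by norm_num) _).trans hr
  have hB : 0 < B := by
    rcases Nat.eq_zero_or_pos B with h | h
    · subst h; simp at hodd
    · exact h
  have hg : 1 ≤ g := by
    rcases Nat.eq_zero_or_pos g with h | h
    · subst h
      have : ∀ i, w i = 0 := by
        intro i
        have := Finset.single_le_sum (f := w) (fun _ _ => Nat.zero_le _) (mem_univ i)
        omega
      have h2 : (univ.filter fun i => w i = B).card = 0 := by
        rw [card_eq_zero, filter_eq_empty_iff]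
        intro i _ hi
        have := this i
        omega
      omega
    · exact h
  rw [sumNumber_le_iff (univV c r T m) univV_adj
    (by rw [card_univV_compl, card_univV]; omega)]
  constructor
  · rintro ⟨a, ha, hcard⟩
    obtain ⟨pos, h, hL, hc', hh⟩ := exists_layout (univV c r T m) univV_adj t ht
      (by rw [card_univV_compl, card_univV]; exact hr) ha (by rw [card_Vx12]; omega)
    rw [card_Vx12, card_univV_compl] at hh
    exact packable_of_layout w m hm hw hodd hsum hT ht hW hlam hc hr hL hh (by omega)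
  · intro hp
    obtain ⟨a, ha, hcard⟩ := exists_valid_of_packable (c := c) (r := r) w m hm hw hodd hT ht hg
      (by omega) (by omega) (by omega) hp
    exact ⟨a, ha, by omega⟩

end Pool.Agent.H82.SN
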