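import Mathlib

/-!
# Module A2: few restricted sums force a long run
-/

namespace Pool.Agent.H82.SN

open Finset

/-- Sums of two distinct terms of `u 0, …, u R`. -/
def rsums (u : ℕ → ℤ) (R : ℕ) : Finset ℤ :=
  ((range (R + 1) ×ˢ range (R + 1)).filter fun p => p.1 < p.2).image fun p => u p.1 + u p.2

theorem mem_rsums {u : ℕ → ℤ} {R : ℕ} {s : ℤ} :
    s ∈ rsums u R ↔ ∃ i j, i < j ∧ j ≤ R ∧ s = u i + u j := by
  unfold rsums
  simp only [mem_image, mem_filter, mem_product, mem_range, Prod.exists]
  constructor
  · rintro ⟨i, j, ⟨⟨_, h2⟩, h3⟩, rfl⟩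
    exact ⟨i, j, h3, by omega, rfl⟩
  · rintro ⟨i, j, h1, h2, rfl⟩
    exact ⟨i, j, ⟨⟨by omega, by omega⟩, h1⟩, rfl⟩

theorem le_card_of_chain (c : ℕ → ℤ) (N : ℕ) (S : Finset ℤ) (h : ∀ t < N, c t ∈ S)
    (hm : ∀ s t, s < t → t < N → c s < c t) : N ≤ S.card := by
  have h1 : (range N).card ≤ S.card := by
    apply Finset.card_le_card_of_injOn c
    · intro t ht
      exact h t (by simpa using ht)
    · intro s hs t ht hst
      have hs' : s < N := by simpa using hs
      have ht' : t < N := by simpa using ht
      rcases lt_trichotomy s t with h1 | h1 | h1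
      · exact absurd hst (hm s t h1 ht').ne
      · exact h1
      · exact absurd hst (hm t s h1 hs').ne'
  simpa using h1

/-- Chain bound, lower part. -/
theorem card_rsums_le_ge (u : ℕ → ℤ) (R : ℕ) (hu : ∀ i j, i < j → j ≤ R → u i < u j) {i j : ℕ}
    (hij : i < j) (hj : j ≤ R) : i + j ≤ ((rsums u R).filter fun s => s ≤ u i + u j).card := by
  have hu' : ∀ a b, a ≤ b → b ≤ R → u a ≤ u b := by
    intro a b hab hb
    rcases hab.lt_or_eq with h | h
    · exact (hu a b h hb).le
    · rw [h]
  apply le_card_of_chain (fun t => if t < j then u 0 + u (t + 1) else u (t - j + 1) + u j)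
  · intro t ht
    rw [mem_filter, mem_rsums]
    by_cases h : t < j
    · simp only [h, if_true]
      refine ⟨⟨0, t + 1, by omega, by omega, rfl⟩, ?_⟩
      have h1 := hu' 0 i (by omega) (by omega)
      have h2 := hu' (t + 1) j (by omega) (by omega)
      linarith
    · simp only [h, if_false]
      refine ⟨⟨t - j + 1, j, by omega, by omega, rfl⟩, ?_⟩
      have h1 := hu' (t - j + 1) i (by omega) (by omega)
      linarith
  · intro s t hst ht
    by_cases h1 : s < j
    · by_cases h2 : t < j
      · simp only [h1, h2, if_true]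
        have := hu (s + 1) (t + 1) (by omega) (by omega)
        linarith
      · simp only [h1, h2, if_true, if_false]
        have e1 := hu 0 (t - j + 1) (by omega) (by omega)
        have e2 := hu' (s + 1) j (by omega) (by omega)
        linarith
    · have h2 : ¬ t < j := by omega
      simp only [h1, h2, if_false]
      have := hu (s - j + 1) (t - j + 1) (by omega) (by omega)
      linarith

/-- Chain bound, upper part. -/
theorem card_rsums_ge_ge (u : ℕ → ℤ) (R : ℕ) (hu : ∀ i j, i < j → j ≤ R → u i < u j) {i j : ℕ}
    (hij : i < j) (hj : j ≤ R) :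
    2 * R ≤ ((rsums u R).filter fun s => u i + u j ≤ s).card + (i + j) := by
  have hu' : ∀ a b, a ≤ b → b ≤ R → u a ≤ u b := by
    intro a b hab hb
    rcases hab.lt_or_eq with h | h
    · exact (hu a b h hb).le
    · rw [h]
  have key : 2 * R - (i + j) ≤ ((rsums u R).filter fun s => u i + u j ≤ s).card := by
    apply le_card_of_chain
      (fun t => if t ≤ R - j then u i + u (j + t) else u (i + (t - (R - j))) + u R)
    · intro t ht
      rw [mem_filter, mem_rsums]
      by_cases h : t ≤ R - j
      · simp only [h, if_true]
        refine ⟨⟨i, j + t, by omega, by omega, rfl⟩, ?_⟩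
        have h2 := hu' j (j + t) (by omega) (by omega)
        linarith
      · simp only [h, if_false]
        refine ⟨⟨i + (t - (R - j)), R, by omega, by omega, rfl⟩, ?_⟩
        have h1 := hu' i (i + (t - (R - j))) (by omega) (by omega)
        have h2 := hu' j R (by omega) (by omega)
        linarith
    · intro s t hst ht
      by_cases h1 : s ≤ R - j
      · by_cases h2 : t ≤ R - j
        · simp only [h1, h2, if_true]
          have := hu (j + s) (j + t) (by omega) (by omega)
          linarith
        · simp only [h1, h2, if_true, if_false]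
          have e1 := hu i (i + (t - (R - j))) (by omega) (by omega)
          have e2 := hu' (j + s) R (by omega) (by omega)
          linarith
      · have h2 : ¬ t ≤ R - j := by omega
        simp only [h1, h2, if_false]
        have := hu (i + (s - (R - j))) (i + (t - (R - j))) (by omega) (by omega)
        linarith
  omega

/-- the chain `u i + u (i+1)`, `u i + u (i+2)` -/
def blk (u : ℕ → ℤ) (t : ℕ) : ℤ :=
  if t % 2 = 0 then u (t / 2) + u (t / 2 + 1) else u (t / 2) + u (t / 2 + 2)

theorem blk_even (u : ℕ → ℤ) (i : ℕ) : blk u (2 * i) = u i + u (i + 1) := by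
  unfold blk
  have h1 : 2 * i % 2 = 0 := by omega
  have h2 : 2 * i / 2 = i := by omega
  simp only [h1, h2, if_true]

theorem blk_odd (u : ℕ → ℤ) (i : ℕ) : blk u (2 * i + 1) = u i + u (i + 2) := by
  unfold blk
  have h1 : ¬ ((2 * i + 1) % 2 = 0) := by omega
  have h2 : (2 * i + 1) / 2 = i := by omega
  simp only [h1, h2, if_false]

theorem blk_mono (u : ℕ → ℤ) (M : ℕ) (hu : ∀ i j, i < j → j ≤ M → u i < u j) :
    ∀ s t, s < t → t < 2 * M - 1 → blk u s < blk u t := by
  have hstep : ∀ t, t + 1 < 2 * M - 1 → blk u t < blk u (t + 1) := by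
    intro t ht
    rcases Nat.even_or_odd' t with ⟨i, hi | hi⟩
    · subst hi
      rw [blk_even, blk_odd]
      have := hu (i + 1) (i + 2) (by omega) (by omega)
      linarith
    · subst hi
      have h2 : 2 * i + 1 + 1 = 2 * (i + 1) := by ring
      rw [h2, blk_even, blk_odd]
      have := hu i (i + 1) (by omega) (by omega)
      have e : i + 1 + 1 = i + 2 := by ring
      rw [e]
      linarith
  intro s t hst
  induction t, hst using Nat.le_induction with
  | base => intro h; exact hstep s h
  | succ t ht ih =>
    intro h
    exact (ih (by omega)).trans (hstep t h)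

theorem blk_mem (u : ℕ → ℤ) (M : ℕ) : ∀ t < 2 * M - 1, blk u t ∈ rsums u M := by
  intro t ht
  rw [mem_rsums]
  rcases Nat.even_or_odd' t with ⟨i, hi | hi⟩
  · subst hi
    exact ⟨i, i + 1, by omega, by omega, blk_even u i⟩
  · subst hi
    exact ⟨i, i + 2, by omega, by omega, blk_odd u i⟩

/-- The equality case for a block: if `M ≥ 4` and `u 0 < ⋯ < u M` has at most `2 M - 1` restricted
sums then it is an arithmetic progression. -/
theorem ap_of_card_le (u : ℕ → ℤ) (M : ℕ) (hM : 4 ≤ M) (hu : ∀ i j, i < j → j ≤ M → u i < u j)
    (hcard : (rsums u M).card + 1 ≤ 2 * M) :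
    ∀ i < M, u (i + 1) - u i = u 1 - u 0 := by
  have hmono := blk_mono u M hu
  have hinj : Set.InjOn (blk u) (range (2 * M - 1)) := by
    intro s hs t ht hst
    have hs' : s < 2 * M - 1 := by simpa using hs
    have ht' : t < 2 * M - 1 := by simpa using ht
    rcases lt_trichotomy s t with h1 | h1 | h1
    · exact absurd hst (hmono s t h1 ht').ne
    · exact h1
    · exact absurd hst (hmono t s h1 hs').ne'
  have himg : (range (2 * M - 1)).image (blk u) = rsums u M := by
    apply Finset.eq_of_subset_of_card_le
    · intro s hs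
      rw [mem_image] at hs
      obtain ⟨t, ht, rfl⟩ := hs
      exact blk_mem u M t (by simpa using ht)
    · rw [Finset.card_image_of_injOn hinj, card_range]
      omega
  have hbetween : ∀ k s, k + 2 < 2 * M - 1 → s ∈ rsums u M → blk u k < s → s < blk u (k + 2) →
      s = blk u (k + 1) := by
    intro k s hk hs h1 h2
    rw [← himg, mem_image] at hs
    obtain ⟨t, ht, rfl⟩ := hs
    have ht' : t < 2 * M - 1 := by simpa using ht
    have h3 : k < t := by
      by_contra hcon
      rcases (not_lt.mp hcon).lt_or_eq with h | h
      · exact absurd h1 (not_lt.mpr (hmono t k h (by omega)).le)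
      · rw [h] at h1; exact lt_irrefl _ h1
    have h4 : t < k + 2 := by
      by_contra hcon
      rcases (not_lt.mp hcon).lt_or_eq with h | h
      · exact absurd h2 (not_lt.mpr (hmono (k + 2) t h ht').le)
      · rw [h] at h2; exact lt_irrefl _ h2
    have : t = k + 1 := by omega
    rw [this]
  have h2 : ∀ i, i + 3 ≤ M → u (i + 3) - u (i + 2) = u (i + 1) - u i := by
    intro i hi
    have e1 := blk_odd u i
    have e2 := blk_even u (i + 1)
    have e3 := blk_odd u (i + 1)
    have a1 : 2 * (i + 1) = 2 * i + 1 + 1 := by ring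
    have a2 : 2 * i + 1 + 1 + 1 = 2 * i + 1 + 2 := by ring
    rw [a1] at e2 e3
    rw [a2] at e3
    have hs : u i + u (i + 3) ∈ rsums u M := mem_rsums.mpr ⟨i, i + 3, by omega, hi, rfl⟩
    have g1 := hu (i + 2) (i + 3) (by omega) (by omega)
    have g2 := hu i (i + 1) (by omega) (by omega)
    have b1 : i + 1 + 1 = i + 2 := by ring
    have b2 : i + 1 + 2 = i + 3 := by ring
    rw [b1] at e2
    rw [b2] at e3
    have := hbetween (2 * i + 1) _ (by omega) hs (by rw [e1]; linarith) (by rw [e3]; linarith)
    rw [e2] at this
    linarith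
  have h3 : ∀ i, i + 4 ≤ M → u (i + 4) - u (i + 3) = u (i + 1) - u i := by
    intro i hi
    have e1 := blk_even u (i + 1)
    have e2 := blk_odd u (i + 1)
    have e3 := blk_even u (i + 2)
    have a1 : 2 * (i + 2) = 2 * (i + 1) + 2 := by ring
    rw [a1] at e3
    have b1 : i + 1 + 1 = i + 2 := by ring
    have b2 : i + 1 + 2 = i + 3 := by ring
    have b3 : i + 2 + 1 = i + 3 := by ring
    rw [b1] at e1
    rw [b2] at e2
    rw [b3] at e3
    have k1 := h2 i (by omega)
    have k2 := h2 (i + 1) (by omega)
    have b4 : i + 1 + 3 = i + 4 := by ring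
    rw [b1, b2, b4] at k2
    have hs : u i + u (i + 4) ∈ rsums u M := mem_rsums.mpr ⟨i, i + 4, by omega, hi, rfl⟩
    have g1 := hu (i + 3) (i + 4) (by omega) (by omega)
    have g2 := hu i (i + 1) (by omega) (by omega)
    have := hbetween (2 * (i + 1)) _ (by omega) hs (by rw [e1]; linarith) (by rw [e3]; linarith)
    rw [e2] at this
    linarith
  have h01 : u 2 - u 1 = u 1 - u 0 := by
    have k1 := h3 0 (by omega)
    have k2 := h2 1 (by omega)
    norm_num at k1 k2
    linarith
  intro i
  induction i using Nat.strong_induction_on with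
  | _ i ih =>
    intro hi
    match i, ih, hi with
    | 0, _, _ => rfl
    | 1, _, _ => exact h01
    | (i + 2), ih, hi =>
      have k := h2 i (by omega)
      have := ih i (by omega) (by omega)
      have e : i + 2 + 1 = i + 3 := by ring
      rw [e, k, this]

theorem exists_run (u : ℕ → ℤ) (R e M : ℕ) (hu : ∀ i j, i < j → j ≤ R → u i < u j) (hM : 4 ≤ M)
    (hR : (e + 1) * M ≤ R) (hcard : (rsums u R).card + 1 ≤ 2 * R + e) :
    ∃ (i₀ : ℕ) (d : ℤ), 0 < d ∧ i₀ + M ≤ R ∧ ∀ j : ℕ, j ≤ M → u (i₀ + j) = u i₀ + j * d := by
  have hu' : ∀ a b, a ≤ b → b ≤ R → u a ≤ u b := by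
    intro a b hab hb
    rcases hab.lt_or_eq with h | h
    · exact (hu a b h hb).le
    · rw [h]
  by_contra hcon
  push Not at hcon
  -- no block is an AP
  have hblock : ∀ m, m + M ≤ R → 2 * M ≤ (rsums (fun t => u (m + t)) M).card := by
    intro m hm
    by_contra hlt
    have hmono : ∀ i j, i < j → j ≤ M → u (m + i) < u (m + j) := by
      intro i j hij hj
      exact hu _ _ (by omega) (by omega)
    have hap := ap_of_card_le (fun t => u (m + t)) M hM hmono (by omega)
    have hd : 0 < u (m + 1) - u m := by
      have := hu m (m + 1) (by omega) (by omega)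
      linarith
    obtain ⟨j, hj, hne⟩ := hcon m (u (m + 1) - u m) hd hm
    apply hne
    have : ∀ j : ℕ, j ≤ M → u (m + j) = u m + j * (u (m + 1) - u m) := by
      intro j
      induction j with
      | zero => intro _; simp
      | succ j ih =>
        intro hj
        have h1 := ih (by omega)
        have h2 := hap j (by omega)
        simp only [Nat.add_zero] at h2
        have e1 : m + (j + 1) = m + j + 1 := by ring
        rw [← e1] at *
        push_cast
        linarith
    exact this j hj
  -- adding a block
  have hadd : ∀ m, 1 ≤ m → m + M ≤ R →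
      (rsums u m).card + 2 * M + 1 ≤ (rsums u (m + M)).card := by
    intro m hm hmR
    have hb := hblock m hmR
    have hsub : rsums u m ∪ ({u (m - 1) + u (m + 1)} ∪ rsums (fun t => u (m + t)) M)
        ⊆ rsums u (m + M) := by
      intro s hs
      rw [mem_union, mem_union, mem_singleton] at hs
      rw [mem_rsums]
      rcases hs with hs | hs | hs
      · obtain ⟨i, j, h1, h2, rfl⟩ := mem_rsums.mp hs
        exact ⟨i, j, h1, by omega, rfl⟩
      · exact ⟨m - 1, m + 1, by omega, by omega, hs⟩
      · obtain ⟨i, j, h1, h2, rfl⟩ := mem_rsums.mp hs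
        exact ⟨m + i, m + j, by omega, by omega, rfl⟩
    have hle1 : ∀ s ∈ rsums u m, s ≤ u (m - 1) + u m := by
      intro s hs
      obtain ⟨i, j, h1, h2, rfl⟩ := mem_rsums.mp hs
      have a1 := hu' i (m - 1) (by omega) (by omega)
      have a2 := hu' j m (by omega) (by omega)
      linarith
    have hle3 : ∀ s ∈ rsums (fun t => u (m + t)) M, u m + u (m + 1) ≤ s := by
      intro s hs
      obtain ⟨i, j, h1, h2, rfl⟩ := mem_rsums.mp hs
      have a1 := hu' m (m + i) (by omega) (by omega)
      have a2 := hu' (m + 1) (m + j) (by omega) (by omega)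
      linarith
    have g1 := hu m (m + 1) (by omega) (by omega)
    have g2 := hu (m - 1) m (by omega) (by omega)
    have hd2 : Disjoint ({u (m - 1) + u (m + 1)} : Finset ℤ) (rsums (fun t => u (m + t)) M) := by
      rw [disjoint_singleton_left]
      intro h
      have := hle3 _ h
      linarith
    have hd1 : Disjoint (rsums u m)
        ({u (m - 1) + u (m + 1)} ∪ rsums (fun t => u (m + t)) M) := by
      rw [disjoint_left]
      intro s hs hs2
      have a1 := hle1 s hs
      rw [mem_union, mem_singleton] at hs2
      rcases hs2 with h | h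
      · rw [h] at a1; linarith
      · have := hle3 s h
        linarith
    have := Finset.card_le_card hsub
    rw [card_union_of_disjoint hd1, card_union_of_disjoint hd2, card_singleton] at this
    omega
  have hone : ∀ m, 1 ≤ m → m + 1 ≤ R → (rsums u m).card + 2 ≤ (rsums u (m + 1)).card := by
    intro m hm hmR
    have g1 := hu m (m + 1) (by omega) (by omega)
    have g2 := hu (m - 1) m (by omega) (by omega)
    have hsub : rsums u m ∪ {u (m - 1) + u (m + 1), u m + u (m + 1)} ⊆ rsums u (m + 1) := by
      intro s hs
      rw [mem_union, mem_insert, mem_singleton] at hs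
      rw [mem_rsums]
      rcases hs with hs | hs | hs
      · obtain ⟨i, j, h1, h2, rfl⟩ := mem_rsums.mp hs
        exact ⟨i, j, h1, by omega, rfl⟩
      · exact ⟨m - 1, m + 1, by omega, by omega, hs⟩
      · exact ⟨m, m + 1, by omega, by omega, hs⟩
    have hd1 : Disjoint (rsums u m) {u (m - 1) + u (m + 1), u m + u (m + 1)} := by
      rw [disjoint_left]
      intro s hs hs2
      obtain ⟨i, j, h1, h2, rfl⟩ := mem_rsums.mp hs
      have a1 := hu' i (m - 1) (by omega) (by omega)
      have a2 := hu' j m (by omega) (by omega)
      rw [mem_insert, mem_singleton] at hs2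
      rcases hs2 with h | h <;> linarith
    have hc : ({u (m - 1) + u (m + 1), u m + u (m + 1)} : Finset ℤ).card = 2 := by
      apply card_pair
      intro h
      linarith
    have := Finset.card_le_card hsub
    rw [card_union_of_disjoint hd1, hc] at this
    exact this
  have hblocks : ∀ k, k ≤ e → 2 * ((k + 1) * M) + k ≤ (rsums u ((k + 1) * M)).card := by
    intro k
    induction k with
    | zero =>
      intro _
      have h0 : (0 + 1) * M ≤ R := le_trans (Nat.mul_le_mul_right M (by omega)) hR
      have h1 := hblock 0 (by omega)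
      have h2 : (fun t => u (0 + t)) = u := by
        funext t
        rw [Nat.zero_add]
      rw [h2] at h1
      simpa using h1
    | succ k ih =>
      intro hk
      have h1 := ih (by omega)
      have h2 : (k + 1) * M + M ≤ R := by
        have : (k + 1) * M + M = (k + 2) * M := by ring
        rw [this]
        exact le_trans (Nat.mul_le_mul_right M (by omega)) hR
      have h3 := hadd ((k + 1) * M) (by nlinarith) h2
      have h4 : (k + 1 + 1) * M = (k + 1) * M + M := by ring
      rw [h4]
      omega
  have htail : ∀ r, (e + 1) * M + r ≤ R →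
      2 * ((e + 1) * M) + e + 2 * r ≤ (rsums u ((e + 1) * M + r)).card := by
    intro r
    induction r with
    | zero =>
      intro _
      have := hblocks e le_rfl
      simpa using this
    | succ r ih =>
      intro hr
      have h1 := ih (by omega)
      have h2 := hone ((e + 1) * M + r) (by nlinarith) (by omega)
      have h3 : (e + 1) * M + (r + 1) = (e + 1) * M + r + 1 := by ring
      rw [h3]
      omega
  have hfin := htail (R - (e + 1) * M) (by omega)
  have hR' : (e + 1) * M + (R - (e + 1) * M) = R := by omega
  rw [hR'] at hfin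
  omega

end Pool.Agent.H82.SN
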