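import Pool.Agent.H82.SN.A2

/-!
# Module A3: all gaps are divisible by the difference of the run
-/

namespace Pool.Agent.H82.SN

open Finset

theorem gaps_dvd_left (u : ℕ → ℤ) (R e M i₀ : ℕ) (d : ℤ)
    (hu : ∀ i j, i < j → j ≤ R → u i < u j)
    (hM : e + 3 ≤ M) (hi₀ : i₀ + M ≤ R)
    (hrun : ∀ j : ℕ, j ≤ M → u (i₀ + j) = u i₀ + j * d)
    (hcard : (rsums u R).card + 1 ≤ 2 * R + e) : ∀ i, i + 1 ≤ i₀ → d ∣ u (i + 1) - u i := by
  intro i hi
  by_contra hnd
  have hu' : ∀ a b, a ≤ b → b ≤ R → u a ≤ u b := by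
    intro a b hab hb
    rcases hab.lt_or_eq with h | h
    · exact (hu a b h hb).le
    · rw [h]
  have hlow := card_rsums_le_ge u R hu (i := i) (j := i₀ + 1) (by omega) (by omega)
  have hhigh := card_rsums_ge_ge u R hu (i := i + 1) (j := i₀ + M) (by omega) (by omega)
  set L := (rsums u R).filter fun s => s ≤ u i + u (i₀ + 1) with hL
  set U := (rsums u R).filter fun s => u (i + 1) + u (i₀ + M) ≤ s with hU
  set P := (range (M - 1)).image fun t => u i + u (i₀ + 2 + t) with hP
  set Q := (range (M - 1)).image fun t => u (i + 1) + u (i₀ + 1 + t) with hQ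
  have hPc : P.card = M - 1 := by
    rw [hP, Finset.card_image_of_injOn, card_range]
    intro s hs t ht hst
    have hs' : s < M - 1 := by simpa using hs
    have ht' : t < M - 1 := by simpa using ht
    simp only at hst
    rcases lt_trichotomy s t with h1 | h1 | h1
    · have := hu (i₀ + 2 + s) (i₀ + 2 + t) (by omega) (by omega)
      linarith
    · exact h1
    · have := hu (i₀ + 2 + t) (i₀ + 2 + s) (by omega) (by omega)
      linarith
  have hQc : Q.card = M - 1 := by
    rw [hQ, Finset.card_image_of_injOn, card_range]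
    intro s hs t ht hst
    have hs' : s < M - 1 := by simpa using hs
    have ht' : t < M - 1 := by simpa using ht
    simp only at hst
    rcases lt_trichotomy s t with h1 | h1 | h1
    · have := hu (i₀ + 1 + s) (i₀ + 1 + t) (by omega) (by omega)
      linarith
    · exact h1
    · have := hu (i₀ + 1 + t) (i₀ + 1 + s) (by omega) (by omega)
      linarith
  have hui := hu i (i + 1) (by omega) (by omega)
  have hPbd : ∀ s ∈ P, u i + u (i₀ + 1) < s ∧ s < u (i + 1) + u (i₀ + M) := by
    intro s hs
    rw [hP, mem_image] at hs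
    obtain ⟨t, ht, rfl⟩ := hs
    have ht' : t < M - 1 := by simpa using ht
    have h1 := hu (i₀ + 1) (i₀ + 2 + t) (by omega) (by omega)
    have h2 := hu' (i₀ + 2 + t) (i₀ + M) (by omega) (by omega)
    constructor <;> linarith
  have hQbd : ∀ s ∈ Q, u i + u (i₀ + 1) < s ∧ s < u (i + 1) + u (i₀ + M) := by
    intro s hs
    rw [hQ, mem_image] at hs
    obtain ⟨t, ht, rfl⟩ := hs
    have ht' : t < M - 1 := by simpa using ht
    have h1 := hu' (i₀ + 1) (i₀ + 1 + t) (by omega) (by omega)
    have h2 := hu (i₀ + 1 + t) (i₀ + M) (by omega) (by omega)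
    constructor <;> linarith
  have hPQ : Disjoint P Q := by
    rw [disjoint_left]
    intro s hsP hsQ
    rw [hP, mem_image] at hsP
    rw [hQ, mem_image] at hsQ
    obtain ⟨t, ht, rfl⟩ := hsP
    obtain ⟨t', ht', heq⟩ := hsQ
    have h1 : t < M - 1 := by simpa using ht
    have h2 : t' < M - 1 := by simpa using ht'
    have e1 := hrun (2 + t) (by omega)
    have e2 := hrun (1 + t') (by omega)
    have a1 : i₀ + (2 + t) = i₀ + 2 + t := by ring
    have a2 : i₀ + (1 + t') = i₀ + 1 + t' := by ring
    rw [a1] at e1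
    rw [a2] at e2
    apply hnd
    refine ⟨((2 + t : ℕ) : ℤ) - ((1 + t' : ℕ) : ℤ), ?_⟩
    rw [e1, e2] at heq
    linarith
  have hPsub : P ⊆ rsums u R := by
    intro s hs
    rw [hP, mem_image] at hs
    obtain ⟨t, ht, rfl⟩ := hs
    have ht' : t < M - 1 := by simpa using ht
    exact mem_rsums.mpr ⟨i, i₀ + 2 + t, by omega, by omega, rfl⟩
  have hQsub : Q ⊆ rsums u R := by
    intro s hs
    rw [hQ, mem_image] at hs
    obtain ⟨t, ht, rfl⟩ := hs
    have ht' : t < M - 1 := by simpa using ht
    exact mem_rsums.mpr ⟨i + 1, i₀ + 1 + t, by omega, by omega, rfl⟩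
  have hsub : L ∪ (U ∪ (P ∪ Q)) ⊆ rsums u R := by
    intro s hs
    simp only [mem_union] at hs
    rcases hs with h | h | h | h
    · exact (mem_filter.mp h).1
    · exact (mem_filter.mp h).1
    · exact hPsub h
    · exact hQsub h
  have hbig : u i + u (i₀ + 1) < u (i + 1) + u (i₀ + M) := by
    have := hu' (i₀ + 1) (i₀ + M) (by omega) (by omega)
    linarith
  have hd2 : Disjoint U (P ∪ Q) := by
    rw [disjoint_left]
    intro s h1 h2
    have h3 := (mem_filter.mp h1).2
    rcases mem_union.mp h2 with h | h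
    · have := (hPbd s h).2; linarith
    · have := (hQbd s h).2; linarith
  have hd1 : Disjoint L (U ∪ (P ∪ Q)) := by
    rw [disjoint_left]
    intro s h1 h2
    have h3 := (mem_filter.mp h1).2
    simp only [mem_union] at h2
    rcases h2 with h | h | h
    · have := (mem_filter.mp h).2; linarith
    · have := (hPbd s h).1; linarith
    · have := (hQbd s h).1; linarith
  have htot := Finset.card_le_card hsub
  rw [card_union_of_disjoint hd1, card_union_of_disjoint hd2, card_union_of_disjoint hPQ, hPc,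
    hQc] at htot
  omega

theorem gaps_dvd (u : ℕ → ℤ) (R e M i₀ : ℕ) (d : ℤ) (hu : ∀ i j, i < j → j ≤ R → u i < u j)
    (hd : 0 < d) (hM : e + 3 ≤ M) (hi₀ : i₀ + M ≤ R)
    (hrun : ∀ j : ℕ, j ≤ M → u (i₀ + j) = u i₀ + j * d)
    (hcard : (rsums u R).card + 1 ≤ 2 * R + e) : ∀ i < R, d ∣ u (i + 1) - u i := by
  intro i hi
  by_cases h1 : i + 1 ≤ i₀
  · exact gaps_dvd_left u R e M i₀ d hu hM hi₀ hrun hcard i h1
  by_cases h2 : i < i₀ + M
  · have e1 := hrun (i - i₀) (by omega)
    have e2 := hrun (i - i₀ + 1) (by omega)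
    have a1 : i₀ + (i - i₀) = i := by omega
    have a2 : i₀ + (i - i₀ + 1) = i + 1 := by omega
    rw [a1] at e1
    rw [a2] at e2
    refine ⟨1, ?_⟩
    rw [e1, e2]
    push_cast
    ring
  · -- reflect
    have hu2 : ∀ i j, i < j → j ≤ R → (fun k => -u (R - k)) i < (fun k => -u (R - k)) j := by
      intro i j hij hj
      have := hu (R - j) (R - i) (by omega) (by omega)
      simp only
      linarith
    have hrun2 : ∀ j : ℕ, j ≤ M → (fun k => -u (R - k)) (R - (i₀ + M) + j)
        = (fun k => -u (R - k)) (R - (i₀ + M)) + j * d := by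
      intro j hj
      simp only
      have e1 := hrun (M - j) (by omega)
      have e2 := hrun M le_rfl
      have a1 : R - (R - (i₀ + M) + j) = i₀ + (M - j) := by omega
      have a2 : R - (R - (i₀ + M)) = i₀ + M := by omega
      rw [a1, a2, e1, e2]
      have a3 : ((M - j : ℕ) : ℤ) = (M : ℤ) - j := by
        rw [Nat.cast_sub hj]
      rw [a3]
      ring
    have hr : rsums (fun k => -u (R - k)) R = (rsums u R).image (fun s => -s) := by
      ext s
      rw [mem_image, mem_rsums]
      constructor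
      · rintro ⟨a, b, hab, hb, rfl⟩
        refine ⟨u (R - b) + u (R - a), mem_rsums.mpr ⟨R - b, R - a, by omega, by omega, rfl⟩, ?_⟩
        ring
      · rintro ⟨t, ht, rfl⟩
        obtain ⟨a, b, hab, hb, rfl⟩ := mem_rsums.mp ht
        refine ⟨R - b, R - a, by omega, by omega, ?_⟩
        have a1 : R - (R - b) = b := by omega
        have a2 : R - (R - a) = a := by omega
        rw [a1, a2]
        ring
    have hcard2 : (rsums (fun k => -u (R - k)) R).card + 1 ≤ 2 * R + e := by
      rw [hr, Finset.card_image_of_injective _ neg_injective]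
      exact hcard
    have := gaps_dvd_left (fun k => -u (R - k)) R e M (R - (i₀ + M)) d hu2 hM (by omega)
      hrun2 hcard2 (R - 1 - i) (by omega)
    have a1 : R - (R - 1 - i + 1) = i := by omega
    have a2 : R - (R - 1 - i) = i + 1 := by omega
    rw [a1, a2] at this
    have e3 : -u i - -u (i + 1) = u (i + 1) - u i := by ring
    rwa [e3] at this

/-- Finite set version of `exists_run` and `gaps_dvd`. -/
theorem exists_ap (A : Finset ℤ) (e M : ℕ) (hM : e + 4 ≤ M) (hR : (e + 1) * M + 1 ≤ A.card)
    (hsum : (A.offDiag.image fun p => p.1 + p.2).card + 3 ≤ 2 * A.card + e) :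
    ∃ p d : ℤ, 0 < d ∧ (∀ j : ℕ, j ≤ M → p + j * d ∈ A) ∧ ∀ x ∈ A, d ∣ x - p := by
  classical
  set n := A.card with hn
  let u : ℕ → ℤ := fun i => if h : i < n then A.orderEmbOfFin hn.symm ⟨i, h⟩ else 0
  have hui : ∀ i (h : i < n), u i = A.orderEmbOfFin hn.symm ⟨i, h⟩ := by
    intro i h
    simp only [u, h, dif_pos]
  have hu : ∀ i j, i < j → j ≤ n - 1 → u i < u j := by
    intro i j hij hj
    rw [hui i (by omega), hui j (by omega)]
    apply (A.orderEmbOfFin hn.symm).strictMono
    exact hij
  have hmem : ∀ i, i < n → u i ∈ A := by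
    intro i h
    rw [hui i h]
    exact A.orderEmbOfFin_mem hn.symm _
  have hsurj : ∀ x ∈ A, ∃ i, i < n ∧ u i = x := by
    intro x hx
    have : x ∈ Set.range (A.orderEmbOfFin hn.symm) := by
      rw [Finset.range_orderEmbOfFin]; exact hx
    obtain ⟨i, hi⟩ := this
    exact ⟨i.val, i.isLt, by rw [hui _ i.isLt]; exact hi⟩
  have hsub : rsums u (n - 1) ⊆ A.offDiag.image fun p => p.1 + p.2 := by
    intro s hs
    obtain ⟨i, j, hij, hj, rfl⟩ := mem_rsums.mp hs
    rw [mem_image]
    refine ⟨(u i, u j), ?_, rfl⟩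
    rw [mem_offDiag]
    exact ⟨hmem i (by omega), hmem j (by omega), (hu i j hij hj).ne⟩
  have hcard : (rsums u (n - 1)).card + 1 ≤ 2 * (n - 1) + e := by
    have := Finset.card_le_card hsub
    omega
  obtain ⟨i₀, d, hd, hi₀, hrun⟩ := exists_run u (n - 1) e M hu (by omega) (by omega) hcard
  have hg := gaps_dvd u (n - 1) e M i₀ d hu hd (by omega) hi₀ hrun hcard
  refine ⟨u i₀, d, hd, ?_, ?_⟩
  · intro j hj
    rw [← hrun j hj]
    exact hmem _ (by omega)
  · have hall : ∀ k, k ≤ n - 1 → d ∣ u k - u 0 := by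
      intro k
      induction k with
      | zero => intro _; simp
      | succ k ih =>
        intro hk
        have h1 := ih (by omega)
        have h2 := hg k (by omega)
        have : u (k + 1) - u 0 = (u (k + 1) - u k) + (u k - u 0) := by ring
        rw [this]
        exact dvd_add h2 h1
    intro x hx
    obtain ⟨k, hk, rfl⟩ := hsurj x hx
    have h1 := hall k (by omega)
    have h2 := hall i₀ (by omega)
    have : u k - u i₀ = (u k - u 0) - (u i₀ - u 0) := by ring
    rw [this]
    exact dvd_sub h1 h2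

end Pool.Agent.H82.SN
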