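import Pool.Agent.H82.SN.Defs

/-!
# Module A5: counting missing sums and holes of a layout; the two ends
-/

namespace Pool.Agent.H82.SN

open Finset

variable {V : Type} [Fintype V] {G : SimpleGraph V} {pos : V → ℕ} {h : ℕ}

theorem A5_mem_holes {V : Type} {pos : V → ℕ} {h p : ℕ} :
    p ∈ holes pos h ↔ p ≤ h ∧ ∀ v, pos v ≠ p := by
  classical
  simp [holes]

theorem A5_mem_miss {V : Type} {G : SimpleGraph V} {pos : V → ℕ} {h s : ℕ} :
    s ∈ miss G pos h ↔ 1 ≤ s ∧ s ≤ 2 * h - 1 ∧ ∀ x y, G.Adj x y → pos x + pos y ≠ s := by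
  classical
  simp [miss, and_assoc]

theorem card_holes (hL : Layout G pos h) : (holes pos h).card + Fintype.card V = h + 1 := by
  classical
  have e1 : holes pos h = (range (h + 1)) \ (univ.image pos) := by
    ext p
    rw [A5_mem_holes]
    simp only [mem_sdiff, mem_range, mem_image, mem_univ, true_and, not_exists]
    constructor
    · rintro ⟨h1, h2⟩
      exact ⟨by omega, h2⟩
    · rintro ⟨h1, h2⟩
      exact ⟨by omega, h2⟩
  have e2 : univ.image pos ⊆ range (h + 1) := by
    intro p hp
    simp only [mem_image, mem_univ, true_and] at hp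
    obtain ⟨v, rfl⟩ := hp
    exact mem_range.2 (Nat.lt_succ_of_le (hL.le v))
  have e3 : (univ.image pos).card = Fintype.card V := by
    rw [card_image_of_injective _ hL.inj]; rfl
  rw [e1, card_sdiff_of_subset e2, e3, card_range]
  have e4 := card_le_card e2
  rw [e3, card_range] at e4
  omega

theorem card_esums (hL : Layout G pos h) (hh : 1 ≤ h) :
    (esums G fun v => (pos v : ℤ)).card + (miss G pos h).card + 1 = 2 * h := by
  classical
  set E : Finset ℕ := (Icc 1 (2 * h - 1)).filter fun s => ¬ ∀ x y, G.Adj x y → pos x + pos y ≠ s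
    with hE
  have e1 : esums G (fun v => (pos v : ℤ)) = E.image (fun s : ℕ => (s : ℤ)) := by
    ext s
    rw [mem_esums]
    simp only [hE, mem_image, mem_filter, mem_Icc]
    constructor
    · rintro ⟨x, y, hxy, rfl⟩
      refine ⟨pos x + pos y, ⟨⟨?_, ?_⟩, ?_⟩, by push_cast; rfl⟩
      · have h1 : pos x ≠ pos y := fun h' => hxy.ne (hL.inj h')
        omega
      · have h1 : pos x ≠ pos y := fun h' => hxy.ne (hL.inj h')
        have h2 := hL.le x
        have h3 := hL.le y
        omega
      · intro h'
        exact h' x y hxy rfl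
    · rintro ⟨t, ⟨_, ht⟩, rfl⟩
      push Not at ht
      obtain ⟨x, y, hxy, h'⟩ := ht
      exact ⟨x, y, hxy, by rw [← h']; push_cast; rfl⟩
  have e2 : (esums G fun v => (pos v : ℤ)).card = E.card := by
    rw [e1, card_image_of_injective]
    exact Nat.cast_injective
  have e3 : (miss G pos h).card + E.card = (Icc 1 (2 * h - 1)).card := by
    have e4 : miss G pos h = (Icc 1 (2 * h - 1)).filter
        fun s => ∀ x y, G.Adj x y → pos x + pos y ≠ s := by
      ext s
      rw [A5_mem_miss, mem_filter, mem_Icc, and_assoc]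
    rw [hE, e4]
    exact card_filter_add_card_filter_not _
  rw [Nat.card_Icc] at e3
  omega

/-- The sum of two distinct non-adjacent vertices is missing. -/
theorem mem_miss_of_not_adj (hL : Layout G pos h) {x y : V} (hxy : x ≠ y) (hn : ¬ G.Adj x y) :
    pos x + pos y ∈ miss G pos h := by
  rw [A5_mem_miss]
  have h1 : pos x ≠ pos y := fun h' => hxy (hL.inj h')
  have h2 := hL.le x
  have h3 := hL.le y
  refine ⟨by omega, by omega, ?_⟩
  intro u v huv h'
  exact hn (hL.sep u v x y huv hxy h'.symm)

/-- Missing sums are near the left end or near the right end. -/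
theorem miss_small [DecidableEq V] (hL : Layout G pos h) (U : Finset V)
    (hU : ∀ u ∈ U, ∀ v, v ≠ u → G.Adj u v) {s : ℕ} (hs : s ∈ miss G pos h) (hsh : s ≤ h) :
    s ≤ 2 * (holes pos h).card + Uᶜ.card := by
  rw [A5_mem_miss] at hs
  obtain ⟨_, _, hs3⟩ := hs
  have hsub : range (s + 1) ⊆ ((holes pos h ∪ Uᶜ.image pos) ∪ (holes pos h).image (fun p => s - p))
      ∪ {s / 2} := by
    intro x hx
    rw [mem_range] at hx
    by_cases h1 : ∀ v, pos v ≠ x
    · refine mem_union_left _ (mem_union_left _ (mem_union_left _ ?_))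
      rw [A5_mem_holes]
      exact ⟨by omega, h1⟩
    · push Not at h1
      obtain ⟨u, hu⟩ := h1
      by_cases h2 : u ∈ U
      · by_cases h3 : x = s - x
        · refine mem_union_right _ ?_
          rw [mem_singleton]
          omega
        · refine mem_union_left _ (mem_union_right _ ?_)
          rw [mem_image]
          refine ⟨s - x, ?_, by omega⟩
          rw [A5_mem_holes]
          refine ⟨by omega, ?_⟩
          intro v hv
          have hne : v ≠ u := by
            rintro rfl
            omega
          exact hs3 u v (hU u h2 v hne) (by omega)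
      · refine mem_union_left _ (mem_union_left _ (mem_union_right _ ?_))
        rw [mem_image]
        exact ⟨u, by simpa using h2, hu⟩
  have h1 := card_le_card hsub
  rw [card_range] at h1
  have h2 := card_union_le ((holes pos h ∪ Uᶜ.image pos) ∪ (holes pos h).image (fun p => s - p))
      {s / 2}
  have h3 := card_union_le (holes pos h ∪ Uᶜ.image pos) ((holes pos h).image (fun p => s - p))
  have h4 := card_union_le (holes pos h) (Uᶜ.image pos)
  have h5 : (Uᶜ.image pos).card ≤ Uᶜ.card := card_image_le
  have h6 : ((holes pos h).image (fun p => s - p)).card ≤ (holes pos h).card := card_image_le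
  have h7 : ({s / 2} : Finset ℕ).card = 1 := card_singleton _
  omega

theorem Layout.reflect (hL : Layout G pos h) : Layout G (fun v => h - pos v) h := by
  refine ⟨?_, ?_, ?_, ?_, ?_⟩
  · intro x y hxy
    have h1 := hL.le x
    have h2 := hL.le y
    apply hL.inj
    have hxy' : h - pos x = h - pos y := hxy
    omega
  · intro v
    exact Nat.sub_le _ _
  · obtain ⟨v, hv⟩ := hL.top
    exact ⟨v, by rw [hv]; exact Nat.sub_self h⟩
  · obtain ⟨v, hv⟩ := hL.zero
    exact ⟨v, by rw [hv]; exact Nat.sub_zero h⟩
  · intro u v x y huv hxy h'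
    have h1 := hL.le x
    have h2 := hL.le y
    have h3 := hL.le u
    have h4 := hL.le v
    refine hL.sep u v x y huv hxy ?_
    have h'' : h - pos x + (h - pos y) = h - pos u + (h - pos v) := h'
    omega

theorem miss_reflect (hL : Layout G pos h) :
    miss G (fun v => h - pos v) h = (miss G pos h).image fun s => 2 * h - s := by
  classical
  ext s
  rw [A5_mem_miss, mem_image]
  constructor
  · rintro ⟨h1, h2, h3⟩
    refine ⟨2 * h - s, ?_, by omega⟩
    rw [A5_mem_miss]
    refine ⟨by omega, by omega, ?_⟩
    intro x y hxy h'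
    have h4 := hL.le x
    have h5 := hL.le y
    exact h3 x y hxy (by omega)
  · rintro ⟨t, ht, rfl⟩
    rw [A5_mem_miss] at ht
    obtain ⟨h1, h2, h3⟩ := ht
    refine ⟨by omega, by omega, ?_⟩
    intro x y hxy h'
    have h4 := hL.le x
    have h5 := hL.le y
    exact h3 x y hxy (by omega)

theorem holes_reflect (hL : Layout G pos h) :
    holes (fun v => h - pos v) h = (holes pos h).image fun p => h - p := by
  classical
  ext p
  rw [A5_mem_holes, mem_image]
  constructor
  · rintro ⟨h1, h2⟩
    refine ⟨h - p, ?_, by omega⟩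
    rw [A5_mem_holes]
    refine ⟨by omega, ?_⟩
    intro v hv
    have h3 := hL.le v
    exact h2 v (by omega)
  · rintro ⟨t, ht, rfl⟩
    rw [A5_mem_holes] at ht
    obtain ⟨h1, h2⟩ := ht
    refine ⟨by omega, ?_⟩
    intro v hv
    have h3 := hL.le v
    exact h2 v (by omega)

open Classical in
/-- The missing sums at the left end are holes, or positions of `H`-neighbours of the vertex at
position `0`. -/
theorem left_miss_le (hL : Layout G pos h) {z : ℕ} (hz : z ≤ h) {v₀ : V}
    (hv₀ : pos v₀ = 0) :
    ((miss G pos h).filter fun s => s ≤ z).card ≤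
      ((holes pos h).filter fun p => p ≤ z).card +
        (univ.filter fun y => y ≠ v₀ ∧ ¬ G.Adj v₀ y).card := by
  have hsub : ((miss G pos h).filter fun s => s ≤ z) ⊆ ((holes pos h).filter fun p => p ≤ z) ∪
      (univ.filter fun y => y ≠ v₀ ∧ ¬ G.Adj v₀ y).image pos := by
    intro s hs
    rw [mem_filter, A5_mem_miss] at hs
    obtain ⟨⟨h1, h2, h3⟩, h4⟩ := hs
    by_cases h5 : ∀ v, pos v ≠ s
    · refine mem_union_left _ ?_
      rw [mem_filter, A5_mem_holes]
      exact ⟨⟨by omega, h5⟩, h4⟩
    · push Not at h5
      obtain ⟨y, hy⟩ := h5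
      refine mem_union_right _ ?_
      rw [mem_image]
      refine ⟨y, ?_, hy⟩
      rw [mem_filter]
      refine ⟨mem_univ _, ?_, ?_⟩
      · rintro rfl
        omega
      · intro hadj
        exact h3 v₀ y hadj (by omega)
  refine (card_le_card hsub).trans ((card_union_le _ _).trans ?_)
  exact Nat.add_le_add_left card_image_le _

end Pool.Agent.H82.SN
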