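import Pool.Agent.H82.SN.A5

/-!
# Module A6: the zone that contains the clique
-/

namespace Pool.Agent.H82.SN

open Finset

/-- Number of restricted sums. -/
theorem A6_restricted (P Q : Finset ℕ) (hP : 2 ≤ P.card)
    (hQ : ∀ x ∈ P, ∀ y ∈ P, x ≠ y → x + y ∈ Q) : 2 * P.card ≤ Q.card + 3 := by
  classical
  have hne : P.Nonempty := Finset.card_pos.1 (by omega)
  have hab : P.min' hne < P.max' hne := Finset.min'_lt_max'_of_card _ (by omega)
  have ha : P.min' hne ∈ P := P.min'_mem hne
  have hb : P.max' hne ∈ P := P.max'_mem hne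
  generalize hadef : P.min' hne = a at hab ha
  generalize hbdef : P.max' hne = b at hab hb
  have hle : ∀ x ∈ P, x ≤ b := fun x hx => hbdef ▸ P.le_max' x hx
  have hge : ∀ x ∈ P, a ≤ x := fun x hx => hadef ▸ P.min'_le x hx
  have c1 : ((P.erase a).image (fun x => a + x)).card = P.card - 1 := by
    rw [Finset.card_image_of_injective _ (fun x y h => by simpa using h),
      Finset.card_erase_of_mem ha]
  have hb' : b ∈ P.erase a := Finset.mem_erase.2 ⟨by omega, hb⟩
  have c2 : (((P.erase a).erase b).image (fun x => b + x)).card = P.card - 2 := by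
    rw [Finset.card_image_of_injective _ (fun x y h => by simpa using h),
      Finset.card_erase_of_mem hb', Finset.card_erase_of_mem ha]
    omega
  have hdisj : Disjoint ((P.erase a).image (fun x => a + x))
      (((P.erase a).erase b).image (fun x => b + x)) := by
    rw [Finset.disjoint_left]
    intro s h1 h2
    rw [Finset.mem_image] at h1 h2
    obtain ⟨x, hx, rfl⟩ := h1
    obtain ⟨y, hy, hxy⟩ := h2
    rw [Finset.mem_erase] at hx
    rw [Finset.mem_erase, Finset.mem_erase] at hy
    have h3 := hle x hx.2
    have h4 := hge y hy.2.2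
    have h5 := hy.2.1
    omega
  have hsub : ((P.erase a).image (fun x => a + x)) ∪
      (((P.erase a).erase b).image (fun x => b + x)) ⊆ Q := by
    intro s hs
    rw [Finset.mem_union, Finset.mem_image, Finset.mem_image] at hs
    rcases hs with ⟨x, hx, rfl⟩ | ⟨x, hx, rfl⟩
    · rw [Finset.mem_erase] at hx
      exact hQ a ha x hx.2 (Ne.symm hx.1)
    · rw [Finset.mem_erase, Finset.mem_erase] at hx
      exact hQ b hb x hx.2.2 (Ne.symm hx.1)
  have := Finset.card_le_card hsub
  rw [Finset.card_union_of_disjoint hdisj, c1, c2] at this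
  omega

theorem A6_mem_holes {V : Type} (pos : V → ℕ) (h p : ℕ) :
    p ∈ holes pos h ↔ p < h + 1 ∧ ∀ v, pos v ≠ p := by
  simp [holes]

theorem A6_mem_miss {V : Type} (G : SimpleGraph V) (pos : V → ℕ) (h s : ℕ) :
    s ∈ miss G pos h ↔ (1 ≤ s ∧ s ≤ 2 * h - 1) ∧ ∀ x y, G.Adj x y → pos x + pos y ≠ s := by
  simp [miss]

open Classical in
theorem cliqueZone {V : Type} [Fintype V] {G : SimpleGraph V} {pos : V → ℕ} {h z κ : ℕ}
    (hL : Layout G pos h) (hz : 2 * z < h) (hmiss : ∀ s ∈ miss G pos h, s ≤ h → s ≤ z)
    (hedge : ∀ x y, x ≠ y → ¬ G.Adj x y → pos x ≤ z → pos x + pos y ≤ z)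
    (K : Finset V) (hK : ∀ x ∈ K, ∀ y ∈ K, ¬ G.Adj x y)
    (hKout : ∀ x ∈ K, ∀ y, y ∉ K → G.Adj x y)
    (hdeg : ∀ x, x ∉ K → (univ.filter fun y => y ≠ x ∧ ¬ G.Adj x y).card ≤ 2)
    (hKz : ∀ x ∈ K, pos x ≤ z) (hc : 3 * κ + 10 ≤ K.card)
    (hcost : 2 * ((holes pos h).filter fun p => p ≤ z).card ≤
      ((miss G pos h).filter fun s => s ≤ z).card + κ) :
    ((miss G pos h).filter fun s => s ≤ z).card ≤
        2 * ((holes pos h).filter fun p => p ≤ z).card + 1 ∧
      (univ.filter fun x => x ∉ K ∧ pos x ≤ z ∧ ∃ y, y ≠ x ∧ ¬ G.Adj x y).card ≤ κ + 1 := by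
  generalize hQdef : (miss G pos h).filter (fun s => s ≤ z) = Q at hcost ⊢
  generalize hRdef : (holes pos h).filter (fun p => p ≤ z) = R at hcost ⊢
  have memQ : ∀ s, s ∈ Q ↔ s ∈ miss G pos h ∧ s ≤ z := by
    intro s
    rw [← hQdef, Finset.mem_filter]
  have memR : ∀ p, p ∈ R ↔ p ≤ z ∧ ∀ v, pos v ≠ p := by
    intro p
    rw [← hRdef, Finset.mem_filter, A6_mem_holes]
    constructor
    · rintro ⟨⟨_, h1⟩, h2⟩
      exact ⟨h2, h1⟩
    · rintro ⟨h1, h2⟩
      exact ⟨⟨by omega, h2⟩, h1⟩
  -- a missing sum is not an edge sum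
  have notAdj : ∀ s ∈ Q, ∀ x y, pos x + pos y = s → ¬ G.Adj x y := by
    intro s hs x y hxy hadj
    have h1 := ((memQ s).1 hs).1
    rw [A6_mem_miss] at h1
    exact h1.2 x y hadj hxy
  have Qpos : ∀ s ∈ Q, 1 ≤ s := by
    intro s hs
    have h1 := ((memQ s).1 hs).1
    rw [A6_mem_miss] at h1
    exact h1.1.1
  have Qof : ∀ x y, x ≠ y → ¬ G.Adj x y → pos x + pos y ≤ h → pos x + pos y ∈ Q := by
    intro x y hxy hn hle
    have h1 := mem_miss_of_not_adj hL hxy hn
    exact (memQ _).2 ⟨h1, hmiss _ h1 hle⟩
  -- positions of the clique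
  generalize hPdef : K.image pos = P
  have hPcard : P.card = K.card := by
    rw [← hPdef]
    exact Finset.card_image_of_injective _ hL.inj
  have memP : ∀ p, p ∈ P ↔ ∃ x ∈ K, pos x = p := by
    intro p
    rw [← hPdef, Finset.mem_image]
  have PPQ : ∀ x ∈ P, ∀ y ∈ P, x ≠ y → x + y ∈ Q := by
    intro x hx y hy hxy
    obtain ⟨u, hu, rfl⟩ := (memP x).1 hx
    obtain ⟨v, hv, rfl⟩ := (memP y).1 hy
    have h1 := hKz u hu
    have h2 := hKz v hv
    exact Qof u v (fun e => hxy (by rw [e])) (hK u hu v hv) (by omega)
  have hq : 2 * P.card ≤ Q.card + 3 := A6_restricted P Q (by omega) PPQ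
  obtain ⟨v₀, hv₀⟩ := hL.zero
  have hleft := left_miss_le hL (show z ≤ h by omega) hv₀
  rw [hQdef, hRdef] at hleft
  have hv₀K : v₀ ∈ K := by
    by_contra hv
    have h1 := hdeg v₀ hv
    have h2 : (univ.filter fun y => y ≠ v₀ ∧ ¬ G.Adj v₀ y).card ≤ 2 := h1
    omega
  have hnb : (univ.filter fun y => y ≠ v₀ ∧ ¬ G.Adj v₀ y).card ≤ K.card - 1 := by
    rw [← Finset.card_erase_of_mem hv₀K]
    apply Finset.card_le_card
    intro y hy
    rw [Finset.mem_filter] at hy
    rw [Finset.mem_erase]
    refine ⟨hy.2.1, ?_⟩
    by_contra hyK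
    exact hy.2.2 (hKout v₀ hv₀K y hyK)
  have hqe : Q.card ≤ R.card + (K.card - 1) := by omega
  have h0P : 0 ∈ P := (memP 0).2 ⟨v₀, hv₀K, hv₀⟩
  refine ⟨by omega, ?_⟩
  -- elements of `Q` are holes or positions of the clique
  have QsubRP : ∀ s ∈ Q, s ∈ R ∨ s ∈ P := by
    intro s hs
    by_cases hocc : ∀ v, pos v ≠ s
    · exact Or.inl ((memR s).2 ⟨((memQ s).1 hs).2, hocc⟩)
    · right
      push Not at hocc
      obtain ⟨y, hy⟩ := hocc
      have h1 : ¬ G.Adj v₀ y := notAdj s hs v₀ y (by omega)
      have h2 : y ∈ K := by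
        by_contra hyK
        exact h1 (hKout v₀ hv₀K y hyK)
      exact (memP s).2 ⟨y, h2, hy⟩
  -- few positions of the clique are not in `Q`
  have hPQ : ((P.erase 0) \ Q).card ≤ κ + 1 := by
    have h1 : (Q \ P).card ≤ R.card := by
      apply Finset.card_le_card
      intro s hs
      rw [Finset.mem_sdiff] at hs
      rcases QsubRP s hs.1 with h | h
      · exact h
      · exact absurd h hs.2
    have h2 : (Q \ P).card + (Q ∩ P).card = Q.card := by
      rw [add_comm]
      exact Finset.card_inter_add_card_sdiff Q P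
    have h3 : ((P.erase 0) \ Q).card + ((P.erase 0) ∩ Q).card = (P.erase 0).card := by
      rw [add_comm]
      exact Finset.card_inter_add_card_sdiff (P.erase 0) Q
    have h4 : (P.erase 0) ∩ Q = Q ∩ P := by
      ext s
      rw [Finset.mem_inter, Finset.mem_erase, Finset.mem_inter]
      constructor
      · rintro ⟨⟨_, h1⟩, h2⟩
        exact ⟨h2, h1⟩
      · rintro ⟨h1, h2⟩
        have := Qpos s h1
        exact ⟨⟨by omega, h2⟩, h1⟩
    rw [h4, Finset.card_erase_of_mem h0P] at h3
    omega
  have hne : P.Nonempty := ⟨0, h0P⟩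
  obtain ⟨M, hM, hMmax⟩ : ∃ M ∈ P, ∀ x ∈ P, x ≤ M :=
    ⟨P.max' hne, P.max'_mem hne, fun x hx => P.le_max' x hx⟩
  have hM0 : 0 < M := by
    by_contra hM0
    have h1 : P ⊆ {0} := by
      intro x hx
      have := hMmax x hx
      rw [Finset.mem_singleton]
      omega
    have := Finset.card_le_card h1
    rw [Finset.card_singleton] at this
    omega
  have hMz : M ≤ z := by
    obtain ⟨u, hu, hu2⟩ := (memP M).1 hM
    rw [← hu2]
    exact hKz u hu
  -- the holes `M + k`
  have hMP0 : M ∈ P.erase 0 := Finset.mem_erase.2 ⟨by omega, hM⟩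
  generalize hHdef : ((P.erase 0).erase M).image (fun k => M + k) = H
  have hHcard : H.card = K.card - 2 := by
    rw [← hHdef, Finset.card_image_of_injective _ (fun x y h => by simpa using h),
      Finset.card_erase_of_mem hMP0, Finset.card_erase_of_mem h0P, hPcard]
    omega
  have memH : ∀ s, s ∈ H ↔ ∃ k ∈ P, k ≠ 0 ∧ k ≠ M ∧ M + k = s := by
    intro s
    rw [← hHdef, Finset.mem_image]
    constructor
    · rintro ⟨k, hk, rfl⟩
      rw [Finset.mem_erase, Finset.mem_erase] at hk
      exact ⟨k, hk.2.2, hk.2.1, hk.1, rfl⟩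
    · rintro ⟨k, h1, h2, h3, rfl⟩
      exact ⟨k, Finset.mem_erase.2 ⟨h3, Finset.mem_erase.2 ⟨h2, h1⟩⟩, rfl⟩
  have hHR : ∀ s ∈ H, s ∈ R ∧ M < s ∧ s < 2 * M := by
    intro s hs
    obtain ⟨k, h1, h2, h3, rfl⟩ := (memH s).1 hs
    have h4 := hMmax k h1
    have h5 : M + k ∈ Q := PPQ M hM k h1 (Ne.symm h3)
    refine ⟨?_, by omega, by omega⟩
    rcases QsubRP _ h5 with h | h
    · exact h
    · have := hMmax _ h
      omega
  -- occupied positions up to `M` belong to the clique
  have hocc : ∀ x, pos x ≤ M → x ∈ K := by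
    intro x hxM
    by_contra hxK
    generalize hz0 : pos x = z₀ at hxM
    have hz0P : z₀ ∉ P := by
      intro h1
      obtain ⟨u, hu, hu2⟩ := (memP z₀).1 h1
      have : u = x := hL.inj (by omega)
      exact hxK (this ▸ hu)
    have hz0M : z₀ < M := by
      rcases Nat.lt_or_ge z₀ M with h | h
      · exact h
      · exact absurd ((by omega : M = z₀) ▸ hM) hz0P
    -- non-neighbours of x
    have hnx := hdeg x hxK
    generalize hNdef : (univ.filter fun y => y ≠ x ∧ ¬ G.Adj x y) = N at hnx
    have key : ∀ s ∈ Q, z₀ < s → s ≠ 2 * z₀ → s - z₀ ∈ R ∨ s - z₀ ∈ N.image pos := by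
      intro s hs h1 h2
      by_cases hoc : ∀ v, pos v ≠ s - z₀
      · left
        have := ((memQ s).1 hs).2
        exact (memR _).2 ⟨by omega, hoc⟩
      · right
        push Not at hoc
        obtain ⟨y, hy⟩ := hoc
        rw [Finset.mem_image]
        refine ⟨y, ?_, hy⟩
        rw [← hNdef, Finset.mem_filter]
        refine ⟨Finset.mem_univ _, ?_, notAdj s hs x y (by omega)⟩
        rintro rfl
        omega
    have hNc : (N.image pos).card ≤ 2 := Finset.card_image_le.trans hnx
    -- number of elements of Q above z₀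
    have hQz : (Q.filter fun s => z₀ < s).card ≤ R.card + 3 := by
      have h1 : (Q.filter fun s => z₀ < s) ⊆
          ((R ∪ N.image pos).image fun t => t + z₀) ∪ {2 * z₀} := by
        intro s hs
        rw [Finset.mem_filter] at hs
        rw [Finset.mem_union, Finset.mem_image, Finset.mem_singleton]
        by_cases h2 : s = 2 * z₀
        · exact Or.inr h2
        · left
          refine ⟨s - z₀, ?_, by omega⟩
          rw [Finset.mem_union]
          exact key s hs.1 hs.2 h2
      refine (Finset.card_le_card h1).trans ?_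
      refine (Finset.card_union_le _ _).trans ?_
      rw [Finset.card_singleton]
      have h3 := Finset.card_image_le (s := R ∪ N.image pos) (f := fun t => t + z₀)
      have h4 := Finset.card_union_le R (N.image pos)
      omega
    -- split at M
    have hsplit : (Q.filter fun s => z₀ < s ∧ s < M).card + (K.card - 1) ≤
        (Q.filter fun s => z₀ < s).card := by
      have h1 : ((P.erase M).image fun k => M + k).card = K.card - 1 := by
        rw [Finset.card_image_of_injective _ (fun x y h => by simpa using h),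
          Finset.card_erase_of_mem hM, hPcard]
      rw [← h1, ← Finset.card_union_of_disjoint]
      · apply Finset.card_le_card
        intro s hs
        rw [Finset.mem_union, Finset.mem_filter, Finset.mem_image] at hs
        rw [Finset.mem_filter]
        rcases hs with ⟨h2, h3, h4⟩ | ⟨k, hk, rfl⟩
        · exact ⟨h2, h3⟩
        · rw [Finset.mem_erase] at hk
          exact ⟨PPQ M hM k hk.2 (Ne.symm hk.1), by omega⟩
      · rw [Finset.disjoint_left]
        intro s hs1 hs2
        rw [Finset.mem_filter] at hs1
        rw [Finset.mem_image] at hs2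
        obtain ⟨k, _, rfl⟩ := hs2
        omega
    have hKmid : (P.filter fun s => z₀ < s ∧ s < M).card ≤ 2 * κ + 4 := by
      have h1 : (P.filter fun s => z₀ < s ∧ s < M) ⊆
          (Q.filter fun s => z₀ < s ∧ s < M) ∪ ((P.erase 0) \ Q) := by
        intro s hs
        rw [Finset.mem_filter] at hs
        rw [Finset.mem_union, Finset.mem_filter, Finset.mem_sdiff, Finset.mem_erase]
        by_cases h2 : s ∈ Q
        · exact Or.inl ⟨h2, hs.2⟩
        · exact Or.inr ⟨⟨by omega, hs.1⟩, h2⟩
      have h2 := (Finset.card_le_card h1).trans (Finset.card_union_le _ _)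
      omega
    -- elements of P below z₀
    have hbelow : K.card ≤ (P.filter fun s => s < z₀).card + (2 * κ + 5) := by
      have h1 : P ⊆ (P.filter fun s => s < z₀) ∪
          ((P.filter fun s => z₀ < s ∧ s < M) ∪ {M}) := by
        intro s hs
        rw [Finset.mem_union, Finset.mem_union, Finset.mem_filter, Finset.mem_filter,
          Finset.mem_singleton]
        have h2 := hMmax s hs
        have h3 : s ≠ z₀ := fun e => hz0P (e ▸ hs)
        rcases Nat.lt_or_ge s z₀ with h4 | h4
        · exact Or.inl ⟨hs, h4⟩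
        · right
          by_cases h5 : s = M
          · exact Or.inr h5
          · exact Or.inl ⟨hs, by omega, by omega⟩
      have h2 := (Finset.card_le_card h1).trans (Finset.card_union_le _ _)
      have h3 := Finset.card_union_le (P.filter fun s => z₀ < s ∧ s < M) {M}
      rw [Finset.card_singleton] at h3
      omega
    -- holes below M
    have hholes : (P.filter fun s => s < z₀).card ≤ (R.filter fun p => p < M).card + 3 := by
      have h0 : ((P.filter fun s => s < z₀).image fun k => M + k - z₀).card =
          (P.filter fun s => s < z₀).card := by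
        apply Finset.card_image_of_injOn
        intro k1 _ k2 _ h12
        simp only at h12
        omega
      rw [← h0]
      have h1 : ((P.filter fun s => s < z₀).image fun k => M + k - z₀) ⊆
          (R.filter fun p => p < M) ∪ (N.image pos ∪ {z₀}) := by
        intro s hs
        rw [Finset.mem_image] at hs
        obtain ⟨k, hk, rfl⟩ := hs
        rw [Finset.mem_filter] at hk
        rw [Finset.mem_union, Finset.mem_union, Finset.mem_filter, Finset.mem_singleton]
        have h2 : M + k ∈ Q := PPQ M hM k hk.1 (by omega)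
        by_cases h3 : M + k = 2 * z₀
        · right; right
          omega
        · rcases key _ h2 (by omega) h3 with h4 | h4
          · exact Or.inl ⟨h4, by omega⟩
          · exact Or.inr (Or.inl h4)
      have h2 := (Finset.card_le_card h1).trans (Finset.card_union_le _ _)
      have h3 := Finset.card_union_le (N.image pos) {z₀}
      rw [Finset.card_singleton] at h3
      omega
    have htotal : (R.filter fun p => p < M).card + H.card ≤ R.card := by
      rw [← Finset.card_union_of_disjoint]
      · apply Finset.card_le_card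
        intro s hs
        rw [Finset.mem_union, Finset.mem_filter] at hs
        rcases hs with h1 | h1
        · exact h1.1
        · exact (hHR s h1).1
      · rw [Finset.disjoint_left]
        intro s hs1 hs2
        rw [Finset.mem_filter] at hs1
        have := (hHR s hs2).2.1
        omega
    omega
  -- length of the clique part
  have hMle : M ≤ K.card + κ := by
    have h1 : (Finset.range (M + 1)) ⊆ P ∪ (R.filter fun p => p ≤ M) := by
      intro s hs
      rw [Finset.mem_range] at hs
      rw [Finset.mem_union, Finset.mem_filter]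
      by_cases hoc : ∀ v, pos v ≠ s
      · exact Or.inr ⟨(memR s).2 ⟨by omega, hoc⟩, by omega⟩
      · push Not at hoc
        obtain ⟨y, hy⟩ := hoc
        exact Or.inl ((memP s).2 ⟨y, hocc y (by omega), hy⟩)
    have h2 := (Finset.card_le_card h1).trans (Finset.card_union_le _ _)
    rw [Finset.card_range] at h2
    have h3 : (R.filter fun p => p ≤ M).card + H.card ≤ R.card := by
      rw [← Finset.card_union_of_disjoint]
      · apply Finset.card_le_card
        intro s hs
        rw [Finset.mem_union, Finset.mem_filter] at hs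
        rcases hs with h1 | h1
        · exact h1.1
        · exact (hHR s h1).1
      · rw [Finset.disjoint_left]
        intro s hs1 hs2
        rw [Finset.mem_filter] at hs1
        have := (hHR s hs2).2.1
        omega
    omega
  -- the vertices in question are at positions in (M, 2M)
  have hmain : ∀ x, x ∉ K → pos x ≤ z → (∃ y, y ≠ x ∧ ¬ G.Adj x y) →
      M < pos x ∧ pos x < 2 * M := by
    intro x hxK hxz hy
    obtain ⟨y, hyx, hadj⟩ := hy
    have hyK : y ∉ K := by
      intro hyK
      exact hadj (hKout y hyK x hxK).symm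
    have hxM : M < pos x := by
      by_contra h1
      exact hxK (hocc x (by omega))
    have hyM : M < pos y := by
      by_contra h1
      exact hyK (hocc y (by omega))
    have hs := hedge x y (Ne.symm hyx) hadj hxz
    have hsQ : pos x + pos y ∈ Q := Qof x y (Ne.symm hyx) hadj (by omega)
    refine ⟨hxM, ?_⟩
    by_contra hge
    have h0 : (P.image fun k => pos x + pos y - k).card = P.card := by
      apply Finset.card_image_of_injOn
      intro k1 hk1 k2 hk2 h12
      have h1 := hMmax k1 (by simpa using hk1)
      have h2 := hMmax k2 (by simpa using hk2)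
      simp only at h12
      omega
    have h1 : (P.image fun k => pos x + pos y - k).card + H.card ≤ R.card := by
      rw [← Finset.card_union_of_disjoint]
      · apply Finset.card_le_card
        intro s hs'
        rw [Finset.mem_union, Finset.mem_image] at hs'
        rcases hs' with ⟨k, hk, rfl⟩ | h1
        · have hkM := hMmax k hk
          refine (memR _).2 ⟨by omega, ?_⟩
          intro w hw
          obtain ⟨u, hu, hu2⟩ := (memP k).1 hk
          have h2 : ¬ G.Adj u w := notAdj _ hsQ u w (by omega)
          have h3 : w ∈ K := by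
            by_contra hwK
            exact h2 (hKout u hu w hwK)
          have h4 := hMmax (pos w) ((memP _).2 ⟨w, h3, rfl⟩)
          omega
        · exact (hHR s h1).1
      · rw [Finset.disjoint_left]
        intro s hs1 hs2
        rw [Finset.mem_image] at hs1
        obtain ⟨k, hk, rfl⟩ := hs1
        have hkM := hMmax k hk
        have := (hHR _ hs2).2.2
        omega
    omega
  -- count
  have hfin : ((univ.filter fun x => x ∉ K ∧ pos x ≤ z ∧ ∃ y, y ≠ x ∧ ¬ G.Adj x y).image pos).card
      + H.card ≤ (Finset.Ioo M (2 * M)).card := by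
    rw [← Finset.card_union_of_disjoint]
    · apply Finset.card_le_card
      intro s hs
      rw [Finset.mem_union, Finset.mem_image] at hs
      rw [Finset.mem_Ioo]
      rcases hs with ⟨x, hx, rfl⟩ | h1
      · rw [Finset.mem_filter] at hx
        exact hmain x hx.2.1 hx.2.2.1 hx.2.2.2
      · exact (hHR s h1).2
    · rw [Finset.disjoint_left]
      intro s hs1 hs2
      rw [Finset.mem_image] at hs1
      obtain ⟨x, _, rfl⟩ := hs1
      exact ((memR _).1 (hHR _ hs2).1).2 x rfl
  rw [Finset.card_image_of_injective _ hL.inj, Nat.card_Ioo] at hfin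
  omega

end Pool.Agent.H82.SN
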