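import Pool.Agent.H82.SN.PZDefs

/-!
# Module A7: counting in a path zone
-/

namespace Pool.Agent.H82.SN

open Finset

variable {T : ℕ} {m : Fin T → ℕ} {P : Fin T → ℕ → ℕ} {U Q : Finset ℕ} {a b : ℕ}

theorem a7_mem_occ {x : ℕ} : x ∈ occ m P U ↔ x ∈ U ∨ ∃ i, ∃ l < m i, P i l = x := by
  simp only [occ, mem_union, mem_biUnion, mem_univ, true_and, mem_image, mem_range]

theorem a7_occ_P (i : Fin T) {l : ℕ} (hl : l < m i) : P i l ∈ occ m P U :=
  a7_mem_occ.2 (Or.inr ⟨i, l, hl, rfl⟩)

theorem a7_mem_holes {x : ℕ} : x ∈ holesZ m P U b ↔ x ≤ b ∧ x ∉ occ m P U := by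
  simp only [holesZ, mem_filter, mem_range, Nat.lt_succ_iff]

theorem a7_cons_symm {x y : ℕ} (h : Cons m P x y) : Cons m P y x := by
  obtain ⟨i, l, hl, h1⟩ := h
  exact ⟨i, l, hl, h1.symm⟩

theorem a7_anti (h : PZ m P U Q a b) {s x y : ℕ} (hs : s ∈ Q) (hx : x ∈ occ m P U)
    (hy : y ∈ occ m P U) (hne : x ≠ y) (hsum : x + y = s) : Cons m P x y := by
  rcases Nat.lt_or_gt_of_ne hne with h1 | h1
  · exact h.anti s hs x hx y hy h1 hsum
  · exact a7_cons_symm (h.anti s hs y hy x hx h1 (by omega))

theorem a7_cons_P (h : PZ m P U Q a b) (i : Fin T) {l y : ℕ} (hl : l < m i)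
    (hc : Cons m P (P i l) y) : (l + 1 < m i ∧ y = P i (l + 1)) ∨ (1 ≤ l ∧ y = P i (l - 1)) := by
  obtain ⟨i', l', hl', ⟨h1, h2⟩ | ⟨h1, h2⟩⟩ := hc
  · obtain ⟨rfl, rfl⟩ := h.inj i i' l l' hl (by omega) h1
    exact Or.inl ⟨hl', h2⟩
  · obtain ⟨rfl, rfl⟩ := h.inj i i' l (l' + 1) hl (by omega) h2
    exact Or.inr ⟨by omega, by simpa using h1⟩

theorem a7_cons_U (h : PZ m P U Q a b) {x y : ℕ} (hx : x ∈ U) (hc : Cons m P x y) : False := by
  obtain ⟨i', l', hl', ⟨h1, h2⟩ | ⟨h1, h2⟩⟩ := hc
  · exact h.disj i' l' (by omega) (h1 ▸ hx)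
  · exact h.disj i' (l' + 1) (by omega) (h2 ▸ hx)

theorem a7_Q_le_b (h : PZ m P U Q a b) {s : ℕ} (hs : s ∈ Q) : s ≤ b := by
  have := h.hab
  rcases h.top s hs with h1 | h1 <;> omega

/-- every path vertex has a neighbour -/
theorem a7_exists_nbr (h : PZ m P U Q a b) (i : Fin T) {l : ℕ} (hl : l < m i) :
    ∃ k, k < m i ∧ k ≠ l ∧ P i l + P i k ∈ Q := by
  have h5 := h.five i
  by_cases h1 : l + 1 < m i
  · exact ⟨l + 1, h1, by omega, h.edge i l h1⟩
  · refine ⟨l - 1, by omega, by omega, ?_⟩
    have := h.edge i (l - 1) (by omega)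
    rwa [Nat.sub_add_cancel (by omega : 1 ≤ l), add_comm] at this

/-- All path vertices are in `[0, b]`. -/
theorem P_le (h : PZ m P U Q a b) (i : Fin T) {l : ℕ} (hl : l < m i) : P i l ≤ b := by
  obtain ⟨k, _, _, hk⟩ := a7_exists_nbr h i hl
  have := a7_Q_le_b h hk
  omega

/-- All occupied positions are in `[0, b]`. -/
theorem occ_le (h : PZ m P U Q a b) {x : ℕ} (hx : x ∈ occ m P U) : x ≤ b := by
  rcases a7_mem_occ.1 hx with h1 | ⟨i, l, hl, rfl⟩
  · exact h.Ule x h1
  · exact P_le h i hl

/-- splitting a sum over a set of positions into paths, universal vertices, holes -/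
theorem a7_split (h : PZ m P U Q a b) {X : Finset ℕ} (hX : ∀ x ∈ X, x ≤ b) (g : ℕ → ℕ) :
    ∑ x ∈ X, g x = (∑ i, ∑ l ∈ (range (m i)).filter (fun l => P i l ∈ X), g (P i l)) +
      ∑ x ∈ U ∩ X, g x + ∑ x ∈ holesZ m P U b ∩ X, g x := by
  classical
  have hX1 : X = ((univ.biUnion fun i => ((range (m i)).filter (fun l => P i l ∈ X)).image (P i)) ∪
      (U ∩ X)) ∪ (holesZ m P U b ∩ X) := by
    ext x
    simp only [mem_union, mem_inter, mem_biUnion, mem_univ, true_and, mem_image, mem_filter,
      mem_range, a7_mem_holes]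
    constructor
    · intro hx
      by_cases ho : x ∈ occ m P U
      · rcases a7_mem_occ.1 ho with h1 | ⟨i, l, hl, rfl⟩
        · exact Or.inl (Or.inr ⟨h1, hx⟩)
        · exact Or.inl (Or.inl ⟨i, l, ⟨hl, hx⟩, rfl⟩)
      · exact Or.inr ⟨⟨hX x hx, ho⟩, hx⟩
    · rintro ((⟨i, l, ⟨_, hx⟩, rfl⟩ | ⟨_, hx⟩) | ⟨_, hx⟩) <;> exact hx
  have hd1 : Disjoint ((univ.biUnion fun i =>
      ((range (m i)).filter (fun l => P i l ∈ X)).image (P i)) ∪ (U ∩ X))
      (holesZ m P U b ∩ X) := by
    rw [Finset.disjoint_left]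
    intro x hx hx2
    have h2 := (a7_mem_holes.1 (mem_inter.1 hx2).1).2
    apply h2
    rw [a7_mem_occ]
    rcases mem_union.1 hx with h3 | h3
    · simp only [mem_biUnion, mem_univ, true_and, mem_image, mem_filter, mem_range] at h3
      obtain ⟨i, l, ⟨hl, _⟩, rfl⟩ := h3
      exact Or.inr ⟨i, l, hl, rfl⟩
    · exact Or.inl (mem_inter.1 h3).1
  have hd2 : Disjoint (univ.biUnion fun i =>
      ((range (m i)).filter (fun l => P i l ∈ X)).image (P i)) (U ∩ X) := by
    rw [Finset.disjoint_left]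
    intro x hx hx2
    simp only [mem_biUnion, mem_univ, true_and, mem_image, mem_filter, mem_range] at hx
    obtain ⟨i, l, ⟨hl, _⟩, rfl⟩ := hx
    exact h.disj i l hl (mem_inter.1 hx2).1
  conv_lhs => rw [hX1]
  rw [sum_union hd1, sum_union hd2, sum_biUnion]
  · congr 2
    refine sum_congr rfl fun i _ => ?_
    rw [sum_image]
    intro l hl k hk hlk
    have hl' : l < m i := by simpa using (mem_filter.1 (mem_coe.1 hl)).1
    have hk' : k < m i := by simpa using (mem_filter.1 (mem_coe.1 hk)).1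
    exact (h.inj i i l k hl' hk' hlk).2
  · intro i _ j _ hij
    simp only [Function.onFun]
    rw [Finset.disjoint_left]
    intro x hx hx2
    simp only [mem_image, mem_filter, mem_range] at hx hx2
    obtain ⟨l, ⟨hl, _⟩, rfl⟩ := hx
    obtain ⟨k, ⟨hk, _⟩, hk2⟩ := hx2
    exact hij (h.inj i j l k hl hk hk2.symm).1

/-- number of neighbours of `x` for the sum `τ` which are holes -/
def a7_hn (R : Finset ℕ) (τ x : ℕ) : ℕ := if x ≤ τ ∧ 2 * x ≠ τ ∧ τ - x ∈ R then 1 else 0

/-- number of neighbours of `x` for the sum `τ` -/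
def a7_dg (τ x : ℕ) : ℕ := if x ≤ τ ∧ 2 * x ≠ τ then 1 else 0

/-- number of path neighbours for the sum `τ` -/
def a7_nb (m : Fin T → ℕ) (P : Fin T → ℕ → ℕ) (τ : ℕ) (i : Fin T) (l : ℕ) : ℕ :=
  (if l + 1 < m i ∧ P i l + P i (l + 1) = τ then 1 else 0) +
  (if 1 ≤ l ∧ P i (l - 1) + P i l = τ then 1 else 0)

theorem a7_degG {x : ℕ} (hx : x ≤ b) : degG a b x = a7_dg b x + a7_dg a x := by
  unfold degG a7_dg
  congr 1
  by_cases h : 2 * x = b
  · simp [h]
  · simp [h, hx]

theorem a7_degG_le (a b x : ℕ) : degG a b x ≤ 2 := by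
  unfold degG
  split_ifs <;> omega

theorem a7_dab (h : PZ m P U Q a b) (i : Fin T) (l : ℕ) :
    dab m P a b i l = a7_nb m P b i l + a7_nb m P a i l := by
  have hab := h.hab
  unfold dab a7_nb
  split_ifs <;> omega

theorem a7_defOf (R : Finset ℕ) {z : ℕ} (hz : z ≤ b) :
    defOf R a b z = 2 * (2 - degG a b z) + (a7_hn R b z + a7_hn R a z) := by
  unfold defOf a7_hn
  simp only [hz, true_and]
  omega

theorem a7_path (h : PZ m P U Q a b) {τ : ℕ} (hτ : τ ∈ Q) (i : Fin T) {l : ℕ} (hl : l < m i) :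
    a7_nb m P τ i l + a7_hn (holesZ m P U b) τ (P i l) = a7_dg τ (P i l) := by
  have hτb := a7_Q_le_b h hτ
  by_cases h1 : P i l ≤ τ ∧ 2 * P i l ≠ τ
  · have hdg : a7_dg τ (P i l) = 1 := by simp [a7_dg, h1]
    by_cases h2 : τ - P i l ∈ holesZ m P U b
    · have hhn : a7_hn (holesZ m P U b) τ (P i l) = 1 := by
        unfold a7_hn; rw [if_pos ⟨h1.1, h1.2, h2⟩]
      have hnb : a7_nb m P τ i l = 0 := by
        unfold a7_nb
        rw [if_neg, if_neg]
        · rintro ⟨h3, h4⟩
          apply (a7_mem_holes.1 h2).2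
          rw [show τ - P i l = P i (l - 1) by omega]
          exact a7_occ_P i (by omega)
        · rintro ⟨h3, h4⟩
          apply (a7_mem_holes.1 h2).2
          rw [show τ - P i l = P i (l + 1) by omega]
          exact a7_occ_P i (by omega)
      rw [hdg, hhn, hnb]
    · have hhn : a7_hn (holesZ m P U b) τ (P i l) = 0 := by
        unfold a7_hn; rw [if_neg]; exact fun h3 => h2 h3.2.2
      have hocc : τ - P i l ∈ occ m P U := by
        by_contra h3
        exact h2 (a7_mem_holes.2 ⟨by omega, h3⟩)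
      have hc := a7_anti h hτ (a7_occ_P i hl) hocc (by omega) (by omega)
      have hnb : a7_nb m P τ i l = 1 := by
        unfold a7_nb
        rcases a7_cons_P h i hl hc with ⟨h3, h4⟩ | ⟨h3, h4⟩
        · rw [if_pos ⟨h3, by omega⟩, if_neg]
          rintro ⟨h5, h6⟩
          have := (h.inj i i (l + 1) (l - 1) h3 (by omega) (by omega)).2
          omega
        · rw [if_neg, if_pos ⟨h3, by omega⟩]
          rintro ⟨h5, h6⟩
          have := (h.inj i i (l + 1) (l - 1) h5 (by omega) (by omega)).2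
          omega
      rw [hdg, hhn, hnb]
  · have hdg : a7_dg τ (P i l) = 0 := by unfold a7_dg; rw [if_neg h1]
    have hhn : a7_hn (holesZ m P U b) τ (P i l) = 0 := by
      unfold a7_hn; rw [if_neg]; exact fun h3 => h1 ⟨h3.1, h3.2.1⟩
    have hnb : a7_nb m P τ i l = 0 := by
      unfold a7_nb
      rw [if_neg, if_neg]
      · rintro ⟨h3, h4⟩
        apply h1
        refine ⟨by omega, fun h5 => ?_⟩
        have := (h.inj i i l (l - 1) hl (by omega) (by omega)).2
        omega
      · rintro ⟨h3, h4⟩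
        apply h1
        refine ⟨by omega, fun h5 => ?_⟩
        have := (h.inj i i l (l + 1) hl (by omega) (by omega)).2
        omega
    rw [hdg, hhn, hnb]

theorem a7_univ (h : PZ m P U Q a b) {τ : ℕ} (hτ : τ ∈ Q) {x : ℕ} (hx : x ∈ U) :
    a7_hn (holesZ m P U b) τ x = a7_dg τ x := by
  have hτb := a7_Q_le_b h hτ
  unfold a7_hn a7_dg
  by_cases h1 : x ≤ τ ∧ 2 * x ≠ τ
  · rw [if_pos h1, if_pos]
    refine ⟨h1.1, h1.2, ?_⟩
    rw [a7_mem_holes]
    refine ⟨by omega, fun ho => ?_⟩
    exact a7_cons_U h hx (a7_anti h hτ (a7_mem_occ.2 (Or.inl hx)) ho (by omega) (by omega))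
  · rw [if_neg h1, if_neg]
    exact fun h3 => h1 ⟨h3.1, h3.2.1⟩

/-- double counting for one sum -/
theorem a7_invol (R : Finset ℕ) {τ : ℕ} {X : Finset ℕ} (hX : ∀ x ∈ X, x ≤ τ → τ - x ∈ X) :
    ∑ x ∈ X, a7_hn R τ x = ∑ z ∈ R ∩ X, a7_dg τ z := by
  classical
  unfold a7_hn a7_dg
  rw [← card_filter, ← card_filter]
  refine card_bij (fun x _ => τ - x) ?_ ?_ ?_
  · intro x hx
    simp only [mem_filter, mem_inter] at hx ⊢
    obtain ⟨h1, h2, h3, h4⟩ := hx
    exact ⟨⟨h4, hX x h1 h2⟩, by omega, by omega⟩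
  · intro x hx y hy hxy
    simp only [mem_filter] at hx hy
    omega
  · intro z hz
    simp only [mem_filter, mem_inter] at hz
    obtain ⟨⟨h1, h2⟩, h3, h4⟩ := hz
    refine ⟨τ - z, ?_, by omega⟩
    simp only [mem_filter]
    refine ⟨hX z h2 h3, by omega, by omega, ?_⟩
    rwa [show τ - (τ - z) = z by omega]

/-- Master identity: double counting over a union of components `X`. For `x ∈ X` occupied by a path
vertex, `degG a b x = dab + (number of τ ∈ {a, b} with τ - x a hole)`. -/
theorem master (h : PZ m P U Q a b) {X : Finset ℕ} (hX : Closed a b X) :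
    ∑ x ∈ X, (4 - degG a b x) =
      brk m P a b X + 4 * (U ∩ X).card + DD (holesZ m P U b) X a b := by
  classical
  have hXb : ∀ x ∈ X, x ≤ b := fun x hx => (hX x hx).1
  set R := holesZ m P U b with hR
  have h1 : ∑ x ∈ X, (a7_hn R b x + a7_hn R a x) = ∑ z ∈ R ∩ X, degG a b z := by
    rw [sum_add_distrib, a7_invol R (τ := b) (fun x hx _ => (hX x hx).2.1),
      a7_invol R (τ := a) (fun x hx hxa => (hX x hx).2.2 hxa), ← sum_add_distrib]
    refine sum_congr rfl fun z hz => ?_
    rw [a7_degG (hXb z (mem_inter.1 hz).2)]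
  have h2 := a7_split h hXb fun x => (4 - degG a b x) + (a7_hn R b x + a7_hn R a x)
  rw [sum_add_distrib, h1] at h2
  have h3 : ∀ i, ∀ l ∈ (range (m i)).filter (fun l => P i l ∈ X),
      (4 - degG a b (P i l)) + (a7_hn R b (P i l) + a7_hn R a (P i l)) =
        4 - dab m P a b i l := by
    intro i l hl
    obtain ⟨hl1, hl2⟩ := mem_filter.1 hl
    have hl1' : l < m i := by simpa using hl1
    have e1 := a7_path h h.hb i hl1'
    have e2 := a7_path h h.ha i hl1'
    have e3 := a7_dab h i l
    have e4 := a7_degG (a := a) (hXb _ hl2)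
    have e5 := a7_degG_le a b (P i l)
    rw [← hR] at e1 e2
    omega
  have h4 : ∀ x ∈ U ∩ X, (4 - degG a b x) + (a7_hn R b x + a7_hn R a x) = 4 := by
    intro x hx
    obtain ⟨hx1, hx2⟩ := mem_inter.1 hx
    have e1 := a7_univ h h.hb hx1
    have e2 := a7_univ h h.ha hx1
    have e4 := a7_degG (a := a) (hXb _ hx2)
    have e5 := a7_degG_le a b x
    rw [← hR] at e1 e2
    omega
  have h5 : ∀ x ∈ R ∩ X, (4 - degG a b x) + (a7_hn R b x + a7_hn R a x) =
      defOf R a b x + degG a b x := by
    intro x hx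
    obtain ⟨hx1, hx2⟩ := mem_inter.1 hx
    have e1 := a7_defOf (a := a) R (hXb _ hx2)
    have e5 := a7_degG_le a b x
    omega
  rw [sum_congr rfl fun i _ => sum_congr rfl (h3 i), sum_congr rfl h4, sum_congr rfl h5,
    sum_add_distrib, sum_const, smul_eq_mul] at h2
  unfold brk DD
  omega

/-- Counting positions. -/
theorem card_eq (h : PZ m P U Q a b) :
    b + 1 = U.card + (∑ i, m i) + (holesZ m P U b).card := by
  classical
  have h1 := a7_split h (X := range (b + 1)) (fun x hx => by simpa [Nat.lt_succ_iff] using hx)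
    fun _ => 1
  simp only [sum_const, smul_eq_mul, mul_one, card_range] at h1
  have h2 : ∀ i, ((range (m i)).filter (fun l => P i l ∈ range (b + 1))).card = m i := by
    intro i
    rw [filter_true_of_mem, card_range]
    intro l hl
    rw [mem_range, Nat.lt_succ_iff]
    exact P_le h i (by simpa using hl)
  have h3 : U ∩ range (b + 1) = U := by
    rw [inter_eq_left]
    intro x hx
    rw [mem_range, Nat.lt_succ_iff]
    exact h.Ule x hx
  have h4 : holesZ m P U b ∩ range (b + 1) = holesZ m P U b := by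
    rw [inter_eq_left]
    intro x hx
    rw [mem_range, Nat.lt_succ_iff]
    exact (a7_mem_holes.1 hx).1
  have h2' : ∑ i, ((range (m i)).filter (fun l => P i l ∈ range (b + 1))).card = ∑ i, m i :=
    sum_congr rfl fun i _ => h2 i
  rw [h2', h3, h4] at h1
  omega

theorem a7_sum_dg (τ n : ℕ) (hn : τ ≤ n) :
    ∑ x ∈ range (n + 1), a7_dg τ x + (if Even τ then 1 else 0) = τ + 1 := by
  classical
  unfold a7_dg
  rw [← card_filter]
  have h1 : (range (n + 1)).filter (fun x => x ≤ τ ∧ 2 * x ≠ τ) =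
      (range (τ + 1)).filter (fun x => ¬ 2 * x = τ) := by
    ext x
    simp only [mem_filter, mem_range]
    omega
  rw [h1]
  have h2 := card_filter_add_card_filter_not (s := range (τ + 1)) (fun x => 2 * x = τ)
  have h3 : ((range (τ + 1)).filter (fun x => 2 * x = τ)).card = if Even τ then 1 else 0 := by
    split_ifs with he
    · obtain ⟨k, hk⟩ := he
      rw [card_eq_one]
      refine ⟨k, ?_⟩
      ext x
      simp only [mem_filter, mem_range, mem_singleton]
      omega
    · rw [card_eq_zero, filter_eq_empty_iff]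
      intro x _ hx
      exact he ⟨x, by omega⟩
  rw [card_range, h3] at h2
  omega

/-- number of a/b-edges and corner edges of a path -/
theorem a7_sum_dab (i : Fin T) (hm : 1 ≤ m i) :
    (∑ l ∈ range (m i), dab m P a b i l) + 2 * ((range (m i)).filter fun l =>
      l + 1 < m i ∧ P i l + P i (l + 1) ≠ a ∧ P i l + P i (l + 1) ≠ b).card = 2 * (m i - 1) := by
  classical
  obtain ⟨n, hn⟩ : ∃ n, m i = n + 1 := ⟨m i - 1, by omega⟩
  let ind : ℕ → ℕ := fun l => if P i l + P i (l + 1) = a ∨ P i l + P i (l + 1) = b then 1 else 0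
  have h1 : ∑ l ∈ range (n + 1), dab m P a b i l = 2 * ∑ l ∈ range n, ind l := by
    unfold dab
    rw [sum_add_distrib]
    have e1 : ∑ l ∈ range (n + 1), (if l + 1 < m i ∧
        (P i l + P i (l + 1) = a ∨ P i l + P i (l + 1) = b) then 1 else 0) =
        ∑ l ∈ range n, ind l := by
      rw [sum_range_succ, if_neg (by rw [hn]; omega), add_zero]
      refine sum_congr rfl fun l hl => ?_
      have hl' : l + 1 < m i := by rw [hn]; simpa using hl
      simp only [ind, hl', true_and]
    have e2 : ∑ l ∈ range (n + 1), (if 1 ≤ l ∧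
        (P i (l - 1) + P i l = a ∨ P i (l - 1) + P i l = b) then 1 else 0) =
        ∑ l ∈ range n, ind l := by
      rw [sum_range_succ', if_neg (by omega), add_zero]
      refine sum_congr rfl fun l _ => ?_
      simp only [ind, Nat.add_sub_cancel, Nat.le_add_left, true_and]
    rw [e1, e2]
    ring
  have h2 : ((range (m i)).filter fun l =>
      l + 1 < m i ∧ P i l + P i (l + 1) ≠ a ∧ P i l + P i (l + 1) ≠ b).card =
      ((range n).filter fun l => ¬ (P i l + P i (l + 1) = a ∨ P i l + P i (l + 1) = b)).card := by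
    congr 1
    ext l
    simp only [mem_filter, mem_range, hn, not_or]
    constructor
    · rintro ⟨_, h3, h4⟩
      exact ⟨by omega, h4⟩
    · rintro ⟨h3, h4⟩
      exact ⟨by omega, by omega, h4⟩
  have h3 := card_filter_add_card_filter_not (s := range n)
    (fun l => P i l + P i (l + 1) = a ∨ P i l + P i (l + 1) = b)
  rw [card_range, card_filter] at h3
  rw [h2, hn, h1]
  simp only [ind]
  omega

/-- The total count. -/
theorem count_eq (h : PZ m P U Q a b) :
    2 * (holesZ m P U b).card + (b - a) + (if Even b then 1 else 0) + (if Even a then 1 else 0) =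
      2 * T + 2 * U.card + 2 * Ec m P a b + DD (holesZ m P U b) (range (b + 1)) a b := by
  classical
  have hab := h.hab
  have hcl : Closed a b (range (b + 1)) := by
    intro x hx
    simp only [mem_range] at hx ⊢
    refine ⟨by omega, by omega, fun _ => by omega⟩
  have h1 := master h hcl
  have h2 := card_eq h
  have h3 : ∑ x ∈ range (b + 1), (4 - degG a b x) + ∑ x ∈ range (b + 1), degG a b x =
      4 * (b + 1) := by
    have e0 : ∀ x ∈ range (b + 1), (4 - degG a b x) + degG a b x = 4 := by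
      intro x _
      have := a7_degG_le a b x
      omega
    rw [← sum_add_distrib, sum_congr rfl e0, sum_const, card_range, smul_eq_mul, mul_comm]
  have h4 : ∑ x ∈ range (b + 1), degG a b x =
      ∑ x ∈ range (b + 1), a7_dg b x + ∑ x ∈ range (b + 1), a7_dg a x := by
    rw [← sum_add_distrib]
    refine sum_congr rfl fun x hx => a7_degG ?_
    simpa [Nat.lt_succ_iff] using hx
  have h5 := a7_sum_dg b b le_rfl
  have h6 := a7_sum_dg a b hab.le
  have h7 : U ∩ range (b + 1) = U := by
    rw [inter_eq_left]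
    intro x hx
    rw [mem_range, Nat.lt_succ_iff]
    exact h.Ule x hx
  have h8 : brk m P a b (range (b + 1)) = 2 * (∑ i, m i) + 2 * T + 2 * Ec m P a b := by
    unfold brk Ec
    have e1 : ∀ i, ∑ l ∈ (range (m i)).filter (fun l => P i l ∈ range (b + 1)),
        (4 - dab m P a b i l) = 2 * m i + 2 + 2 * ((range (m i)).filter fun l =>
          l + 1 < m i ∧ P i l + P i (l + 1) ≠ a ∧ P i l + P i (l + 1) ≠ b).card := by
      intro i
      have hfive := h.five i
      rw [filter_true_of_mem (fun l hl => by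
        rw [mem_range, Nat.lt_succ_iff]
        exact P_le h i (by simpa using hl))]
      have e2 : ∑ l ∈ range (m i), (4 - dab m P a b i l) + ∑ l ∈ range (m i), dab m P a b i l =
          4 * m i := by
        have e0 : ∀ l ∈ range (m i), (4 - dab m P a b i l) + dab m P a b i l = 4 := by
          intro l _
          have : dab m P a b i l ≤ 4 := by
            unfold dab
            split_ifs <;> omega
          omega
        rw [← sum_add_distrib, sum_congr rfl e0, sum_const, card_range, smul_eq_mul, mul_comm]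
      have e3 := a7_sum_dab (m := m) (P := P) (a := a) (b := b) i (by omega)
      omega
    rw [sum_congr rfl fun i _ => e1 i, sum_add_distrib, sum_add_distrib, ← mul_sum, ← mul_sum,
      sum_const, card_univ, Fintype.card_fin, smul_eq_mul]
    ring
  rw [h7, h8] at h1
  omega

theorem two_mul_card_le_DD (h : PZ m P U Q a b) :
    2 * ((holesZ m P U b).filter fun z => a < z).card ≤
      DD (holesZ m P U b) (range (b + 1)) a b := by
  classical
  have h4 : holesZ m P U b ∩ range (b + 1) = holesZ m P U b := by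
    rw [inter_eq_left]
    intro x hx
    rw [mem_range, Nat.lt_succ_iff]
    exact (a7_mem_holes.1 hx).1
  unfold DD
  rw [h4, mul_comm, ← smul_eq_mul]
  calc ((holesZ m P U b).filter fun z => a < z).card • 2
      ≤ ∑ z ∈ (holesZ m P U b).filter (fun z => a < z), defOf (holesZ m P U b) a b z := by
        apply card_nsmul_le_sum
        intro z hz
        have hz' : a < z := (mem_filter.1 hz).2
        unfold defOf degG
        rw [if_neg (by omega : ¬ (z ≤ a ∧ 2 * z ≠ a))]
        split_ifs <;> omega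
    _ ≤ _ := sum_le_sum_of_subset (filter_subset _ _)

/-- All the other missing sums are small. -/
theorem third_le (h : PZ m P U Q a b) {s : ℕ} (hs : s ∈ Q) (hsa : s ≠ a) (hsb : s ≠ b) :
    s ≤ 4 * (holesZ m P U b).card + 2 := by
  classical
  have hab := h.hab
  have hsa' : s < a := by
    rcases h.top s hs with h1 | h1 <;> omega
  set R := holesZ m P U b with hR
  have hsub : range (s + 1) ⊆ (((R ∪ R.image (fun z => b - z)) ∪ (R.image (fun z => a - z))) ∪
      (R.image (fun z => s - z))) ∪ ({b / 2, a / 2, s / 2} : Finset ℕ) := by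
    intro x hx
    have hxs : x ≤ s := by simpa [Nat.lt_succ_iff] using hx
    by_contra hcon
    simp only [mem_union, mem_image, mem_insert, mem_singleton, not_or, not_exists, not_and] at hcon
    obtain ⟨⟨⟨⟨h1, h2⟩, h3⟩, h4⟩, h5, h6, h7⟩ := hcon
    have ho : ∀ y, y ≤ b → y ∉ R → y ∈ occ m P U := by
      intro y hy hyR
      by_contra h8
      exact hyR (a7_mem_holes.2 ⟨hy, h8⟩)
    have hox := ho x (by omega) h1
    have hob := ho (b - x) (by omega) (fun h8 => h2 _ h8 (by omega))
    have hoa := ho (a - x) (by omega) (fun h8 => h3 _ h8 (by omega))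
    have hos := ho (s - x) (by omega) (fun h8 => h4 _ h8 (by omega))
    have cb := a7_anti h h.hb hox hob (by omega) (by omega)
    have ca := a7_anti h h.ha hox hoa (by omega) (by omega)
    have cs := a7_anti h hs hox hos (by omega) (by omega)
    rcases a7_mem_occ.1 hox with h8 | ⟨i, l, hl, rfl⟩
    · exact a7_cons_U h h8 cb
    · rcases a7_cons_P h i hl cb with ⟨_, e1⟩ | ⟨_, e1⟩ <;>
      rcases a7_cons_P h i hl ca with ⟨_, e2⟩ | ⟨_, e2⟩ <;>
      rcases a7_cons_P h i hl cs with ⟨_, e3⟩ | ⟨_, e3⟩ <;> omega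
  have hcard := card_le_card hsub
  rw [card_range] at hcard
  have c1 := card_union_le (((R ∪ R.image (fun z => b - z)) ∪ (R.image (fun z => a - z))) ∪
      (R.image (fun z => s - z))) ({b / 2, a / 2, s / 2} : Finset ℕ)
  have c2 := card_union_le ((R ∪ R.image (fun z => b - z)) ∪ (R.image (fun z => a - z)))
      (R.image (fun z => s - z))
  have c3 := card_union_le (R ∪ R.image (fun z => b - z)) (R.image (fun z => a - z))
  have c4 := card_union_le R (R.image (fun z => b - z))
  have d1 : (R.image (fun z => b - z)).card ≤ R.card := card_image_le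
  have d2 : (R.image (fun z => a - z)).card ≤ R.card := card_image_le
  have d3 : (R.image (fun z => s - z)).card ≤ R.card := card_image_le
  have d4 : ({b / 2, a / 2, s / 2} : Finset ℕ).card ≤ 3 := card_le_three
  omega

/-- a missing sum which is not a hole is joined to the position `0` -/
theorem a7_cons_zero (h : PZ m P U Q a b) {s : ℕ} (hs : s ∈ Q) (hR : s ∉ holesZ m P U b) :
    Cons m P 0 s := by
  have ho : s ∈ occ m P U := by
    by_contra h1
    exact hR (a7_mem_holes.2 ⟨a7_Q_le_b h hs, h1⟩)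
  have := h.Qpos s hs
  exact h.anti s hs 0 h.zero s ho (by omega) (by omega)

/-- Each missing sum is a hole or is joined to the position `0`. -/
theorem Q_le (h : PZ m P U Q a b) :
    Q.card ≤ 2 + (((Q.erase a).erase b) ∩ holesZ m P U b).card + Ec m P a b := by
  classical
  have hab := h.hab
  set Q' := (Q.erase a).erase b with hQ'
  have h1 : Q.card = Q'.card + 2 := by
    have hb' : b ∈ Q.erase a := mem_erase.2 ⟨by omega, h.hb⟩
    have e1 := card_erase_of_mem hb'
    have e2 := card_erase_of_mem h.ha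
    have e3 : 0 < (Q.erase a).card := card_pos.2 ⟨b, hb'⟩
    rw [← hQ'] at e1
    have e4 : 0 < Q.card := card_pos.2 ⟨a, h.ha⟩
    omega
  have h2 : (Q' \ holesZ m P U b).card ≤ Ec m P a b := by
    unfold Ec
    rw [← card_sigma]
    refine card_le_card_of_surjOn (fun e : (_ : Fin T) × ℕ => P e.1 e.2 + P e.1 (e.2 + 1)) ?_
    intro s hs
    rw [mem_coe, mem_sdiff, hQ', mem_erase, mem_erase] at hs
    obtain ⟨⟨hsb, hsa, hsQ⟩, hsR⟩ := hs
    obtain ⟨i, l, hl, h3⟩ := a7_cons_zero h hsQ hsR
    refine ⟨⟨i, l⟩, ?_, ?_⟩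
    · rw [mem_coe, mem_sigma]
      refine ⟨mem_univ _, ?_⟩
      simp only [mem_filter, mem_range]
      refine ⟨by omega, hl, ?_, ?_⟩ <;> rcases h3 with ⟨h4, h5⟩ | ⟨h4, h5⟩ <;> omega
    · simp only
      rcases h3 with ⟨h4, h5⟩ | ⟨h4, h5⟩ <;> omega
  have h3 := card_sdiff_add_card_inter Q' (holesZ m P U b)
  omega

theorem corner_le (h : PZ m P U Q a b) (hδ : ∀ s ∈ Q, s ≠ a → s ≠ b → s < b - a) :
    (((Q.erase a).erase b) ∩ holesZ m P U b).card ≤
      U.card + ((holesZ m P U b).filter fun z => a < z).card := by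
  classical
  have hab := h.hab
  refine le_trans ?_ (card_union_le _ _)
  refine card_le_card_of_injOn (fun z => b - z) ?_ ?_
  · intro z hz
    rw [mem_coe, mem_inter, mem_erase, mem_erase] at hz
    obtain ⟨⟨hzb, hza, hzQ⟩, hzR⟩ := hz
    have hz1 := hδ z hzQ hza hzb
    rw [mem_coe, mem_union, mem_filter]
    change b - z ∈ U ∨ b - z ∈ holesZ m P U b ∧ a < b - z
    by_cases ho : b - z ∈ occ m P U
    · rcases a7_mem_occ.1 ho with h1 | ⟨i, l, hl, h1⟩
      · exact Or.inl h1
      · exfalso
        obtain ⟨k, hk, _, hkQ⟩ := a7_exists_nbr h i hl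
        have h2 : P i l + P i k = b := by
          rcases h.top _ hkQ with h3 | h3
          · exact h3
          · omega
        have h3 : z = P i k := by omega
        exact (a7_mem_holes.1 hzR).2 (h3 ▸ a7_occ_P i hk)
    · exact Or.inr ⟨a7_mem_holes.2 ⟨by omega, ho⟩, by omega⟩
  · intro z hz y hy hzy
    rw [mem_coe, mem_inter] at hz hy
    have h1 := (a7_mem_holes.1 hz.2).1
    have h2 := (a7_mem_holes.1 hy.2).1
    simp only at hzy
    omega

/-- Each missing sum is a hole or the position of one of the at most two neighbours of the vertex at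
position `0`. -/
theorem Q_card_le (h : PZ m P U Q a b) : Q.card ≤ (holesZ m P U b).card + 2 := by
  classical
  have h1 := card_sdiff_add_card_inter Q (holesZ m P U b)
  have h2 : (Q ∩ holesZ m P U b).card ≤ (holesZ m P U b).card := card_le_card inter_subset_right
  have h3 : (Q \ holesZ m P U b).card ≤ 2 := by
    rcases a7_mem_occ.1 h.zero with h0 | ⟨i, l, hl, h0⟩
    · have : Q \ holesZ m P U b = ∅ := by
        rw [eq_empty_iff_forall_notMem]
        intro s hs
        rw [mem_sdiff] at hs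
        exact a7_cons_U h h0 (a7_cons_zero h hs.1 hs.2)
      rw [this]
      simp
    · refine le_trans (card_le_card (t := {P i (l + 1), P i (l - 1)}) ?_) card_le_two
      intro s hs
      rw [mem_sdiff] at hs
      have hc := a7_cons_zero h hs.1 hs.2
      rw [← h0] at hc
      rw [mem_insert, mem_singleton]
      rcases a7_cons_P h i hl hc with ⟨_, h4⟩ | ⟨_, h4⟩
      · exact Or.inl h4
      · exact Or.inr h4
  omega

end Pool.Agent.H82.SN
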