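import Pool.Agent.H82.SN.A7

/-!
# Module A8: the bins of a path zone
-/

namespace Pool.Agent.H82.SN

open Finset

variable {T : ℕ} {m : Fin T → ℕ} {P : Fin T → ℕ → ℕ} {U Q : Finset ℕ} {a b : ℕ}

private theorem mod_sub_mod {δ b y : ℕ} (hy : y ≤ b) : (b - y % δ) % δ = (b - y) % δ := by
  have h0 := Nat.mod_add_div y δ
  have h1 : b - y % δ = (b - y) + δ * (y / δ) := by omega
  rw [h1, Nat.add_mul_mod_self_left]

private theorem binIdx_sub (x : ℕ) (hx : x ≤ b) : binIdx a b (b - x) = binIdx a b x := by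
  unfold binIdx
  rw [Nat.sub_sub_self hx, min_comm]

private theorem binIdx_suba (hab : a < b) (x : ℕ) (hx : x ≤ a) :
    binIdx a b (a - x) = binIdx a b x := by
  unfold binIdx
  have h1 : b - x = (a - x) + (b - a) := by omega
  have h2 : b - (a - x) = x + (b - a) := by omega
  rw [h1, h2, Nat.add_mod_right, Nat.add_mod_right, min_comm]

private theorem mem_bin {ρ x : ℕ} : x ∈ bin a b ρ ↔ x ≤ b ∧ binIdx a b x = ρ := by
  unfold bin
  rw [mem_filter, mem_range, Nat.lt_succ_iff]

theorem bin_closed (hab : a < b) (ρ : ℕ) : Closed a b (bin a b ρ) := by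
  intro x hx
  rw [mem_bin] at hx
  refine ⟨hx.1, ?_, fun hxa => ?_⟩
  · rw [mem_bin, binIdx_sub x hx.1]
    exact ⟨Nat.sub_le _ _, hx.2⟩
  · rw [mem_bin, binIdx_suba hab x hxa]
    exact ⟨by omega, hx.2⟩

private theorem mem_bins {ρ : ℕ} : ρ ∈ bins a b ↔ ρ < b - a ∧ ρ ≤ (b - ρ) % (b - a) := by
  unfold bins
  rw [mem_filter, mem_range]

theorem mem_bins_of_le (hab : a < b) {x : ℕ} (hx : x ≤ b) : binIdx a b x ∈ bins a b := by
  have hδ : 0 < b - a := by omega
  rw [mem_bins]
  refine ⟨lt_of_le_of_lt (min_le_left _ _) (Nat.mod_lt _ hδ), ?_⟩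
  have h1 : (b - x % (b - a)) % (b - a) = (b - x) % (b - a) := mod_sub_mod hx
  have h2 : (b - (b - x) % (b - a)) % (b - a) = x % (b - a) := by
    rw [mod_sub_mod (Nat.sub_le _ _), Nat.sub_sub_self hx]
  unfold binIdx
  rcases le_total (x % (b - a)) ((b - x) % (b - a)) with h | h
  · rw [min_eq_left h, h1]; exact h
  · rw [min_eq_right h, h2]; exact h

/-- residue classes -/
private def cl (δ b v : ℕ) : Finset ℕ := (range (b + 1)).filter fun x => x % δ = v

private theorem mem_cl {δ v x : ℕ} : x ∈ cl δ b v ↔ x ≤ b ∧ x % δ = v := by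
  unfold cl
  rw [mem_filter, mem_range, Nat.lt_succ_iff]

/-- the partner residue -/
private theorem partner (hab : a < b) {ρ : ℕ} (hρ : ρ < b - a) :
    (b - (b - ρ) % (b - a)) % (b - a) = ρ := by
  rw [mod_sub_mod (Nat.sub_le _ _), Nat.sub_sub_self (by omega), Nat.mod_eq_of_lt hρ]

private theorem bin_eq (hab : a < b) {ρ : ℕ} (hρ : ρ ∈ bins a b) :
    bin a b ρ = cl (b - a) b ρ ∪ cl (b - a) b ((b - ρ) % (b - a)) := by
  rw [mem_bins] at hρ
  ext x
  rw [mem_union, mem_bin, mem_cl, mem_cl, ← and_or_left]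
  refine and_congr_right fun hx => ?_
  have h1 : (b - x % (b - a)) % (b - a) = (b - x) % (b - a) := mod_sub_mod hx
  have h2 : (b - (b - x) % (b - a)) % (b - a) = x % (b - a) := by
    rw [mod_sub_mod (Nat.sub_le _ _), Nat.sub_sub_self hx]
  unfold binIdx
  constructor
  · intro h
    rcases le_total (x % (b - a)) ((b - x) % (b - a)) with h' | h'
    · rw [min_eq_left h'] at h; exact Or.inl h
    · rw [min_eq_right h'] at h
      right
      rw [← h2, h]
  · rintro (h | h)
    · rw [h] at h1
      rw [h, ← h1]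
      exact min_eq_left hρ.2
    · rw [← h1, h, partner hab hρ.1]
      exact min_eq_right hρ.2

private theorem card_cl {δ : ℕ} (hδ : 0 < δ) {v : ℕ} (hv : v < δ) :
    (cl δ b v).card = (b + 1) / δ + if v < (b + 1) % δ then 1 else 0 := by
  have h := Nat.count_modEq_card (b + 1) hδ v
  rw [Nat.mod_eq_of_lt hv] at h
  rw [← h, Nat.count_eq_card_filter_range]
  unfold cl
  congr 1
  apply filter_congr
  intro x _
  unfold Nat.ModEq
  rw [Nat.mod_eq_of_lt hv]

/-- Sizes of the bins, half case. -/
theorem card_bin_half (hab : a < b) {ρ : ℕ} (hρ : ρ ∈ bins a b) (he : (b - ρ) % (b - a) = ρ) :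
    (bin a b ρ).card = (b + 1) / (b - a) ∨ (bin a b ρ).card = (b + 1) / (b - a) + 1 := by
  rw [bin_eq hab hρ, he, union_self, card_cl (by omega) (mem_bins.1 hρ).1]
  split_ifs
  · right; rfl
  · left; rfl

/-- Sizes of the bins, regular case. -/
theorem card_bin_regular (hab : a < b) {ρ : ℕ} (hρ : ρ ∈ bins a b) (hne : (b - ρ) % (b - a) ≠ ρ) :
    (bin a b ρ).card = 2 * ((b + 1) / (b - a)) ∨
      (bin a b ρ).card = 2 * ((b + 1) / (b - a)) + 2 := by
  have hδ : 0 < b - a := by omega
  have hρ' := mem_bins.1 hρ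
  have hσ : (b - ρ) % (b - a) < b - a := Nat.mod_lt _ hδ
  have hdisj : Disjoint (cl (b - a) b ρ) (cl (b - a) b ((b - ρ) % (b - a))) := by
    rw [disjoint_left]
    intro x hx hx'
    rw [mem_cl] at hx hx'
    exact hne (hx'.2.symm.trans hx.2)
  rw [bin_eq hab hρ, card_union_of_disjoint hdisj, card_cl hδ hρ'.1, card_cl hδ hσ]
  set δ := b - a with hδdef
  set σ := (b - ρ) % δ with hσdef
  set r := (b + 1) % δ with hrdef
  have hr : r < δ := Nat.mod_lt _ hδ
  -- ρ + σ + 1 ≡ r mod δ
  have h1 : (ρ + σ + 1) % δ = r := by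
    have h2 : (b - ρ) % δ + δ * ((b - ρ) / δ) = b - ρ := Nat.mod_add_div _ _
    have h3 : b + 1 = (ρ + σ + 1) + δ * ((b - ρ) / δ) := by omega
    rw [hrdef, h3, Nat.add_mul_mod_self_left]
  have hlt : ρ < σ := lt_of_le_of_ne hρ'.2 (fun h => hne h.symm)
  have key : (ρ < r ↔ σ < r) := by
    rcases Nat.lt_or_ge (ρ + σ + 1) δ with h | h
    · rw [Nat.mod_eq_of_lt h] at h1
      omega
    · have h4 : (ρ + σ + 1) % δ = ρ + σ + 1 - δ := by
        rw [Nat.mod_eq_sub_mod h, Nat.mod_eq_of_lt (by omega)]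
      omega
  by_cases h : ρ < r
  · rw [if_pos h, if_pos (key.1 h)]
    right; ring
  · rw [if_neg h, if_neg (fun h' => h (key.2 h'))]
    left; ring

/-- Positions `x`, `b - x` (and `a - x`) are in the same bin. -/
theorem binIdx_of_sum (hab : a < b) {x y : ℕ} (hxy : x + y = a ∨ x + y = b) :
    binIdx a b x = binIdx a b y := by
  rcases hxy with h | h
  · have : y = a - x := by omega
    rw [this, binIdx_suba hab x (by omega)]
  · have : y = b - x := by omega
    rw [this, binIdx_sub x (by omega)]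

private theorem half_k (hab : a < b) {ρ : ℕ} (he : (b - ρ) % (b - a) = ρ) :
    ∃ k, b = 2 * ρ + (b - a) * k := by
  refine ⟨(b - ρ) / (b - a), ?_⟩
  have h := Nat.mod_add_div (b - ρ) (b - a)
  rw [he] at h
  omega

private theorem half_iff (hab : a < b) {ρ : ℕ} : (ρ < b - a ∧ (b - ρ) % (b - a) = ρ) ↔
    ((Even b ∧ ρ = (b / 2) % (b - a)) ∨ (Even a ∧ ρ = (a / 2) % (b - a))) := by
  have hδ : 0 < b - a := by omega
  constructor
  · rintro ⟨hρ, he⟩
    obtain ⟨k, hk⟩ := half_k hab he
    obtain ⟨k', rfl | rfl⟩ := Nat.even_or_odd' k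
    · left
      have h1 : b = 2 * (ρ + (b - a) * k') := by
        calc b = 2 * ρ + (b - a) * (2 * k') := hk
          _ = _ := by ring
      have h2 : b / 2 = ρ + (b - a) * k' := by omega
      refine ⟨⟨ρ + (b - a) * k', by omega⟩, ?_⟩
      rw [h2, Nat.add_mul_mod_self_left, Nat.mod_eq_of_lt hρ]
    · right
      have h1 : b = 2 * (ρ + (b - a) * k') + (b - a) := by
        calc b = 2 * ρ + (b - a) * (2 * k' + 1) := hk
          _ = _ := by ring
      have h2 : a / 2 = ρ + (b - a) * k' := by omega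
      refine ⟨⟨ρ + (b - a) * k', by omega⟩, ?_⟩
      rw [h2, Nat.add_mul_mod_self_left, Nat.mod_eq_of_lt hρ]
  · rintro (⟨hev, rfl⟩ | ⟨hev, rfl⟩)
    · refine ⟨Nat.mod_lt _ hδ, ?_⟩
      obtain ⟨c, hc⟩ := hev
      rw [mod_sub_mod (by omega)]
      congr 1
      omega
    · refine ⟨Nat.mod_lt _ hδ, ?_⟩
      obtain ⟨c, hc⟩ := hev
      rw [mod_sub_mod (by omega)]
      have : b - a / 2 = a / 2 + (b - a) := by omega
      rw [this, Nat.add_mod_right]

/-- The number of half bins. -/
theorem card_half (hab : a < b) :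
    ((bins a b).filter fun ρ => (b - ρ) % (b - a) = ρ).card =
      (if Even b then 1 else 0) + (if Even a then 1 else 0) := by
  have h1 : (bins a b).filter (fun ρ => (b - ρ) % (b - a) = ρ) =
      (if Even b then {(b / 2) % (b - a)} else ∅) ∪ (if Even a then {(a / 2) % (b - a)} else ∅) := by
    ext ρ
    rw [mem_filter, mem_bins, mem_union]
    have h2 : ((ρ < b - a ∧ ρ ≤ (b - ρ) % (b - a)) ∧ (b - ρ) % (b - a) = ρ) ↔
        (ρ < b - a ∧ (b - ρ) % (b - a) = ρ) :=
      ⟨fun h => ⟨h.1.1, h.2⟩, fun h => ⟨⟨h.1, h.2.ge⟩, h.2⟩⟩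
    rw [h2, half_iff hab]
    refine or_congr ?_ ?_
    · split_ifs with h
      · simp [h]
      · simp [h]
    · split_ifs with h
      · simp [h]
      · simp [h]
  rw [h1, card_union_of_disjoint]
  · congr 1
    · split_ifs <;> simp
    · split_ifs <;> simp
  · split_ifs with hb ha ha
    · rw [disjoint_singleton]
      intro h
      obtain ⟨c, hc⟩ := hb
      obtain ⟨d, hd⟩ := ha
      have h3 : (b / 2 - a / 2) % (b - a) = 0 := Nat.sub_mod_eq_zero_of_mod_eq h
      rw [Nat.mod_eq_of_lt (by omega)] at h3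
      omega
    · exact disjoint_empty_right _
    · exact disjoint_empty_left _
    · exact disjoint_empty_left _

/-- The number of bins. -/
theorem card_bins (hab : a < b) :
    2 * (bins a b).card = (b - a) + (if Even b then 1 else 0) + (if Even a then 1 else 0) := by
  have hδ : 0 < b - a := by omega
  rw [add_assoc, ← card_half hab]
  have h1 : (bins a b).card = ((range (b - a)).filter fun ρ => (b - ρ) % (b - a) ≤ ρ).card := by
    apply card_bij' (fun ρ _ => (b - ρ) % (b - a)) (fun ρ _ => (b - ρ) % (b - a))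
    · intro ρ hρ
      rw [mem_bins] at hρ
      rw [mem_filter, mem_range, partner hab hρ.1]
      exact ⟨Nat.mod_lt _ hδ, hρ.2⟩
    · intro ρ hρ
      rw [mem_filter, mem_range] at hρ
      rw [mem_bins, partner hab hρ.1]
      exact ⟨Nat.mod_lt _ hδ, hρ.2⟩
    · intro ρ hρ
      rw [mem_bins] at hρ
      exact partner hab hρ.1
    · intro ρ hρ
      rw [mem_filter, mem_range] at hρ
      exact partner hab hρ.1
  have h2 := card_union_add_card_inter (bins a b)
    ((range (b - a)).filter fun ρ => (b - ρ) % (b - a) ≤ ρ)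
  have h3 : bins a b ∪ ((range (b - a)).filter fun ρ => (b - ρ) % (b - a) ≤ ρ) = range (b - a) := by
    ext ρ
    rw [mem_union, mem_bins, mem_filter, mem_range]
    constructor
    · rintro (h | h)
      · exact h.1
      · exact h.1
    · intro h
      rcases le_total ρ ((b - ρ) % (b - a)) with h' | h'
      · exact Or.inl ⟨h, h'⟩
      · exact Or.inr ⟨h, h'⟩
  have h4 : bins a b ∩ ((range (b - a)).filter fun ρ => (b - ρ) % (b - a) ≤ ρ) =
      (bins a b).filter fun ρ => (b - ρ) % (b - a) = ρ := by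
    ext ρ
    rw [mem_inter, mem_bins, mem_filter, mem_filter, mem_range, mem_bins]
    constructor
    · rintro ⟨h, h'⟩
      exact ⟨h, le_antisymm h'.2 h.2⟩
    · rintro ⟨h, h'⟩
      exact ⟨h, h.1, h'.le⟩
  rw [h3, h4, card_range] at h2
  omega

private theorem four_sub_degG (x : ℕ) : 4 - degG a b x =
    2 + ((if 2 * x = b then 1 else 0) + (if 2 * x = a then 1 else 0) +
      (if a < x then 1 else 0)) := by
  unfold degG
  split_ifs <;> omega

private theorem bin_upper (hab : a < b) {ρ : ℕ} (hρ : ρ ∈ bins a b) :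
    (bin a b ρ).filter (fun x => a < x) = {b - (b - ρ) % (b - a), b - ρ} := by
  have hδ : 0 < b - a := by omega
  have hρ' := mem_bins.1 hρ
  have hσ : (b - ρ) % (b - a) < b - a := Nat.mod_lt _ hδ
  ext x
  rw [mem_filter, bin_eq hab hρ, mem_union, mem_cl, mem_cl, mem_insert, mem_singleton]
  have huniq : ∀ x y, a < x → x ≤ b → a < y → y ≤ b → x % (b - a) = y % (b - a) → x = y := by
    intro x y h1 h2 h3 h4 h5
    rcases le_total x y with h | h
    · have h6 := Nat.sub_mod_eq_zero_of_mod_eq h5.symm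
      rw [Nat.mod_eq_of_lt (by omega)] at h6
      omega
    · have h6 := Nat.sub_mod_eq_zero_of_mod_eq h5
      rw [Nat.mod_eq_of_lt (by omega)] at h6
      omega
  constructor
  · rintro ⟨h | h, hax⟩
    · left
      apply huniq _ _ hax h.1 (by omega) (by omega)
      rw [h.2, partner hab hρ'.1]
    · right
      apply huniq _ _ hax h.1 (by omega) (by omega)
      rw [h.2]
  · rintro (h | h)
    · subst h
      refine ⟨Or.inl ⟨by omega, partner hab hρ'.1⟩, by omega⟩
    · subst h
      refine ⟨Or.inr ⟨by omega, rfl⟩, by omega⟩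

private theorem regular_no_half (hab : a < b) {ρ x : ℕ} (hρ : ρ ∈ bins a b)
    (hx : x ∈ bin a b ρ) (h : 2 * x = b ∨ 2 * x = a) : (b - ρ) % (b - a) = ρ := by
  have hρ' := mem_bins.1 hρ
  rw [mem_bin] at hx
  have h1 : (b - x) % (b - a) = x % (b - a) := by
    rcases h with h | h
    · congr 1; omega
    · have : b - x = x + (b - a) := by omega
      rw [this, Nat.add_mod_right]
  have h2 : x % (b - a) = ρ := by
    have h3 := hx.2
    unfold binIdx at h3
    rwa [h1, min_self] at h3
  have h4 : (b - x % (b - a)) % (b - a) = (b - x) % (b - a) := mod_sub_mod hx.1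
  rw [h2, h1, h2] at h4
  exact h4

/-- A bin is a path. -/
theorem bin_sum (hab : a < b) {ρ : ℕ} (hρ : ρ ∈ bins a b) :
    ∑ x ∈ bin a b ρ, (4 - degG a b x) = 2 * (bin a b ρ).card + 2 := by
  have hδ : 0 < b - a := by omega
  have hρ' := mem_bins.1 hρ
  have h1 : ∑ x ∈ bin a b ρ, (4 - degG a b x) = 2 * (bin a b ρ).card +
      (((bin a b ρ).filter fun x => 2 * x = b).card + ((bin a b ρ).filter fun x => 2 * x = a).card +
        ((bin a b ρ).filter fun x => a < x).card) := by
    rw [sum_congr rfl fun x _ => four_sub_degG x, sum_add_distrib, sum_add_distrib,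
      sum_add_distrib, card_filter, card_filter, card_filter, sum_const, smul_eq_mul, mul_comm]
  rw [h1, bin_upper hab hρ]
  congr 1
  by_cases he : (b - ρ) % (b - a) = ρ
  · rw [he, pair_eq_singleton, card_singleton]
    obtain ⟨k, hk⟩ := half_k hab he
    have hmem : ∀ x, x ≤ b → (x ∈ bin a b ρ ↔ x % (b - a) = ρ) := by
      intro x hx
      rw [bin_eq hab hρ, he, union_self, mem_cl]
      exact ⟨fun h => h.2, fun h => ⟨hx, h⟩⟩
    have hform : ∀ x ∈ bin a b ρ, ∃ j, x = ρ + (b - a) * j := by
      intro x hx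
      have h2 := (hmem x (mem_bin.1 hx).1).1 hx
      refine ⟨x / (b - a), ?_⟩
      have h3 := Nat.mod_add_div x (b - a)
      rw [h2] at h3
      exact h3.symm
    obtain ⟨k', rfl | rfl⟩ := Nat.even_or_odd' k
    · have h2 : b = 2 * (ρ + (b - a) * k') := by
        calc b = 2 * ρ + (b - a) * (2 * k') := hk
          _ = _ := by ring
      have h3 : (bin a b ρ).filter (fun x => 2 * x = b) = {ρ + (b - a) * k'} := by
        ext x
        rw [mem_filter, mem_singleton]
        constructor
        · rintro ⟨_, h⟩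
          omega
        · rintro rfl
          refine ⟨(hmem _ (by omega)).2 ?_, by omega⟩
          rw [Nat.add_mul_mod_self_left, Nat.mod_eq_of_lt hρ'.1]
      have h4 : (bin a b ρ).filter (fun x => 2 * x = a) = ∅ := by
        rw [filter_eq_empty_iff]
        intro x hx h
        obtain ⟨j, rfl⟩ := hform x hx
        have h5 : (b - a) * (2 * k') = (b - a) * (2 * j + 1) := by
          have e1 : (b - a) * (2 * k') = 2 * ((b - a) * k') := by ring
          have e2 : (b - a) * (2 * j + 1) = 2 * ((b - a) * j) + (b - a) := by ring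
          omega
        have h6 := Nat.eq_of_mul_eq_mul_left hδ h5
        omega
      rw [h3, h4, card_singleton, card_empty]
    · have h2 : b = 2 * (ρ + (b - a) * k') + (b - a) := by
        calc b = 2 * ρ + (b - a) * (2 * k' + 1) := hk
          _ = _ := by ring
      have h3 : (bin a b ρ).filter (fun x => 2 * x = a) = {ρ + (b - a) * k'} := by
        ext x
        rw [mem_filter, mem_singleton]
        constructor
        · rintro ⟨_, h⟩
          omega
        · rintro rfl
          refine ⟨(hmem _ (by omega)).2 ?_, by omega⟩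
          rw [Nat.add_mul_mod_self_left, Nat.mod_eq_of_lt hρ'.1]
      have h4 : (bin a b ρ).filter (fun x => 2 * x = b) = ∅ := by
        rw [filter_eq_empty_iff]
        intro x hx h
        obtain ⟨j, rfl⟩ := hform x hx
        have h5 : (b - a) * (2 * k' + 1) = (b - a) * (2 * j) := by
          have e1 : (b - a) * (2 * k' + 1) = 2 * ((b - a) * k') + (b - a) := by ring
          have e2 : (b - a) * (2 * j) = 2 * ((b - a) * j) := by ring
          omega
        have h6 := Nat.eq_of_mul_eq_mul_left hδ h5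
        omega
      rw [h3, h4, card_singleton, card_empty]
  · have h2 : (bin a b ρ).filter (fun x => 2 * x = b) = ∅ := by
      rw [filter_eq_empty_iff]
      intro x hx h
      exact he (regular_no_half hab hρ hx (Or.inl h))
    have h3 : (bin a b ρ).filter (fun x => 2 * x = a) = ∅ := by
      rw [filter_eq_empty_iff]
      intro x hx h
      exact he (regular_no_half hab hρ hx (Or.inr h))
    have hσ : (b - ρ) % (b - a) < b - a := Nat.mod_lt _ hδ
    rw [h2, h3, card_empty, card_pair (by omega)]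

end Pool.Agent.H82.SN
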