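import Pool.Agent.H82.SN.A8

/-!
# Module A8b: the content of a bin modulo `lam`
-/

namespace Pool.Agent.H82.SN

open Finset

variable {T : ℕ} {m : Fin T → ℕ} {P : Fin T → ℕ → ℕ} {U Q : Finset ℕ} {a b : ℕ}

/-- `x` is an end of a corner edge. -/
def CornerEnd {T : ℕ} (m : Fin T → ℕ) (P : Fin T → ℕ → ℕ) (a b x : ℕ) : Prop :=
  ∃ i l, l + 1 < m i ∧ P i l + P i (l + 1) ≠ a ∧ P i l + P i (l + 1) ≠ b ∧
    (x = P i l ∨ x = P i (l + 1))

theorem mem_bin' {ρ x : ℕ} : x ∈ bin a b ρ ↔ x ≤ b ∧ binIdx a b x = ρ := by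
  unfold bin
  rw [mem_filter, mem_range, Nat.lt_succ_iff]

theorem step_bin (h : PZ m P U Q a b) {i : Fin T} {l ρ : ℕ} (hl : l + 1 < m i)
    (he : P i l + P i (l + 1) = a ∨ P i l + P i (l + 1) = b) :
    P i l ∈ bin a b ρ ↔ P i (l + 1) ∈ bin a b ρ := by
  rw [mem_bin', mem_bin', binIdx_of_sum h.hab he]
  have h1 := P_le h i (l := l) (by omega)
  have h2 := P_le h i (l := l + 1) hl
  tauto

/-- the contribution of one path to `brk` -/
def ctr {T : ℕ} (m : Fin T → ℕ) (P : Fin T → ℕ → ℕ) (a b ρ : ℕ) (i : Fin T) : ℕ :=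
  ∑ l ∈ (range (m i)).filter (fun l => P i l ∈ bin a b ρ), (4 - dab m P a b i l)

theorem sum_full (M : ℕ) (hM : 1 ≤ M) (d : ℕ → ℕ)
    (hd : ∀ l, l < M → d l = (if l + 1 < M then 1 else 0) + (if 1 ≤ l then 1 else 0)) :
    ∑ l ∈ range M, (4 - d l) = 2 * (M + 1) := by
  obtain ⟨k, rfl⟩ : ∃ k, M = k + 1 := ⟨M - 1, by omega⟩
  have h1 : ∀ l ∈ range (k + 1), 4 - d l =
      (if l < k then 1 else 2) + (if l = 0 then 2 else 1) := by
    intro l hl
    have hl' : l < k + 1 := by simpa using hl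
    rw [hd l hl']
    split_ifs <;> omega
  rw [Finset.sum_congr rfl h1, Finset.sum_add_distrib, Finset.sum_range_succ]
  have h2 : ∑ l ∈ range k, (if l < k then 1 else 2) = k := by
    rw [Finset.sum_congr rfl (g := fun _ => 1)]
    · simp
    · intro l hl
      have : l < k := by simpa using hl
      simp [this]
  have h3 : ∑ l ∈ range (k + 1), (if l = 0 then 2 else 1) = k + 2 := by
    rw [Finset.sum_range_succ']
    simp
  rw [h2, h3]
  simp
  ring

theorem clean_path (h : PZ m P U Q a b) {w : Fin T → ℕ} {lam : ℕ} (hm : ∀ i, m i + 1 = lam * w i)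
    {ρ : ℕ} (i : Fin T)
    (hc : ∀ l, l < m i → P i l ∈ bin a b ρ →
      (l + 1 < m i → P i l + P i (l + 1) = a ∨ P i l + P i (l + 1) = b) ∧
      (1 ≤ l → P i (l - 1) + P i l = a ∨ P i (l - 1) + P i l = b)) :
    (∀ l, l < m i → (P i l ∈ bin a b ρ ↔ P i 0 ∈ bin a b ρ)) ∧
    ctr m P a b ρ i = if P i 0 ∈ bin a b ρ then 2 * (lam * w i) else 0 := by
  have hall : ∀ l, l < m i → (P i l ∈ bin a b ρ ↔ P i 0 ∈ bin a b ρ) := by
    intro l
    induction l with
    | zero => intro _; rfl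
    | succ l ih =>
      intro hl
      rw [← ih (by omega)]
      constructor
      · intro h1
        have := (hc (l + 1) hl h1).2 (by omega)
        simp only [Nat.add_sub_cancel] at this
        exact (step_bin h hl this).mpr h1
      · intro h1
        have := (hc l (by omega) h1).1 hl
        exact (step_bin h hl this).mp h1
  refine ⟨hall, ?_⟩
  unfold ctr
  have h5 := h.five i
  split_ifs with h0
  · have hfil : (range (m i)).filter (fun l => P i l ∈ bin a b ρ) = range (m i) := by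
      apply Finset.filter_true_of_mem
      intro l hl
      exact (hall l (by simpa using hl)).mpr h0
    rw [hfil, sum_full (m i) (by omega), hm i]
    intro l hl
    have hlb := (hall l hl).mpr h0
    have hcl := hc l hl hlb
    unfold dab
    congr 1
    · by_cases h1 : l + 1 < m i
      · simp only [h1, hcl.1 h1, and_self, if_true]
      · simp only [h1, false_and, if_false]
    · by_cases h1 : 1 ≤ l
      · simp only [h1, hcl.2 h1, and_self, if_true]
      · simp only [h1, false_and, if_false]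
  · have hfil : (range (m i)).filter (fun l => P i l ∈ bin a b ρ) = ∅ := by
      apply Finset.filter_false_of_mem
      intro l hl hl2
      exact h0 ((hall l (by simpa using hl)).mp hl2)
    rw [hfil]
    simp

theorem brk_eq_ctr (ρ : ℕ) : brk m P a b (bin a b ρ) = ∑ i, ctr m P a b ρ i := rfl

/-- A bin without corner ends contains whole paths. -/
theorem brk_clean (h : PZ m P U Q a b) {w : Fin T → ℕ} {lam : ℕ} (hm : ∀ i, m i + 1 = lam * w i)
    {ρ : ℕ} (hc : ∀ x ∈ bin a b ρ, ¬ CornerEnd m P a b x) :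
    brk m P a b (bin a b ρ) =
      2 * (lam * ∑ i ∈ univ.filter (fun i => P i 0 ∈ bin a b ρ), w i) := by
  rw [brk_eq_ctr, Finset.sum_filter, Finset.mul_sum, Finset.mul_sum]
  apply Finset.sum_congr rfl
  intro i _
  have := (clean_path h hm (ρ := ρ) i (by
    intro l hl hlb
    have hnc := hc _ hlb
    constructor
    · intro h1
      by_contra hcon
      push Not at hcon
      exact hnc ⟨i, l, h1, hcon.1, hcon.2, Or.inl rfl⟩
    · intro h1
      by_contra hcon
      push Not at hcon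
      have e : l - 1 + 1 = l := by omega
      refine hnc ⟨i, l - 1, by omega, ?_, ?_, Or.inr ?_⟩
      · rw [e]; exact hcon.1
      · rw [e]; exact hcon.2
      · rw [e])).2
  rw [this]
  split_ifs <;> simp

theorem mem_occ_path {i : Fin T} {l : ℕ} (hl : l < m i) : P i l ∈ occ m P U := by
  unfold occ
  rw [mem_union]
  right
  rw [mem_biUnion]
  exact ⟨i, mem_univ _, mem_image.mpr ⟨l, by simpa using hl, rfl⟩⟩

/-- classification of the corner ends in the bin -/
theorem corner_class (h : PZ m P U Q a b)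
    (hδ : ∀ s ∈ Q, s ≠ a → s ≠ b → s < b - a) (hba : 2 * (b - a) < a) {ρ : ℕ}
    (hc : ∀ x ∈ bin a b ρ, CornerEnd m P a b x → b - x ∈ occ m P U)
    {i : Fin T} {l : ℕ} (hl : l < m i) (hb : P i l ∈ bin a b ρ)
    (hce : (l + 1 < m i ∧ P i l + P i (l + 1) ≠ a ∧ P i l + P i (l + 1) ≠ b) ∨
      (1 ≤ l ∧ P i (l - 1) + P i l ≠ a ∧ P i (l - 1) + P i l ≠ b)) :
    (l = 1 ∧ P i 0 + P i 1 = b ∧ P i 1 + P i 2 ≠ a ∧ P i 1 + P i 2 ≠ b) ∨
    (l + 2 = m i ∧ P i l + P i (l + 1) = b ∧ P i (l - 1) + P i l ≠ a ∧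
      P i (l - 1) + P i l ≠ b) := by
  have h5 := h.five i
  have hcorner : CornerEnd m P a b (P i l) := by
    rcases hce with ⟨h1, h2, h3⟩ | ⟨h1, h2, h3⟩
    · exact ⟨i, l, h1, h2, h3, Or.inl rfl⟩
    · have e : l - 1 + 1 = l := by omega
      refine ⟨i, l - 1, by omega, ?_, ?_, Or.inr ?_⟩
      · rw [e]; exact h2
      · rw [e]; exact h3
      · rw [e]
  have hxlt : P i l < b - a := by
    rcases hce with ⟨h1, h2, h3⟩ | ⟨h1, h2, h3⟩
    · have := hδ _ (h.edge i l h1) h2 h3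
      omega
    · have e : l - 1 + 1 = l := by omega
      have h4 := h.edge i (l - 1) (by omega)
      rw [e] at h4
      have := hδ _ h4 h2 h3
      omega
  have hocc := hc _ hb hcorner
  have hab := h.hab
  have hcons := h.anti b h.hb (P i l) (mem_occ_path hl) (b - P i l) hocc (by omega) (by omega)
  obtain ⟨j, k, hk, hjk⟩ := hcons
  rcases hjk with ⟨h1, h2⟩ | ⟨h1, h2⟩
  · -- x = P j k, b - x = P j (k+1)
    obtain ⟨hij, hlk⟩ := h.inj i j l k hl (by omega) h1
    subst hij; subst hlk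
    right
    have hsum : P i l + P i (l + 1) = b := by omega
    have hce' : 1 ≤ l ∧ P i (l - 1) + P i l ≠ a ∧ P i (l - 1) + P i l ≠ b := by
      rcases hce with ⟨_, _, h3⟩ | h3
      · exact absurd hsum h3
      · exact h3
    refine ⟨?_, hsum, hce'.2.1, hce'.2.2⟩
    by_contra hne
    have h3 : l + 1 + 1 < m i := by omega
    have h4 := h.edge i (l + 1) h3
    rcases h.top _ h4 with h6 | h6
    · have h7 : P i l = P i (l + 1 + 1) := by omega
      have := (h.inj i i l (l + 1 + 1) hl h3 h7).2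
      omega
    · omega
  · -- b - x = P j k, x = P j (k+1)
    obtain ⟨hij, hlk⟩ := h.inj i j l (k + 1) hl hk h2
    subst hij; subst hlk
    left
    have hsum : P i k + P i (k + 1) = b := by omega
    have hce' : k + 1 + 1 < m i ∧ P i (k + 1) + P i (k + 1 + 1) ≠ a ∧
        P i (k + 1) + P i (k + 1 + 1) ≠ b := by
      rcases hce with h3 | ⟨_, _, h3⟩
      · exact h3
      · simp only [Nat.add_sub_cancel] at h3
        exact absurd hsum h3
    have hk0 : k = 0 := by
      by_contra hne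
      have e : k - 1 + 1 = k := by omega
      have h4 := h.edge i (k - 1) (by omega)
      rw [e] at h4
      rcases h.top _ h4 with h6 | h6
      · have h7 : P i (k - 1) = P i (k + 1) := by omega
        have := (h.inj i i (k - 1) (k + 1) (by omega) hl h7).2
        omega
      · omega
    subst hk0
    exact ⟨rfl, hsum, hce'.2.1, hce'.2.2⟩

theorem none_other {M : ℕ} {X : ℕ → Prop} {L R : Prop}
    (hcon : ∀ l, l < M → ((X l ∧ ¬ (L ∧ (l = 0 ∨ l = 1)) ∧ ¬ (R ∧ (l = M - 2 ∨ l = M - 1))) ↔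
      (X 0 ∧ ¬ (L ∧ (0 = 0 ∨ 0 = 1)) ∧ ¬ (R ∧ (0 = M - 2 ∨ 0 = M - 1))))) {l₀ : ℕ} (hl₀ : l₀ < M)
    (h0 : (L ∧ (l₀ = 0 ∨ l₀ = 1)) ∨ (R ∧ (l₀ = M - 2 ∨ l₀ = M - 1))) :
    ∀ l, l < M → X l → (L ∧ (l = 0 ∨ l = 1)) ∨ (R ∧ (l = M - 2 ∨ l = M - 1)) := by
  intro l hl hX
  by_contra hneg
  push Not at hneg
  have h1 := (hcon l hl).mp ⟨hX, by tauto, by tauto⟩
  have h2 := (hcon l₀ hl₀).mpr h1
  tauto

theorem cardL (i : Fin T) (h3 : 3 ≤ m i) (h : P i 1 + P i 2 ≠ a ∧ P i 1 + P i 2 ≠ b) :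
    1 ≤ ((range (m i)).filter fun l =>
      l + 1 < m i ∧ P i l + P i (l + 1) ≠ a ∧ P i l + P i (l + 1) ≠ b).card := by
  rw [Nat.succ_le_iff, Finset.card_pos]
  refine ⟨1, ?_⟩
  rw [mem_filter, mem_range]
  exact ⟨by omega, by omega, h.1, h.2⟩

theorem cardR (i : Fin T) (h3 : 3 ≤ m i)
    (h : P i (m i - 3) + P i (m i - 2) ≠ a ∧ P i (m i - 3) + P i (m i - 2) ≠ b) :
    1 ≤ ((range (m i)).filter fun l =>
      l + 1 < m i ∧ P i l + P i (l + 1) ≠ a ∧ P i l + P i (l + 1) ≠ b).card := by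
  rw [Nat.succ_le_iff, Finset.card_pos]
  refine ⟨m i - 3, ?_⟩
  have e : m i - 3 + 1 = m i - 2 := by omega
  rw [mem_filter, mem_range, e]
  exact ⟨by omega, by omega, h.1, h.2⟩

theorem L0 (h : PZ m P U Q a b) {i : Fin T} {ρ : ℕ} (h1 : P i 1 ∈ bin a b ρ)
    (h2 : P i 0 + P i 1 = b) (h3 : 1 < m i) : P i 0 ∈ bin a b ρ :=
  (step_bin h (l := 0) h3 (Or.inr h2)).mpr h1

theorem R0 (h : PZ m P U Q a b) {i : Fin T} {ρ : ℕ} (h1 : P i (m i - 2) ∈ bin a b ρ)
    (h2 : P i (m i - 2) + P i (m i - 1) = b) (h3 : 2 ≤ m i) : P i (m i - 1) ∈ bin a b ρ := by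
  have e : m i - 2 + 1 = m i - 1 := by omega
  have := (step_bin h (ρ := ρ) (i := i) (l := m i - 2) (by omega) (by rw [e]; exact Or.inr h2)).mp h1
  rwa [e] at this

theorem dab0 {i : Fin T} (h3 : 1 < m i) (h2 : P i 0 + P i 1 = b) : dab m P a b i 0 = 1 := by
  unfold dab
  have e : (0 + 1 < m i ∧ (P i 0 + P i (0 + 1) = a ∨ P i 0 + P i (0 + 1) = b)) :=
    ⟨h3, Or.inr h2⟩
  rw [if_pos e, if_neg (by omega)]

theorem dab1 {i : Fin T} (h2 : P i 0 + P i 1 = b)
    (h4 : P i 1 + P i 2 ≠ a ∧ P i 1 + P i 2 ≠ b) : dab m P a b i 1 = 1 := by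
  unfold dab
  rw [if_neg, if_pos]
  · exact ⟨le_rfl, Or.inr h2⟩
  · rintro ⟨_, h5 | h5⟩
    · exact h4.1 h5
    · exact h4.2 h5

theorem dabR {i : Fin T} (h3 : 3 ≤ m i) (h2 : P i (m i - 2) + P i (m i - 1) = b)
    (h4 : P i (m i - 3) + P i (m i - 2) ≠ a ∧ P i (m i - 3) + P i (m i - 2) ≠ b) :
    dab m P a b i (m i - 2) = 1 := by
  unfold dab
  have e1 : m i - 2 + 1 = m i - 1 := by omega
  have e2 : m i - 2 - 1 = m i - 3 := by omega
  rw [e1, e2, if_pos, if_neg]
  · rintro ⟨_, h5 | h5⟩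
    · exact h4.1 h5
    · exact h4.2 h5
  · exact ⟨by omega, Or.inr h2⟩

theorem dabE {i : Fin T} (h3 : 3 ≤ m i) (h2 : P i (m i - 2) + P i (m i - 1) = b) :
    dab m P a b i (m i - 1) = 1 := by
  unfold dab
  have e2 : m i - 1 - 1 = m i - 2 := by omega
  rw [e2, if_neg, if_pos]
  · exact ⟨by omega, Or.inr h2⟩
  · rintro ⟨h5, _⟩
    omega

/-- contribution of one path in the tiny case -/
theorem tiny_path (h : PZ m P U Q a b) {w : Fin T → ℕ} {lam : ℕ} (hm : ∀ i, m i + 1 = lam * w i)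
    (hδ : ∀ s ∈ Q, s ≠ a → s ≠ b → s < b - a) (hba : 2 * (b - a) < a) {ρ : ℕ}
    (hc : ∀ x ∈ bin a b ρ, CornerEnd m P a b x → b - x ∈ occ m P U) (i : Fin T) :
    ∃ τ N, τ ≤ 2 * ((range (m i)).filter fun l =>
      l + 1 < m i ∧ P i l + P i (l + 1) ≠ a ∧ P i l + P i (l + 1) ≠ b).card ∧
      ctr m P a b ρ i = 6 * τ + 2 * (lam * N) := by
  have h5 := h.five i
  have hcl := fun l hl hb hce => corner_class h hδ hba hc (i := i) (l := l) hl hb hce
  by_cases hL : P i 1 ∈ bin a b ρ ∧ P i 0 + P i 1 = b ∧ P i 1 + P i 2 ≠ a ∧ P i 1 + P i 2 ≠ b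
  all_goals
    by_cases hR : P i (m i - 2) ∈ bin a b ρ ∧ P i (m i - 2) + P i (m i - 1) = b ∧
      P i (m i - 3) + P i (m i - 2) ≠ a ∧ P i (m i - 3) + P i (m i - 2) ≠ b
  all_goals
    have hcl2 : ∀ l, l < m i → P i l ∈ bin a b ρ →
      ((l + 1 < m i ∧ P i l + P i (l + 1) ≠ a ∧ P i l + P i (l + 1) ≠ b) ∨
      (1 ≤ l ∧ P i (l - 1) + P i l ≠ a ∧ P i (l - 1) + P i l ≠ b)) →
      (l = 1 ∧ P i 1 ∈ bin a b ρ ∧ P i 0 + P i 1 = b ∧ P i 1 + P i 2 ≠ a ∧ P i 1 + P i 2 ≠ b) ∨
      (l = m i - 2 ∧ P i (m i - 2) ∈ bin a b ρ ∧ P i (m i - 2) + P i (m i - 1) = b ∧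
      P i (m i - 3) + P i (m i - 2) ≠ a ∧ P i (m i - 3) + P i (m i - 2) ≠ b) := by
      intro l hl hb hce
      rcases hcl l hl hb hce with ⟨h1, h2⟩ | ⟨h1, h2, h3, h4⟩
      · subst h1
        exact Or.inl ⟨rfl, hb, h2⟩
      · right
        have e1 : l = m i - 2 := by omega
        have e2 : l + 1 = m i - 1 := by omega
        have e3 : l - 1 = m i - 3 := by omega
        rw [e2] at h2
        rw [e3] at h3 h4
        rw [e1] at h2 h3 h4 hb
        exact ⟨e1, hb, h2, h3, h4⟩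
  all_goals
    -- the set of other indices is closed under adjacency
    have hstep : ∀ l, l + 1 < m i →
        ((P i l ∈ bin a b ρ ∧
          ¬ ((P i 1 ∈ bin a b ρ ∧ P i 0 + P i 1 = b ∧ P i 1 + P i 2 ≠ a ∧ P i 1 + P i 2 ≠ b) ∧
            (l = 0 ∨ l = 1)) ∧
          ¬ ((P i (m i - 2) ∈ bin a b ρ ∧ P i (m i - 2) + P i (m i - 1) = b ∧
            P i (m i - 3) + P i (m i - 2) ≠ a ∧ P i (m i - 3) + P i (m i - 2) ≠ b) ∧
            (l = m i - 2 ∨ l = m i - 1))) ↔
        (P i (l + 1) ∈ bin a b ρ ∧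
          ¬ ((P i 1 ∈ bin a b ρ ∧ P i 0 + P i 1 = b ∧ P i 1 + P i 2 ≠ a ∧ P i 1 + P i 2 ≠ b) ∧
            (l + 1 = 0 ∨ l + 1 = 1)) ∧
          ¬ ((P i (m i - 2) ∈ bin a b ρ ∧ P i (m i - 2) + P i (m i - 1) = b ∧
            P i (m i - 3) + P i (m i - 2) ≠ a ∧ P i (m i - 3) + P i (m i - 2) ≠ b) ∧
            (l + 1 = m i - 2 ∨ l + 1 = m i - 1)))) := by
      intro l hl
      constructor
      · rintro ⟨h1, h2, h3⟩
        have he : P i l + P i (l + 1) = a ∨ P i l + P i (l + 1) = b := by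
          by_contra hcon
          push Not at hcon
          rcases hcl2 l (by omega) h1 (Or.inl ⟨hl, hcon.1, hcon.2⟩) with ⟨h4, h6⟩ | ⟨h4, h6⟩
          · exact h2 ⟨h6, Or.inr h4⟩
          · exact h3 ⟨h6, Or.inl h4⟩
        refine ⟨(step_bin h hl he).mp h1, ?_, ?_⟩
        · rintro ⟨h4, h6 | h6⟩
          · omega
          · exact h2 ⟨h4, Or.inl (by omega)⟩
        · rintro ⟨h4, h6 | h6⟩
          · have e1 : m i - 3 = l := by omega
            rw [← h6, e1] at h4
            tauto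
          · exact h3 ⟨h4, Or.inl (by omega)⟩
      · rintro ⟨h1, h2, h3⟩
        have he : P i l + P i (l + 1) = a ∨ P i l + P i (l + 1) = b := by
          by_contra hcon
          push Not at hcon
          rcases hcl2 (l + 1) hl h1 (Or.inr ⟨by omega, by
            simpa using hcon.1, by simpa using hcon.2⟩) with ⟨h4, h6⟩ | ⟨h4, h6⟩
          · exact h2 ⟨h6, Or.inr h4⟩
          · exact h3 ⟨h6, Or.inl h4⟩
        refine ⟨(step_bin h hl he).mpr h1, ?_, ?_⟩
        · rintro ⟨h4, h6 | h6⟩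
          · exact h2 ⟨h4, Or.inr (by omega)⟩
          · subst h6
            tauto
        · rintro ⟨h4, h6 | h6⟩
          · exact h3 ⟨h4, Or.inr (by omega)⟩
          · omega
  all_goals
    have hcon : ∀ l, l < m i →
        ((P i l ∈ bin a b ρ ∧
          ¬ ((P i 1 ∈ bin a b ρ ∧ P i 0 + P i 1 = b ∧ P i 1 + P i 2 ≠ a ∧ P i 1 + P i 2 ≠ b) ∧
            (l = 0 ∨ l = 1)) ∧
          ¬ ((P i (m i - 2) ∈ bin a b ρ ∧ P i (m i - 2) + P i (m i - 1) = b ∧
            P i (m i - 3) + P i (m i - 2) ≠ a ∧ P i (m i - 3) + P i (m i - 2) ≠ b) ∧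
            (l = m i - 2 ∨ l = m i - 1))) ↔
        (P i 0 ∈ bin a b ρ ∧
          ¬ ((P i 1 ∈ bin a b ρ ∧ P i 0 + P i 1 = b ∧ P i 1 + P i 2 ≠ a ∧ P i 1 + P i 2 ≠ b) ∧
            (0 = 0 ∨ 0 = 1)) ∧
          ¬ ((P i (m i - 2) ∈ bin a b ρ ∧ P i (m i - 2) + P i (m i - 1) = b ∧
            P i (m i - 3) + P i (m i - 2) ≠ a ∧ P i (m i - 3) + P i (m i - 2) ≠ b) ∧
            (0 = m i - 2 ∨ 0 = m i - 1)))) := by
      intro l
      induction l with
      | zero => intro _; exact Iff.rfl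
      | succ l ih =>
        intro hl
        rw [← ih (by omega)]
        exact (hstep l hl).symm
  · -- both
    have hnone := none_other (fun l hl => hcon l hl) (l₀ := 1) (by omega) (by tauto)
    refine ⟨2, 0, ?_, ?_⟩
    · have := cardL (T := T) (m := m) (P := P) (a := a) (b := b) i (by omega) hL.2.2
      omega
    · have hf : (range (m i)).filter (fun l => P i l ∈ bin a b ρ) =
          {0, 1, m i - 2, m i - 1} := by
        ext l
        simp only [mem_filter, mem_range, mem_insert, mem_singleton]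
        constructor
        · rintro ⟨h1, h2⟩
          rcases hnone l h1 h2 with h3 | h3 <;> omega
        · rintro (h1 | h1 | h1 | h1)
          · subst h1; exact ⟨by omega, L0 h hL.1 hL.2.1 (by omega)⟩
          · subst h1; exact ⟨by omega, hL.1⟩
          · subst h1; exact ⟨by omega, hR.1⟩
          · subst h1; exact ⟨by omega, R0 h hR.1 hR.2.1 (by omega)⟩
      unfold ctr
      rw [hf, Finset.sum_insert, Finset.sum_insert, Finset.sum_insert, Finset.sum_singleton,
        dab0 (by omega) hL.2.1, dab1 hL.2.1 hL.2.2, dabR (by omega) hR.2.1 hR.2.2,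
        dabE (by omega) hR.2.1]
      · simp
      · simp only [mem_singleton]; omega
      · simp only [mem_insert, mem_singleton]; omega
      · simp only [mem_insert, mem_singleton]; omega
  · have hnone := none_other (fun l hl => hcon l hl) (l₀ := 1) (by omega) (by tauto)
    refine ⟨1, 0, ?_, ?_⟩
    · have := cardL (T := T) (m := m) (P := P) (a := a) (b := b) i (by omega) hL.2.2
      omega
    · have hf : (range (m i)).filter (fun l => P i l ∈ bin a b ρ) = {0, 1} := by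
        ext l
        simp only [mem_filter, mem_range, mem_insert, mem_singleton]
        constructor
        · rintro ⟨h1, h2⟩
          rcases hnone l h1 h2 with h3 | h3
          · exact h3.2
          · exact absurd h3.1 hR
        · rintro (h1 | h1)
          · subst h1; exact ⟨by omega, L0 h hL.1 hL.2.1 (by omega)⟩
          · subst h1; exact ⟨by omega, hL.1⟩
      unfold ctr
      rw [hf, Finset.sum_insert, Finset.sum_singleton,
        dab0 (by omega) hL.2.1, dab1 hL.2.1 hL.2.2]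
      · simp
      · simp
  · have hnone := none_other (fun l hl => hcon l hl) (l₀ := m i - 2) (by omega) (by tauto)
    refine ⟨1, 0, ?_, ?_⟩
    · have := cardR (T := T) (m := m) (P := P) (a := a) (b := b) i (by omega) hR.2.2
      omega
    · have hf : (range (m i)).filter (fun l => P i l ∈ bin a b ρ) = {m i - 2, m i - 1} := by
        ext l
        simp only [mem_filter, mem_range, mem_insert, mem_singleton]
        constructor
        · rintro ⟨h1, h2⟩
          rcases hnone l h1 h2 with h3 | h3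
          · exact absurd h3.1 hL
          · exact h3.2
        · rintro (h1 | h1)
          · subst h1; exact ⟨by omega, hR.1⟩
          · subst h1; exact ⟨by omega, R0 h hR.1 hR.2.1 (by omega)⟩
      unfold ctr
      rw [hf, Finset.sum_insert, Finset.sum_singleton,
        dabR (by omega) hR.2.1 hR.2.2, dabE (by omega) hR.2.1]
      · simp
      · simp only [mem_singleton]; omega
  · have hcp := (clean_path h hm (ρ := ρ) i (by
      intro l hl hb
      constructor
      · intro h1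
        by_contra hcon2
        push Not at hcon2
        rcases hcl2 l hl hb (Or.inl ⟨h1, hcon2.1, hcon2.2⟩) with ⟨_, h6⟩ | ⟨_, h6⟩
        · exact hL h6
        · exact hR h6
      · intro h1
        by_contra hcon2
        push Not at hcon2
        rcases hcl2 l hl hb (Or.inr ⟨h1, hcon2.1, hcon2.2⟩) with ⟨_, h6⟩ | ⟨_, h6⟩
        · exact hL h6
        · exact hR h6)).2
    rw [hcp]
    split_ifs
    · exact ⟨0, w i, by omega, by ring⟩
    · exact ⟨0, 0, by omega, by ring⟩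

/-- If all corner edges have small sum, and `b - x` is occupied for every corner end `x` of the bin,
then the paths with a corner edge only have pieces of two vertices in the bin. -/
theorem brk_tiny (h : PZ m P U Q a b) {w : Fin T → ℕ} {lam : ℕ} (hm : ∀ i, m i + 1 = lam * w i)
    (hδ : ∀ s ∈ Q, s ≠ a → s ≠ b → s < b - a) (hba : 2 * (b - a) < a) {ρ : ℕ}
    (hc : ∀ x ∈ bin a b ρ, CornerEnd m P a b x → b - x ∈ occ m P U) :
    ∃ τ N, τ ≤ 2 * Ec m P a b ∧ brk m P a b (bin a b ρ) = 6 * τ + 2 * (lam * N) := by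
  choose τ N h1 h2 using fun i => tiny_path h hm hδ hba hc i
  refine ⟨∑ i, τ i, ∑ i, N i, ?_, ?_⟩
  · unfold Ec
    rw [Finset.mul_sum]
    exact Finset.sum_le_sum fun i _ => h1 i
  · rw [brk_eq_ctr, Finset.sum_congr rfl fun i _ => h2 i, Finset.sum_add_distrib,
      ← Finset.mul_sum, ← Finset.mul_sum, ← Finset.mul_sum]

/-- A path without corner edge stays in one bin. -/
theorem path_in_bin (h : PZ m P U Q a b) (i : Fin T)
    (hi : ∀ l, l + 1 < m i → P i l + P i (l + 1) = a ∨ P i l + P i (l + 1) = b) {l : ℕ}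
    (hl : l < m i) : binIdx a b (P i l) = binIdx a b (P i 0) := by
  induction l with
  | zero => rfl
  | succ l ih =>
    rw [← ih (by omega)]
    exact (binIdx_of_sum h.hab (hi l hl)).symm

end Pool.Agent.H82.SN
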