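import Pool.Agent.H82.SN.Defs
import Pool.Agent.H78.NP.SM

/-!
# NP side: exact cover with numeric data, from 3SAT
-/

namespace Pool.Agent.H82.SN

open Finset Pool.Agent.H78.NP

/-- Packability of a list of weights. -/
def PackableL (l : List ℕ) (g B : ℕ) : Prop := Packable (fun i : Fin l.length => l.get i) g B

/-- An exact cover instance with numeric data: sets `0, …, m - 1`, three classes of elements;
`E j κ = 0` means that the set `j` has no element of class `κ`, otherwise `E j κ` is the code of the
element of class `κ` of the set `j`; `act` marks the incidences which are 'actual'. -/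
structure XC where
  m : ℕ
  E : ℕ → ℕ → ℕ
  act : ℕ → ℕ → Bool

/-- A solution selects sets so that each element of class `κ` is covered as often as it has actual
incidences. -/
def XC.Solvable (X : XC) : Prop :=
  ∃ S : Finset ℕ, S ⊆ range X.m ∧ ∀ κ, κ < 3 → ∀ x, 0 < x →
    (S.filter fun j => X.E j κ = x).card =
      ((range X.m).filter fun j => X.E j κ = x ∧ X.act j κ = true).card

/-- Number of elements of class `1, 2` of the set `j`. -/
def XC.p (X : XC) (j : ℕ) : ℕ :=
  (if X.E j 1 = 0 then 0 else 1) + (if X.E j 2 = 0 then 0 else 1)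

/-- Weight of the set item. -/
def XC.tw (X : XC) (I R j : ℕ) : ℕ :=
  1 + (((List.range 3).map fun κ =>
    R ^ (1 + 2 * κ) * (if X.E j κ = 0 then 1 else 0) + R ^ (2 + 2 * κ) * (I - X.E j κ)).sum +
    R ^ 7 * (2 - X.p j))

/-- Weight of the item of the incidence `(j, κ)`. -/
def XC.iw (X : XC) (R j κ : ℕ) : ℕ :=
  R ^ (1 + 2 * κ) + (R ^ (2 + 2 * κ) * X.E j κ +
    R ^ 7 * (if κ = 0 then (if X.act j 0 = true then X.p j else 0)
      else (if X.act j κ = true then 0 else 1)))

/-- Capacity of the bins. -/
def XC.cap (I R : ℕ) : ℕ :=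
  1 + (((List.range 3).map fun κ => R ^ (1 + 2 * κ) + R ^ (2 + 2 * κ) * I).sum + R ^ 7 * 2)

/-- The list of all items. -/
def XC.items (X : XC) (I R : ℕ) : List ℕ :=
  (List.range X.m).flatMap fun j =>
    X.tw I R j :: (List.range 3).flatMap fun κ => if X.E j κ = 0 then [] else [X.iw R j κ]

/-- A trivial clause is added, so that there is at least one clause. -/
def cls (φ : List Cl) : List Cl := ((0, true), (0, false), (0, true)) :: φ

/-- Number of clauses. -/
def nM (φ : List Cl) : ℕ := φ.length + 1

/-- Number of variables (a strict upper bound for the variables that occur). -/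
def nN (φ : List Cl) : ℕ := (φ.map fun c => c.1.1 + c.2.1.1 + c.2.2.1).sum + 1

/-- The `k`-th literal of the `j`-th clause. -/
def lit (φ : List Cl) (j k : ℕ) : Lit :=
  if k = 0 then ((cls φ).getD j ((0, true), (0, false), (0, true))).1
  else if k = 1 then ((cls φ).getD j ((0, true), (0, false), (0, true))).2.1
  else ((cls φ).getD j ((0, true), (0, false), (0, true))).2.2

/-- Code of the token of the variable `i`, the clause `j` and the sign `s`. -/
def tok (M i j : ℕ) (s : Bool) : ℕ := 2 * (i * M + j) + (if s = true then 1 else 0) + 1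

/-- The exact cover instance of a formula, `M` clauses, `N` variables. Sets:
* `2 * (i * M + j)` ('variable `i` is true', clause `j`): `b_i[j]`, token `(i, j, false)`, `a_i[j]`;
* `2 * (i * M + j) + 1` ('variable `i` is false'): `b_i[j]`, token `(i, j, true)`, `a_i[j + 1]`;
* `2 * N * M + 3 * j + k`: `s[j]`, token of the `k`-th literal of the clause `j`;
* `2 * N * M + 3 * M + q`, `q < 2 * N * M`: `g`, the token of code `q + 1`. -/
def satXC (φ : List Cl) : XC where
  m := 2 * (nN φ * nM φ) + 3 * nM φ + 2 * (nN φ * nM φ)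
  E j κ :=
    if j < 2 * (nN φ * nM φ) then
      if κ = 0 then j / 2 + 1
      else if κ = 1 then j + 1
      else if κ = 2 then
        (if j % 2 = 0 then j / 2 + 1
          else (j / 2) / nM φ * nM φ + ((j / 2) % nM φ + 1) % nM φ + 1)
      else 0
    else if j < 2 * (nN φ * nM φ) + 3 * nM φ then
      if κ = 0 then nN φ * nM φ + (j - 2 * (nN φ * nM φ)) / 3 + 1
      else if κ = 1 then
        tok (nM φ) (lit φ ((j - 2 * (nN φ * nM φ)) / 3) ((j - 2 * (nN φ * nM φ)) % 3)).1
          ((j - 2 * (nN φ * nM φ)) / 3)
          (lit φ ((j - 2 * (nN φ * nM φ)) / 3) ((j - 2 * (nN φ * nM φ)) % 3)).2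
      else 0
    else
      if κ = 0 then nN φ * nM φ + nM φ + 1
      else if κ = 1 then j - (2 * (nN φ * nM φ) + 3 * nM φ) + 1
      else 0
  act j κ :=
    if j < 2 * (nN φ * nM φ) then
      if κ = 1 then false else decide (j % 2 = 0)
    else if j < 2 * (nN φ * nM φ) + 3 * nM φ then
      if κ = 0 then decide ((j - 2 * (nN φ * nM φ)) % 3 = 0) else false
    else
      if κ = 0 then
        decide ((j - (2 * (nN φ * nM φ) + 3 * nM φ)) % 2 = 0) &&
          decide (2 * nM φ ≤ j - (2 * (nN φ * nM φ) + 3 * nM φ))
      else true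

end Pool.Agent.H82.SN
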