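import Pool.Agent.H82.SN.B0

/-!
# Module B1: exact cover to packing (digits in base `R`)
-/

namespace Pool.Agent.H82.SN

open Finset

/-! ### Packing of a list indexed by a duplicate free list -/

private theorem sum_flatMap' {α : Type} (l : List α) (f : α → List ℕ) :
    (l.flatMap f).sum = (l.map fun a => (f a).sum).sum := by
  induction l with
  | nil => simp
  | cons a l ih => simp [List.flatMap_cons, ih]

private theorem packableL_map {α : Type} [DecidableEq α] (L : List α) (hL : L.Nodup) (w : α → ℕ)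
    (g B : ℕ) :
    PackableL (L.map w) g B ↔ ∃ F : α → ℕ, (∀ i ∈ L, F i < g) ∧
      ∀ b, b < g → (L.map fun i => if F i = b then w i else 0).sum = B := by
  have hlen : (L.map w).length = L.length := List.length_map _
  unfold PackableL Packable
  constructor
  · rintro ⟨f, hf⟩
    have hF : ∀ i (hi : i < L.length),
        (if h : L.idxOf L[i] < L.length then (f ⟨L.idxOf L[i], by rwa [hlen]⟩ : ℕ) else 0) =
          f ⟨i, by rwa [hlen]⟩ := by
      intro i hi
      rw [dif_pos (by rw [hL.idxOf_getElem i hi]; exact hi)]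
      congr 2
      exact Fin.ext (hL.idxOf_getElem i hi)
    refine ⟨fun a => if h : L.idxOf a < L.length then (f ⟨L.idxOf a, by rwa [hlen]⟩ : ℕ) else 0,
      ?_, ?_⟩
    · intro a ha
      have h : L.idxOf a < L.length := List.idxOf_lt_length_of_mem ha
      simp only [dif_pos h]
      exact (f _).2
    · intro b hb
      have h1 := hf ⟨b, hb⟩
      rw [sum_filter] at h1
      rw [← Fin.sum_univ_fun_getElem, ← h1]
      refine Fintype.sum_equiv (finCongr hlen.symm) _ _ fun i => ?_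
      have h2 := hF i.1 i.2
      simp only [h2]
      have h3 : (L.map w).get (finCongr hlen.symm i) = w L[i.1] := by simp
      rw [h3]
      have h4 : ((f ⟨i.1, by rw [hlen]; exact i.2⟩ : ℕ) = b) ↔
          (f (finCongr hlen.symm i) = ⟨b, hb⟩) := by
        rw [Fin.ext_iff]
        rfl
      by_cases h5 : (f ⟨i.1, by rw [hlen]; exact i.2⟩ : ℕ) = b
      · rw [if_pos h5, if_pos (h4.1 h5)]
      · rw [if_neg h5, if_neg (fun h => h5 (h4.2 h))]
  · rintro ⟨F, hF, hsum⟩
    refine ⟨fun i => ⟨F (L[i.1]'(by rw [← hlen]; exact i.2)), hF _ (List.getElem_mem _)⟩, ?_⟩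
    intro j
    rw [← hsum j.1 j.2, ← Fin.sum_univ_fun_getElem, sum_filter]
    refine Fintype.sum_equiv (finCongr hlen) _ _ fun i => ?_
    have h3 : (L.map w).get i = w (L[i.1]'(by rw [← hlen]; exact i.2)) := by simp
    rw [h3]
    simp only [Fin.ext_iff]
    rfl

/-! ### Digits -/

private theorem digits_unique (R n : ℕ) (x y : ℕ → ℕ) (hx : ∀ t, t < n → x t < R)
    (hy : ∀ t, t < n → y t < R)
    (h : ∑ t ∈ range n, x t * R ^ t = ∑ t ∈ range n, y t * R ^ t) :
    ∀ t, t < n → x t = y t := by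
  induction n generalizing x y with
  | zero => intro t ht; omega
  | succ n ih =>
    have hR : 0 < R := lt_of_le_of_lt (Nat.zero_le _) (hx 0 (Nat.succ_pos n))
    have key : ∀ x : ℕ → ℕ, ∑ t ∈ range (n + 1), x t * R ^ t =
        R * (∑ t ∈ range n, x (t + 1) * R ^ t) + x 0 := by
      intro x
      rw [sum_range_succ', mul_sum, pow_zero, mul_one]
      congr 1
      apply sum_congr rfl
      intro t _
      ring
    rw [key, key] at h
    have h0 : x 0 = y 0 := by
      have h1 := congrArg (· % R) h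
      simp only [Nat.mul_add_mod] at h1
      rwa [Nat.mod_eq_of_lt (hx 0 (Nat.succ_pos n)), Nat.mod_eq_of_lt (hy 0 (Nat.succ_pos n))] at h1
    rw [h0] at h
    have h2 := Nat.eq_of_mul_eq_mul_left hR (Nat.add_right_cancel h)
    have h3 := ih (fun t => x (t + 1)) (fun t => y (t + 1)) (fun t ht => hx _ (by omega))
      (fun t ht => hy _ (by omega)) h2
    intro t ht
    rcases t with _ | t
    · exact h0
    · exact h3 t (by omega)

/-! ### The items -/

namespace XC

variable (X : XC)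

/-- indices of the items -/
private def idx : List (ℕ × ℕ) :=
  (List.range X.m).flatMap fun j =>
    (j, 0) :: (List.range 3).flatMap fun κ => if X.E j κ = 0 then [] else [(j, κ + 1)]

/-- weights of the items -/
private def wt (I R : ℕ) (i : ℕ × ℕ) : ℕ :=
  if i.2 = 0 then X.tw I R i.1 else X.iw R i.1 (i.2 - 1)

private theorem items_eq (I R : ℕ) : X.items I R = X.idx.map (X.wt I R) := by
  unfold items idx
  rw [List.map_flatMap]
  congr 1
  funext j
  rw [List.map_cons, List.map_flatMap]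
  have h1 : X.wt I R (j, 0) = X.tw I R j := by simp [wt]
  rw [h1]
  congr 2
  funext κ
  split_ifs
  · rfl
  · simp [wt]

private theorem idx_nodup : X.idx.Nodup := by
  unfold idx
  rw [List.nodup_flatMap]
  constructor
  · intro j _
    rw [List.nodup_cons]
    constructor
    · rw [List.mem_flatMap]
      rintro ⟨κ, _, h⟩
      split_ifs at h <;> simp at h
    · rw [List.nodup_flatMap]
      constructor
      · intro κ _
        split_ifs <;> simp
      · apply (List.nodup_range (n := 3)).pairwise_of_forall_ne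
        intro κ _ κ' _ hne x h1 h2
        beta_reduce at h1 h2
        split_ifs at h1 h2 with e1 e2
        all_goals simp at h1 h2
        apply hne
        rw [h1] at h2
        simpa using h2
  · apply (List.nodup_range (n := X.m)).pairwise_of_forall_ne
    intro j _ j' _ hne x h1 h2
    have h3 : ∀ j, x ∈ ((j, 0) :: (List.range 3).flatMap fun κ =>
        if X.E j κ = 0 then [] else [(j, κ + 1)] : List (ℕ × ℕ)) → x.1 = j := by
      intro j h
      rw [List.mem_cons, List.mem_flatMap] at h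
      rcases h with h | ⟨κ, _, h⟩
      · rw [h]
      · split_ifs at h
        · simp at h
        · simp at h; rw [h]
    exact hne ((h3 j h1).symm.trans (h3 j' h2))

private theorem sum_idx (f : ℕ × ℕ → ℕ) : (X.idx.map f).sum =
    ∑ j ∈ range X.m, (f (j, 0) + ∑ κ ∈ range 3, if X.E j κ = 0 then 0 else f (j, κ + 1)) := by
  unfold idx
  rw [List.map_flatMap, sum_flatMap']
  have h0 : ∀ (n : ℕ) (g : ℕ → ℕ), ((List.range n).map g).sum = ∑ j ∈ range n, g j := by
    intro n g
    rfl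
  rw [h0]
  apply sum_congr rfl
  intro j _
  rw [List.map_cons, List.sum_cons, List.map_flatMap, sum_flatMap', h0]
  congr 1
  apply sum_congr rfl
  intro κ _
  split_ifs <;> simp

private theorem mem_idx_zero {j : ℕ} (hj : j < X.m) : (j, 0) ∈ X.idx := by
  unfold idx
  rw [List.mem_flatMap]
  exact ⟨j, List.mem_range.2 hj, List.mem_cons_self⟩

private theorem mem_idx_succ {j κ : ℕ} (hj : j < X.m) (hκ : κ < 3) (h : X.E j κ ≠ 0) :
    (j, κ + 1) ∈ X.idx := by
  unfold idx
  rw [List.mem_flatMap]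
  refine ⟨j, List.mem_range.2 hj, List.mem_cons_of_mem _ ?_⟩
  rw [List.mem_flatMap]
  exact ⟨κ, List.mem_range.2 hκ, by rw [if_neg h]; simp⟩

private theorem of_mem_idx {i : ℕ × ℕ} (h : i ∈ X.idx) : i.1 < X.m ∧
    (i.2 = 0 ∨ ∃ κ, κ < 3 ∧ i.2 = κ + 1 ∧ X.E i.1 κ ≠ 0) := by
  unfold idx at h
  rw [List.mem_flatMap] at h
  obtain ⟨j, hj, h⟩ := h
  rw [List.mem_range] at hj
  rw [List.mem_cons, List.mem_flatMap] at h
  rcases h with h | ⟨κ, hκ, h⟩
  · rw [h]; exact ⟨hj, Or.inl rfl⟩
  · rw [List.mem_range] at hκ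
    split_ifs at h with h0
    · simp at h
    · rw [List.mem_singleton] at h
      rw [h]
      exact ⟨hj, Or.inr ⟨κ, hκ, rfl, h0⟩⟩

private theorem idx_length_le : X.idx.length ≤ 4 * X.m := by
  have h1 : X.idx.length = (X.idx.map fun _ => 1).sum := by simp
  rw [h1, sum_idx]
  calc ∑ j ∈ range X.m, (1 + ∑ κ ∈ range 3, if X.E j κ = 0 then 0 else 1)
      ≤ ∑ j ∈ range X.m, 4 := by
        apply sum_le_sum
        intro j _
        have : ∑ κ ∈ range 3, (if X.E j κ = 0 then 0 else 1) ≤ ∑ κ ∈ range 3, 1 := by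
          apply sum_le_sum
          intro κ _
          split_ifs <;> omega
        simp at this
        omega
    _ = 4 * X.m := by simp [mul_comm]

/-- status of an incidence -/
private def st (j κ : ℕ) : ℕ :=
  if κ = 0 then (if X.act j 0 = true then X.p j else 0) else (if X.act j κ = true then 0 else 1)

/-- digits of the weight of a set item -/
private def d0 (I j : ℕ) : ℕ → ℕ
  | 0 => 1
  | 1 => if X.E j 0 = 0 then 1 else 0
  | 2 => I - X.E j 0
  | 3 => if X.E j 1 = 0 then 1 else 0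
  | 4 => I - X.E j 1
  | 5 => if X.E j 2 = 0 then 1 else 0
  | 6 => I - X.E j 2
  | 7 => 2 - X.p j
  | _ => 0

/-- digits of the weight of an incidence item -/
private def d1 (j κ t : ℕ) : ℕ :=
  if t = 1 + 2 * κ then 1 else if t = 2 + 2 * κ then X.E j κ else if t = 7 then X.st j κ else 0

/-- digits of the capacity -/
private def cd (I : ℕ) : ℕ → ℕ
  | 0 => 1
  | 1 => 1
  | 2 => I
  | 3 => 1
  | 4 => I
  | 5 => 1
  | 6 => I
  | 7 => 2
  | _ => 0

private theorem tw_eq (I R j : ℕ) : X.tw I R j = ∑ t ∈ range 8, X.d0 I j t * R ^ t := by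
  unfold tw
  simp only [sum_range_succ, sum_range_zero, d0, List.range_succ, List.range_zero]
  simp
  ring

private theorem iw_eq (R j κ : ℕ) (hκ : κ < 3) :
    X.iw R j κ = ∑ t ∈ range 8, X.d1 j κ t * R ^ t := by
  unfold iw
  have : (if κ = 0 then if X.act j 0 = true then X.p j else 0
      else if X.act j κ = true then 0 else 1) = X.st j κ := rfl
  rw [this]
  interval_cases κ
  · simp [sum_range_succ, d1]; ring
  · simp [sum_range_succ, d1]; ring
  · simp [sum_range_succ, d1]; ring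

private theorem cap_eq (I R : ℕ) : XC.cap I R = ∑ t ∈ range 8, cd I t * R ^ t := by
  unfold cap
  simp only [sum_range_succ, sum_range_zero, cd, List.range_succ, List.range_zero]
  simp
  ring

/-- digits of the items -/
private def dg (I : ℕ) (i : ℕ × ℕ) (t : ℕ) : ℕ :=
  if i.2 = 0 then X.d0 I i.1 t else X.d1 i.1 (i.2 - 1) t

private theorem wt_eq (I R : ℕ) {i : ℕ × ℕ} (hi : i ∈ X.idx) :
    X.wt I R i = ∑ t ∈ range 8, X.dg I i t * R ^ t := by
  obtain ⟨_, h | ⟨κ, hκ, h, _⟩⟩ := X.of_mem_idx hi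
  · simp only [wt, dg, h, if_true]
    exact X.tw_eq I R i.1
  · have hne : i.2 ≠ 0 := by omega
    simp only [wt, dg, if_neg hne]
    exact X.iw_eq R i.1 _ (by omega)

private theorem p_le (j : ℕ) : X.p j ≤ 2 := by
  unfold p
  split_ifs <;> omega

private theorem d0_le (I j t : ℕ) : X.d0 I j t ≤ I + 2 := by
  unfold d0
  split <;> (try split_ifs) <;> omega

private theorem d1_le {I : ℕ} (hI : ∀ j, j < X.m → ∀ κ, κ < 3 → X.E j κ ≤ I) {j κ : ℕ}
    (hj : j < X.m) (hκ : κ < 3) (t : ℕ) : X.d1 j κ t ≤ I + 2 := by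
  have h1 := hI j hj κ hκ
  have h2 := X.p_le j
  unfold d1 st
  split_ifs <;> omega

private theorem dg_le {I : ℕ} (hI : ∀ j, j < X.m → ∀ κ, κ < 3 → X.E j κ ≤ I) {i : ℕ × ℕ}
    (hi : i ∈ X.idx) (t : ℕ) : X.dg I i t ≤ I + 2 := by
  obtain ⟨h0, h | ⟨κ, hκ, h, _⟩⟩ := X.of_mem_idx hi
  · simp only [dg, h, if_true]
    exact X.d0_le I i.1 t
  · have hne : i.2 ≠ 0 := by omega
    simp only [dg, if_neg hne]
    exact X.d1_le hI h0 (by omega) t

/-- digit sums of a bin -/
private def DS (I : ℕ) (F : ℕ × ℕ → ℕ) (b t : ℕ) : ℕ :=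
  ∑ j ∈ (range X.m).filter (fun j => F (j, 0) = b), X.d0 I j t +
    ∑ κ ∈ range 3, ∑ j ∈ (range X.m).filter (fun j => X.E j κ ≠ 0 ∧ F (j, κ + 1) = b), X.d1 j κ t

private theorem DS_eq (I : ℕ) (F : ℕ × ℕ → ℕ) (b t : ℕ) :
    (X.idx.map fun i => if F i = b then X.dg I i t else 0).sum = X.DS I F b t := by
  rw [sum_idx, sum_add_distrib, sum_comm]
  unfold DS
  congr 1
  · rw [sum_filter]
    apply sum_congr rfl
    intro j _
    simp [dg]
  · apply sum_congr rfl
    intro κ _
    rw [sum_filter]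
    apply sum_congr rfl
    intro j _
    by_cases h : X.E j κ = 0
    · simp [h]
    · simp [h, dg]

private theorem packable_digits (I R : ℕ) (hm : 1 ≤ X.m)
    (hI : ∀ j, j < X.m → ∀ κ, κ < 3 → X.E j κ ≤ I)
    (hR : 4 * X.m * (I + 3) < R) : PackableL (X.items I R) X.m (XC.cap I R) ↔
      ∃ F : ℕ × ℕ → ℕ, (∀ j, j < X.m → F (j, 0) < X.m) ∧
        (∀ κ, κ < 3 → ∀ j, j < X.m → X.E j κ ≠ 0 → F (j, κ + 1) < X.m) ∧
        ∀ b, b < X.m → ∀ t, t < 8 → X.DS I F b t = cd I t := by
  rw [items_eq, packableL_map _ X.idx_nodup]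
  have key : ∀ (F : ℕ × ℕ → ℕ) (b : ℕ),
      (X.idx.map fun i => if F i = b then X.wt I R i else 0).sum =
        ∑ t ∈ range 8, X.DS I F b t * R ^ t := by
    intro F b
    have h1 : ∀ L : List (ℕ × ℕ), (∀ i ∈ L, i ∈ X.idx) →
        (L.map fun i => if F i = b then X.wt I R i else 0).sum =
        ∑ t ∈ range 8, (L.map fun i => if F i = b then X.dg I i t else 0).sum * R ^ t := by
      intro L
      induction L with
      | nil => intro _; simp
      | cons i L ih =>
        intro hL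
        rw [List.map_cons, List.sum_cons, ih fun i hi => hL i (List.mem_cons_of_mem _ hi)]
        simp only [List.map_cons, List.sum_cons, add_mul, sum_add_distrib]
        congr 1
        by_cases h : F i = b
        · simp only [if_pos h]
          exact X.wt_eq I R (hL i List.mem_cons_self)
        · simp [if_neg h]
    rw [h1 _ fun i hi => hi]
    apply sum_congr rfl
    intro t _
    rw [DS_eq]
  have hlt : ∀ (F : ℕ × ℕ → ℕ) (b t : ℕ), X.DS I F b t < R := by
    intro F b t
    rw [← DS_eq]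
    have h1 := List.sum_le_card_nsmul (X.idx.map fun i => if F i = b then X.dg I i t else 0)
      (I + 2) (by
        intro x hx
        rw [List.mem_map] at hx
        obtain ⟨i, hi, rfl⟩ := hx
        split_ifs
        · exact X.dg_le hI hi t
        · omega)
    rw [List.length_map, smul_eq_mul] at h1
    have h2 : X.idx.length * (I + 2) ≤ 4 * X.m * (I + 3) :=
      Nat.mul_le_mul X.idx_length_le (by omega)
    omega
  have hcd : ∀ t, cd I t < R := by
    intro t
    have h1 : I + 3 ≤ 4 * X.m * (I + 3) := Nat.le_mul_of_pos_left _ (by omega)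
    have h2 : cd I t ≤ I + 2 := by
      unfold cd
      split <;> omega
    omega
  apply exists_congr
  intro F
  constructor
  · rintro ⟨h1, h2⟩
    refine ⟨fun j hj => h1 _ (X.mem_idx_zero hj), fun κ hκ j hj h => h1 _ (X.mem_idx_succ hj hκ h),
      fun b hb t ht => ?_⟩
    have h3 := h2 b hb
    rw [key, cap_eq] at h3
    exact digits_unique R 8 _ _ (fun t _ => hlt F b t) (fun t _ => hcd t) h3 t ht
  · rintro ⟨h1, h2, h3⟩
    constructor
    · intro i hi
      obtain ⟨h0, h | ⟨κ, hκ, h, hE⟩⟩ := X.of_mem_idx hi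
      · have := h1 i.1 h0
        rwa [← h] at this
      · have := h2 κ hκ i.1 h0 hE
        rwa [← h] at this
    · intro b hb
      rw [key, cap_eq]
      apply sum_congr rfl
      intro t ht
      rw [h3 b hb t (mem_range.1 ht)]

/-! ### The two directions -/

/-- set of the incidences of class `κ` in the bin `b` -/
private def bs (F : ℕ × ℕ → ℕ) (κ b : ℕ) : Finset ℕ :=
  (range X.m).filter fun j => X.E j κ ≠ 0 ∧ F (j, κ + 1) = b

private theorem DS_zero (I : ℕ) (F : ℕ × ℕ → ℕ) (b : ℕ) :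
    X.DS I F b 0 = ((range X.m).filter fun j => F (j, 0) = b).card := by
  unfold DS
  have h1 : ∀ κ ∈ range 3, ∑ j ∈ (range X.m).filter
      (fun j => X.E j κ ≠ 0 ∧ F (j, κ + 1) = b), X.d1 j κ 0 = 0 := by
    intro κ hκ
    rw [mem_range] at hκ
    apply sum_eq_zero
    intro j _
    unfold d1
    rw [if_neg (by omega), if_neg (by omega), if_neg (by omega)]
  rw [sum_eq_zero h1, add_zero, card_eq_sum_ones]
  rfl

private theorem DS_odd (I : ℕ) (F : ℕ × ℕ → ℕ) (b κ : ℕ) (hκ : κ < 3) :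
    X.DS I F b (1 + 2 * κ) = ∑ j ∈ (range X.m).filter (fun j => F (j, 0) = b),
      (if X.E j κ = 0 then 1 else 0) + (X.bs F κ b).card := by
  unfold DS
  congr 1
  · apply sum_congr rfl
    intro j _
    interval_cases κ <;> rfl
  · rw [sum_eq_single κ]
    · rw [card_eq_sum_ones]
      apply sum_congr rfl
      intro j _
      simp [d1]
    · intro κ' hκ' hne
      rw [mem_range] at hκ'
      apply sum_eq_zero
      intro j _
      unfold d1
      rw [if_neg (by omega), if_neg (by omega), if_neg (by omega)]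
    · intro h
      exact absurd (mem_range.2 hκ) h

private theorem DS_even (I : ℕ) (F : ℕ × ℕ → ℕ) (b κ : ℕ) (hκ : κ < 3) :
    X.DS I F b (2 + 2 * κ) = ∑ j ∈ (range X.m).filter (fun j => F (j, 0) = b),
      (I - X.E j κ) + ∑ j ∈ X.bs F κ b, X.E j κ := by
  unfold DS
  congr 1
  · apply sum_congr rfl
    intro j _
    interval_cases κ <;> rfl
  · rw [sum_eq_single κ]
    · apply sum_congr rfl
      intro j _
      unfold d1
      rw [if_neg (by omega), if_pos rfl]
    · intro κ' hκ' hne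
      rw [mem_range] at hκ'
      apply sum_eq_zero
      intro j _
      unfold d1
      rw [if_neg (by omega), if_neg (by omega), if_neg (by omega)]
    · intro h
      exact absurd (mem_range.2 hκ) h

private theorem DS_seven (I : ℕ) (F : ℕ × ℕ → ℕ) (b : ℕ) :
    X.DS I F b 7 = ∑ j ∈ (range X.m).filter (fun j => F (j, 0) = b), (2 - X.p j) +
      (∑ j ∈ X.bs F 0 b, X.st j 0 + ∑ j ∈ X.bs F 1 b, X.st j 1 + ∑ j ∈ X.bs F 2 b, X.st j 2) := by
  unfold DS
  congr 1
  rw [sum_range_succ, sum_range_succ, sum_range_succ, sum_range_zero, zero_add]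
  rfl

/-- the digit conditions -/
private theorem digits_iff (I : ℕ) (F : ℕ × ℕ → ℕ) (b : ℕ) :
    (∀ t, t < 8 → X.DS I F b t = cd I t) ↔ X.DS I F b 0 = 1 ∧
      (∀ κ, κ < 3 → X.DS I F b (1 + 2 * κ) = 1) ∧ (∀ κ, κ < 3 → X.DS I F b (2 + 2 * κ) = I) ∧
      X.DS I F b 7 = 2 := by
  constructor
  · intro h
    refine ⟨h 0 (by omega), ?_, ?_, h 7 (by omega)⟩
    · intro κ hκ
      interval_cases κ
      · exact h 1 (by omega)
      · exact h 3 (by omega)
      · exact h 5 (by omega)
    · intro κ hκ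
      interval_cases κ
      · exact h 2 (by omega)
      · exact h 4 (by omega)
      · exact h 6 (by omega)
  · rintro ⟨h0, h1, h2, h7⟩ t ht
    interval_cases t
    · exact h0
    · exact h1 0 (by omega)
    · exact h2 0 (by omega)
    · exact h1 1 (by omega)
    · exact h2 1 (by omega)
    · exact h1 2 (by omega)
    · exact h2 2 (by omega)
    · exact h7

private theorem status_lemma (E1 E2 A0 A1 A2 : Prop) [Decidable E1] [Decidable E2] [Decidable A0]
    [Decidable A1] [Decidable A2] (pj s0 s1 s2 : ℕ)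
    (hpj : pj = (if E1 then 0 else 1) + (if E2 then 0 else 1))
    (hs0 : s0 = if A0 then pj else 0) (hs1 : s1 = if E1 then 0 else if A1 then 0 else 1)
    (hs2 : s2 = if E2 then 0 else if A2 then 0 else 1) (h7 : 2 - pj + (s0 + s1 + s2) = 2) :
    (¬ E1 → (A0 ↔ A1)) ∧ (¬ E2 → (A0 ↔ A2)) := by
  subst hs1 hs2 hs0 hpj
  by_cases e1 : E1 <;> by_cases e2 : E2 <;> by_cases a0 : A0 <;> by_cases a1 : A1 <;>
    by_cases a2 : A2 <;> simp_all

private theorem forward (I : ℕ) (hI : ∀ j, j < X.m → ∀ κ, κ < 3 → X.E j κ ≤ I)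
    (h0 : ∀ j, j < X.m → X.E j 0 ≠ 0)
    (hp : ∀ j, j < X.m → ∀ j', j' < X.m → X.E j 0 = X.E j' 0 → X.p j = X.p j')
    (F : ℕ × ℕ → ℕ) (hF0 : ∀ j, j < X.m → F (j, 0) < X.m)
    (hF1 : ∀ κ, κ < 3 → ∀ j, j < X.m → X.E j κ ≠ 0 → F (j, κ + 1) < X.m)
    (hD : ∀ b, b < X.m → ∀ t, t < 8 → X.DS I F b t = cd I t) : X.Solvable := by
  classical
  -- the set item of each bin
  have hfib : ∀ b, b < X.m → ∃ j, (range X.m).filter (fun j => F (j, 0) = b) = {j} := by
    intro b hb
    rw [← card_eq_one, ← X.DS_zero I F b]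
    exact ((X.digits_iff I F b).1 (hD b hb)).1
  have hfib' : ∀ j, j < X.m → (range X.m).filter (fun j' => F (j', 0) = F (j, 0)) = {j} := by
    intro j hj
    obtain ⟨j', hj'⟩ := hfib _ (hF0 j hj)
    have : j ∈ (range X.m).filter (fun j' => F (j', 0) = F (j, 0)) := by
      rw [mem_filter, mem_range]; exact ⟨hj, rfl⟩
    rw [hj', mem_singleton] at this
    rw [hj', this]
  have hinj : ∀ j j', j < X.m → j' < X.m → F (j, 0) = F (j', 0) → j = j' := by
    intro j j' hj hj' h
    have : j ∈ (range X.m).filter (fun j'' => F (j'', 0) = F (j', 0)) := by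
      rw [mem_filter, mem_range]; exact ⟨hj, h⟩
    rw [hfib' j' hj', mem_singleton] at this
    exact this
  -- partners
  have hcard : ∀ κ, κ < 3 → ∀ j, j < X.m →
      (X.bs F κ (F (j, 0))).card = if X.E j κ = 0 then 0 else 1 := by
    intro κ hκ j hj
    have h1 := ((X.digits_iff I F _).1 (hD _ (hF0 j hj))).2.1 κ hκ
    rw [X.DS_odd I F _ κ hκ, hfib' j hj, sum_singleton] at h1
    split_ifs at h1 ⊢ <;> omega
  have hσ : ∀ κ j, ∃ j', κ < 3 → j < X.m → X.E j κ ≠ 0 → X.bs F κ (F (j, 0)) = {j'} := by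
    intro κ j
    by_cases h : κ < 3 ∧ j < X.m ∧ X.E j κ ≠ 0
    · have h1 := hcard κ h.1 j h.2.1
      rw [if_neg h.2.2, card_eq_one] at h1
      obtain ⟨j', hj'⟩ := h1
      exact ⟨j', fun _ _ _ => hj'⟩
    · refine ⟨0, fun h1 h2 h3 => absurd ⟨h1, h2, h3⟩ h⟩
  choose σ hσ using hσ
  have hσmem : ∀ κ, κ < 3 → ∀ j, j < X.m → X.E j κ ≠ 0 →
      σ κ j < X.m ∧ X.E (σ κ j) κ ≠ 0 ∧ F (σ κ j, κ + 1) = F (j, 0) := by
    intro κ hκ j hj hE
    have h1 : σ κ j ∈ X.bs F κ (F (j, 0)) := by
      rw [hσ κ j hκ hj hE]; exact mem_singleton_self _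
    unfold bs at h1
    rw [mem_filter, mem_range] at h1
    exact ⟨h1.1, h1.2.1, h1.2.2⟩
  have hσE : ∀ κ, κ < 3 → ∀ j, j < X.m → X.E j κ ≠ 0 → X.E (σ κ j) κ = X.E j κ := by
    intro κ hκ j hj hE
    have h1 := ((X.digits_iff I F _).1 (hD _ (hF0 j hj))).2.2.1 κ hκ
    rw [X.DS_even I F _ κ hκ, hfib' j hj, sum_singleton, hσ κ j hκ hj hE, sum_singleton] at h1
    have := hI j hj κ hκ
    omega
  have hempty : ∀ κ, κ < 3 → ∀ j, j < X.m → X.E j κ = 0 → X.bs F κ (F (j, 0)) = ∅ := by
    intro κ hκ j hj hE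
    rw [← card_eq_zero, hcard κ hκ j hj, if_pos hE]
  -- the status
  have hst : ∀ κ, κ < 3 → ∀ j, j < X.m → X.E j κ ≠ 0 →
      (X.act (σ 0 j) 0 = true ↔ X.act (σ κ j) κ = true) := by
    intro κ hκ j hj hE
    have h7 := ((X.digits_iff I F _).1 (hD _ (hF0 j hj))).2.2.2
    rw [X.DS_seven I F _, hfib' j hj, sum_singleton] at h7
    have hp0 : X.p (σ 0 j) = X.p j :=
      hp _ (hσmem 0 (by omega) j hj (h0 j hj)).1 _ hj (hσE 0 (by omega) j hj (h0 j hj))
    have hs0 : ∑ j ∈ X.bs F 0 (F (j, 0)), X.st j 0 =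
        if X.act (σ 0 j) 0 = true then X.p j else 0 := by
      rw [hσ 0 j (by omega) hj (h0 j hj), sum_singleton]
      unfold st
      rw [if_pos rfl, hp0]
    have hs : ∀ κ, κ < 3 → κ ≠ 0 → ∑ j ∈ X.bs F κ (F (j, 0)), X.st j κ =
        if X.E j κ = 0 then 0 else if X.act (σ κ j) κ = true then 0 else 1 := by
      intro κ hκ hne
      by_cases h : X.E j κ = 0
      · rw [hempty κ hκ j hj h, sum_empty, if_pos h]
      · rw [hσ κ j hκ hj h, sum_singleton, if_neg h]
        unfold st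
        rw [if_neg hne]
    have h8 := status_lemma (X.E j 1 = 0) (X.E j 2 = 0) (X.act (σ 0 j) 0 = true)
      (X.act (σ 1 j) 1 = true) (X.act (σ 2 j) 2 = true) (X.p j) _ _ _ rfl hs0
      (hs 1 (by omega) (by omega)) (hs 2 (by omega) (by omega)) h7
    interval_cases κ
    · exact Iff.rfl
    · exact h8.1 hE
    · exact h8.2 hE
  -- the bins are all used
  have hsurj : ∀ b, b < X.m → ∃ j, j < X.m ∧ F (j, 0) = b := by
    intro b hb
    obtain ⟨j, hj⟩ := hfib b hb
    have : j ∈ (range X.m).filter (fun j => F (j, 0) = b) := by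
      rw [hj]; exact mem_singleton_self _
    rw [mem_filter, mem_range] at this
    exact ⟨j, this⟩
  refine ⟨(range X.m).filter fun j => X.act (σ 0 j) 0 = true, filter_subset _ _, ?_⟩
  intro κ hκ x hx
  apply card_bij (fun j _ => σ κ j)
  · intro j hj
    rw [mem_filter, mem_filter, mem_range] at hj
    obtain ⟨⟨hj, ha⟩, hE⟩ := hj
    have hE' : X.E j κ ≠ 0 := by omega
    rw [mem_filter, mem_range]
    exact ⟨(hσmem κ hκ j hj hE').1, (hσE κ hκ j hj hE').trans hE, (hst κ hκ j hj hE').1 ha⟩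
  · intro j hj j' hj' h
    rw [mem_filter, mem_filter, mem_range] at hj hj'
    obtain ⟨⟨hj, _⟩, hE⟩ := hj
    obtain ⟨⟨hj', _⟩, hE'⟩ := hj'
    apply hinj j j' hj hj'
    rw [← (hσmem κ hκ j hj (by omega)).2.2, ← (hσmem κ hκ j' hj' (by omega)).2.2, h]
  · intro j' hj'
    rw [mem_filter, mem_range] at hj'
    obtain ⟨hj', hE, ha⟩ := hj'
    have hE' : X.E j' κ ≠ 0 := by omega
    obtain ⟨j, hj, hFj⟩ := hsurj _ (hF1 κ hκ j' hj' hE')
    have hmem : j' ∈ X.bs F κ (F (j, 0)) := by
      unfold bs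
      rw [mem_filter, mem_range]
      exact ⟨hj', hE', hFj.symm⟩
    have hEj : X.E j κ ≠ 0 := by
      intro h
      rw [hempty κ hκ j hj h] at hmem
      exact absurd hmem (notMem_empty _)
    have hσj : j' = σ κ j := by
      rw [hσ κ j hκ hj hEj, mem_singleton] at hmem
      exact hmem
    have hEjx : X.E j κ = x := by
      rw [← hσE κ hκ j hj hEj, ← hσj]; exact hE
    refine ⟨j, ?_, hσj.symm⟩
    rw [mem_filter, mem_filter, mem_range]
    refine ⟨⟨hj, ?_⟩, hEjx⟩
    rw [hst κ hκ j hj hEj, ← hσj]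
    exact ha

/-- functions with fibres of the same sizes differ by a permutation -/
private theorem exists_equiv {A β : Type} [Finite A] (f g : A → β)
    (h : ∀ y, Nat.card {a // f a = y} = Nat.card {a // g a = y}) :
    ∃ e : A ≃ A, ∀ a, g (e a) = f a := by
  let e : A ≃ A := ((Equiv.sigmaFiberEquiv f).symm.trans
    (Equiv.sigmaCongrRight fun y => (Finite.card_eq.1 (h y)).some)).trans (Equiv.sigmaFiberEquiv g)
  refine ⟨e, fun a => ?_⟩
  exact ((Finite.card_eq.1 (h (f a))).some ⟨a, rfl⟩).2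

private theorem exists_tau (κ : ℕ) (S : Finset ℕ) (hS : S ⊆ range X.m)
    (h : ∀ x, 0 < x → (S.filter fun j => X.E j κ = x).card =
      ((range X.m).filter fun j => X.E j κ = x ∧ X.act j κ = true).card) :
    ∃ τ : ℕ → ℕ, (∀ j, j < X.m → X.E j κ ≠ 0 →
      τ j < X.m ∧ X.E (τ j) κ = X.E j κ ∧ (τ j ∈ S ↔ X.act j κ = true)) ∧
      ∀ b, b < X.m → X.E b κ ≠ 0 →
        ∃ j, (range X.m).filter (fun j => X.E j κ ≠ 0 ∧ τ j = b) = {j} := by
  classical
  let A := {j // j < X.m ∧ X.E j κ ≠ 0}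
  have hA : Finite A := Finite.of_injective (fun a : A => (⟨a.1, a.2.1⟩ : Fin X.m)) (by
    intro a a' h
    exact Subtype.ext (congrArg Fin.val h))
  let f : A → ℕ × Prop := fun a => (X.E a.1 κ, X.act a.1 κ = true)
  let g : A → ℕ × Prop := fun a => (X.E a.1 κ, a.1 ∈ S)
  -- total fibres
  have hcardf : ∀ (q : ℕ → Prop) [DecidablePred q] (x : ℕ), 0 < x →
      Nat.card {a : A // X.E a.1 κ = x ∧ q a.1} =
        ((range X.m).filter fun j => X.E j κ = x ∧ q j).card := by
    intro q _ x hx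
    rw [← Fintype.card_coe, ← Nat.card_eq_fintype_card]
    apply Nat.card_congr
    refine ⟨fun a => ⟨a.1.1, ?_⟩, fun j => ⟨⟨j.1, ?_⟩, ?_⟩, ?_, ?_⟩
    · rw [mem_filter, mem_range]
      exact ⟨a.1.2.1, a.2⟩
    · have := j.2
      rw [mem_filter, mem_range] at this
      exact ⟨this.1, by rw [this.2.1]; omega⟩
    · have := j.2
      rw [mem_filter, mem_range] at this
      exact this.2
    · intro a
      rfl
    · intro j
      rfl
  have hfib : ∀ y, Nat.card {a // f a = y} = Nat.card {a // g a = y} := by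
    rintro ⟨x, P⟩
    by_cases hx : 0 < x
    · have hS' : ((range X.m).filter fun j => X.E j κ = x ∧ j ∈ S) =
          S.filter fun j => X.E j κ = x := by
        ext j
        rw [mem_filter, mem_filter]
        exact ⟨fun h => ⟨h.2.2, h.2.1⟩, fun h => ⟨hS h.1, h.2, h.1⟩⟩
      have hcomp : ∀ (q : ℕ → Prop) [DecidablePred q], ((range X.m).filter fun j => X.E j κ = x ∧ q j).card +
          ((range X.m).filter fun j => X.E j κ = x ∧ ¬ q j).card =
          ((range X.m).filter fun j => X.E j κ = x).card := by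
        intro q _
        rw [← card_filter_add_card_filter_not (s := (range X.m).filter fun j => X.E j κ = x) q,
          filter_filter, filter_filter]
      by_cases hP : P
      · have e1 : Nat.card {a // f a = (x, P)} =
            Nat.card {a : A // X.E a.1 κ = x ∧ X.act a.1 κ = true} := by
          apply Nat.card_congr
          apply Equiv.subtypeEquivRight
          intro a
          simp [f, hP]
        have e2 : Nat.card {a // g a = (x, P)} =
            Nat.card {a : A // X.E a.1 κ = x ∧ a.1 ∈ S} := by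
          apply Nat.card_congr
          apply Equiv.subtypeEquivRight
          intro a
          simp [g, hP]
        rw [e1, e2, hcardf (fun j => X.act j κ = true) x hx, hcardf (fun j => j ∈ S) x hx, hS',
          h x hx]
      · have e1 : Nat.card {a // f a = (x, P)} =
            Nat.card {a : A // X.E a.1 κ = x ∧ ¬ X.act a.1 κ = true} := by
          apply Nat.card_congr
          apply Equiv.subtypeEquivRight
          intro a
          simp [f, hP]
        have e2 : Nat.card {a // g a = (x, P)} =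
            Nat.card {a : A // X.E a.1 κ = x ∧ ¬ a.1 ∈ S} := by
          apply Nat.card_congr
          apply Equiv.subtypeEquivRight
          intro a
          simp [g, hP]
        rw [e1, e2, hcardf (fun j => ¬ X.act j κ = true) x hx, hcardf (fun j => ¬ j ∈ S) x hx]
        have h1 := hcomp fun j => X.act j κ = true
        have h2 := hcomp fun j => j ∈ S
        rw [hS', h x hx] at h2
        omega
    · have e1 : IsEmpty {a // f a = (x, P)} := ⟨fun a => by
        have := congrArg Prod.fst a.2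
        have h2 := a.1.2.2
        simp only [f] at this
        omega⟩
      have e2 : IsEmpty {a // g a = (x, P)} := ⟨fun a => by
        have := congrArg Prod.fst a.2
        have h2 := a.1.2.2
        simp only [g] at this
        omega⟩
      rw [Nat.card_of_isEmpty, Nat.card_of_isEmpty]
  obtain ⟨e, he⟩ := exists_equiv f g hfib
  obtain ⟨t, ht⟩ : ∃ t : ℕ → ℕ, ∀ j (hj : j < X.m ∧ X.E j κ ≠ 0), t j = (e ⟨j, hj⟩).1 :=
    ⟨fun j => if hj : j < X.m ∧ X.E j κ ≠ 0 then (e ⟨j, hj⟩).1 else 0,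
      fun j hj => dif_pos hj⟩
  refine ⟨t, ?_, ?_⟩
  · intro j hj hE
    rw [ht j ⟨hj, hE⟩]
    have h1 := he ⟨j, hj, hE⟩
    simp only [f, g, Prod.mk.injEq, eq_iff_iff] at h1
    exact ⟨(e ⟨j, hj, hE⟩).2.1, h1.1, h1.2⟩
  · intro b hb hE
    refine ⟨(e.symm ⟨b, hb, hE⟩).1, ?_⟩
    ext j
    rw [mem_filter, mem_range, mem_singleton]
    constructor
    · rintro ⟨hj, hEj, h1⟩
      rw [ht j ⟨hj, hEj⟩] at h1
      have h2 : e ⟨j, hj, hEj⟩ = ⟨b, hb, hE⟩ := Subtype.ext h1
      rw [← h2, Equiv.symm_apply_apply]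
    · rintro rfl
      have h3 := (e.symm ⟨b, hb, hE⟩).2
      refine ⟨h3.1, h3.2, ?_⟩
      rw [ht _ h3]
      have h4 : (⟨(e.symm ⟨b, hb, hE⟩).1, h3⟩ : A) = e.symm ⟨b, hb, hE⟩ := rfl
      rw [h4, Equiv.apply_symm_apply]

private theorem backward (I : ℕ) (hI : ∀ j, j < X.m → ∀ κ, κ < 3 → X.E j κ ≤ I)
    (h0 : ∀ j, j < X.m → X.E j 0 ≠ 0)
    (hp : ∀ j, j < X.m → ∀ j', j' < X.m → X.E j 0 = X.E j' 0 → X.p j = X.p j')
    (hS : X.Solvable) :
    ∃ F : ℕ × ℕ → ℕ, (∀ j, j < X.m → F (j, 0) < X.m) ∧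
        (∀ κ, κ < 3 → ∀ j, j < X.m → X.E j κ ≠ 0 → F (j, κ + 1) < X.m) ∧
        ∀ b, b < X.m → ∀ t, t < 8 → X.DS I F b t = cd I t := by
  classical
  obtain ⟨S, hS, hcov⟩ := hS
  have hτ : ∀ κ, ∃ τ : ℕ → ℕ, κ < 3 → ((∀ j, j < X.m → X.E j κ ≠ 0 →
      τ j < X.m ∧ X.E (τ j) κ = X.E j κ ∧ (τ j ∈ S ↔ X.act j κ = true)) ∧
      ∀ b, b < X.m → X.E b κ ≠ 0 →
        ∃ j, (range X.m).filter (fun j => X.E j κ ≠ 0 ∧ τ j = b) = {j}) := by
    intro κ
    by_cases hκ : κ < 3
    · obtain ⟨τ, h⟩ := X.exists_tau κ S hS (hcov κ hκ)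
      exact ⟨τ, fun _ => h⟩
    · exact ⟨id, fun h => absurd h hκ⟩
  choose τ hτ using hτ
  let F : ℕ × ℕ → ℕ := fun i => if i.2 = 0 then i.1 else τ (i.2 - 1) i.1
  have hFz : ∀ j, F (j, 0) = j := fun j => by simp [F]
  have hFs : ∀ κ j, F (j, κ + 1) = τ κ j := fun κ j => by simp [F]
  refine ⟨F, fun j hj => by rw [hFz]; exact hj, fun κ hκ j hj hE => by
    rw [hFs]; exact ((hτ κ hκ).1 j hj hE).1, ?_⟩
  intro b hb
  have hfib : (range X.m).filter (fun j => F (j, 0) = b) = {b} := by
    ext j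
    rw [mem_filter, mem_range, mem_singleton, hFz]
    exact ⟨fun h => h.2, fun h => ⟨by rw [h]; exact hb, h⟩⟩
  have hbs : ∀ κ, κ < 3 → X.E b κ ≠ 0 → ∃ j, X.bs F κ b = {j} ∧ X.E j κ = X.E b κ ∧
      (b ∈ S ↔ X.act j κ = true) ∧ j < X.m := by
    intro κ hκ hE
    obtain ⟨j, hj⟩ := (hτ κ hκ).2 b hb hE
    have h1 : X.bs F κ b = {j} := by
      rw [← hj]
      unfold bs
      simp only [hFs]
    have h2 : j ∈ (range X.m).filter (fun j => X.E j κ ≠ 0 ∧ τ κ j = b) := by
      rw [hj]; exact mem_singleton_self _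
    rw [mem_filter, mem_range] at h2
    have h3 := (hτ κ hκ).1 j h2.1 h2.2.1
    rw [h2.2.2] at h3
    exact ⟨j, h1, h3.2.1.symm, h3.2.2, h2.1⟩
  have hbs0 : ∀ κ, κ < 3 → X.E b κ = 0 → X.bs F κ b = ∅ := by
    intro κ hκ hE
    unfold bs
    rw [filter_eq_empty_iff]
    intro j hj h
    rw [hFs] at h
    rw [mem_range] at hj
    have h3 := ((hτ κ hκ).1 j hj h.1).2.1
    rw [h.2, hE] at h3
    exact h.1 h3.symm
  rw [digits_iff]
  refine ⟨?_, ?_, ?_, ?_⟩
  · rw [DS_zero, hfib, card_singleton]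
  · intro κ hκ
    rw [X.DS_odd I F b κ hκ, hfib, sum_singleton]
    by_cases hE : X.E b κ = 0
    · rw [if_pos hE, hbs0 κ hκ hE, card_empty]
    · obtain ⟨j, hj, _⟩ := hbs κ hκ hE
      rw [if_neg hE, hj, card_singleton]
  · intro κ hκ
    rw [X.DS_even I F b κ hκ, hfib, sum_singleton]
    by_cases hE : X.E b κ = 0
    · rw [hbs0 κ hκ hE, sum_empty, hE]
      rfl
    · obtain ⟨j, hj, hj2, _⟩ := hbs κ hκ hE
      rw [hj, sum_singleton, hj2]
      have := hI b hb κ hκ
      omega
  · rw [X.DS_seven I F b, hfib, sum_singleton]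
    obtain ⟨j0, hj0, hj02, hj03, hj04⟩ := hbs 0 (by omega) (h0 b hb)
    have hp0 : X.p j0 = X.p b := hp _ hj04 _ hb hj02
    have hst0 : X.st j0 0 = if b ∈ S then X.p b else 0 := by
      unfold st
      rw [if_pos rfl, hp0]
      by_cases h : b ∈ S
      · rw [if_pos h, if_pos (hj03.1 h)]
      · rw [if_neg h, if_neg (fun h' => h (hj03.2 h'))]
    have hs : ∀ κ, κ < 3 → κ ≠ 0 → ∑ j ∈ X.bs F κ b, X.st j κ =
        if X.E b κ = 0 then 0 else if b ∈ S then 0 else 1 := by
      intro κ hκ hne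
      by_cases hE : X.E b κ = 0
      · rw [hbs0 κ hκ hE, sum_empty, if_pos hE]
      · obtain ⟨j, hj, hj2, hj3, hj4⟩ := hbs κ hκ hE
        rw [hj, sum_singleton, if_neg hE]
        unfold st
        rw [if_neg hne]
        by_cases h : b ∈ S
        · rw [if_pos h, if_pos (hj3.1 h)]
        · rw [if_neg h, if_neg (fun h' => h (hj3.2 h'))]
    rw [hj0, sum_singleton, hst0, hs 1 (by omega) (by omega), hs 2 (by omega) (by omega)]
    have hp1 : X.p b = (if X.E b 1 = 0 then 0 else 1) + (if X.E b 2 = 0 then 0 else 1) := rfl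
    rw [hp1]
    split_ifs <;> rfl

end XC

theorem XC.packable_iff (X : XC) (I R : ℕ) (hm : 1 ≤ X.m)
    (hI : ∀ j, j < X.m → ∀ κ, κ < 3 → X.E j κ ≤ I) (h0 : ∀ j, j < X.m → X.E j 0 ≠ 0)
    (hp : ∀ j, j < X.m → ∀ j', j' < X.m → X.E j 0 = X.E j' 0 → X.p j = X.p j')
    (hR : 4 * X.m * (I + 3) < R) : PackableL (X.items I R) X.m (XC.cap I R) ↔ X.Solvable := by
  rw [X.packable_digits I R hm hI hR]
  constructor
  · rintro ⟨F, h1, h2, h3⟩
    exact X.forward I hI h0 hp F h1 h2 h3
  · intro h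
    exact X.backward I hI h0 hp h

/-- There are at least two items per set. -/
theorem XC.items_length (X : XC) (I R : ℕ) (h0 : ∀ j, j < X.m → X.E j 0 ≠ 0) :
    2 * X.m ≤ (X.items I R).length := by
  rw [X.items_eq, List.length_map]
  have h1 : X.idx.length = (X.idx.map fun _ => 1).sum := by simp
  rw [h1, X.sum_idx]
  calc 2 * X.m = ∑ j ∈ range X.m, 2 := by simp [mul_comm]
    _ ≤ _ := by
        apply sum_le_sum
        intro j hj
        rw [mem_range] at hj
        rw [sum_range_succ', if_neg (h0 j hj)]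
        omega

theorem XC.items_pos (X : XC) (I R : ℕ) (hR : 0 < R) : ∀ a ∈ X.items I R, 0 < a := by
  intro a ha
  rw [X.items_eq, List.mem_map] at ha
  obtain ⟨i, _, rfl⟩ := ha
  unfold wt
  split_ifs
  · unfold tw
    omega
  · unfold iw
    have : 0 < R ^ (1 + 2 * (i.2 - 1)) := Nat.pow_pos hR
    omega

theorem XC.cap_odd (I R : ℕ) (hR : Even R) : Odd (XC.cap I R) := by
  unfold cap
  rw [add_comm]
  apply Even.add_one
  apply Even.add
  · simp only [List.range_succ, List.range_zero]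
    simp only [List.nil_append, List.cons_append, List.map_cons, List.map_nil, List.sum_cons,
      List.sum_nil]
    have h : ∀ k, k ≠ 0 → Even (R ^ k) := fun k hk => hR.pow_of_ne_zero hk
    refine Even.add ((h _ (by omega)).add ((h _ (by omega)).mul_right _))
      (Even.add ((h _ (by omega)).add ((h _ (by omega)).mul_right _))
      (Even.add ((h _ (by omega)).add ((h _ (by omega)).mul_right _)) ?_))
    exact Even.zero
  · exact even_two.mul_left _

end Pool.Agent.H82.SN
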