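import Pool.Agent.H82.SN.B0

/-!
# Module B2: from 3SAT to exact cover
-/

namespace Pool.Agent.H82.SN

open Finset Pool.Agent.H78.NP

/-! ### Arithmetic of the wheels -/

/-- Next position in the wheel. -/
def B2nx (M q : ℕ) : ℕ := q / M * M + (q % M + 1) % M

theorem B2nx_div (M q : ℕ) (hM : 0 < M) : B2nx M q / M = q / M := by
  unfold B2nx
  rw [mul_comm, Nat.mul_add_div hM, Nat.div_eq_of_lt (Nat.mod_lt _ hM), add_zero]

theorem B2nx_mod (M q : ℕ) (hM : 0 < M) : B2nx M q % M = (q % M + 1) % M := by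
  unfold B2nx
  rw [mul_comm, Nat.mul_add_mod, Nat.mod_mod]

theorem B2_ext {M a b : ℕ} (h1 : a / M = b / M) (h2 : a % M = b % M) : a = b := by
  rw [← Nat.div_add_mod a M, ← Nat.div_add_mod b M, h1, h2]

theorem B2nx_inj (M a b : ℕ) (hM : 0 < M) (h : B2nx M a = B2nx M b) : a = b := by
  have h1 := B2nx_div M a hM
  have h2 := B2nx_div M b hM
  have h3 := B2nx_mod M a hM
  have h4 := B2nx_mod M b hM
  rw [h] at h1 h3
  refine B2_ext (by rw [← h1, h2]) ?_
  have h5 : (a % M + 1) % M = (b % M + 1) % M := by rw [← h3, h4]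
  have ha := Nat.mod_lt a hM
  have hb := Nat.mod_lt b hM
  rcases Nat.lt_or_ge (a % M + 1) M with h6 | h6
  · rw [Nat.mod_eq_of_lt h6] at h5
    rcases Nat.lt_or_ge (b % M + 1) M with h7 | h7
    · rw [Nat.mod_eq_of_lt h7] at h5
      omega
    · have h8 : b % M + 1 = M := by omega
      rw [h8, Nat.mod_self] at h5
      omega
  · have h8 : a % M + 1 = M := by omega
    rw [h8, Nat.mod_self] at h5
    rcases Nat.lt_or_ge (b % M + 1) M with h7 | h7
    · rw [Nat.mod_eq_of_lt h7] at h5
      omega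
    · omega

/-- Previous position in the wheel. -/
def B2pv (M q : ℕ) : ℕ := q / M * M + (q % M + (M - 1)) % M

theorem B2nx_pv (M q : ℕ) (hM : 0 < M) : B2nx M (B2pv M q) = q := by
  have h1 : B2pv M q / M = q / M := by
    unfold B2pv
    rw [mul_comm, Nat.mul_add_div hM, Nat.div_eq_of_lt (Nat.mod_lt _ hM), add_zero]
  have h2 : B2pv M q % M = (q % M + (M - 1)) % M := by
    unfold B2pv
    rw [mul_comm, Nat.mul_add_mod, Nat.mod_mod]
  refine B2_ext ((B2nx_div M _ hM).trans h1) ?_
  rw [B2nx_mod M _ hM, h2, Nat.mod_add_mod]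
  have : q % M + (M - 1) + 1 = q % M + M := by omega
  rw [this, Nat.add_mod_right, Nat.mod_mod]

theorem B2pv_div (M q : ℕ) (hM : 0 < M) : B2pv M q / M = q / M := by
  unfold B2pv
  rw [mul_comm, Nat.mul_add_div hM, Nat.div_eq_of_lt (Nat.mod_lt _ hM), add_zero]

theorem B2_lt_of_div {M N a b : ℕ} (hM : 0 < M) (h : a / M = b / M) (hb : b < N * M) :
    a < N * M := by
  have h1 : b / M < N := (Nat.div_lt_iff_lt_mul hM).2 hb
  exact (Nat.div_lt_iff_lt_mul hM).1 (h ▸ h1)

/-! ### Description of the instance -/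

theorem nM_pos (φ : List Cl) : 0 < nM φ := by unfold nM; omega

theorem nN_pos (φ : List Cl) : 0 < nN φ := by unfold nN; omega

theorem nM_le (φ : List Cl) : nM φ ≤ nN φ * nM φ := Nat.le_mul_of_pos_left _ (nN_pos φ)

theorem B2_m (φ : List Cl) :
    (satXC φ).m = 2 * (nN φ * nM φ) + 3 * nM φ + 2 * (nN φ * nM φ) := rfl

variable {φ : List Cl} {j : ℕ}

theorem E0A (h : j < 2 * (nN φ * nM φ)) : (satXC φ).E j 0 = j / 2 + 1 := by
  simp [satXC, h]

theorem E1A (h : j < 2 * (nN φ * nM φ)) : (satXC φ).E j 1 = j + 1 := by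
  simp [satXC, h]

theorem E2A_even (h : j < 2 * (nN φ * nM φ)) (h2 : j % 2 = 0) :
    (satXC φ).E j 2 = j / 2 + 1 := by
  simp [satXC, h, h2]

theorem E2A_odd (h : j < 2 * (nN φ * nM φ)) (h2 : j % 2 ≠ 0) :
    (satXC φ).E j 2 = B2nx (nM φ) (j / 2) + 1 := by
  simp only [satXC, h, if_true, h2, if_false, B2nx]
  simp

theorem E0C (h : ¬ j < 2 * (nN φ * nM φ)) (h2 : j < 2 * (nN φ * nM φ) + 3 * nM φ) :
    (satXC φ).E j 0 = nN φ * nM φ + (j - 2 * (nN φ * nM φ)) / 3 + 1 := by
  simp only [satXC, h, if_false, h2, if_true]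

theorem E1C (h : ¬ j < 2 * (nN φ * nM φ)) (h2 : j < 2 * (nN φ * nM φ) + 3 * nM φ) :
    (satXC φ).E j 1 = tok (nM φ)
      (lit φ ((j - 2 * (nN φ * nM φ)) / 3) ((j - 2 * (nN φ * nM φ)) % 3)).1
      ((j - 2 * (nN φ * nM φ)) / 3)
      (lit φ ((j - 2 * (nN φ * nM φ)) / 3) ((j - 2 * (nN φ * nM φ)) % 3)).2 := by
  simp only [satXC, h, if_false, h2, if_true]
  simp

theorem E2C (h : ¬ j < 2 * (nN φ * nM φ)) (h2 : j < 2 * (nN φ * nM φ) + 3 * nM φ) :
    (satXC φ).E j 2 = 0 := by
  simp only [satXC, h, if_false, h2, if_true]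
  simp

theorem E0G (h2 : ¬ j < 2 * (nN φ * nM φ) + 3 * nM φ) :
    (satXC φ).E j 0 = nN φ * nM φ + nM φ + 1 := by
  have h : ¬ j < 2 * (nN φ * nM φ) := by omega
  simp only [satXC, h, if_false, h2, if_true]

theorem E1G (h2 : ¬ j < 2 * (nN φ * nM φ) + 3 * nM φ) :
    (satXC φ).E j 1 = j - (2 * (nN φ * nM φ) + 3 * nM φ) + 1 := by
  have h : ¬ j < 2 * (nN φ * nM φ) := by omega
  simp only [satXC, h, if_false, h2, if_true]
  simp

theorem E2G (h2 : ¬ j < 2 * (nN φ * nM φ) + 3 * nM φ) :
    (satXC φ).E j 2 = 0 := by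
  have h : ¬ j < 2 * (nN φ * nM φ) := by omega
  simp only [satXC, h, if_false, h2, if_true]
  simp

theorem act0A (h : j < 2 * (nN φ * nM φ)) : (satXC φ).act j 0 = true ↔ j % 2 = 0 := by
  simp [satXC, h]

theorem act1A (h : j < 2 * (nN φ * nM φ)) : ¬ (satXC φ).act j 1 = true := by
  simp [satXC, h]

theorem act2A (h : j < 2 * (nN φ * nM φ)) : (satXC φ).act j 2 = true ↔ j % 2 = 0 := by
  simp [satXC, h]

theorem act0C (h : ¬ j < 2 * (nN φ * nM φ)) (h2 : j < 2 * (nN φ * nM φ) + 3 * nM φ) :
    (satXC φ).act j 0 = true ↔ (j - 2 * (nN φ * nM φ)) % 3 = 0 := by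
  simp only [satXC, h, if_false, h2, if_true]
  simp

theorem act1C (h : ¬ j < 2 * (nN φ * nM φ)) (h2 : j < 2 * (nN φ * nM φ) + 3 * nM φ) :
    ¬ (satXC φ).act j 1 = true := by
  simp only [satXC, h, if_false, h2, if_true]
  simp

theorem act0G (h2 : ¬ j < 2 * (nN φ * nM φ) + 3 * nM φ) :
    (satXC φ).act j 0 = true ↔ (j - (2 * (nN φ * nM φ) + 3 * nM φ)) % 2 = 0 ∧
      2 * nM φ ≤ j - (2 * (nN φ * nM φ) + 3 * nM φ) := by
  have h : ¬ j < 2 * (nN φ * nM φ) := by omega
  simp only [satXC, h, if_false, h2, if_true]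
  simp

theorem act1G (h2 : ¬ j < 2 * (nN φ * nM φ) + 3 * nM φ) : (satXC φ).act j 1 = true := by
  have h : ¬ j < 2 * (nN φ * nM φ) := by omega
  simp only [satXC, h, if_false, h2, if_true]
  simp

/-! ### Variables of literals -/

theorem cls_length (φ : List Cl) : (cls φ).length = nM φ := by simp [cls, nM]

theorem B2_var_mem {c : Cl} (hc : c ∈ φ) : c.1.1 + c.2.1.1 + c.2.2.1 < nN φ := by
  unfold nN
  have : c.1.1 + c.2.1.1 + c.2.2.1 ≤ (φ.map fun c => c.1.1 + c.2.1.1 + c.2.2.1).sum :=
    List.single_le_sum (by simp) _ (List.mem_map.2 ⟨c, hc, rfl⟩)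
  omega

theorem lit_var_lt (φ : List Cl) (c k : ℕ) : (lit φ c k).1 < nN φ := by
  have hpos := nN_pos φ
  have key : ∀ d : Cl, d ∈ cls φ ∨ d = ((0, true), (0, false), (0, true)) →
      d.1.1 < nN φ ∧ d.2.1.1 < nN φ ∧ d.2.2.1 < nN φ := by
    intro d hd
    have : d ∈ φ ∨ d = ((0, true), (0, false), (0, true)) := by
      rcases hd with hd | hd
      · unfold cls at hd
        rcases List.mem_cons.1 hd with h | h
        · exact Or.inr h
        · exact Or.inl h
      · exact Or.inr hd
    rcases this with h | h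
    · have := B2_var_mem h
      omega
    · subst h
      exact ⟨hpos, hpos, hpos⟩
  have h1 : (cls φ).getD c ((0, true), (0, false), (0, true)) ∈ cls φ ∨
      (cls φ).getD c ((0, true), (0, false), (0, true)) = ((0, true), (0, false), (0, true)) := by
    by_cases hc : c < (cls φ).length
    · left
      rw [List.getD_eq_getElem _ _ hc]
      exact List.getElem_mem hc
    · right
      rw [List.getD_eq_default _ _ (by omega)]
  have h2 := key _ h1
  unfold lit
  split_ifs
  · exact h2.1
  · exact h2.2.1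
  · exact h2.2.2

theorem tok_le (φ : List Cl) {c : ℕ} (hc : c < nM φ) (k : ℕ) :
    tok (nM φ) (lit φ c k).1 c (lit φ c k).2 ≤ 2 * (nN φ * nM φ) := by
  have h1 := lit_var_lt φ c k
  have h2 : (lit φ c k).1 * nM φ + c < nN φ * nM φ := by
    have h3 : ((lit φ c k).1 + 1) * nM φ ≤ nN φ * nM φ := Nat.mul_le_mul_right _ h1
    rw [Nat.add_mul, one_mul] at h3
    omega
  unfold tok
  split_ifs <;> omega

theorem tok_pos (M i c : ℕ) (s : Bool) : 0 < tok M i c s := by unfold tok; omega

theorem satXC_le (φ : List Cl) : ∀ j, j < (satXC φ).m → ∀ κ, κ < 3 →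
    (satXC φ).E j κ ≤ 2 * (nN φ * nM φ) + nM φ + 1 := by
  intro j hj κ hκ
  rw [B2_m] at hj
  have hML := nM_le φ
  have hM := nM_pos φ
  by_cases h : j < 2 * (nN φ * nM φ)
  · interval_cases κ
    · rw [E0A h]; omega
    · rw [E1A h]; omega
    · by_cases h2 : j % 2 = 0
      · rw [E2A_even h h2]; omega
      · rw [E2A_odd h h2]
        have := B2_lt_of_div hM (B2nx_div (nM φ) (j / 2) hM) (show j / 2 < nN φ * nM φ by omega)
        omega
  · by_cases h2 : j < 2 * (nN φ * nM φ) + 3 * nM φ
    · interval_cases κ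
      · rw [E0C h h2]; omega
      · rw [E1C h h2]
        have := tok_le φ (show (j - 2 * (nN φ * nM φ)) / 3 < nM φ by omega)
          ((j - 2 * (nN φ * nM φ)) % 3)
        omega
      · rw [E2C h h2]; omega
    · interval_cases κ
      · rw [E0G h2]; omega
      · rw [E1G h2]; omega
      · rw [E2G h2]; omega

theorem satXC_ne_zero (φ : List Cl) (j : ℕ) : (satXC φ).E j 0 ≠ 0 := by
  by_cases h : j < 2 * (nN φ * nM φ)
  · rw [E0A h]; omega
  · by_cases h2 : j < 2 * (nN φ * nM φ) + 3 * nM φ
    · rw [E0C h h2]; omega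
    · rw [E0G h2]; omega

theorem satXC_p (φ : List Cl) : ∀ j, j < (satXC φ).m → ∀ j', j' < (satXC φ).m →
    (satXC φ).E j 0 = (satXC φ).E j' 0 → (satXC φ).p j = (satXC φ).p j' := by
  intro j hj j' hj' he
  rw [B2_m] at hj hj'
  have pA : ∀ i, i < 2 * (nN φ * nM φ) → (satXC φ).p i = 2 := by
    intro i hi
    unfold XC.p
    have h1 : (satXC φ).E i 1 ≠ 0 := by rw [E1A hi]; omega
    have h2 : (satXC φ).E i 2 ≠ 0 := by
      by_cases h2 : i % 2 = 0
      · rw [E2A_even hi h2]; omega
      · rw [E2A_odd hi h2]; omega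
    rw [if_neg h1, if_neg h2]
  have pC : ∀ i, ¬ i < 2 * (nN φ * nM φ) → (satXC φ).p i = 1 := by
    intro i hi
    unfold XC.p
    by_cases h2 : i < 2 * (nN φ * nM φ) + 3 * nM φ
    · have h1 : (satXC φ).E i 1 ≠ 0 := by
        rw [E1C hi h2]
        have := tok_pos (nM φ)
          (lit φ ((i - 2 * (nN φ * nM φ)) / 3) ((i - 2 * (nN φ * nM φ)) % 3)).1
          ((i - 2 * (nN φ * nM φ)) / 3)
          (lit φ ((i - 2 * (nN φ * nM φ)) / 3) ((i - 2 * (nN φ * nM φ)) % 3)).2
        omega
      rw [if_neg h1, if_pos (E2C hi h2)]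
    · have h1 : (satXC φ).E i 1 ≠ 0 := by rw [E1G h2]; omega
      rw [if_neg h1, if_pos (E2G h2)]
  have eA : ∀ i, i < 2 * (nN φ * nM φ) → (satXC φ).E i 0 ≤ nN φ * nM φ := by
    intro i hi
    rw [E0A hi]; omega
  have eC : ∀ i, ¬ i < 2 * (nN φ * nM φ) → nN φ * nM φ < (satXC φ).E i 0 := by
    intro i hi
    by_cases h2 : i < 2 * (nN φ * nM φ) + 3 * nM φ
    · rw [E0C hi h2]; omega
    · rw [E0G h2]; omega
  by_cases h : j < 2 * (nN φ * nM φ)
  · by_cases h' : j' < 2 * (nN φ * nM φ)
    · rw [pA j h, pA j' h']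
    · have := eA j h
      have := eC j' h'
      omega
  · by_cases h' : j' < 2 * (nN φ * nM φ)
    · have := eC j h
      have := eA j' h'
      omega
    · rw [pC j h, pC j' h']

/-! ### Actual incidences -/

theorem act_card0 (φ : List Cl) {q : ℕ} (hq : q < nN φ * nM φ) :
    ((range (satXC φ).m).filter fun j => (satXC φ).E j 0 = q + 1 ∧
      (satXC φ).act j 0 = true).card = 1 := by
  rw [Finset.card_eq_one]
  refine ⟨2 * q, ?_⟩
  ext j
  rw [Finset.mem_filter, Finset.mem_range, B2_m, Finset.mem_singleton]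
  constructor
  · rintro ⟨h0, h1, h2⟩
    by_cases h : j < 2 * (nN φ * nM φ)
    · rw [E0A h] at h1
      rw [act0A h] at h2
      omega
    · by_cases h3 : j < 2 * (nN φ * nM φ) + 3 * nM φ
      · rw [E0C h h3] at h1; omega
      · rw [E0G h3] at h1; omega
  · rintro rfl
    have h : 2 * q < 2 * (nN φ * nM φ) := by omega
    refine ⟨by omega, ?_, ?_⟩
    · rw [E0A h]; omega
    · rw [act0A h]; omega

theorem act_card2 (φ : List Cl) {q : ℕ} (hq : q < nN φ * nM φ) :
    ((range (satXC φ).m).filter fun j => (satXC φ).E j 2 = q + 1 ∧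
      (satXC φ).act j 2 = true).card = 1 := by
  rw [Finset.card_eq_one]
  refine ⟨2 * q, ?_⟩
  ext j
  rw [Finset.mem_filter, Finset.mem_range, B2_m, Finset.mem_singleton]
  constructor
  · rintro ⟨h0, h1, h2⟩
    by_cases h : j < 2 * (nN φ * nM φ)
    · rw [act2A h] at h2
      rw [E2A_even h h2] at h1
      omega
    · by_cases h3 : j < 2 * (nN φ * nM φ) + 3 * nM φ
      · rw [E2C h h3] at h1; omega
      · rw [E2G h3] at h1; omega
  · rintro rfl
    have h : 2 * q < 2 * (nN φ * nM φ) := by omega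
    refine ⟨by omega, ?_, ?_⟩
    · rw [E2A_even h (by omega)]; omega
    · rw [act2A h]; omega

theorem act_cardC (φ : List Cl) {c : ℕ} (hc : c < nM φ) :
    ((range (satXC φ).m).filter fun j => (satXC φ).E j 0 = nN φ * nM φ + c + 1 ∧
      (satXC φ).act j 0 = true).card = 1 := by
  rw [Finset.card_eq_one]
  refine ⟨2 * (nN φ * nM φ) + 3 * c, ?_⟩
  ext j
  rw [Finset.mem_filter, Finset.mem_range, B2_m, Finset.mem_singleton]
  constructor
  · rintro ⟨h0, h1, h2⟩
    by_cases h : j < 2 * (nN φ * nM φ)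
    · rw [E0A h] at h1
      omega
    · by_cases h3 : j < 2 * (nN φ * nM φ) + 3 * nM φ
      · rw [E0C h h3] at h1
        rw [act0C h h3] at h2
        omega
      · rw [E0G h3] at h1; omega
  · rintro rfl
    have h : ¬ 2 * (nN φ * nM φ) + 3 * c < 2 * (nN φ * nM φ) := by omega
    have h3 : 2 * (nN φ * nM φ) + 3 * c < 2 * (nN φ * nM φ) + 3 * nM φ := by omega
    refine ⟨by omega, ?_, ?_⟩
    · rw [E0C h h3]; omega
    · rw [act0C h h3]; omega

theorem act_card1 (φ : List Cl) {x : ℕ} (hx : x < 2 * (nN φ * nM φ)) :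
    ((range (satXC φ).m).filter fun j => (satXC φ).E j 1 = x + 1 ∧
      (satXC φ).act j 1 = true).card = 1 := by
  rw [Finset.card_eq_one]
  refine ⟨2 * (nN φ * nM φ) + 3 * nM φ + x, ?_⟩
  ext j
  rw [Finset.mem_filter, Finset.mem_range, B2_m, Finset.mem_singleton]
  constructor
  · rintro ⟨h0, h1, h2⟩
    by_cases h : j < 2 * (nN φ * nM φ)
    · exact absurd h2 (act1A h)
    · by_cases h3 : j < 2 * (nN φ * nM φ) + 3 * nM φ
      · exact absurd h2 (act1C h h3)
      · rw [E1G h3] at h1
        omega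
  · rintro rfl
    have h3 : ¬ 2 * (nN φ * nM φ) + 3 * nM φ + x < 2 * (nN φ * nM φ) + 3 * nM φ := by omega
    refine ⟨by omega, ?_, act1G h3⟩
    rw [E1G h3]; omega

theorem act_cardG (φ : List Cl) :
    ((range (satXC φ).m).filter fun j => (satXC φ).E j 0 = nN φ * nM φ + nM φ + 1 ∧
      (satXC φ).act j 0 = true).card = nN φ * nM φ - nM φ := by
  have h : ((range (satXC φ).m).filter fun j => (satXC φ).E j 0 = nN φ * nM φ + nM φ + 1 ∧
      (satXC φ).act j 0 = true) = (Finset.Ico (nM φ) (nN φ * nM φ)).image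
        (fun q => 2 * (nN φ * nM φ) + 3 * nM φ + 2 * q) := by
    ext j
    rw [Finset.mem_filter, Finset.mem_range, B2_m, Finset.mem_image]
    constructor
    · rintro ⟨h0, h1, h2⟩
      by_cases h : j < 2 * (nN φ * nM φ)
      · rw [E0A h] at h1; omega
      · by_cases h3 : j < 2 * (nN φ * nM φ) + 3 * nM φ
        · rw [E0C h h3] at h1; omega
        · rw [act0G h3] at h2
          refine ⟨(j - (2 * (nN φ * nM φ) + 3 * nM φ)) / 2, ?_, by omega⟩
          rw [Finset.mem_Ico]
          omega
    · rintro ⟨q, hq, rfl⟩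
      rw [Finset.mem_Ico] at hq
      have h3 : ¬ 2 * (nN φ * nM φ) + 3 * nM φ + 2 * q < 2 * (nN φ * nM φ) + 3 * nM φ := by
        omega
      refine ⟨by omega, E0G h3, ?_⟩
      rw [act0G h3]
      omega
  rw [h, Finset.card_image_of_injective _ (fun a b hab => by simpa using hab), Nat.card_Ico]

/-! ### From a solution to an assignment -/

theorem B2_unique {S : Finset ℕ} {κ x : ℕ} (h : (S.filter fun j => (satXC φ).E j κ = x).card = 1) :
    ∃ j ∈ S, (satXC φ).E j κ = x ∧ ∀ j' ∈ S, (satXC φ).E j' κ = x → j' = j := by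
  rw [Finset.card_eq_one] at h
  obtain ⟨a, ha⟩ := h
  have h1 : a ∈ S.filter fun j => (satXC φ).E j κ = x := by rw [ha]; simp
  rw [Finset.mem_filter] at h1
  refine ⟨a, h1.1, h1.2, ?_⟩
  intro j' hj' he
  have h2 : j' ∈ S.filter fun j => (satXC φ).E j κ = x := Finset.mem_filter.2 ⟨hj', he⟩
  rw [ha, Finset.mem_singleton] at h2
  exact h2

theorem cls_sat_of (φ : List Cl) (v : ℕ → Bool)
    (h : ∀ c, c < nM φ → ∃ k, k < 3 ∧ v (lit φ c k).1 = (lit φ c k).2) :
    ∀ c ∈ φ, Cl.Sat v c := by
  intro c hc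
  have hc' : c ∈ cls φ := List.mem_cons_of_mem _ hc
  obtain ⟨i, hi, hic⟩ := List.getElem_of_mem hc'
  obtain ⟨k, hk, hk2⟩ := h i (by rw [← cls_length]; exact hi)
  have hg : (cls φ).getD i ((0, true), (0, false), (0, true)) = c := by
    rw [List.getD_eq_getElem _ _ hi, hic]
  unfold lit at hk2
  rw [hg] at hk2
  unfold Cl.Sat
  interval_cases k
  · exact Or.inl (by simpa using hk2)
  · exact Or.inr (Or.inl (by simpa using hk2))
  · exact Or.inr (Or.inr (by simpa using hk2))

theorem B2_forward (φ : List Cl) (hS : (satXC φ).Solvable) : Sat3 φ := by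
  obtain ⟨S, hSr, h⟩ := hS
  have hM := nM_pos φ
  have hlt : ∀ j ∈ S, j < 2 * (nN φ * nM φ) + 3 * nM φ + 2 * (nN φ * nM φ) := by
    intro j hj
    have := hSr hj
    rwa [Finset.mem_range, B2_m] at this
  have h0 : ∀ q, q < nN φ * nM φ → (2 * q ∈ S ↔ ¬ 2 * q + 1 ∈ S) := by
    intro q hq
    have h1 := h 0 (by norm_num) (q + 1) (by omega)
    rw [act_card0 φ hq] at h1
    obtain ⟨j, hj, hje, hu⟩ := B2_unique h1
    have e1 : (satXC φ).E (2 * q) 0 = q + 1 := by rw [E0A (by omega)]; omega
    have e2 : (satXC φ).E (2 * q + 1) 0 = q + 1 := by rw [E0A (by omega)]; omega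
    constructor
    · intro ha hb
      have := hu _ ha e1
      have := hu _ hb e2
      omega
    · intro hb
      have hj2 := hlt j hj
      have : j = 2 * q ∨ j = 2 * q + 1 := by
        by_cases h' : j < 2 * (nN φ * nM φ)
        · rw [E0A h'] at hje; omega
        · by_cases h3 : j < 2 * (nN φ * nM φ) + 3 * nM φ
          · rw [E0C h' h3] at hje; omega
          · rw [E0G h3] at hje; omega
      rcases this with rfl | rfl
      · exact hj
      · exact absurd hj hb
  have h2 : ∀ q, q < nN φ * nM φ → (2 * B2nx (nM φ) q ∈ S ↔ ¬ 2 * q + 1 ∈ S) := by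
    intro q hq
    have hnx : B2nx (nM φ) q < nN φ * nM φ := B2_lt_of_div hM (B2nx_div _ q hM) hq
    have h1 := h 2 (by norm_num) (B2nx (nM φ) q + 1) (by omega)
    rw [act_card2 φ hnx] at h1
    obtain ⟨j, hj, hje, hu⟩ := B2_unique h1
    have e1 : (satXC φ).E (2 * B2nx (nM φ) q) 2 = B2nx (nM φ) q + 1 := by
      rw [E2A_even (by omega) (by omega)]; omega
    have e2 : (satXC φ).E (2 * q + 1) 2 = B2nx (nM φ) q + 1 := by
      rw [E2A_odd (by omega) (by omega)]
      congr 2
      omega
    constructor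
    · intro ha hb
      have := hu _ ha e1
      have := hu _ hb e2
      omega
    · intro hb
      have hj2 := hlt j hj
      have : j = 2 * B2nx (nM φ) q ∨ j = 2 * q + 1 := by
        by_cases h' : j < 2 * (nN φ * nM φ)
        · by_cases hp : j % 2 = 0
          · rw [E2A_even h' hp] at hje; omega
          · rw [E2A_odd h' hp] at hje
            have := B2nx_inj (nM φ) (j / 2) q hM (by omega)
            omega
        · by_cases h3 : j < 2 * (nN φ * nM φ) + 3 * nM φ
          · rw [E2C h' h3] at hje; omega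
          · rw [E2G h3] at hje; omega
      rcases this with rfl | rfl
      · exact hj
      · exact absurd hj hb
  -- the value of a variable is well defined
  have hval : ∀ i, i < nN φ → ∀ c, c < nM φ →
      (2 * (i * nM φ + c) ∈ S ↔ 2 * (i * nM φ) ∈ S) := by
    intro i hi c
    have hb : ∀ c, c < nM φ → i * nM φ + c < nN φ * nM φ := by
      intro c hc
      have h3 : (i + 1) * nM φ ≤ nN φ * nM φ := Nat.mul_le_mul_right _ hi
      rw [Nat.add_mul, one_mul] at h3
      omega
    induction c with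
    | zero => intro _; rw [add_zero]
    | succ c ih =>
      intro hc
      rw [← ih (by omega), h0 _ (hb c (by omega)), ← h2 _ (hb c (by omega))]
      have e : B2nx (nM φ) (i * nM φ + c) = i * nM φ + (c + 1) := by
        unfold B2nx
        rw [mul_comm i, Nat.mul_add_div hM, Nat.mul_add_mod, Nat.div_eq_of_lt (by omega : c < nM φ),
          Nat.mod_eq_of_lt (by omega : c < nM φ), Nat.mod_eq_of_lt hc, add_zero, mul_comm i]
      rw [e]
  classical
  refine ⟨fun i => decide (2 * (i * nM φ) ∈ S), cls_sat_of φ _ ?_⟩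
  intro c hc
  have h1 := h 0 (by norm_num) (nN φ * nM φ + c + 1) (by omega)
  rw [act_cardC φ hc] at h1
  obtain ⟨j, hj, hje, -⟩ := B2_unique h1
  have hj2 := hlt j hj
  have hjA : ¬ j < 2 * (nN φ * nM φ) := by
    intro h'
    rw [E0A h'] at hje; omega
  have hjC : j < 2 * (nN φ * nM φ) + 3 * nM φ := by
    by_contra h3
    rw [E0G h3] at hje; omega
  rw [E0C hjA hjC] at hje
  have hdiv : (j - 2 * (nN φ * nM φ)) / 3 = c := by omega
  refine ⟨(j - 2 * (nN φ * nM φ)) % 3, by omega, ?_⟩
  generalize hk : (j - 2 * (nN φ * nM φ)) % 3 = k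
  have hE1 := E1C hjA hjC
  rw [hdiv, hk] at hE1
  have htok := tok_le φ hc k
  have htp := tok_pos (nM φ) (lit φ c k).1 c (lit φ c k).2
  have hvar := lit_var_lt φ c k
  have h4 := h 1 (by norm_num) ((tok (nM φ) (lit φ c k).1 c (lit φ c k).2 - 1) + 1) (by omega)
  rw [act_card1 φ (by omega)] at h4
  obtain ⟨j1, hj1, hj1e, hu⟩ := B2_unique h4
  have h5 := hu j hj (by rw [hE1]; omega)
  have h6 : ¬ (tok (nM φ) (lit φ c k).1 c (lit φ c k).2 - 1) ∈ S := by
    intro h7
    have h8 := hu _ h7 (by rw [E1A (by omega)])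
    omega
  have hb : (lit φ c k).1 * nM φ + c < nN φ * nM φ := by
    have h3 : ((lit φ c k).1 + 1) * nM φ ≤ nN φ * nM φ := Nat.mul_le_mul_right _ hvar
    rw [Nat.add_mul, one_mul] at h3
    omega
  have h9 := hval _ hvar c hc
  unfold tok at h6
  cases hs : (lit φ c k).2
  · rw [hs] at h6
    simp only [Bool.false_eq_true, if_false, add_zero, Nat.add_sub_cancel] at h6
    rw [h9] at h6
    simpa using h6
  · rw [hs] at h6
    simp only [if_true, Nat.add_sub_cancel] at h6
    have h10 := (h0 _ hb).2 h6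
    rw [h9] at h10
    simpa using h10

/-! ### From an assignment to a solution -/

/-- The wheel set `j` is selected. -/
def B2w (v : ℕ → Bool) (M j : ℕ) : Prop := v (j / 2 / M) = decide (j % 2 = 0)

/-- Chosen literal of the clause `c`. -/
def B2k (φ : List Cl) (v : ℕ → Bool) (c : ℕ) : ℕ :=
  if v (lit φ c 0).1 = (lit φ c 0).2 then 0 else if v (lit φ c 1).1 = (lit φ c 1).2 then 1 else 2

theorem B2k_lt (φ : List Cl) (v : ℕ → Bool) (c : ℕ) : B2k φ v c < 3 := by
  unfold B2k
  split_ifs <;> omega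

/-- The token covered by the clause set of the clause `c` (minus one). -/
def B2t (φ : List Cl) (v : ℕ → Bool) (c : ℕ) : ℕ :=
  tok (nM φ) (lit φ c (B2k φ v c)).1 c (lit φ c (B2k φ v c)).2 - 1

theorem cls_sat (φ : List Cl) (v : ℕ → Bool) (h : ∀ c ∈ φ, Cl.Sat v c) (c : ℕ)
    (hc : c < nM φ) : v (lit φ c (B2k φ v c)).1 = (lit φ c (B2k φ v c)).2 := by
  have hall : ∀ d ∈ cls φ, Cl.Sat v d := by
    intro d hd
    unfold cls at hd
    rcases List.mem_cons.1 hd with h1 | h1
    · subst h1
      unfold Cl.Sat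
      simp only
      cases v 0 <;> simp
    · exact h d h1
  rw [← cls_length] at hc
  have h1 := hall _ (List.getElem_mem hc)
  have hg : (cls φ).getD c ((0, true), (0, false), (0, true)) = (cls φ)[c] :=
    List.getD_eq_getElem _ _ hc
  by_cases h0 : v (lit φ c 0).1 = (lit φ c 0).2
  · have : B2k φ v c = 0 := by unfold B2k; rw [if_pos h0]
    rw [this]; exact h0
  · by_cases h2 : v (lit φ c 1).1 = (lit φ c 1).2
    · have : B2k φ v c = 1 := by unfold B2k; rw [if_neg h0, if_pos h2]
      rw [this]; exact h2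
    · have : B2k φ v c = 2 := by unfold B2k; rw [if_neg h0, if_neg h2]
      rw [this]
      unfold lit at h0 h2 ⊢
      rw [hg] at h0 h2 ⊢
      simp only [if_true, one_ne_zero, if_false, OfNat.ofNat_ne_zero,
        OfNat.ofNat_ne_one] at h0 h2 ⊢
      unfold Cl.Sat at h1
      tauto

/-- The offset of the selected wheel set. -/
def B2o (v : ℕ → Bool) (M q : ℕ) : ℕ := 2 * q + (if v (q / M) = true then 0 else 1)

theorem B2w_iff (v : ℕ → Bool) (M j : ℕ) : B2w v M j ↔ j = B2o v M (j / 2) := by
  unfold B2w B2o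
  by_cases hp : j % 2 = 0
  · cases hv : v (j / 2 / M)
    · rw [decide_eq_true hp]
      simp
      omega
    · rw [decide_eq_true hp]
      simp
      omega
  · cases hv : v (j / 2 / M)
    · rw [decide_eq_false hp]
      simp
      omega
    · rw [decide_eq_false hp]
      simp
      omega

theorem B2o_div (v : ℕ → Bool) (M q : ℕ) : B2o v M q / 2 = q := by
  unfold B2o
  split_ifs <;> omega

theorem B2w_o (v : ℕ → Bool) (M q : ℕ) : B2w v M (B2o v M q) := by
  rw [B2w_iff, B2o_div]

theorem B2t_spec (φ : List Cl) (v : ℕ → Bool) {c : ℕ} (hc : c < nM φ) :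
    B2t φ v c < 2 * (nN φ * nM φ) ∧ B2t φ v c / 2 / nM φ = (lit φ c (B2k φ v c)).1 ∧
      B2t φ v c / 2 % nM φ = c ∧
      (B2t φ v c % 2 = 0 ↔ (lit φ c (B2k φ v c)).2 = false) := by
  have hM := nM_pos φ
  have h1 := tok_le φ hc (B2k φ v c)
  have h2 := tok_pos (nM φ) (lit φ c (B2k φ v c)).1 c (lit φ c (B2k φ v c)).2
  unfold B2t
  refine ⟨by omega, ?_, ?_, ?_⟩
  · have : (tok (nM φ) (lit φ c (B2k φ v c)).1 c (lit φ c (B2k φ v c)).2 - 1) / 2 =
        nM φ * (lit φ c (B2k φ v c)).1 + c := by
      unfold tok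
      rw [mul_comm (nM φ)]
      split_ifs <;> omega
    rw [this, Nat.mul_add_div hM, Nat.div_eq_of_lt hc, add_zero]
  · have : (tok (nM φ) (lit φ c (B2k φ v c)).1 c (lit φ c (B2k φ v c)).2 - 1) / 2 =
        nM φ * (lit φ c (B2k φ v c)).1 + c := by
      unfold tok
      rw [mul_comm (nM φ)]
      split_ifs <;> omega
    rw [this, Nat.mul_add_mod, Nat.mod_eq_of_lt hc]
  · unfold tok
    cases (lit φ c (B2k φ v c)).2
    · simp
    · simp only [if_true, Bool.true_eq_false, iff_false]
      omega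

/-- The clause tokens are not covered by the wheels. -/
theorem B2t_not_w (φ : List Cl) (v : ℕ → Bool) (h : ∀ c ∈ φ, Cl.Sat v c) {c : ℕ}
    (hc : c < nM φ) : ¬ B2w v (nM φ) (B2t φ v c) := by
  obtain ⟨-, h1, -, h2⟩ := B2t_spec φ v hc
  have h3 := cls_sat φ v h c hc
  unfold B2w
  rw [h1, h3]
  cases hs : (lit φ c (B2k φ v c)).2
  · rw [hs] at h2
    have := h2.2 rfl
    simp [this]
  · rw [hs] at h2
    have : ¬ B2t φ v c % 2 = 0 := by
      intro h4
      exact absurd (h2.1 h4) (by simp)
    simp [this]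

/-- A token is covered by a wheel or by a clause. -/
def B2cov (φ : List Cl) (v : ℕ → Bool) (x : ℕ) : Prop :=
  B2w v (nM φ) x ∨ ∃ c, c < nM φ ∧ B2t φ v c = x

open Classical in
theorem card_uncov (φ : List Cl) (v : ℕ → Bool) (h : ∀ c ∈ φ, Cl.Sat v c) :
    ((range (2 * (nN φ * nM φ))).filter fun x => ¬ B2cov φ v x).card = nN φ * nM φ - nM φ := by
  have hML := nM_le φ
  have h1 : ((range (2 * (nN φ * nM φ))).filter fun x => B2cov φ v x) =
      ((range (nN φ * nM φ)).image (B2o v (nM φ))) ∪ ((range (nM φ)).image (B2t φ v)) := by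
    ext x
    rw [Finset.mem_filter, Finset.mem_union, Finset.mem_image, Finset.mem_image, Finset.mem_range]
    constructor
    · rintro ⟨hx, hw | ⟨c, hc, rfl⟩⟩
      · left
        refine ⟨x / 2, ?_, ((B2w_iff _ _ _).1 hw).symm⟩
        rw [Finset.mem_range]
        omega
      · right
        exact ⟨c, Finset.mem_range.2 hc, rfl⟩
    · rintro (⟨q, hq, rfl⟩ | ⟨c, hc, rfl⟩)
      · rw [Finset.mem_range] at hq
        refine ⟨?_, Or.inl (B2w_o _ _ _)⟩
        have := B2o_div v (nM φ) q
        omega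
      · rw [Finset.mem_range] at hc
        exact ⟨(B2t_spec φ v hc).1, Or.inr ⟨c, hc, rfl⟩⟩
  have h2 : ((range (2 * (nN φ * nM φ))).filter fun x => B2cov φ v x).card =
      nN φ * nM φ + nM φ := by
    rw [h1, Finset.card_union_of_disjoint]
    · rw [Finset.card_image_of_injective, Finset.card_image_of_injOn, Finset.card_range,
        Finset.card_range]
      · intro c hc c' hc' he
        have hc1 := (B2t_spec φ v (Finset.mem_range.1 hc)).2.2.1
        have hc2 := (B2t_spec φ v (Finset.mem_range.1 hc')).2.2.1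
        rw [he] at hc1
        exact hc1.symm.trans hc2
      · intro a b hab
        have ha := B2o_div v (nM φ) a
        have hb := B2o_div v (nM φ) b
        rw [hab] at ha
        exact ha.symm.trans hb
    · rw [Finset.disjoint_left]
      intro x hx1 hx2
      rw [Finset.mem_image] at hx1 hx2
      obtain ⟨q, _, rfl⟩ := hx1
      obtain ⟨c, hc, hce⟩ := hx2
      have := B2t_not_w φ v h (Finset.mem_range.1 hc)
      rw [hce] at this
      exact this (B2w_o _ _ _)
  have h3 := Finset.card_filter_add_card_filter_not (s := range (2 * (nN φ * nM φ)))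
    (fun x => B2cov φ v x)
  rw [Finset.card_range, h2] at h3
  omega

open Classical in
/-- The solution belonging to an assignment. -/
noncomputable def B2S (φ : List Cl) (v : ℕ → Bool) : Finset ℕ :=
  (range (satXC φ).m).filter fun j =>
    (j < 2 * (nN φ * nM φ) → B2w v (nM φ) j) ∧
    (¬ j < 2 * (nN φ * nM φ) → j < 2 * (nN φ * nM φ) + 3 * nM φ →
      (j - 2 * (nN φ * nM φ)) % 3 = B2k φ v ((j - 2 * (nN φ * nM φ)) / 3)) ∧
    (¬ j < 2 * (nN φ * nM φ) + 3 * nM φ →
      ¬ B2cov φ v (j - (2 * (nN φ * nM φ) + 3 * nM φ)))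

theorem mem_B2S (φ : List Cl) (v : ℕ → Bool) (j : ℕ) : j ∈ B2S φ v ↔
    j < 2 * (nN φ * nM φ) + 3 * nM φ + 2 * (nN φ * nM φ) ∧
    (j < 2 * (nN φ * nM φ) → B2w v (nM φ) j) ∧
    (¬ j < 2 * (nN φ * nM φ) → j < 2 * (nN φ * nM φ) + 3 * nM φ →
      (j - 2 * (nN φ * nM φ)) % 3 = B2k φ v ((j - 2 * (nN φ * nM φ)) / 3)) ∧
    (¬ j < 2 * (nN φ * nM φ) + 3 * nM φ →
      ¬ B2cov φ v (j - (2 * (nN φ * nM φ) + 3 * nM φ))) := by
  classical
  unfold B2S
  rw [← B2_m, ← Finset.mem_range]
  exact Finset.mem_filter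

theorem mem_B2S_A (φ : List Cl) (v : ℕ → Bool) {j : ℕ} (h : j < 2 * (nN φ * nM φ)) :
    j ∈ B2S φ v ↔ B2w v (nM φ) j := by
  rw [mem_B2S]
  constructor
  · rintro ⟨_, h1, _⟩
    exact h1 h
  · intro h1
    exact ⟨by omega, fun _ => h1, fun h2 => absurd h h2, fun h2 => absurd (by omega) h2⟩

theorem mem_B2S_C (φ : List Cl) (v : ℕ → Bool) {j : ℕ} (h : ¬ j < 2 * (nN φ * nM φ))
    (h' : j < 2 * (nN φ * nM φ) + 3 * nM φ) :
    j ∈ B2S φ v ↔ (j - 2 * (nN φ * nM φ)) % 3 = B2k φ v ((j - 2 * (nN φ * nM φ)) / 3) := by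
  rw [mem_B2S]
  constructor
  · rintro ⟨_, _, h1, _⟩
    exact h1 h h'
  · intro h1
    exact ⟨by omega, fun h2 => absurd h2 h, fun _ _ => h1, fun h2 => absurd h' h2⟩

theorem mem_B2S_G (φ : List Cl) (v : ℕ → Bool) {j : ℕ}
    (h' : ¬ j < 2 * (nN φ * nM φ) + 3 * nM φ) :
    j ∈ B2S φ v ↔ j < 2 * (nN φ * nM φ) + 3 * nM φ + 2 * (nN φ * nM φ) ∧
      ¬ B2cov φ v (j - (2 * (nN φ * nM φ) + 3 * nM φ)) := by
  rw [mem_B2S]
  constructor
  · rintro ⟨h0, _, _, h1⟩
    exact ⟨h0, h1 h'⟩
  · rintro ⟨h0, h1⟩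
    exact ⟨h0, fun h2 => absurd (by omega) h', fun _ h2 => absurd h2 h', fun _ => h1⟩

theorem B2_backward (φ : List Cl) (v : ℕ → Bool) (h : ∀ c ∈ φ, Cl.Sat v c) :
    (satXC φ).Solvable := by
  have hM := nM_pos φ
  have hML := nM_le φ
  refine ⟨B2S φ v, ?_, ?_⟩
  · intro j hj
    rw [mem_B2S] at hj
    rw [Finset.mem_range, B2_m]
    exact hj.1
  intro κ hκ x hx
  -- codes that do not occur
  have hempty : (∀ j, j < (satXC φ).m → (satXC φ).E j κ ≠ x) →
      ((B2S φ v).filter fun j => (satXC φ).E j κ = x).card =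
      ((range (satXC φ).m).filter fun j => (satXC φ).E j κ = x ∧
        (satXC φ).act j κ = true).card := by
    intro hne
    rw [Finset.card_eq_zero.2, Finset.card_eq_zero.2]
    · rw [Finset.filter_eq_empty_iff]
      intro j hj hje
      exact hne j (Finset.mem_range.1 hj) hje.1
    · rw [Finset.filter_eq_empty_iff]
      intro j hj hje
      rw [mem_B2S] at hj
      exact hne j (by rw [B2_m]; exact hj.1) hje
  interval_cases κ
  · -- class 0
    by_cases h1 : x ≤ nN φ * nM φ
    · obtain ⟨q, rfl⟩ : ∃ q, x = q + 1 := ⟨x - 1, by omega⟩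
      rw [act_card0 φ (by omega), Finset.card_eq_one]
      refine ⟨B2o v (nM φ) q, ?_⟩
      ext j
      rw [Finset.mem_filter, Finset.mem_singleton]
      constructor
      · rintro ⟨hj, hje⟩
        by_cases hA : j < 2 * (nN φ * nM φ)
        · rw [mem_B2S_A φ v hA, B2w_iff] at hj
          rw [E0A hA] at hje
          rw [hj, show j / 2 = q by omega]
        · by_cases hC : j < 2 * (nN φ * nM φ) + 3 * nM φ
          · rw [E0C hA hC] at hje; omega
          · rw [E0G hC] at hje; omega
      · rintro rfl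
        have h2 := B2o_div v (nM φ) q
        have hA : B2o v (nM φ) q < 2 * (nN φ * nM φ) := by omega
        rw [mem_B2S_A φ v hA, E0A hA, h2]
        exact ⟨B2w_o _ _ _, rfl⟩
    · by_cases h2 : x ≤ nN φ * nM φ + nM φ
      · obtain ⟨c, rfl⟩ : ∃ c, x = nN φ * nM φ + c + 1 := ⟨x - 1 - nN φ * nM φ, by omega⟩
        rw [act_cardC φ (by omega), Finset.card_eq_one]
        have hk := B2k_lt φ v c
        refine ⟨2 * (nN φ * nM φ) + 3 * c + B2k φ v c, ?_⟩
        ext j
        rw [Finset.mem_filter, Finset.mem_singleton]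
        constructor
        · rintro ⟨hj, hje⟩
          by_cases hA : j < 2 * (nN φ * nM φ)
          · rw [E0A hA] at hje; omega
          · by_cases hC : j < 2 * (nN φ * nM φ) + 3 * nM φ
            · rw [E0C hA hC] at hje
              rw [mem_B2S_C φ v hA hC, show (j - 2 * (nN φ * nM φ)) / 3 = c by omega] at hj
              omega
            · rw [E0G hC] at hje; omega
        · rintro rfl
          have hA : ¬ 2 * (nN φ * nM φ) + 3 * c + B2k φ v c < 2 * (nN φ * nM φ) := by omega
          have hC : 2 * (nN φ * nM φ) + 3 * c + B2k φ v c <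
              2 * (nN φ * nM φ) + 3 * nM φ := by omega
          rw [mem_B2S_C φ v hA hC, E0C hA hC,
            show (2 * (nN φ * nM φ) + 3 * c + B2k φ v c - 2 * (nN φ * nM φ)) / 3 = c by omega]
          exact ⟨by omega, rfl⟩
      · by_cases h3 : x = nN φ * nM φ + nM φ + 1
        · subst h3
          rw [act_cardG, ← card_uncov φ v h]
          classical
          rw [← Finset.card_image_of_injective ((range (2 * (nN φ * nM φ))).filter
            fun x => ¬ B2cov φ v x) (f := fun q => 2 * (nN φ * nM φ) + 3 * nM φ + q)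
            (fun a b hab => by simpa using hab)]
          congr 1
          ext j
          rw [Finset.mem_filter, Finset.mem_image]
          constructor
          · rintro ⟨hj, hje⟩
            by_cases hA : j < 2 * (nN φ * nM φ)
            · rw [E0A hA] at hje; omega
            · by_cases hC : j < 2 * (nN φ * nM φ) + 3 * nM φ
              · rw [E0C hA hC] at hje; omega
              · rw [mem_B2S_G φ v hC] at hj
                refine ⟨j - (2 * (nN φ * nM φ) + 3 * nM φ), ?_, by omega⟩
                rw [Finset.mem_filter, Finset.mem_range]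
                exact ⟨by omega, hj.2⟩
          · rintro ⟨q, hq, rfl⟩
            rw [Finset.mem_filter, Finset.mem_range] at hq
            have hC : ¬ 2 * (nN φ * nM φ) + 3 * nM φ + q <
                2 * (nN φ * nM φ) + 3 * nM φ := by omega
            rw [mem_B2S_G φ v hC, E0G hC, Nat.add_sub_cancel_left]
            exact ⟨⟨by omega, hq.2⟩, rfl⟩
        · apply hempty
          intro j hj
          by_cases hA : j < 2 * (nN φ * nM φ)
          · rw [E0A hA]; omega
          · by_cases hC : j < 2 * (nN φ * nM φ) + 3 * nM φ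
            · rw [E0C hA hC]; omega
            · rw [E0G hC]; omega
  · -- class 1
    by_cases h1 : x ≤ 2 * (nN φ * nM φ)
    · obtain ⟨q, rfl⟩ : ∃ q, x = q + 1 := ⟨x - 1, by omega⟩
      rw [act_card1 φ (by omega), Finset.card_eq_one]
      -- description of the clause sets with this token
      have hclause : ∀ j, ¬ j < 2 * (nN φ * nM φ) → j < 2 * (nN φ * nM φ) + 3 * nM φ →
          j ∈ B2S φ v → (satXC φ).E j 1 = q + 1 →
          ∃ c, c < nM φ ∧ B2t φ v c = q ∧ j = 2 * (nN φ * nM φ) + 3 * c + B2k φ v c := by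
        intro j hA hC hj hje
        rw [mem_B2S_C φ v hA hC] at hj
        rw [E1C hA hC, hj] at hje
        refine ⟨(j - 2 * (nN φ * nM φ)) / 3, by omega, ?_, by omega⟩
        unfold B2t
        omega
      by_cases hw : B2w v (nM φ) q
      · refine ⟨q, ?_⟩
        ext j
        rw [Finset.mem_filter, Finset.mem_singleton]
        constructor
        · rintro ⟨hj, hje⟩
          by_cases hA : j < 2 * (nN φ * nM φ)
          · rw [E1A hA] at hje; omega
          · by_cases hC : j < 2 * (nN φ * nM φ) + 3 * nM φ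
            · obtain ⟨c, hc, hcq, -⟩ := hclause j hA hC hj hje
              exact absurd (hcq ▸ hw) (B2t_not_w φ v h hc)
            · rw [mem_B2S_G φ v hC] at hj
              rw [E1G hC] at hje
              have : j - (2 * (nN φ * nM φ) + 3 * nM φ) = q := by omega
              rw [this] at hj
              exact absurd (Or.inl hw) hj.2
        · rintro rfl
          rw [mem_B2S_A φ v (by omega), E1A (by omega)]
          exact ⟨hw, rfl⟩
      · by_cases hc : ∃ c, c < nM φ ∧ B2t φ v c = q
        · obtain ⟨c, hc, hcq⟩ := hc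
          have hk := B2k_lt φ v c
          refine ⟨2 * (nN φ * nM φ) + 3 * c + B2k φ v c, ?_⟩
          ext j
          rw [Finset.mem_filter, Finset.mem_singleton]
          constructor
          · rintro ⟨hj, hje⟩
            by_cases hA : j < 2 * (nN φ * nM φ)
            · rw [E1A hA] at hje
              rw [mem_B2S_A φ v hA, show j = q by omega] at hj
              exact absurd hj hw
            · by_cases hC : j < 2 * (nN φ * nM φ) + 3 * nM φ
              · obtain ⟨c', hc', hcq', hj'⟩ := hclause j hA hC hj hje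
                have e1 := (B2t_spec φ v hc).2.2.1
                have e2 := (B2t_spec φ v hc').2.2.1
                rw [hcq] at e1
                rw [hcq'] at e2
                have e3 : c' = c := e2.symm.trans e1
                rw [hj', e3]
              · rw [mem_B2S_G φ v hC] at hj
                rw [E1G hC] at hje
                have : j - (2 * (nN φ * nM φ) + 3 * nM φ) = q := by omega
                rw [this] at hj
                exact absurd (Or.inr ⟨c, hc, hcq⟩) hj.2
          · rintro rfl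
            have hA : ¬ 2 * (nN φ * nM φ) + 3 * c + B2k φ v c < 2 * (nN φ * nM φ) := by omega
            have hC : 2 * (nN φ * nM φ) + 3 * c + B2k φ v c <
                2 * (nN φ * nM φ) + 3 * nM φ := by omega
            have e1 : (2 * (nN φ * nM φ) + 3 * c + B2k φ v c - 2 * (nN φ * nM φ)) / 3 = c := by
              omega
            have e2 : (2 * (nN φ * nM φ) + 3 * c + B2k φ v c - 2 * (nN φ * nM φ)) % 3 =
                B2k φ v c := by omega
            rw [mem_B2S_C φ v hA hC, E1C hA hC, e1, e2]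
            refine ⟨rfl, ?_⟩
            have e3 := tok_pos (nM φ) (lit φ c (B2k φ v c)).1 c (lit φ c (B2k φ v c)).2
            unfold B2t at hcq
            omega
        · refine ⟨2 * (nN φ * nM φ) + 3 * nM φ + q, ?_⟩
          ext j
          rw [Finset.mem_filter, Finset.mem_singleton]
          constructor
          · rintro ⟨hj, hje⟩
            by_cases hA : j < 2 * (nN φ * nM φ)
            · rw [E1A hA] at hje
              rw [mem_B2S_A φ v hA, show j = q by omega] at hj
              exact absurd hj hw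
            · by_cases hC : j < 2 * (nN φ * nM φ) + 3 * nM φ
              · obtain ⟨c', hc', hcq', hj'⟩ := hclause j hA hC hj hje
                exact absurd ⟨c', hc', hcq'⟩ hc
              · rw [E1G hC] at hje
                omega
          · rintro rfl
            have hC : ¬ 2 * (nN φ * nM φ) + 3 * nM φ + q <
                2 * (nN φ * nM φ) + 3 * nM φ := by omega
            rw [mem_B2S_G φ v hC, E1G hC, Nat.add_sub_cancel_left]
            refine ⟨⟨by omega, ?_⟩, rfl⟩
            rintro (h2 | h2)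
            · exact hw h2
            · exact hc h2
    · apply hempty
      intro j hj
      rw [B2_m] at hj
      by_cases hA : j < 2 * (nN φ * nM φ)
      · rw [E1A hA]; omega
      · by_cases hC : j < 2 * (nN φ * nM φ) + 3 * nM φ
        · rw [E1C hA hC]
          have := tok_le φ (show (j - 2 * (nN φ * nM φ)) / 3 < nM φ by omega)
            ((j - 2 * (nN φ * nM φ)) % 3)
          omega
        · rw [E1G hC]; omega
  · -- class 2
    by_cases h1 : x ≤ nN φ * nM φ
    · obtain ⟨q, rfl⟩ : ∃ q, x = q + 1 := ⟨x - 1, by omega⟩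
      rw [act_card2 φ (by omega), Finset.card_eq_one]
      have hnp := B2nx_pv (nM φ) q hM
      have hpd := B2pv_div (nM φ) q hM
      have hpl : B2pv (nM φ) q < nN φ * nM φ :=
        B2_lt_of_div hM hpd (by omega)
      cases hv : v (q / nM φ)
      · refine ⟨2 * B2pv (nM φ) q + 1, ?_⟩
        ext j
        rw [Finset.mem_filter, Finset.mem_singleton]
        constructor
        · rintro ⟨hj, hje⟩
          by_cases hA : j < 2 * (nN φ * nM φ)
          · rw [mem_B2S_A φ v hA] at hj
            by_cases hp : j % 2 = 0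
            · rw [E2A_even hA hp] at hje
              unfold B2w at hj
              rw [show j / 2 = q by omega, hv] at hj
              simp [hp] at hj
            · rw [E2A_odd hA hp, ← hnp] at hje
              have := B2nx_inj (nM φ) (j / 2) _ hM (by omega : B2nx (nM φ) (j / 2) =
                B2nx (nM φ) (B2pv (nM φ) q))
              omega
          · by_cases hC : j < 2 * (nN φ * nM φ) + 3 * nM φ
            · rw [E2C hA hC] at hje; omega
            · rw [E2G hC] at hje; omega
        · rintro rfl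
          have hA : 2 * B2pv (nM φ) q + 1 < 2 * (nN φ * nM φ) := by omega
          rw [mem_B2S_A φ v hA, E2A_odd hA (by omega)]
          have e : (2 * B2pv (nM φ) q + 1) / 2 = B2pv (nM φ) q := by omega
          rw [e, hnp]
          refine ⟨?_, rfl⟩
          unfold B2w
          rw [e, hpd, hv]
          have : ¬ (2 * B2pv (nM φ) q + 1) % 2 = 0 := by omega
          simp [this]
      · refine ⟨2 * q, ?_⟩
        ext j
        rw [Finset.mem_filter, Finset.mem_singleton]
        constructor
        · rintro ⟨hj, hje⟩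
          by_cases hA : j < 2 * (nN φ * nM φ)
          · rw [mem_B2S_A φ v hA] at hj
            by_cases hp : j % 2 = 0
            · rw [E2A_even hA hp] at hje
              omega
            · rw [E2A_odd hA hp] at hje
              unfold B2w at hj
              have hd := B2nx_div (nM φ) (j / 2) hM
              rw [show B2nx (nM φ) (j / 2) = q by omega] at hd
              rw [← hd, hv] at hj
              simp [hp] at hj
          · by_cases hC : j < 2 * (nN φ * nM φ) + 3 * nM φ
            · rw [E2C hA hC] at hje; omega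
            · rw [E2G hC] at hje; omega
        · rintro rfl
          have hA : 2 * q < 2 * (nN φ * nM φ) := by omega
          rw [mem_B2S_A φ v hA, E2A_even hA (by omega)]
          have e : 2 * q / 2 = q := by omega
          rw [e]
          refine ⟨?_, rfl⟩
          unfold B2w
          rw [e, hv]
          have : 2 * q % 2 = 0 := by omega
          simp [this]
    · apply hempty
      intro j hj
      by_cases hA : j < 2 * (nN φ * nM φ)
      · by_cases hp : j % 2 = 0
        · rw [E2A_even hA hp]; omega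
        · rw [E2A_odd hA hp]
          have := B2_lt_of_div hM (B2nx_div (nM φ) (j / 2) hM)
            (show j / 2 < nN φ * nM φ by omega)
          omega
      · by_cases hC : j < 2 * (nN φ * nM φ) + 3 * nM φ
        · rw [E2C hA hC]; omega
        · rw [E2G hC]; omega

theorem satXC_solvable_iff (φ : List Cl) : (satXC φ).Solvable ↔ Sat3 φ :=
  ⟨B2_forward φ, fun ⟨v, hv⟩ => B2_backward φ v hv⟩

end Pool.Agent.H82.SN
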