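import Pool.Agent.H82.SN.B0

/-!
# The numeric side of the reduction
-/

namespace Pool.Agent.H82.SN

open Pool.Agent.H78.NP

/-- Bound for the codes. -/
def IOf (φ : List Cl) : ℕ := 2 * (nN φ * nM φ) + nM φ + 1

/-- The base. -/
def ROf (φ : List Cl) : ℕ := 2 * (4 * (satXC φ).m * (IOf φ + 3) + 1)

/-- The packing instance of a formula: items, number of bins, capacity. -/
def packOf (φ : List Cl) : List ℕ × ℕ × ℕ :=
  ((satXC φ).items (IOf φ) (ROf φ), (satXC φ).m, XC.cap (IOf φ) (ROf φ))

/-- Items including the fillers. -/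
def items' (l : List ℕ) (g B : ℕ) : List ℕ :=
  l ++ List.replicate (100 * (l.length - g + 1)) B

/-- Number of bins including those of the fillers. -/
def g' (l : List ℕ) (g : ℕ) : ℕ := g + 100 * (l.length - g + 1)

/-- The scaling factor. -/
def lam (l : List ℕ) (g : ℕ) : ℕ := 2 * (100 * (g' l g + (l.length - g) + 1)) + 1

/-- Sizes of the paths. -/
def sizes (l : List ℕ) (g B : ℕ) : List ℕ := (items' l g B).map fun a => lam l g * a - 1

/-- Size of the clique. -/
def cliqueN (l : List ℕ) (g : ℕ) : ℕ := 6 * (l.length - g) + 10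

/-- Number of universal vertices. -/
def univN (l : List ℕ) (g B : ℕ) : ℕ :=
  (2 * (cliqueN l g + (sizes l g B).sum) + 2 * (l.length - g) + 10) ^ 2

/-- Number of vertices. -/
def vertN (l : List ℕ) (g B : ℕ) : ℕ := cliqueN l g + (sizes l g B).sum + univN l g B

/-- Flags of the path block: `true` at the first vertex of each path. -/
def flags (s : List ℕ) : List Bool := s.flatMap fun m => true :: List.replicate (m - 1) false

/-- Non-adjacency of the vertices `y < x`. -/
def nonAdjB (c : ℕ) (fl : List Bool) (y x : ℕ) : Bool :=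
  decide (x < c) || (decide (c ≤ y) && (decide (x = y + 1) && (decide (x < c + fl.length) &&
    !(fl.getD (x - c) false))))

/-- The edges of the graph. -/
def edgesN (c : ℕ) (fl : List Bool) (n : ℕ) : List (ℕ × ℕ) :=
  (List.range n).flatMap fun x => (List.range x).flatMap fun y =>
    if nonAdjB c fl y x = true then [] else [(y, x)]

/-- The instance of SUM NUMBER of a packing instance: vertices, edges, bound. -/
def redData (d : List ℕ × ℕ × ℕ) : List ℕ × List (ℕ × ℕ) × ℕ :=
  if d.1.sum = d.2.1 * d.2.2 ∧ d.2.1 < d.1.length then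
    (List.range (vertN d.1 d.2.1 d.2.2),
      edgesN (cliqueN d.1 d.2.1) (flags (sizes d.1 d.2.1 d.2.2)) (vertN d.1 d.2.1 d.2.2),
      2 * vertN d.1 d.2.1 d.2.2 + 2 * (d.1.length - d.2.1) - 6)
  else ([0, 1], [(0, 1)], 0)

/-- The graph with given vertex list and edge list. -/
def graphOf (verts : List ℕ) (edges : List (ℕ × ℕ)) : SimpleGraph {v : ℕ // v ∈ verts} where
  Adj u v := u ≠ v ∧ ((u.1, v.1) ∈ edges ∨ (v.1, u.1) ∈ edges)
  symm := ⟨fun _ _ h => ⟨h.1.symm, h.2.symm⟩⟩
  loopless := ⟨fun _ h => h.1 rfl⟩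

/-- The vertex list has no repetitions, and the edges join distinct listed vertices. -/
def WellFormed (I : List ℕ × List (ℕ × ℕ) × ℕ) : Prop :=
  I.1.Nodup ∧ ∀ e ∈ I.2.1, e.1 ∈ I.1 ∧ e.2 ∈ I.1 ∧ e.1 ≠ e.2

end Pool.Agent.H82.SN
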