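import Pool.Agent.H78.NP.More
import Pool.Agent.H79.PT.Int2
import Pool.Agent.H82.SN.C0

/-!
# Module C1: binary natural numbers and other closure properties

The other closure properties (`flatMap`, `filter`, `div'`, `mod'`, `natSum`, `polyEval`, …) are in
`Pool.Agent.H78.NP.More` and `Pool.Agent.H79.PT.*`.
-/

namespace Pool.Agent.H82.SN

open Pool.Agent.H79.Cx

variable {α β γ : Type} [Enc α] [Enc β] [Enc γ]

theorem PT_replicate {n : α → ℕ} {b : α → β} (hn : PT n) (hb : PT b) :
    PT (fun a => List.replicate (n a) (b a)) := by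
  have h : PT (fun a => (List.range (n a)).map (fun _ : ℕ => b a)) := by
    refine PT.map (f := fun a (_ : ℕ) => b a) ?_ (by fun_prop)
    exact PT.comp hb (by fun_prop)
  refine PT.congr h fun a => ?_
  rw [List.map_const', List.length_range]

/-- Natural numbers encoded in binary. -/
structure BN where
  /-- the value -/
  val : ℕ

instance : Enc BN := ⟨fun n => Enc.enc n.val.bits⟩

/-- From unary to binary. -/
theorem PT_BN {n : α → ℕ} (hn : PT n) : PT (fun a => BN.mk (n a)) := by
  have h : PT (fun a => ((n a : ℕ) : ℤ).natAbs.bits) := PT.bitsZ (PT.intCast hn)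
  have h' : PT (fun a => (n a).bits) := PT.congr h fun a => by rw [Int.natAbs_natCast]
  exact ⟨h'.ex⟩

end Pool.Agent.H82.SN
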