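import Pool.Agent.H82.SN.C1

/-!
# Module C2: the packing instance is computable in polynomial time
-/

namespace Pool.Agent.H82.SN

open Pool.Agent.H79.Cx Pool.Agent.H78.NP

section C2

variable {α : Type} [Enc α]

@[fun_prop]
private theorem PT_nM {φ : α → List Cl} (h : PT φ) : PT (fun a => nM (φ a)) := by
  unfold nM
  fun_prop

@[fun_prop]
private theorem PT_nN {φ : α → List Cl} (h : PT φ) : PT (fun a => nN (φ a)) := by
  unfold nN
  fun_prop

@[fun_prop]
private theorem PT_cls {φ : α → List Cl} (h : PT φ) : PT (fun a => cls (φ a)) := by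
  unfold cls
  fun_prop

@[fun_prop]
private theorem PT_lit {φ : α → List Cl} {j k : α → ℕ} (h : PT φ) (hj : PT j) (hk : PT k) :
    PT (fun a => lit (φ a) (j a) (k a)) := by
  unfold lit
  fun_prop

@[fun_prop]
private theorem PT_tok {M i j : α → ℕ} {s : α → Bool} (hM : PT M) (hi : PT i) (hj : PT j)
    (hs : PT s) : PT (fun a => tok (M a) (i a) (j a) (s a)) := by
  unfold tok
  fun_prop

private def mF (φ : List Cl) : ℕ := 2 * (nN φ * nM φ) + 3 * nM φ + 2 * (nN φ * nM φ)

@[fun_prop]
private theorem PT_mF {φ : α → List Cl} (h : PT φ) : PT (fun a => mF (φ a)) := by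
  unfold mF
  fun_prop

private def eF (φ : List Cl) (j κ : ℕ) : ℕ := (satXC φ).E j κ

@[fun_prop]
private theorem PT_eF {φ : α → List Cl} {j κ : α → ℕ} (h : PT φ) (hj : PT j) (hκ : PT κ) :
    PT (fun a => eF (φ a) (j a) (κ a)) := by
  unfold eF satXC
  dsimp only
  fun_prop

private def aF (φ : List Cl) (j κ : ℕ) : Bool := (satXC φ).act j κ

@[fun_prop]
private theorem PT_aF {φ : α → List Cl} {j κ : α → ℕ} (h : PT φ) (hj : PT j) (hκ : PT κ) :
    PT (fun a => aF (φ a) (j a) (κ a)) := by
  unfold aF satXC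
  dsimp only
  fun_prop

private def pF (φ : List Cl) (j : ℕ) : ℕ :=
  (if eF φ j 1 = 0 then 0 else 1) + (if eF φ j 2 = 0 then 0 else 1)

@[fun_prop]
private theorem PT_pF {φ : α → List Cl} {j : α → ℕ} (h : PT φ) (hj : PT j) :
    PT (fun a => pF (φ a) (j a)) := by
  unfold pF
  fun_prop

private theorem range3 : List.range 3 = [0, 1, 2] := rfl

/-- The weight of the set item, expanded. -/
private def tF (φ : List Cl) (I R j : ℕ) : ℕ :=
  1 + ((R ^ 1 * (if eF φ j 0 = 0 then 1 else 0) + R ^ 2 * (I - eF φ j 0) +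
    ((R ^ 3 * (if eF φ j 1 = 0 then 1 else 0) + R ^ 4 * (I - eF φ j 1)) +
    (R ^ 5 * (if eF φ j 2 = 0 then 1 else 0) + R ^ 6 * (I - eF φ j 2)))) +
    R ^ 7 * (2 - pF φ j))

@[fun_prop]
private theorem PT_tF {φ : α → List Cl} {I R j : α → ℕ} (h : PT φ) (hI : PT I) (hR : PT R)
    (hj : PT j) : PT (fun a => tF (φ a) (I a) (R a) (j a)) := by
  unfold tF
  fun_prop

private theorem tw_eq (φ : List Cl) (I R j : ℕ) : (satXC φ).tw I R j = tF φ I R j := by
  unfold XC.tw tF
  rw [range3]
  simp only [List.map_cons, List.map_nil, List.sum_cons, List.sum_nil, Nat.mul_zero, Nat.add_zero,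
    Nat.mul_one]
  rfl

/-- The list of the items of the incidences of a set. -/
private def lF (φ : List Cl) (R j : ℕ) : List ℕ :=
  (if eF φ j 0 = 0 then [] else [R ^ 1 + (R ^ 2 * eF φ j 0 +
    R ^ 7 * (if aF φ j 0 = true then pF φ j else 0))]) ++
  ((if eF φ j 1 = 0 then [] else [R ^ 3 + (R ^ 4 * eF φ j 1 +
    R ^ 7 * (if aF φ j 1 = true then 0 else 1))]) ++
  (if eF φ j 2 = 0 then [] else [R ^ 5 + (R ^ 6 * eF φ j 2 +
    R ^ 7 * (if aF φ j 2 = true then 0 else 1))]))

@[fun_prop]
private theorem PT_lF {φ : α → List Cl} {R j : α → ℕ} (h : PT φ) (hR : PT R)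
    (hj : PT j) : PT (fun a => lF (φ a) (R a) (j a)) := by
  unfold lF
  fun_prop

private theorem l_eq (φ : List Cl) (R j : ℕ) :
    ((List.range 3).flatMap fun κ => if (satXC φ).E j κ = 0 then [] else [(satXC φ).iw R j κ]) =
      lF φ R j := by
  unfold lF
  rw [range3]
  simp only [List.flatMap_cons, List.flatMap_nil, List.append_nil]
  rfl

private theorem PT_cap {I R : α → ℕ} (hI : PT I) (hR : PT R) :
    PT (fun a => XC.cap (I a) (R a)) := by
  unfold XC.cap
  simp only [range3, List.map_cons, List.map_nil, List.sum_cons, List.sum_nil]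
  fun_prop

private theorem PT_items {φ : α → List Cl} {I R : α → ℕ} (h : PT φ) (hI : PT I) (hR : PT R) :
    PT (fun a => (satXC (φ a)).items (I a) (R a)) := by
  have h' : PT (fun a => (List.range (mF (φ a))).flatMap
      (fun j => tF (φ a) (I a) (R a) j :: lF (φ a) (R a) j)) := by
    refine PT.flatMap (f := fun a j => tF (φ a) (I a) (R a) j :: lF (φ a) (R a) j) ?_ (by fun_prop)
    fun_prop
  refine PT.congr h' fun a => ?_
  unfold XC.items
  simp only [tw_eq, l_eq]
  rfl

end C2

theorem PT_packOf : PT packOf := by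
  have hI : PT IOf := by
    unfold IOf
    fun_prop
  have hR : PT ROf := by
    have : PT (fun φ : List Cl => 2 * (4 * mF φ * (IOf φ + 3) + 1)) := by fun_prop
    exact this
  have h1 := PT_items (φ := fun φ : List Cl => φ) (by fun_prop) hI hR
  have h2 := PT_cap hI hR
  have h3 : PT (fun φ : List Cl => mF φ) := by fun_prop
  exact PT.pair h1 (PT.pair h3 h2)

end Pool.Agent.H82.SN
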