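import Pool.Agent.H82.SN.C1

/-!
# Module C3: the graph is computable in polynomial time
-/

namespace Pool.Agent.H82.SN

open Pool.Agent.H79.Cx

/-- `redData` with numbers encoded in binary. -/
def binData (I : List ℕ × List (ℕ × ℕ) × ℕ) : List BN × List (BN × BN) × BN :=
  (I.1.map BN.mk, I.2.1.map fun e => (BN.mk e.1, BN.mk e.2), BN.mk I.2.2)

attribute [local fun_prop] PT_replicate PT_BN

theorem PT_lam {α : Type} [Enc α] {l : α → List ℕ} {g : α → ℕ} (hl : PT l) (hg : PT g) :
    PT (fun a => lam (l a) (g a)) := by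
  unfold lam g'
  fun_prop

theorem PT_sizes {α : Type} [Enc α] {l : α → List ℕ} {g B : α → ℕ} (hl : PT l) (hg : PT g)
    (hB : PT B) : PT (fun a => sizes (l a) (g a) (B a)) := by
  unfold sizes items'
  refine PT.map' (f := fun a b => lam (l a) (g a) * b - 1) ?_ ?_
  · have := PT_lam (α := α × ℕ) (l := fun p => l p.1) (g := fun p => g p.1) (by fun_prop)
      (by fun_prop)
    fun_prop
  · fun_prop

theorem PT_cliqueN {α : Type} [Enc α] {l : α → List ℕ} {g : α → ℕ} (hl : PT l) (hg : PT g) :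
    PT (fun a => cliqueN (l a) (g a)) := by
  unfold cliqueN
  fun_prop

theorem PT_vertN {α : Type} [Enc α] {l : α → List ℕ} {g B : α → ℕ} (hl : PT l) (hg : PT g)
    (hB : PT B) : PT (fun a => vertN (l a) (g a) (B a)) := by
  have h1 := PT_sizes hl hg hB
  have h2 := PT_cliqueN hl hg
  unfold vertN univN
  fun_prop

theorem PT_flags {α : Type} [Enc α] {s : α → List ℕ} (hs : PT s) :
    PT (fun a => flags (s a)) := by
  unfold flags
  fun_prop

theorem PT_nonAdjB {α : Type} [Enc α] {c y x : α → ℕ} {fl : α → List Bool} (hc : PT c)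
    (hfl : PT fl) (hy : PT y) (hx : PT x) :
    PT (fun a => nonAdjB (c a) (fl a) (y a) (x a)) := by
  unfold nonAdjB
  fun_prop

theorem PT_edgesN {α : Type} [Enc α] {c n : α → ℕ} {fl : α → List Bool} (hc : PT c)
    (hfl : PT fl) (hn : PT n) : PT (fun a => edgesN (c a) (fl a) (n a)) := by
  unfold edgesN
  refine PT.flatMap (f := fun a x => (List.range x).flatMap fun y =>
    if nonAdjB (c a) (fl a) y x = true then [] else [(y, x)]) ?_ (by fun_prop)
  refine PT.flatMap (f := fun (p : α × ℕ) y =>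
    if nonAdjB (c p.1) (fl p.1) y p.2 = true then [] else [(y, p.2)]) ?_ (by fun_prop)
  refine PT.ite' (p := fun q : (α × ℕ) × ℕ => nonAdjB (c q.1.1) (fl q.1.1) q.2 q.1.2 = true)
    ?_ (by fun_prop) (by fun_prop)
  refine PT.dTrue ?_
  exact PT_nonAdjB (by fun_prop) (by fun_prop) (by fun_prop) (by fun_prop)

theorem PT_binData {α : Type} [Enc α] {I : α → List ℕ × List (ℕ × ℕ) × ℕ} (hI : PT I) :
    PT (fun a => binData (I a)) := by
  unfold binData
  fun_prop

theorem PT_redData : PT (fun d : List ℕ × ℕ × ℕ => binData (redData d)) := by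
  refine PT_binData ?_
  unfold redData
  refine PT.ite' (p := fun d : List ℕ × ℕ × ℕ => d.1.sum = d.2.1 * d.2.2 ∧ d.2.1 < d.1.length)
    (by fun_prop) ?_ (by fun_prop)
  have h1 := PT_vertN (α := List ℕ × ℕ × ℕ) (l := fun d => d.1) (g := fun d => d.2.1)
    (B := fun d => d.2.2) (by fun_prop) (by fun_prop) (by fun_prop)
  have h2 := PT_cliqueN (α := List ℕ × ℕ × ℕ) (l := fun d => d.1) (g := fun d => d.2.1)
    (by fun_prop) (by fun_prop)
  have h3 := PT_flags (PT_sizes (α := List ℕ × ℕ × ℕ) (l := fun d => d.1) (g := fun d => d.2.1)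
    (B := fun d => d.2.2) (by fun_prop) (by fun_prop) (by fun_prop))
  have h4 := PT_edgesN h2 h3 h1
  fun_prop

end Pool.Agent.H82.SN
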