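import Pool.Agent.H82.SN.A12
import Pool.Agent.H82.SN.C0

/-!
# Module D1: correctness of `redData`
-/

namespace Pool.Agent.H82.SN

open Finset

/-! ### Fillers -/

/-- Packability with arbitrary index types. -/
def Pk {ι κ : Type} [Fintype ι] [DecidableEq κ] (w : ι → ℕ) (B : ℕ) : Prop :=
  ∃ f : ι → κ, ∀ j, ∑ i ∈ univ.filter (fun i => f i = j), w i = B

theorem Pk.congr {ι κ ι' κ' : Type} [Fintype ι] [DecidableEq κ] [Fintype ι'] [DecidableEq κ']
    (e : ι ≃ ι') (d : κ ≃ κ') {w : ι → ℕ} {w' : ι' → ℕ} (hw : ∀ i, w i = w' (e i)) {B : ℕ}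
    (h : Pk (κ := κ) w B) : Pk (κ := κ') w' B := by
  obtain ⟨f, hf⟩ := h
  refine ⟨fun i => d (f (e.symm i)), fun j => ?_⟩
  rw [← hf (d.symm j)]
  refine Finset.sum_equiv e.symm ?_ ?_
  · intro i
    simp only [mem_filter, mem_univ, true_and]
    constructor
    · intro h; rw [← h]; simp
    · intro h; rw [h]; simp
  · intro i _
    rw [hw]; simp

theorem Pk.option {ι κ : Type} [Fintype ι] [DecidableEq κ] {w : ι → ℕ} {B : ℕ}
    (hw : ∀ i, 0 < w i) :
    Pk (κ := Option κ) (fun o : Option ι => o.elim B w) B ↔ Pk (κ := κ) w B := by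
  constructor
  · intro h
    -- we may assume that `none` is sent to `none`
    have h' : ∃ f : Option ι → Option κ, f none = none ∧
        ∀ j, ∑ i ∈ univ.filter (fun i => f i = j), (i.elim B w) = B := by
      obtain ⟨f, hf⟩ := h
      refine ⟨fun i => Equiv.swap (f none) none (f i), by simp, fun j => ?_⟩
      refine Eq.trans (Finset.sum_congr ?_ (fun _ _ => rfl)) (hf (Equiv.swap (f none) none j))
      ext i
      simp only [mem_filter, mem_univ, true_and]
      constructor
      · intro h; rw [← h]; simp
      · intro h; rw [h]; simp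
    classical
    obtain ⟨f, h0, hf⟩ := h'
    have hne : ∀ i : ι, f (some i) ≠ none := by
      intro i hi
      have h1 := hf none
      have h2 : ({none, some i} : Finset (Option ι)) ⊆ univ.filter (fun i => f i = none) := by
        intro x hx
        simp only [mem_insert, mem_singleton] at hx
        rcases hx with rfl | rfl <;> simp [h0, hi]
      have h3 := Finset.sum_le_sum_of_subset (f := fun o : Option ι => o.elim B w) h2
      rw [h1, Finset.sum_pair (by simp)] at h3
      simp only [Option.elim] at h3
      have := hw i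
      omega
    have hsome : ∀ i : ι, ∃ j, f (some i) = some j := fun i =>
      Option.ne_none_iff_exists'.1 (hne i)
    choose f' hf' using hsome
    refine ⟨f', fun j => ?_⟩
    rw [← hf (some j)]
    rw [Finset.sum_filter, Finset.sum_filter, Fintype.sum_option]
    simp [h0, hf']
  · rintro ⟨f, hf⟩
    refine ⟨fun o => o.map f, fun j => ?_⟩
    rw [Finset.sum_filter, Fintype.sum_option]
    cases j with
    | none => simp
    | some j =>
      simp only [Option.map_none, reduceCtorEq, if_false, Option.map_some, Option.some.injEq,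
        Option.elim, zero_add]
      rw [← Finset.sum_filter]
      exact hf j

theorem packableL_concat (l : List ℕ) (g B : ℕ) (hl : ∀ a ∈ l, 0 < a) :
    PackableL (l ++ [B]) (g + 1) B ↔ PackableL l g B := by
  have hlen : (l ++ [B]).length = l.length + 1 := by simp
  have h1 : Pk (κ := Fin g) (fun i : Fin l.length => l.get i) B ↔ PackableL l g B := Iff.rfl
  rw [← h1, ← Pk.option (fun i => hl _ (List.get_mem _ _))]
  set e : Fin (l ++ [B]).length ≃ Option (Fin l.length) :=
    (finCongr hlen).trans finSuccEquivLast with he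
  have hw : ∀ i, (l ++ [B]).get i =
      (fun o : Option (Fin l.length) => o.elim B fun i => l.get i) (e i) := by
    intro i
    obtain ⟨i, rfl⟩ := e.symm.surjective i
    rw [Equiv.apply_symm_apply]
    cases i with
    | none => simp [he, List.getElem_append_right]
    | some i => simp [he, List.getElem_append_left]
  constructor
  · intro h
    exact Pk.congr e finSuccEquivLast hw h
  · intro h
    refine Pk.congr e.symm finSuccEquivLast.symm (fun i => ?_) h
    have := hw (e.symm i)
    rw [Equiv.apply_symm_apply] at this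
    exact this.symm

/-- Fillers do not change packability. -/
theorem packableL_items' (l : List ℕ) (g B : ℕ) (hl : ∀ a ∈ l, 0 < a) (hB : 0 < B) :
    PackableL (items' l g B) (g' l g) B ↔ PackableL l g B := by
  have key : ∀ W, PackableL (l ++ List.replicate W B) (g + W) B ↔ PackableL l g B := by
    intro W
    induction W with
    | zero => simp
    | succ W ih =>
      rw [List.replicate_succ', ← List.append_assoc, ← add_assoc, packableL_concat, ih]
      intro a ha
      rcases List.mem_append.1 ha with h | h
      · exact hl a h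
      · rw [List.eq_of_mem_replicate h]; exact hB
  exact key _

/-! ### The isomorphism -/

theorem length_flags (s : List ℕ) (hs : ∀ a ∈ s, 0 < a) : (flags s).length = s.sum := by
  induction s with
  | nil => rfl
  | cons a s ih =>
    have h1 := hs a (by simp)
    have h2 := ih fun b hb => hs b (by simp [hb])
    unfold flags at h2 ⊢
    rw [List.flatMap_cons, List.length_append, h2, List.sum_cons]
    simp
    omega

theorem flags_getD (s : List ℕ) (hs : ∀ a ∈ s, 0 < a) : ∀ (i : ℕ) (hi : i < s.length) (k : ℕ),
    k < s[i] → (flags s).getD ((s.take i).sum + k) false = decide (k = 0) := by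
  induction s with
  | nil => intro i hi; simp at hi
  | cons a s ih =>
    intro i hi k hk
    have h1 := hs a (by simp)
    have hfl : flags (a :: s) = (true :: List.replicate (a - 1) false) ++ flags s := by
      simp [flags]
    have hlen : (true :: List.replicate (a - 1) false).length = a := by
      simp; omega
    rw [hfl]
    cases i with
    | zero =>
      simp only [List.take_zero, List.sum_nil, zero_add]
      have hk' : k < a := by simpa using hk
      rw [List.getD_append _ _ _ _ (by rw [hlen]; exact hk')]
      cases k with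
      | zero => simp
      | succ k =>
        simp
    | succ i =>
      have hi' : i < s.length := by simpa using hi
      have hk' : k < s[i] := by simpa using hk
      rw [List.take_succ_cons, List.sum_cons, List.getD_append_right _ _ _ _ (by rw [hlen]; omega),
        hlen]
      have := ih (fun b hb => hs b (by simp [hb])) i hi' k hk'
      rw [← this]
      congr 1
      omega

theorem take_sum_lt (s : List ℕ) {i j : ℕ} (hij : i < j) (hi : i < s.length) :
    (s.take i).sum + s[i] ≤ (s.take j).sum := by
  have h1 : (s.take (i + 1)).sum = (s.take i).sum + s[i] := by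
    rw [List.take_succ_eq_append_getElem hi, List.sum_append]
    simp
  rw [← h1]
  have h2 : s.take (i + 1) = (s.take j).take (i + 1) := by
    rw [List.take_take]
    congr 1
    omega
  rw [h2]
  conv_rhs => rw [← List.take_append_drop (i + 1) (s.take j), List.sum_append]
  omega

theorem off_inj (s : List ℕ) {i j k l : ℕ} (hi : i < s.length) (hj : j < s.length)
    (hk : k < s[i]) (hl : l < s[j]) (h : (s.take i).sum + k = (s.take j).sum + l) :
    i = j ∧ k = l := by
  rcases lt_trichotomy i j with hij | hij | hij
  · have := take_sum_lt s hij hi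
    omega
  · subst hij
    exact ⟨rfl, by omega⟩
  · have := take_sum_lt s hij hj
    omega

theorem take_sum_le (s : List ℕ) {i k : ℕ} (hi : i < s.length) (hk : k < s[i]) :
    (s.take i).sum + k < s.sum := by
  have := take_sum_lt s (j := s.length) hi hi
  rw [List.take_length] at this
  omega

theorem exists_off (s : List ℕ) : ∀ z < s.sum, ∃ (i : ℕ) (hi : i < s.length) (k : ℕ),
    k < s[i] ∧ z = (s.take i).sum + k := by
  induction s with
  | nil => intro z hz; simp at hz
  | cons a s ih =>
    intro z hz
    by_cases h : z < a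
    · exact ⟨0, by simp, z, by simpa using h, by simp⟩
    · obtain ⟨i, hi, k, hk, hz'⟩ := ih (z - a) (by rw [List.sum_cons] at hz; omega)
      exact ⟨i + 1, by simpa using hi, k, by simpa using hk, by
        rw [List.take_succ_cons, List.sum_cons]; omega⟩

theorem mem_edgesN {c : ℕ} {fl : List Bool} {n a b : ℕ} :
    (a, b) ∈ edgesN c fl n ↔ a < b ∧ b < n ∧ nonAdjB c fl a b = false := by
  unfold edgesN
  simp only [List.mem_flatMap, List.mem_range]
  constructor
  · rintro ⟨x, hx, y, hy, h⟩
    split_ifs at h with h1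
    · simp at h
    · simp only [List.mem_singleton, Prod.mk.injEq] at h
      obtain ⟨rfl, rfl⟩ := h
      exact ⟨hy, hx, by simpa using h1⟩
  · rintro ⟨h1, h2, h3⟩
    exact ⟨b, h2, a, h1, by simp [h3]⟩

theorem nonAdjB_iff {c : ℕ} {fl : List Bool} {y x : ℕ} :
    nonAdjB c fl y x = true ↔
      x < c ∨ (c ≤ y ∧ x = y + 1 ∧ x < c + fl.length ∧ fl.getD (x - c) false = false) := by
  simp only [nonAdjB, Bool.or_eq_true, decide_eq_true_eq, Bool.and_eq_true, Bool.not_eq_true']

/-- The vertex number. -/
def vnum (c r : ℕ) (s : List ℕ) : Vx c r s.length (fun i => s.get i) → ℕ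
  | Sum.inl i => i
  | Sum.inr (Sum.inl x) => c + ((s.take x.1).sum + x.2)
  | Sum.inr (Sum.inr u) => c + s.sum + u

theorem vnum_lt {c r : ℕ} {s : List ℕ} (x : Vx c r s.length (fun i => s.get i)) :
    vnum c r s x < c + s.sum + r := by
  rcases x with x | x | x
  · simp only [vnum]; omega
  · simp only [vnum]
    have := take_sum_le s x.1.2 x.2.2
    omega
  · simp only [vnum]; omega

theorem vnum_inj {c r : ℕ} {s : List ℕ} : Function.Injective (vnum c r s) := by
  intro x y h
  rcases x with x | ⟨i, k⟩ | x <;> rcases y with y | ⟨j, l⟩ | y <;> simp only [vnum] at h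
  · rw [Fin.ext h]
  · omega
  · omega
  · omega
  · obtain ⟨h1, h2⟩ := off_inj s i.2 j.2 k.2 l.2 (by omega)
    obtain rfl := Fin.ext h1
    obtain rfl := Fin.ext h2
    rfl
  · have := take_sum_le s i.2 k.2
    omega
  · omega
  · have := take_sum_le s j.2 l.2
    omega
  · rw [Fin.ext (show (x : ℕ) = y by omega)]

theorem vnum_surj {c r : ℕ} {s : List ℕ} {z : ℕ} (hz : z < c + s.sum + r) :
    ∃ x, vnum c r s x = z := by
  by_cases h1 : z < c
  · exact ⟨Sum.inl ⟨z, h1⟩, rfl⟩
  by_cases h2 : z < c + s.sum
  · obtain ⟨i, hi, k, hk, he⟩ := exists_off s (z - c) (by omega)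
    exact ⟨Sum.inr (Sum.inl ⟨⟨i, hi⟩, ⟨k, hk⟩⟩), by simp only [vnum]; omega⟩
  · exact ⟨Sum.inr (Sum.inr ⟨z - c - s.sum, by omega⟩), by simp only [vnum]; omega⟩

theorem nonAdjB_vnum {c r : ℕ} {s : List ℕ} (hs : ∀ a ∈ s, 0 < a)
    {x y : Vx c r s.length (fun i => s.get i)} (hyx : vnum c r s y < vnum c r s x) :
    nonAdjB c (flags s) (vnum c r s y) (vnum c r s x) = true ↔ nonAdj y x := by
  rw [nonAdjB_iff, length_flags s hs]
  rcases x with x | ⟨i, k⟩ | x <;> rcases y with y | ⟨j, l⟩ | y <;>
    simp only [vnum, nonAdj] at hyx ⊢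
  · constructor
    · intro _ h; subst h; exact lt_irrefl _ hyx
    · intro _; left; exact x.2
  · omega
  · omega
  · constructor
    · rintro (h | h) <;> omega
    · intro h; exact h.elim
  · have e : c + ((List.take (↑i) s).sum + ↑k) - c = (List.take (↑i) s).sum + ↑k := by omega
    rw [e, flags_getD s hs i i.2 k k.2]
    have hk := take_sum_le s i.2 k.2
    constructor
    · rintro (h | ⟨-, h1, -, h2⟩)
      · omega
      · have hk0 : (k : ℕ) ≠ 0 := by simpa using h2
        obtain ⟨h3, h4⟩ := off_inj s (i := i) (j := j) (k := (k : ℕ) - 1) (l := l) i.2 j.2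
          (lt_of_le_of_lt (Nat.sub_le _ _) k.2) l.2 (by omega)
        exact ⟨(Fin.ext h3).symm, Or.inl (by omega)⟩
    · rintro ⟨rfl, h | h⟩
      · right
        refine ⟨by omega, by omega, by omega, ?_⟩
        simp only [decide_eq_false_iff_not]
        omega
      · omega
  · have := take_sum_le s i.2 k.2
    omega
  · constructor
    · rintro (h | ⟨h1, h2, h3, -⟩)
      · omega
      · omega
    · intro h; exact h.elim
  · constructor
    · rintro (h | ⟨h1, h2, h3, -⟩)
      · omega
      · omega
    · intro h; exact h.elim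
  · constructor
    · rintro (h | ⟨h1, h2, h3, -⟩)
      · omega
      · omega
    · intro h; exact h.elim

theorem exists_iso_aux (c r : ℕ) (s : List ℕ) (hs : ∀ a ∈ s, 0 < a) :
    Nonempty (graphOf (List.range (c + s.sum + r)) (edgesN c (flags s) (c + s.sum + r)) ≃g
      redG c r s.length (fun i => s.get i)) := by
  set e : Vx c r s.length (fun i => s.get i) ≃ {v : ℕ // v ∈ List.range (c + s.sum + r)} :=
    Equiv.ofBijective (fun x => ⟨vnum c r s x, List.mem_range.2 (vnum_lt x)⟩)
      ⟨fun x y h => vnum_inj (congrArg Subtype.val h), fun z => by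
        obtain ⟨x, hx⟩ := vnum_surj (List.mem_range.1 z.2)
        exact ⟨x, Subtype.ext hx⟩⟩ with he
  refine ⟨(RelIso.symm ⟨e, ?_⟩)⟩
  intro x y
  change (e x ≠ e y ∧ ((vnum c r s x, vnum c r s y) ∈ edgesN c (flags s) (c + s.sum + r) ∨
    (vnum c r s y, vnum c r s x) ∈ edgesN c (flags s) (c + s.sum + r))) ↔ x ≠ y ∧ ¬ nonAdj x y
  rw [e.injective.ne_iff]
  refine and_congr_right fun hxy => ?_
  rw [mem_edgesN, mem_edgesN]
  have hx := vnum_lt x
  have hy := vnum_lt y
  rcases lt_trichotomy (vnum c r s x) (vnum c r s y) with h | h | h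
  · have h1 := nonAdjB_vnum hs h
    constructor
    · rintro (⟨-, -, h3⟩ | ⟨h3, -⟩)
      · intro h4
        rw [h1.2 h4] at h3
        exact absurd h3 (by simp)
      · omega
    · intro h3
      left
      refine ⟨h, hy, ?_⟩
      rw [← Bool.not_eq_true]
      exact fun h4 => h3 (h1.1 h4)
  · exact absurd (vnum_inj h) hxy
  · have h1 := nonAdjB_vnum hs h
    constructor
    · rintro (⟨h3, -⟩ | ⟨-, -, h3⟩)
      · omega
      · intro h4
        rw [h1.2 (nonAdj_symm h4)] at h3
        exact absurd h3 (by simp)
    · intro h3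
      right
      refine ⟨h, hx, ?_⟩
      rw [← Bool.not_eq_true]
      exact fun h4 => h3 (nonAdj_symm (h1.1 h4))

/-- The graph given by lists is the graph of the reduction. -/
theorem exists_iso (l : List ℕ) (g B : ℕ) (hl : ∀ a ∈ l, 0 < a) (hB : 0 < B) :
    Nonempty (graphOf (List.range (vertN l g B))
        (edgesN (cliqueN l g) (flags (sizes l g B)) (vertN l g B)) ≃g
      redG (cliqueN l g) (univN l g B) (sizes l g B).length (fun i => (sizes l g B).get i)) := by
  refine exists_iso_aux (cliqueN l g) (univN l g B) (sizes l g B) ?_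
  intro a ha
  obtain ⟨b, hb, rfl⟩ := List.mem_map.1 ha
  have hb0 : 0 < b := by
    rcases List.mem_append.1 hb with h | h
    · exact hl b h
    · rw [List.eq_of_mem_replicate h]; exact hB
  have h1 : 2 ≤ lam l g := by unfold lam; omega
  have h2 : lam l g ≤ lam l g * b := Nat.le_mul_of_pos_right _ hb0
  omega

theorem redData_wf (d : List ℕ × ℕ × ℕ) :
    (redData d).1.Nodup ∧
      ∀ e ∈ (redData d).2.1, e.1 ∈ (redData d).1 ∧ e.2 ∈ (redData d).1 ∧ e.1 ≠ e.2 := by
  unfold redData
  split_ifs with h
  · refine ⟨List.nodup_range, ?_⟩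
    rintro ⟨a, b⟩ he
    obtain ⟨h1, h2, -⟩ := mem_edgesN.1 he
    exact ⟨List.mem_range.2 (h1.trans h2), List.mem_range.2 h2, h1.ne⟩
  · refine ⟨by simp, ?_⟩
    intro e he
    simp only [List.mem_singleton] at he
    subst he
    simp

end Pool.Agent.H82.SN
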