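import Pool.Agent.H82.SN.D1

/-!
# Module D1b: correctness of `redData`, conclusion
-/

namespace Pool.Agent.H82.SN

open Finset

theorem sum_get (l : List ℕ) : ∑ i : Fin l.length, l.get i = l.sum := by
  have h := (Fin.sum_univ_getElem l).symm
  simpa using h.symm

theorem packableL_congr {n : ℕ} {l : List ℕ} (hn : l.length = n) (w : Fin n → ℕ)
    (hw : ∀ i : Fin n, w i = l.get (i.cast hn.symm)) (g B : ℕ) :
    Packable w g B ↔ PackableL l g B := by
  subst hn
  have : w = fun i => l.get i := funext hw
  rw [this]
  rfl

theorem PackableL.sum_eq {l : List ℕ} {g B : ℕ} (h : PackableL l g B) : l.sum = g * B := by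
  obtain ⟨f, hf⟩ := h
  rw [← sum_get, ← Finset.sum_fiberwise univ f]
  rw [Finset.sum_congr rfl fun j _ => hf j]
  simp

theorem redData_correct (l : List ℕ) (g B : ℕ) (hl : ∀ a ∈ l, 0 < a) (hB : Odd B)
    (hg : g < l.length) :
    sumNumber (graphOf (redData (l, g, B)).1 (redData (l, g, B)).2.1) ≤
      (redData (l, g, B)).2.2 ↔ PackableL l g B := by
  have hB0 : 0 < B := hB.pos
  by_cases hs : l.sum = g * B
  · have hred : redData (l, g, B) = (List.range (vertN l g B),
        edgesN (cliqueN l g) (flags (sizes l g B)) (vertN l g B),
        2 * vertN l g B + 2 * (l.length - g) - 6) := by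
      unfold redData
      rw [if_pos ⟨hs, hg⟩]
    rw [hred]
    obtain ⟨e⟩ := exists_iso l g B hl hB0
    change sumNumber (graphOf (List.range (vertN l g B))
        (edgesN (cliqueN l g) (flags (sizes l g B)) (vertN l g B))) ≤
        2 * vertN l g B + 2 * (l.length - g) - 6 ↔ _
    rw [sumNumber_congr e, ← packableL_items' l g B hl hB0]
    have hlen : (sizes l g B).length = (items' l g B).length := by simp [sizes]
    have hlen2 : (items' l g B).length = l.length + 100 * (l.length - g + 1) := by
      simp [items']
    have hpos : ∀ a ∈ items' l g B, 0 < a := by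
      intro a ha
      rcases List.mem_append.1 ha with h | h
      · exact hl a h
      · rw [List.eq_of_mem_replicate h]; exact hB0
    have hsum' : (items' l g B).sum = g' l g * B := by
      simp only [items', List.sum_append, List.sum_replicate, hs, g', smul_eq_mul]
      ring
    have hlam : 0 < lam l g := by unfold lam; omega
    set w : Fin (sizes l g B).length → ℕ := fun i => (items' l g B).get (i.cast hlen) with hw
    have hwpos : ∀ i, 1 ≤ w i := fun i => hpos _ (List.get_mem _ _)
    have hm : ∀ i, (sizes l g B).get i + 1 = lam l g * w i := by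
      intro i
      have h1 : (sizes l g B).get i = lam l g * w i - 1 := by
        simp [sizes, hw]
      have h2 : 0 < lam l g * w i := Nat.mul_pos hlam (hwpos i)
      omega
    have hsumw : ∑ i, w i = g' l g * B := by
      rw [← hsum', ← sum_get]
      exact Fintype.sum_equiv (finCongr hlen) _ _ (fun i => rfl)
    have hN : (sizes l g B).sum = ∑ i, (sizes l g B).get i := (sum_get _).symm
    have hcnt : 100 * (l.length - g + 1) ≤ (univ.filter fun i => w i = B).card := by
      have h1 : 100 * (l.length - g + 1) =
          ((univ : Finset (Fin (100 * (l.length - g + 1)))).card) := by simp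
      rw [h1]
      refine Finset.card_le_card_of_injOn
        (fun j => ⟨l.length + j.1, by rw [hlen, hlen2]; omega⟩) ?_ ?_
      · intro j _
        simp only [coe_filter, mem_univ, true_and, Set.mem_setOf_eq, hw]
        simp [items', List.getElem_append_right]
      · intro j _ j' _ h
        have := congrArg Fin.val h
        simp only at this
        ext
        omega
    have key := sumNumber_redG_iff (g := g' l g) (B := B) (t := l.length - g) (lam := lam l g)
      (c := cliqueN l g) (r := univN l g B) w (fun i => (sizes l g B).get i) hm hwpos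
      (by
        refine Odd.mul ?_ hB
        exact ⟨100 * (g' l g + (l.length - g) + 1), by unfold lam; ring⟩)
      hsumw (by rw [hlen, hlen2]; unfold g'; omega) (by omega) hcnt (by unfold lam; omega)
      (by unfold cliqueN; omega) (by rw [← hN]; exact le_of_eq rfl)
      (2 * vertN l g B + 2 * (l.length - g) - 6) (by
        rw [← hN]
        unfold vertN
        have : 6 ≤ 2 * (cliqueN l g + (sizes l g B).sum + univN l g B) := by
          unfold cliqueN; omega
        omega)
    refine key.trans (packableL_congr (by rw [hlen]) w (fun i => rfl) _ _)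
  · have hred : redData (l, g, B) = ([0, 1], [(0, 1)], 0) := by
      unfold redData
      rw [if_neg (fun h => hs h.1)]
    rw [hred]
    refine iff_of_false ?_ fun h => hs h.sum_eq
    change ¬ sumNumber (graphOf [0, 1] [(0, 1)]) ≤ 0
    rw [Nat.le_zero]
    refine (sumNumber_K2_pos ⟨⟨0, by simp⟩⟩ ?_).ne'
    rintro ⟨v, hv⟩
    simp only [List.mem_cons, List.not_mem_nil, or_false] at hv
    rcases hv with rfl | rfl
    · exact ⟨⟨1, by simp⟩, by simp [graphOf]⟩
    · exact ⟨⟨0, by simp⟩, by simp [graphOf]⟩

end Pool.Agent.H82.SN
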