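import Pool.Agent.H82.SN.D1b
import Pool.Agent.H82.SN.B1
import Pool.Agent.H82.SN.B2
import Pool.Agent.H82.SN.C2
import Pool.Agent.H82.SN.C5
import Pool.Agent.H78.NP.CookLevin
import Pool.Agent.H78.NP.PNP

/-!
# Module D2: SUM NUMBER is NP-hard
-/

namespace Pool.Agent.H82.SN

open Finset Turing Pool.Agent.H79.Cx Pool.Agent.H78.NP

theorem packOf_iff (φ : List Cl) :
    PackableL (packOf φ).1 (packOf φ).2.1 (packOf φ).2.2 ↔ Sat3 φ := by
  have hm : 1 ≤ (satXC φ).m := by
    change 1 ≤ 2 * (nN φ * nM φ) + 3 * nM φ + 2 * (nN φ * nM φ)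
    have : 0 < nM φ := Nat.succ_pos _
    omega
  have h1 := XC.packable_iff (satXC φ) (IOf φ) (ROf φ) hm
    (satXC_le φ) (fun j _ => satXC_ne_zero φ j) (satXC_p φ) (by
      unfold ROf
      omega)
  exact h1.trans (satXC_solvable_iff φ)

/-- SUM NUMBER: the instance `I` consists of the vertex list and the edge list of a graph and a
bound. -/
def SumNumberLE (I : List ℕ × List (ℕ × ℕ) × ℕ) : Prop :=
  sumNumber (graphOf I.1 I.2.1) ≤ I.2.2

theorem redData_packOf (φ : List Cl) : SumNumberLE (redData (packOf φ)) ↔ Sat3 φ := by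
  have hm : 1 ≤ (satXC φ).m := by
    change 1 ≤ 2 * (nN φ * nM φ) + 3 * nM φ + 2 * (nN φ * nM φ)
    have : 0 < nM φ := Nat.succ_pos _
    omega
  have hlen : 2 * (satXC φ).m ≤ (packOf φ).1.length :=
    XC.items_length (satXC φ) (IOf φ) (ROf φ) (fun j _ => satXC_ne_zero φ j)
  have hR : 0 < ROf φ := by unfold ROf; omega
  have hcorr := redData_correct (packOf φ).1 (packOf φ).2.1 (packOf φ).2.2
    (XC.items_pos _ _ _ hR) (XC.cap_odd _ _ ⟨4 * (satXC φ).m * (IOf φ + 3) + 1, by
      unfold ROf; omega⟩) (by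
      change (satXC φ).m < _
      omega)
  exact hcorr.trans (packOf_iff φ)

theorem sumNumber_npHardOn : NPHardOn instCode WellFormed SumNumberLE := by
  have h := (nph_sat3.nphp).npHardOn_rep (G' := WellFormed) (Q' := SumNumberLE)
    (fun φ => redData (packOf φ)) binData
    (PT.comp (g := fun d => binData (redData d)) PT_redData PT_packOf)
    (fun φ _ => redData_wf _) (fun φ _ => (redData_packOf φ).symm)
  intro L hL
  obtain ⟨f, hf, hG, hfx⟩ := h L hL
  refine ⟨f, ?_, hG, hfx⟩
  have e : (fun b => cd (binData b)) = instCode := funext cd_binData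
  rw [← e]
  exact hf

end Pool.Agent.H82.SN
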