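import Pool.Agent.H82.SN.Defs

/-!
# The path zone: definitions

Positions are natural numbers. `P i l` (`l < m i`) is the position of the `l`-th vertex of the
`i`-th path, `U` is the set of positions in `[0, b]` of universal vertices, `Q` is the set of missing
sums, `b > a` are its two largest elements.
-/

namespace Pool.Agent.H82.SN

open Finset

/-- Occupied positions. -/
def occ {T : ℕ} (m : Fin T → ℕ) (P : Fin T → ℕ → ℕ) (U : Finset ℕ) : Finset ℕ :=
  U ∪ univ.biUnion fun i => (range (m i)).image (P i)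

/-- `x` and `y` are the positions of two consecutive vertices of a path. -/
def Cons {T : ℕ} (m : Fin T → ℕ) (P : Fin T → ℕ → ℕ) (x y : ℕ) : Prop :=
  ∃ i l, l + 1 < m i ∧ ((x = P i l ∧ y = P i (l + 1)) ∨ (y = P i l ∧ x = P i (l + 1)))

/-- A path zone. -/
structure PZ {T : ℕ} (m : Fin T → ℕ) (P : Fin T → ℕ → ℕ) (U Q : Finset ℕ) (a b : ℕ) : Prop where
  inj : ∀ i j l k, l < m i → k < m j → P i l = P j k → i = j ∧ l = k
  disj : ∀ i l, l < m i → P i l ∉ U
  Ule : ∀ x ∈ U, x ≤ b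
  edge : ∀ i l, l + 1 < m i → P i l + P i (l + 1) ∈ Q
  anti : ∀ s ∈ Q, ∀ x ∈ occ m P U, ∀ y ∈ occ m P U, x < y → x + y = s → Cons m P x y
  zero : 0 ∈ occ m P U
  hab : a < b
  ha : a ∈ Q
  hb : b ∈ Q
  top : ∀ s ∈ Q, s = b ∨ s ≤ a
  Qpos : ∀ s ∈ Q, 1 ≤ s
  five : ∀ i, 5 ≤ m i

/-- The holes in `[0, b]`. -/
def holesZ {T : ℕ} (m : Fin T → ℕ) (P : Fin T → ℕ → ℕ) (U : Finset ℕ) (b : ℕ) : Finset ℕ :=
  (range (b + 1)).filter fun x => x ∉ occ m P U

/-- Number of corner edges: edges of the paths whose sum is neither `a` nor `b`. -/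
def Ec {T : ℕ} (m : Fin T → ℕ) (P : Fin T → ℕ → ℕ) (a b : ℕ) : ℕ :=
  ∑ i, ((range (m i)).filter fun l =>
    l + 1 < m i ∧ P i l + P i (l + 1) ≠ a ∧ P i l + P i (l + 1) ≠ b).card

/-- Degree of `x ≤ b` in the graph on `[0, b]` with edges `x ~ b - x` and `x ~ a - x`. -/
def degG (a b x : ℕ) : ℕ :=
  (if 2 * x = b then 0 else 1) + (if x ≤ a ∧ 2 * x ≠ a then 1 else 0)

/-- Number of neighbours of the `l`-th vertex of the `i`-th path along edges of sum `a` or `b`. -/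
def dab {T : ℕ} (m : Fin T → ℕ) (P : Fin T → ℕ → ℕ) (a b : ℕ) (i : Fin T) (l : ℕ) : ℕ :=
  (if l + 1 < m i ∧ (P i l + P i (l + 1) = a ∨ P i l + P i (l + 1) = b) then 1 else 0) +
  (if 1 ≤ l ∧ (P i (l - 1) + P i l = a ∨ P i (l - 1) + P i l = b) then 1 else 0)

/-- Twice the defect of a hole `z`. -/
def defOf (R : Finset ℕ) (a b z : ℕ) : ℕ :=
  2 * (2 - degG a b z) + (if 2 * z ≠ b ∧ b - z ∈ R then 1 else 0) +
  (if z ≤ a ∧ 2 * z ≠ a ∧ a - z ∈ R then 1 else 0)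

/-- Twice the defect of the holes (elements of `R`) in `X`. -/
def DD (R X : Finset ℕ) (a b : ℕ) : ℕ := ∑ z ∈ R ∩ X, defOf R a b z

/-- Twice the total weight of the path vertices in `X`. -/
def brk {T : ℕ} (m : Fin T → ℕ) (P : Fin T → ℕ → ℕ) (a b : ℕ) (X : Finset ℕ) : ℕ :=
  ∑ i, ∑ l ∈ (range (m i)).filter (fun l => P i l ∈ X), (4 - dab m P a b i l)

/-- `X` is a union of components of the graph on `[0, b]` with edges `x ~ b - x`, `x ~ a - x`. -/
def Closed (a b : ℕ) (X : Finset ℕ) : Prop :=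
  ∀ x ∈ X, x ≤ b ∧ b - x ∈ X ∧ (x ≤ a → a - x ∈ X)

/-- Index of the bin containing `x ≤ b` (`δ = b - a`). -/
def binIdx (a b x : ℕ) : ℕ := min (x % (b - a)) ((b - x) % (b - a))

/-- The bin of index `ρ`. -/
def bin (a b ρ : ℕ) : Finset ℕ := (range (b + 1)).filter fun x => binIdx a b x = ρ

/-- The indices of the bins. -/
def bins (a b : ℕ) : Finset ℕ := (range (b - a)).filter fun ρ => ρ ≤ (b - ρ) % (b - a)

end Pool.Agent.H82.SN
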